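import Pool.Agent.Lib.MP_8daebb_an.PR.Cut

/-! Existence of the radial profile. -/

open MeasureTheory Metric Set Module Real Filter Topology
open scoped RealInnerProductSpace

namespace Pool.Agent.Lib.MP_8daebb_an.PR

open HK AS

variable {E : Type*} [NormedAddCommGroup E] [InnerProductSpace ℝ E] [FiniteDimensional ℝ E]
  [MeasurableSpace E] [BorelSpace E]

theorem hasDerivAt_max_pow_prof (n : ℕ) (x : ℝ) :
    HasDerivAt (fun x : ℝ => (max x 0) ^ (n + 2)) (((n + 2 : ℕ) : ℝ) * (max x 0) ^ (n + 1)) x := by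
  rcases lt_trichotomy x 0 with h | h | h
  · have e : (fun x : ℝ => (max x 0) ^ (n + 2)) =ᶠ[𝓝 x] fun _ => 0 := by
      filter_upwards [Iio_mem_nhds h] with y hy
      rw [max_eq_right (le_of_lt hy)]
      simp
    rw [max_eq_right h.le]
    simpa using (hasDerivAt_const x (0 : ℝ)).congr_of_eventuallyEq e
  · subst h
    have h1 : HasDerivWithinAt (fun x : ℝ => (max x 0) ^ (n + 2)) 0 (Iic 0) 0 := by
      refine (hasDerivWithinAt_const (0 : ℝ) (Iic 0) (0 : ℝ)).congr ?_ ?_
      · intro y hy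
        rw [max_eq_right (mem_Iic.mp hy)]
        simp
      · simp
    have h2 : HasDerivWithinAt (fun x : ℝ => (max x 0) ^ (n + 2)) 0 (Ici 0) 0 := by
      have h3 : HasDerivAt (fun x : ℝ => x ^ (n + 2)) 0 0 := by
        simpa using hasDerivAt_pow (n + 2) (0 : ℝ)
      refine h3.hasDerivWithinAt.congr ?_ ?_
      · intro y hy
        rw [max_eq_left (mem_Ici.mp hy)]
      · simp
    have h4 := h1.union h2
    rw [Iic_union_Ici, hasDerivWithinAt_univ] at h4
    simpa using h4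
  · have e : (fun x : ℝ => (max x 0) ^ (n + 2)) =ᶠ[𝓝 x] fun x => x ^ (n + 2) := by
      filter_upwards [Ioi_mem_nhds h] with y hy
      rw [max_eq_left (le_of_lt hy)]
    rw [max_eq_left h.le]
    exact (hasDerivAt_pow (n + 2) x).congr_of_eventuallyEq e

theorem hasDerivAt_cube_prof (x : ℝ) :
    HasDerivAt (fun x : ℝ => (max (x - 1) 0) ^ 3) (3 * (max (x - 1) 0) ^ 2) x := by
  have h := (hasDerivAt_max_pow_prof 1 (x - 1)).comp x ((hasDerivAt_id x).sub_const 1)
  simpa [Function.comp_def] using h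

theorem hasDerivAt_sq_prof (x : ℝ) :
    HasDerivAt (fun x : ℝ => (max (x - 1) 0) ^ 2) (2 * max (x - 1) 0) x := by
  have h := (hasDerivAt_max_pow_prof 0 (x - 1)).comp x ((hasDerivAt_id x).sub_const 1)
  simpa [Function.comp_def] using h

theorem sq_le_cube_prof {w : ℝ} (hw : 0 ≤ w) : w ^ 2 ≤ 1 + w ^ 3 := by
  nlinarith [mul_nonneg hw (sq_nonneg (w - 1)), sq_nonneg (w - 1 / 2)]

theorem le_cube_prof {w : ℝ} (hw : 0 ≤ w) : w ≤ 1 + w ^ 3 := by
  nlinarith [mul_nonneg hw (sq_nonneg (w - 1)), sq_nonneg (w - 1 / 2)]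

/-- The profile at unit scale. -/
theorem exists_unit_prof : ∃ f f1 f2 : ℝ → ℝ, (∀ x, HasDerivAt f (f1 x) x) ∧
    (∀ x, HasDerivAt f1 (f2 x) x) ∧ Continuous f2 ∧ (∀ x ≤ 1, f x = 1) ∧ (∀ x, 0 ≤ f x) ∧
    (∀ x, f x ≤ 1) ∧ (∀ x, f1 x ≤ 0) ∧ (∀ x, -(2 * x * f1 x) ≤ 2 / 3 * f x) ∧
    (∀ x, f x ^ 4 * x ≤ 2) ∧ (∀ x, |f1 x| ≤ 1) ∧ (∀ x, |f2 x| ≤ 1) := by
  set w : ℝ → ℝ := fun x => max (x - 1) 0 with hw
  have w0 : ∀ x, 0 ≤ w x := fun x => le_max_right _ _
  have wc : Continuous w := by rw [hw]; fun_prop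
  have wx : ∀ x, x ≤ 1 + w x := fun x => by
    have := le_max_left (x - 1) 0
    simp only [hw]
    linarith
  set g : ℝ → ℝ := fun x => 1 + w x ^ 3 with hg
  have g1 : ∀ x, 1 ≤ g x := fun x => by
    have := pow_nonneg (w0 x) 3
    simp only [hg]
    linarith
  have g0 : ∀ x, 0 < g x := fun x => lt_of_lt_of_le one_pos (g1 x)
  have gc : Continuous g := by rw [hg]; fun_prop
  have gd : ∀ x, HasDerivAt g (3 * w x ^ 2) x := fun x => (hasDerivAt_cube_prof x).const_add 1
  set f : ℝ → ℝ := fun x => g x ^ (-(1 / 12) : ℝ) with hf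
  have f0 : ∀ x, 0 ≤ f x := fun x => Real.rpow_nonneg (g0 x).le _
  have fle : ∀ x, f x ≤ 1 := fun x =>
    Real.rpow_le_one_of_one_le_of_nonpos (g1 x) (by norm_num)
  set u : ℝ → ℝ := fun x => w x ^ 2 / (4 * g x) with hu
  have u0 : ∀ x, 0 ≤ u x := fun x => div_nonneg (sq_nonneg _) (by linarith [g0 x])
  have ule : ∀ x, u x ≤ 1 / 4 := fun x => by
    simp only [hu]
    rw [div_le_iff₀ (by linarith [g0 x])]
    have := sq_le_cube_prof (w0 x)
    simp only [hg]
    linarith
  have fd : ∀ x, HasDerivAt f (-(u x * f x)) x := fun x => by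
    have h := (gd x).rpow_const (p := (-(1 / 12) : ℝ)) (Or.inl (g0 x).ne')
    convert h using 1
    simp only [hu, hf]
    rw [Real.rpow_sub_one (g0 x).ne']
    have := (g0 x).ne'
    field_simp
    ring
  have fc : Continuous f := continuous_iff_continuousAt.mpr fun x => (fd x).continuousAt
  set u1 : ℝ → ℝ := fun x => (2 * w x * (4 * g x) - w x ^ 2 * (4 * (3 * w x ^ 2))) / (4 * g x) ^ 2
    with hu1
  have ud : ∀ x, HasDerivAt u (u1 x) x := fun x =>
    (hasDerivAt_sq_prof x).div ((gd x).const_mul 4) (by linarith [g0 x])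
  have uc : Continuous u := continuous_iff_continuousAt.mpr fun x => (ud x).continuousAt
  have u1c : Continuous u1 := by
    rw [hu1]
    refine Continuous.div (by fun_prop) (by fun_prop) fun x => ?_
    have := g0 x
    positivity
  have u1b : ∀ x, |u1 x| ≤ 3 / 4 := fun x => by
    have h0 := w0 x
    have h1 := sq_le_cube_prof h0
    have h2 := le_cube_prof h0
    have h3 := g1 x
    have h4 : (0 : ℝ) < (4 * g x) ^ 2 := by have := g0 x; positivity
    have hgx : g x = 1 + w x ^ 3 := rfl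
    have h5 : w x ≤ g x ^ 2 := by nlinarith
    have h6 : (w x ^ 2) ^ 2 ≤ g x ^ 2 := by
      rw [hgx]
      exact pow_le_pow_left₀ (sq_nonneg _) h1 2
    have h7 : 2 * w x * (4 * g x) - w x ^ 2 * (4 * (3 * w x ^ 2)) = 8 * w x - 4 * (w x ^ 2) ^ 2 := by
      rw [hgx]; ring
    simp only [hu1]
    rw [abs_div, abs_of_pos h4, div_le_iff₀ h4, h7, abs_le]
    constructor <;> nlinarith [sq_nonneg (w x ^ 2)]
  refine ⟨f, fun x => -(u x * f x), fun x => -(u1 x * f x + u x * -(u x * f x)), fd,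
    fun x => ((ud x).mul (fd x)).neg, by fun_prop, ?_, f0, fle, ?_, ?_, ?_, ?_, ?_⟩
  · intro x hx
    have : w x = 0 := max_eq_right (by linarith)
    simp [hf, hg, this]
  · intro x
    have := mul_nonneg (u0 x) (f0 x)
    linarith
  · intro x
    have h0 := w0 x
    have h1 : 2 * x * u x ≤ 2 / 3 := by
      have h2 : 2 * x * u x ≤ 2 * (1 + w x) * u x :=
        mul_le_mul_of_nonneg_right (by linarith [wx x]) (u0 x)
      refine h2.trans ?_
      simp only [hu]
      rw [← mul_div_assoc, div_le_iff₀ (by linarith [g0 x])]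
      have hgx : g x = 1 + w x ^ 3 := rfl
      rw [hgx]
      nlinarith [mul_nonneg (sq_nonneg (w x - 2)) (by linarith : 0 ≤ w x + 1)]
    have := mul_le_mul_of_nonneg_right h1 (f0 x)
    linarith
  · intro x
    have h0 := w0 x
    have h1 : f x ^ 12 * g x = 1 := by
      simp only [hf]
      rw [← Real.rpow_natCast, ← Real.rpow_mul (g0 x).le]
      norm_num
      rw [Real.rpow_neg_one]
      exact inv_mul_cancel₀ (g0 x).ne'
    have h2 : (1 + w x) ^ 3 ≤ 4 * g x := by
      have hgx : g x = 1 + w x ^ 3 := rfl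
      rw [hgx]
      nlinarith [mul_nonneg (sq_nonneg (w x - 1)) (by linarith : 0 ≤ w x + 1)]
    have h3 : (f x ^ 4 * (1 + w x)) ^ 3 ≤ 2 ^ 3 := by
      have h4 : (f x ^ 4 * (1 + w x)) ^ 3 = f x ^ 12 * (1 + w x) ^ 3 := by ring
      have h5 := mul_le_mul_of_nonneg_left h2 (pow_nonneg (f0 x) 12)
      rw [h4]
      nlinarith
    have h6 : f x ^ 4 * (1 + w x) ≤ 2 := le_of_pow_le_pow_left₀ (by norm_num) (by norm_num) h3
    exact (mul_le_mul_of_nonneg_left (wx x) (pow_nonneg (f0 x) 4)).trans h6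
  · intro x
    rw [abs_neg, abs_of_nonneg (mul_nonneg (u0 x) (f0 x))]
    nlinarith [u0 x, ule x, f0 x, fle x]
  · intro x
    have h1 := abs_le.mp (u1b x)
    have h2 : u x * u x ≤ 1 / 16 := by nlinarith [u0 x, ule x]
    have h3 : 0 ≤ u x * u x := mul_self_nonneg _
    have h4 : -(u1 x * f x + u x * -(u x * f x)) = (u x * u x - u1 x) * f x := by ring
    simp only [h4]
    rw [abs_mul, abs_of_nonneg (f0 x)]
    have h5 : |u x * u x - u1 x| ≤ 1 := abs_le.mpr ⟨by linarith, by linarith⟩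
    nlinarith [abs_nonneg (u x * u x - u1 x), f0 x, fle x]

theorem exists_prof : ∃ C : ℝ, 1 ≤ C ∧ ∀ ρ Af : ℝ, 0 < ρ → 0 < Af → Af ≤ 1 / 2 →
    ∃ φ : ℝ → ℝ, Prof C ρ Af φ := by
  obtain ⟨f, f1, f2, fd, f1d, f2c, fone, f0, fle, f1n, fom, fdec, f1b, f2b⟩ := exists_unit_prof
  obtain ⟨C, hC, hb⟩ := ct_bounds
  have hq : (1 / 4 : ℝ) < 1 := by norm_num
  set c : ℝ → ℝ := ct (1 / 4) 1 with hc
  have c2 : ContDiff ℝ 2 c := ct_contDiff (1 / 4) 1 2
  have c1 : ContDiff ℝ 1 (deriv c) := by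
    have : ContDiff ℝ (1 + 1) c := c2
    exact this.deriv'
  have cd : ∀ y, HasDerivAt c (deriv c y) y := fun y =>
    (c2.differentiable (by norm_num) y).hasDerivAt
  have cd1 : ∀ y, HasDerivAt (deriv c) (deriv (deriv c) y) y := fun y =>
    (c1.differentiable (by norm_num) y).hasDerivAt
  have c0 : ∀ y, 0 ≤ c y := fun y => ct_nonneg _ _ y
  have cle : ∀ y, c y ≤ 1 := fun y => ct_le_one _ _ y
  have c1n : ∀ y, deriv c y ≤ 0 := fun y => deriv_ct_nonpos hq y
  have c1b : ∀ y, |deriv c y| ≤ 2 * C := fun y => by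
    refine (hb (1 / 4) 1 y hq).1.trans ?_
    rw [div_le_iff₀ (by norm_num)]
    linarith
  have c2b : ∀ y, |deriv (deriv c) y| ≤ 2 * C := fun y => by
    refine (hb (1 / 4) 1 y hq).2.trans ?_
    rw [div_le_iff₀ (by norm_num)]
    linarith
  have cy : ∀ y, -(2 * y * deriv c y) ≤ 4 * C := fun y => by
    by_cases h : y ≤ 1 / 4 ∨ 1 ≤ y
    · have : deriv c y = 0 := deriv_ct_zero hq h
      rw [this]
      linarith
    · push Not at h
      have h1 := (abs_le.mp (c1b y)).1
      nlinarith [c1n y]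
  have fC : ContDiff ℝ 2 f := by
    have e1 : deriv f = f1 := funext fun x => (fd x).deriv
    have e2 : deriv f1 = f2 := funext fun x => (f1d x).deriv
    have h1 : ContDiff ℝ 1 f1 := by
      rw [contDiff_one_iff_deriv, e2]
      exact ⟨fun x => (f1d x).differentiableAt, f2c⟩
    have h2 : ContDiff ℝ (1 + 1) f := by
      rw [contDiff_succ_iff_deriv, e1]
      exact ⟨fun x => (fd x).differentiableAt, by simp, h1⟩
    exact h2
  refine ⟨10 * C, by linarith, fun ρ Af hρ hA hA2 => ?_⟩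
  set l : ℝ := 1 / ρ ^ 2 with hl
  set k : ℝ := Af ^ 4 / ρ ^ 2 with hk
  have hρ2 : 0 < ρ ^ 2 := by positivity
  have l0 : 0 < l := by positivity
  have k0 : 0 < k := by positivity
  have A4 : Af ^ 4 ≤ 1 / 16 := by
    have := pow_le_pow_left₀ hA.le hA2 4
    linarith
  have kl : k = Af ^ 4 * l := by rw [hk, hl]; ring
  have kle : k ≤ l := by rw [kl]; nlinarith
  have lρ : l * ρ ^ 2 = 1 := by rw [hl]; field_simp
  have hlin : ∀ a s : ℝ, HasDerivAt (fun s : ℝ => a * s) a s := fun a s => by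
    simpa using (hasDerivAt_id s).const_mul a
  set φ : ℝ → ℝ := fun s => f (l * s) * c (k * s) with hφ
  set φ1 : ℝ → ℝ := fun s => f1 (l * s) * l * c (k * s) + f (l * s) * (deriv c (k * s) * k)
    with hφ1
  have A0 : ∀ s, HasDerivAt (fun s => f (l * s)) (f1 (l * s) * l) s := fun s =>
    (fd (l * s)).comp s (hlin l s)
  have A1 : ∀ s, HasDerivAt (fun s => f1 (l * s)) (f2 (l * s) * l) s := fun s =>
    (f1d (l * s)).comp s (hlin l s)
  have B0 : ∀ s, HasDerivAt (fun s => c (k * s)) (deriv c (k * s) * k) s := fun s =>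
    (cd (k * s)).comp s (hlin k s)
  have B1 : ∀ s, HasDerivAt (fun s => deriv c (k * s)) (deriv (deriv c) (k * s) * k) s := fun s =>
    (cd1 (k * s)).comp s (hlin k s)
  have e1 : deriv φ = φ1 := funext fun s => ((A0 s).mul (B0 s)).deriv
  have e2 : ∀ s, deriv φ1 s = (f2 (l * s) * l * l * c (k * s) +
      f1 (l * s) * l * (deriv c (k * s) * k)) + (f1 (l * s) * l * (deriv c (k * s) * k) +
      f (l * s) * (deriv (deriv c) (k * s) * k * k)) := fun s =>
    ((((A1 s).mul_const l).mul (B0 s)).add ((A0 s).mul ((B1 s).mul_const k))).deriv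
  have key : ∀ s, -(2 * s * φ1 s) = -(2 * (l * s) * f1 (l * s)) * c (k * s) +
      f (l * s) * -(2 * (k * s) * deriv c (k * s)) := fun s => by
    simp only [hφ1]; ring
  have fd2 : ∀ d, 0 < d → f (l * d ^ 2) ≤ 2 * √(ρ / d) := fun d hd => by
    have h0 : 0 ≤ ρ / d := by positivity
    refine le_of_pow_le_pow_left₀ (n := 4) (by norm_num) (by positivity) ?_
    have h1 : (2 * √(ρ / d)) ^ 4 = 16 * (ρ / d) ^ 2 := by
      have : √(ρ / d) ^ 4 = (√(ρ / d) ^ 2) ^ 2 := by ring
      rw [mul_pow, this, Real.sq_sqrt h0]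
      norm_num
    have h2 := fdec (l * d ^ 2)
    have h3 : (l * d ^ 2) * (ρ / d) ^ 2 = 1 := by rw [hl]; field_simp
    have h4 := mul_le_mul_of_nonneg_right h2 (sq_nonneg (ρ / d))
    rw [mul_assoc, h3] at h4
    rw [h1]
    nlinarith [sq_nonneg (ρ / d)]
  refine ⟨φ, ?_, ?_, ?_, ?_, ?_, ?_, ?_, ?_, ?_, ?_, ?_⟩
  · exact (fC.comp (contDiff_const.mul contDiff_id)).mul
      (c2.comp (contDiff_const.mul contDiff_id))
  · intro s hs
    have h1 : l * s ≤ 1 := by nlinarith
    have h2 : k * s ≤ 1 / 4 := by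
      have h3 : k * ρ ^ 2 = Af ^ 4 := by rw [hk]; field_simp
      nlinarith
    have h4 : c (k * s) = 1 := ct_one hq h2
    simp only [hφ, fone _ h1, h4, mul_one]
  · intro s hs
    have h1 : k * (ρ / Af ^ 2) ^ 2 = 1 := by rw [hk]; field_simp
    have h2 : 1 ≤ k * s := by nlinarith
    have h4 : c (k * s) = 0 := ct_zero hq h2
    simp only [hφ, h4, mul_zero]
  · exact fun s => mul_nonneg (f0 _) (c0 _)
  · exact fun s => mul_le_one₀ (fle _) (c0 _) (cle _)
  · intro s
    rw [e1]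
    have h1 : f1 (l * s) * l * c (k * s) ≤ 0 :=
      mul_nonpos_of_nonpos_of_nonneg (mul_nonpos_of_nonpos_of_nonneg (f1n _) l0.le) (c0 _)
    have h2 : f (l * s) * (deriv c (k * s) * k) ≤ 0 :=
      mul_nonpos_of_nonneg_of_nonpos (f0 _) (mul_nonpos_of_nonpos_of_nonneg (c1n _) k0.le)
    simp only [hφ1]
    linarith
  · intro s _
    rw [e1, key]
    have h1 := mul_le_mul_of_nonneg_right (fom (l * s)) (c0 (k * s))
    have h2 : f (l * s) * -(2 * (k * s) * deriv c (k * s)) ≤ 10 * C * Af := by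
      by_cases h : k * s ≤ 1 / 4
      · have : deriv c (k * s) = 0 := deriv_ct_zero hq (Or.inl h)
        rw [this]
        have : 0 ≤ 10 * C * Af := by positivity
        linarith
      · push Not at h
        have h3 : f (l * s) ≤ 2 * Af := by
          refine le_of_pow_le_pow_left₀ (n := 4) (by norm_num) (by positivity) ?_
          have h4 := mul_le_mul_of_nonneg_right (fdec (l * s)) (pow_nonneg hA.le 4)
          have h5 : f (l * s) ^ 4 * (l * s) * Af ^ 4 = f (l * s) ^ 4 * (k * s) := by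
            rw [kl]; ring
          have h6 := mul_le_mul_of_nonneg_left h.le (pow_nonneg (f0 (l * s)) 4)
          have h7 : (2 * Af) ^ 4 = 16 * Af ^ 4 := by ring
          have h8 := pow_nonneg hA.le 4
          linarith
        have h9 := mul_le_mul_of_nonneg_left (cy (k * s)) (f0 (l * s))
        have h10 := mul_le_mul_of_nonneg_right h3 (by linarith : 0 ≤ 4 * C)
        nlinarith
    simp only [hφ]
    linarith
  · intro d hd
    have h1 : φ (d ^ 2) ≤ f (l * d ^ 2) := mul_le_of_le_one_right (f0 _) (cle _)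
    have h2 := fd2 d hd
    nlinarith [Real.sqrt_nonneg (ρ / d)]
  · intro d hd
    rw [e1, key]
    have h1 := mul_le_mul_of_nonneg_right (fom (l * d ^ 2)) (c0 (k * d ^ 2))
    have h2 := mul_le_mul_of_nonneg_left (cy (k * d ^ 2)) (f0 (l * d ^ 2))
    have h3 : f (l * d ^ 2) * c (k * d ^ 2) ≤ f (l * d ^ 2) :=
      mul_le_of_le_one_right (f0 _) (cle _)
    have h4 := fd2 d hd
    have h5 := mul_le_mul_of_nonneg_right h4 (by linarith : 0 ≤ 4 * C)
    nlinarith [Real.sqrt_nonneg (ρ / d)]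
  · intro s
    rw [e1]
    have h0 : 10 * C / ρ ^ 2 = 10 * C * l := by rw [hl]; ring
    have h1 : |f1 (l * s) * l * c (k * s)| ≤ 1 * l * 1 := by
      rw [abs_mul, abs_mul, abs_of_pos l0, abs_of_nonneg (c0 _)]
      gcongr
      · exact c0 _
      · exact f1b _
      · exact cle _
    have h2 : |f (l * s) * (deriv c (k * s) * k)| ≤ 1 * (2 * C * l) := by
      rw [abs_mul, abs_mul, abs_of_pos k0, abs_of_nonneg (f0 _)]
      gcongr
      · exact fle _
      · exact c1b _
    simp only [hφ1]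
    rw [h0]
    refine (abs_add_le _ _).trans ?_
    nlinarith
  · intro s
    rw [e1, e2]
    have h0 : 10 * C / ρ ^ 4 = 10 * C * (l * l) := by rw [hl]; field_simp
    have h1 : |f2 (l * s) * l * l * c (k * s)| ≤ 1 * l * l * 1 := by
      rw [abs_mul, abs_mul, abs_mul, abs_of_pos l0, abs_of_nonneg (c0 _)]
      gcongr
      · exact c0 _
      · exact f2b _
      · exact cle _
    have h2 : |f1 (l * s) * l * (deriv c (k * s) * k)| ≤ 1 * l * (2 * C * l) := by
      rw [abs_mul, abs_mul, abs_mul, abs_of_pos l0, abs_of_pos k0]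
      gcongr
      · exact f1b _
      · exact c1b _
    have h3 : |f (l * s) * (deriv (deriv c) (k * s) * k * k)| ≤ 1 * (2 * C * l * l) := by
      rw [abs_mul, abs_mul, abs_mul, abs_of_pos k0, abs_of_nonneg (f0 _)]
      gcongr
      · exact fle _
      · exact c2b _
    rw [h0]
    refine (abs_add_le _ _).trans ((add_le_add (abs_add_le _ _) (abs_add_le _ _)).trans ?_)
    have h4 : 0 ≤ l * l := mul_self_nonneg l
    nlinarith

end Pool.Agent.Lib.MP_8daebb_an.PR
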