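import Pool.Agent.Lib.MP_8daebb_an.PR.CH

/-! Masses in a cell. -/

open MeasureTheory Metric Set Module Real Filter Topology
open scoped RealInnerProductSpace

namespace Pool.Agent.Lib.MP_8daebb_an.PR

open HK AS

variable {E : Type*} [NormedAddCommGroup E] [InnerProductSpace ℝ E] [FiniteDimensional ℝ E]
  [MeasurableSpace E] [BorelSpace E]

variable (E) in
theorem two_lev_mass : ∃ C > (0 : ℝ), ∀ (f : E → ℝ) (B T s d : ℝ) (A S : Set E), BM f →
    (∀ y, 0 ≤ f y) → (∀ y, f y ≤ B) → 0 < T → 0 < s → 0 < d → C * s ≤ d ^ 2 → MeasurableSet A →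
    Bornology.IsBounded A → Bornology.IsBounded S → (∀ x ∈ A, ∀ y, dist y x < 3 * d → y ∈ S) →
    ∫ y in A, P T f y ≤ 2 * (∫ y in S, P s f y) +
      2 ^ hd E * Real.exp (-(d ^ 2 / (8 * T))) * B * volume.real A := by
  obtain ⟨C, hC, h⟩ := lev' (E := E)
  refine ⟨C, hC, fun f B T s d A S hf h0 hB hT hs hd hCs hA hb hS hsub => ?_⟩
  have h1 := lev hf h0 hB hT hA hb hd
  have h2 := h f s d (cthickening d A) hf h0 hs isClosed_cthickening.measurableSet
    hb.cthickening hd hCs
  have h3 : cthickening d (cthickening d A) ⊆ S := fun y hy => by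
    have h4 := cthickening_cthickening_subset hd.le hd.le A hy
    have h5 := cthickening_subset_thickening' (δ₂ := 3 * d) (by linarith) (by linarith) A h4
    obtain ⟨x, hx, hxy⟩ := mem_thickening_iff.1 h5
    exact hsub x hx y hxy
  have h4 : ∫ y in cthickening d (cthickening d A), P s f y ≤ ∫ y in S, P s f y :=
    setIntegral_mono_set ((hf.P hs).integrableOn hS)
      (Eventually.of_forall fun y => P_nonneg hs.le h0 y) h3.eventuallyLE
  linarith

theorem one_mass {f : E → ℝ} (hf : BM f) (h0 : ∀ y, 0 ≤ f y) {l s : ℝ} (hl : 0 < l) (hs : 0 < s)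
    (hsl : s ≤ 8 * l ^ 2) (z : E) : ∫ y in ball z (2 * l), P s f y ≤
      (32 * π) ^ hd E * exp (1 / 4) * 2 ^ hd E * (pk E l * (l ^ 2 * P (16 * l ^ 2) f z)) := by
  have hl2 : 0 < l ^ 2 := by positivity
  have h1 := mass_ball_le_P (hf.P hs) (fun y => P_nonneg hs.le h0 y)
    (t := 8 * l ^ 2) (by positivity) (A := 1) (r := 2 * l) z (by nlinarith)
  rw [P_P hf (by positivity) hs] at h1
  have h2 := P_le_of_le_mul hf h0 (c := 2) (t := 8 * l ^ 2 + s) (s := 16 * l ^ 2) (by positivity)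
    (by linarith) (by linarith) z
  have h3 : (4 * π * (8 * l ^ 2)) ^ hd E = (32 * π) ^ hd E * l ^ finrank ℝ E := by
    rw [show 4 * π * (8 * l ^ 2) = 32 * π * l ^ 2 by ring,
      Real.mul_rpow (by positivity) hl2.le, rpow_hd_eq hl2, Real.sqrt_sq hl.le]
  rw [h3] at h1
  refine h1.trans ((mul_le_mul_of_nonneg_left h2 (by positivity)).trans_eq ?_)
  unfold pk
  field_simp

variable (E) in
theorem mass_all (ι : Type*) [Fintype ι] (C₁ C₂ : ℝ) : ∃ C L₀ : ℝ, 0 < C ∧ ∀ L, L₀ ≤ L →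
    ∀ (D : Dat E ι) (ff Γ : E → ℝ) (Q : ℕ) (η κ t T l r σ a₁ a₂ : ℝ) (z x₁ : E)
    (W : Submodule ℝ E), CH D ff Γ Q C₁ C₂ L η κ t T l r σ a₁ a₂ z x₁ W →
    MF D Γ C κ T l r σ a₁ a₂ z x₁ W := by
  obtain ⟨Cl, hCl, hlev⟩ := two_lev_mass E
  have hH : (0 : ℝ) < 2 ^ hd E := Real.rpow_pos_of_pos (by norm_num) _
  have hπ : (0 : ℝ) < (32 * π) ^ hd E := Real.rpow_pos_of_pos (by positivity) _
  have hom := om_pos (V := E)
  obtain ⟨K, hK⟩ : ∃ K : ℝ, K = (32 * π) ^ hd E * exp (1 / 4) * 2 ^ hd E := ⟨_, rfl⟩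
  obtain ⟨V, hV⟩ : ∃ V : ℝ, V = 2 ^ finrank ℝ E * om E := ⟨_, rfl⟩
  have hK0 : 0 < K := by rw [hK]; positivity
  have hV0 : 0 < V := by rw [hV]; positivity
  have hC2 := abs_nonneg C₂
  refine ⟨K * |C₂| + V + 2 + 2 ^ hd E * V, max 3 (16 * Cl), by positivity, ?_⟩
  intro L hL D ff Γ Q η κ t T l r σ a₁ a₂ z x₁ W h
  have hL3 : 3 ≤ L := (le_max_left _ _).trans hL
  have hLC : 16 * Cl ≤ L := (le_max_right _ _).trans hL
  have hL6 : L ≤ L ^ 6 := le_self_pow₀ (by linarith) (by norm_num)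
  have st := h.gs.st
  have hr := h.r_pos
  have hl : 0 < l := hr.trans_le h.r_le
  have hts : 0 < ts L := exp_pos _
  have hT : 0 < T := by linarith [h.ts_le]
  have hκ := h.κ_pos
  have hκσ : 0 < κ * σ := (exp_pos _).trans_le h.kz_le
  have hσ : 0 < σ := (mul_pos_iff_of_pos_left hκ).1 hκσ
  have hl4 : l ≤ 1 / 4 := by
    refine h.l_le.trans ?_
    rw [exp_neg, one_div]
    exact inv_anti₀ (by norm_num) (by linarith [add_one_le_exp L])
  have hrl : r ^ 2 ≤ l ^ 2 := pow_le_pow_left₀ hr.le h.r_le 2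
  have hTL : T * L ≤ r ^ 2 := (mul_le_mul_of_nonneg_left hL6 hT.le).trans h.Tr
  have hρ : rho L ^ 2 ≤ l ^ 2 := by
    have h1 : rho L ^ 2 ≤ ts L := by
      unfold rho ts
      rw [← exp_nat_mul]
      exact exp_le_exp.2 (by push_cast; linarith)
    have h2 : T * 3 ≤ T * L := mul_le_mul_of_nonneg_left hL3 hT.le
    linarith [h.ts_le]
  have hρ0 : 0 < rho L ^ 2 := pow_pos (exp_pos _) 2
  have hpk : 0 < pk E l := by unfold pk; positivity
  have hvol : volume.real (ball z (2 * l)) ≤ V * pk E l := by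
    rw [real_ball z (by positivity), mul_pow, hV]
    have h1 : l ^ finrank ℝ E = pk E l * l ^ 2 := by unfold pk; field_simp
    have h2 : l ^ 2 ≤ 1 := by nlinarith
    have h3 : l ^ finrank ℝ E ≤ pk E l := h1 ▸ mul_le_of_le_one_right hpk.le h2
    calc 2 ^ finrank ℝ E * l ^ finrank ℝ E * om E = 2 ^ finrank ℝ E * om E * l ^ finrank ℝ E := by
          ring
      _ ≤ _ := mul_le_mul_of_nonneg_left h3 (by positivity)
  have bτ : BM D.τ := st.bm_τ
  have τ0 : ∀ y, 0 ≤ D.τ y := st.τ_nonneg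
  have hm1 : ∀ s, 0 < s → s ≤ 8 * l ^ 2 →
      ∫ y in ball z (2 * l), P s D.τ y ≤ K * |C₂| * σ * pk E l := fun s hs hsl => by
    refine (one_mass bτ τ0 hl hs hsl z).trans ?_
    rw [← hK]
    have h1 : l ^ 2 * P (16 * l ^ 2) D.τ z ≤ |C₂| * σ :=
      h.dens.trans (mul_le_mul_of_nonneg_right (le_abs_self _) hσ.le)
    calc K * (pk E l * (l ^ 2 * P (16 * l ^ 2) D.τ z)) ≤ K * (pk E l * (|C₂| * σ)) :=
          mul_le_mul_of_nonneg_left (mul_le_mul_of_nonneg_left h1 hpk.le) hK0.le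
      _ = _ := by ring
  have hCs : Cl * ts L ≤ (r / 4) ^ 2 := by
    have h1 : T * (16 * Cl) ≤ T * L := mul_le_mul_of_nonneg_left hLC hT.le
    have h2 : Cl * (2 * ts L) ≤ Cl * T := mul_le_mul_of_nonneg_left h.ts_le hCl.le
    have h3 : 0 ≤ Cl * ts L := by positivity
    nlinarith
  have htail : ∀ (d : ℝ) (A : Set E), (r / 4) ^ 2 ≤ d ^ 2 → A ⊆ ball z (2 * l) →
      2 ^ hd E * Real.exp (-(d ^ 2 / (8 * T))) * big L * volume.real A ≤
        2 ^ hd E * V * (κ * σ * pk E l) := fun d A hdd hA => by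
    have h1 : Real.exp (-(d ^ 2 / (8 * T))) ≤ Real.exp (-(L ^ 6 / 2048)) := by
      refine exp_le_exp.2 (neg_le_neg ?_)
      rw [le_div_iff₀ (by positivity)]
      have h2 := h.Tr
      have h3 : 0 ≤ r ^ 2 := sq_nonneg r
      linarith
    have hb : 0 < big L := exp_pos _
    have h2 : Real.exp (-(d ^ 2 / (8 * T))) * big L ≤ κ * σ :=
      (mul_le_mul_of_nonneg_right h1 hb.le).trans ((mul_comm _ _).trans_le h.tail)
    have h3 : volume.real A ≤ V * pk E l :=
      (measureReal_mono hA measure_ball_lt_top.ne).trans hvol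
    calc 2 ^ hd E * Real.exp (-(d ^ 2 / (8 * T))) * big L * volume.real A
        = 2 ^ hd E * ((Real.exp (-(d ^ 2 / (8 * T))) * big L) * volume.real A) := by ring
      _ ≤ 2 ^ hd E * ((κ * σ) * (V * pk E l)) :=
          mul_le_mul_of_nonneg_left (mul_le_mul h2 h3 measureReal_nonneg hκσ.le) hH.le
      _ = _ := by ring
  have fin : ∀ a X : ℝ, 0 ≤ a → X ≤ 2 * (a * σ * pk E l) + 2 ^ hd E * V * (κ * σ * pk E l) →
      X ≤ (K * |C₂| + V + 2 + 2 ^ hd E * V) * (a + κ) * σ * pk E l := fun a X ha hX => by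
    have p1 : 0 ≤ a * σ * pk E l := by positivity
    have p2 : 0 ≤ κ * σ * pk E l := by positivity
    have p3 : 0 ≤ (K * |C₂| + V + 2 ^ hd E * V) * (a * σ * pk E l) +
      (K * |C₂| + V + 2) * (κ * σ * pk E l) := by positivity
    refine hX.trans ?_
    calc 2 * (a * σ * pk E l) + 2 ^ hd E * V * (κ * σ * pk E l) ≤
        2 * (a * σ * pk E l) + 2 ^ hd E * V * (κ * σ * pk E l) +
          ((K * |C₂| + V + 2 ^ hd E * V) * (a * σ * pk E l) +
            (K * |C₂| + V + 2) * (κ * σ * pk E l)) := le_add_of_nonneg_right p3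
      _ = _ := by ring
  refine ⟨fun s hs hsl => (hm1 s hs hsl).trans ?_, fun s hs hsl => ?_, ?_, ?_⟩
  · refine mul_le_mul_of_nonneg_right (mul_le_mul_of_nonneg_right ?_ hσ.le) hpk.le
    have : 0 ≤ 2 ^ hd E * V := by positivity
    linarith
  · have bΓ : BM Γ := ⟨h.gs.c_Γ.measurable, big L, fun y => by
      rw [abs_of_nonneg (h.gs.Γ_nonneg y)]; exact h.gs.Γ_le y⟩
    have hs' : 0 < s + rho L ^ 2 := by linarith
    have i1 : IntegrableOn (fun y => κ * P (s + rho L ^ 2) D.τ y) (ball z (2 * l)) :=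
      ((bτ.P hs').const_mul κ).integrableOn isBounded_ball
    have i2 : IntegrableOn (fun _ : E => kz L) (ball z (2 * l)) :=
      (BM.const _).integrableOn isBounded_ball
    have h1 : ∫ y in ball z (2 * l), P s Γ y ≤
        ∫ y in ball z (2 * l), (κ * P (s + rho L ^ 2) D.τ y + kz L) := by
      refine setIntegral_mono_on ((bΓ.P hs).integrableOn isBounded_ball) (i1.add i2)
        measurableSet_ball fun y hy => h.gs.ΓP y s ?_ hs ?_
      · have h2 : ‖y - z‖ < 2 * l := mem_ball_iff_norm.1 hy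
        have h3 := norm_le_norm_add_norm_sub' y z
        have h4 := h.z_le
        linarith
      · have h2 : l ≤ tm L := h.l_le
        nlinarith
    rw [integral_add i1 i2, integral_const_mul, setIntegral_const, smul_eq_mul] at h1
    have h2 := mul_le_mul_of_nonneg_left (hm1 _ hs' (by nlinarith)) hκ.le
    have h3 : volume.real (ball z (2 * l)) * kz L ≤ V * pk E l * (κ * σ) :=
      mul_le_mul hvol h.kz_le (exp_pos _).le (by positivity)
    have p1 : 0 ≤ (2 + 2 ^ hd E * V) * (κ * σ * pk E l) := by positivity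
    calc ∫ y in ball z (2 * l), P s Γ y
        ≤ κ * (K * |C₂| * σ * pk E l) + V * pk E l * (κ * σ) +
          (2 + 2 ^ hd E * V) * (κ * σ * pk E l) := by linarith
      _ = _ := by ring
  · have bp : BM (τpar W D.T) := bτ.of_abs_le (st.c_τpar W).measurable fun y => by
      rw [abs_of_nonneg (st.τpar_nonneg W y)]; exact st.τpar_le W y
    have hdd : (r / 4) ^ 2 ≤ l ^ 2 := by nlinarith
    have h1 := hlev (τpar W D.T) (big L) T (ts L) l (ball z (2 * l)) (ball z (5 * l)) bp
      (st.τpar_nonneg W) (fun y => (st.τpar_le W y).trans (st.τ_le y)) hT hts hl (hCs.trans hdd)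
      measurableSet_ball isBounded_ball isBounded_ball fun x hx y hy => by
        have h2 := dist_triangle y x z
        rw [mem_ball] at hx ⊢
        linarith
    have h2 := h.par
    rw [st.τpar_PT W hts, st.τf_PT hts] at h2
    have h3 : ∫ y in ball z (5 * l), P (ts L) (τpar W D.T) y ≤ ∫ y in ball z (5 * l),
        (P (ts L) (τpar W D.T) y + (dd W x₁ y / l) ^ 2 * P (ts L) (τf D.T) y) := by
      have i1 := (bp.P hts).integrableOn (isBounded_ball (x := z) (r := 5 * l))
      have c2 : Continuous fun y => (dd W x₁ y / l) ^ 2 * P (ts L) (τf D.T) y :=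
        (((lipschitz_dd W x₁).continuous.div_const l).pow 2).mul (continuous_P st.bm_τ hts)
      have i2 : IntegrableOn (fun y => (dd W x₁ y / l) ^ 2 * P (ts L) (τf D.T) y)
          (ball z (5 * l)) :=
        (c2.continuousOn.integrableOn_compact (isCompact_closedBall z (5 * l))).mono_set
          ball_subset_closedBall
      exact setIntegral_mono i1 (i1.add i2) fun y => le_add_of_nonneg_right
        (mul_nonneg (sq_nonneg _) (P_nonneg hts.le st.τ_nonneg y))
    have h4 := htail l (ball z (2 * l)) hdd subset_rfl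
    exact fin a₁ _ h.a₁_nonneg (by linarith)
  · have hA : MeasurableSet (ball z (2 * l) ∩ {y | r ≤ dd W x₁ y}) :=
      measurableSet_ball.inter
        (isClosed_le continuous_const (lipschitz_dd W x₁).continuous).measurableSet
    have h1 := hlev D.τ (big L) T (ts L) (r / 4) (ball z (2 * l) ∩ {y | r ≤ dd W x₁ y})
      (ball z (5 * l) ∩ {y | r / 8 < dd W x₁ y}) bτ τ0 st.τ_le hT hts (by positivity) hCs hA
      (isBounded_ball.subset inter_subset_left) (isBounded_ball.subset inter_subset_left)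
      fun x hx y hy => by
        have h2 := dist_triangle y x z
        have h3 : dist x z < 2 * l := hx.1
        have h4 : r ≤ dd W x₁ x := hx.2
        have h5 := (lipschitz_dd W x₁).dist_le_mul y x
        rw [NNReal.coe_one, one_mul, Real.dist_eq] at h5
        have h6 := (abs_le.1 h5).1
        have h7 := h.r_le
        exact ⟨show dist y z < 5 * l by linarith, show r / 8 < dd W x₁ y by linarith⟩
    have h2 := h.core
    rw [st.τf_PT hts] at h2
    have h3 : ∫ y in ball z (5 * l) ∩ {y | r / 8 < dd W x₁ y}, P (ts L) D.τ y ≤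
        a₂ * σ * pk E l := h2
    have h4 := htail (r / 4) (ball z (2 * l) ∩ {y | r ≤ dd W x₁ y}) le_rfl inter_subset_left
    exact fin a₂ _ h.a₂_nonneg (by linarith)

end Pool.Agent.Lib.MP_8daebb_an.PR
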