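import Pool.Agent.Lib.MP_8daebb_an.PR.Fld

/-! The pointwise algebra of the cell. -/

open MeasureTheory Metric Set Module Real Filter Topology
open scoped RealInnerProductSpace

namespace Pool.Agent.Lib.MP_8daebb_an.PR

open HK AS

variable {E : Type*} [NormedAddCommGroup E] [InnerProductSpace ℝ E] [FiniteDimensional ℝ E]
  [MeasurableSpace E] [BorelSpace E]

theorem tr_proj_alg {K : Submodule ℝ E} {ι : Type*} [Fintype ι] (c : OrthonormalBasis ι ℝ K)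
    (T : E →L[ℝ] E) : tr (T.comp K.starProjection) = ∑ i, ⟪T (c i), (c i : E)⟫ := by
  rw [tr_eq_sum' (stdOrthonormalBasis ℝ E)]
  have h1 : ∀ x : E, K.starProjection x = ∑ i, ⟪(c i : E), x⟫ • (c i : E) := fun x => by
    rw [c.starProjection_eq_sum_rankOne, _root_.sum_apply]
    exact Finset.sum_congr rfl fun i _ => InnerProductSpace.rankOne_apply _ _ _
  simp only [ContinuousLinearMap.comp_apply, h1, map_sum, map_smul, inner_sum, real_inner_smul_right]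
  rw [Finset.sum_comm]
  refine Finset.sum_congr rfl fun i _ => ?_
  rw [(stdOrthonormalBasis ℝ E).sum_inner_mul_inner, real_inner_comm]

omit [MeasurableSpace E] [BorelSpace E] in
theorem exists_onb_alg {K : Submodule ℝ E} {d : ℕ} (hd : finrank ℝ K = d + 1) {a : E}
    (ha : a ∈ K) (h0 : a ≠ 0) :
    ∃ c : OrthonormalBasis (Fin (d + 1)) ℝ K, a = ‖a‖ • (c 0 : E) := by
  have hn : ‖a‖ ≠ 0 := norm_ne_zero_iff.2 h0
  let n : K := ⟨‖a‖⁻¹ • a, K.smul_mem _ ha⟩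
  have h1 : ‖n‖ = 1 := by
    show ‖‖a‖⁻¹ • a‖ = 1
    rw [norm_smul, norm_inv, norm_norm, inv_mul_cancel₀ hn]
  have h2 : Orthonormal ℝ (({0} : Set (Fin (d + 1))).domRestrict fun _ => n) :=
    ⟨fun _ => h1, fun i j hij => absurd (Subsingleton.elim i j) hij⟩
  obtain ⟨c, hc⟩ := h2.exists_orthonormalBasis_extension_of_card_eq (by simpa using hd)
  refine ⟨c, ?_⟩
  rw [hc 0 rfl]
  exact (smul_inv_smul₀ hn a).symm

omit [FiniteDimensional ℝ E] [MeasurableSpace E] [BorelSpace E] in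
theorem form_smul_alg (T : E →L[ℝ] E) (r : ℝ) (v : E) :
    ⟪T (r • v), r • v⟫ = r ^ 2 * ⟪T v, v⟫ := by
  rw [map_smul, real_inner_smul_left, real_inner_smul_right]
  ring

theorem form_le_alg {K : Submodule ℝ E} {T : E →L[ℝ] E} (hp : ∀ v, 0 ≤ ⟪T v, v⟫) {a : E}
    (ha : a ∈ K) : ⟪T a, a⟫ ≤ ‖a‖ ^ 2 * tr (T.comp K.starProjection) := by
  by_cases h0 : a = 0
  · simp [h0]
  have hpos : finrank ℝ K ≠ 0 := fun h => h0 (by
    rw [Submodule.finrank_eq_zero] at h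
    rwa [h, Submodule.mem_bot] at ha)
  obtain ⟨d, hd⟩ := Nat.exists_eq_succ_of_ne_zero hpos
  obtain ⟨c, hc⟩ := exists_onb_alg hd ha h0
  have h1 : ⟪T a, a⟫ = ‖a‖ ^ 2 * ⟪T (c 0), (c 0 : E)⟫ := by
    rw [← form_smul_alg, ← hc]
  rw [h1, tr_proj_alg c]
  exact mul_le_mul_of_nonneg_left
    (Finset.single_le_sum (f := fun i => ⟪T (c i), (c i : E)⟫) (fun i _ => hp _)
      (Finset.mem_univ 0)) (sq_nonneg _)

omit [FiniteDimensional ℝ E] [MeasurableSpace E] [BorelSpace E] in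
theorem form_cs_alg {T : E →L[ℝ] E} (hs : ∀ v w, ⟪T v, w⟫ = ⟪v, T w⟫) (hp : ∀ v, 0 ≤ ⟪T v, v⟫)
    (a p : E) : ⟪T a, p⟫ ^ 2 ≤ ⟪T a, a⟫ * ⟪T p, p⟫ := by
  have h1 : ⟪T p, a⟫ = ⟪T a, p⟫ := by rw [hs, real_inner_comm]
  have h2 : ∀ x : ℝ, 0 ≤ ⟪T a, a⟫ * (x * x) + 2 * ⟪T a, p⟫ * x + ⟪T p, p⟫ := fun x => by
    have h3 := hp (x • a + p)
    rw [map_add, map_smul, inner_add_left, inner_add_right, inner_add_right, real_inner_smul_left,
      real_inner_smul_left, real_inner_smul_right, real_inner_smul_right, h1] at h3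
    linarith
  have h4 := discrim_le_zero h2
  rw [discrim] at h4
  linarith

theorem tr_split_alg (L : Submodule ℝ E) (T : E →L[ℝ] E) :
    tr T = tr (T.comp (pa L)) + tr (T.comp (pe L)) := by
  rw [← tr_add]
  congr 1
  ext v
  rw [_root_.add_apply, ContinuousLinearMap.comp_apply,
    ContinuousLinearMap.comp_apply, ← map_add, pa_add_pe]

theorem amgm_alg {x u v : ℝ} (hu : 0 ≤ u) (hv : 0 ≤ v) (h : x ^ 2 ≤ u * v) :
    2 * x ≤ u / 4 + 4 * v := by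
  refine le_trans (le_abs_self _) (abs_le_of_sq_le_sq ?_ (by linarith))
  nlinarith [sq_nonneg (u / 4 - 4 * v)]

/-- A form bounded by `lam` has trace at most `lam` on the line of the normal plane orthogonal
to `p`. -/
theorem tr_pe_le {L : Submodule ℝ E} (hL : finrank ℝ L + 2 = finrank ℝ E) {T : E →L[ℝ] E}
    {lam : ℝ} (h : ∀ e : E, ‖e‖ = 1 → ⟪T e, e⟫ ≤ lam) (y : E) :
    tr (T.comp (pe L)) * ‖pe L y‖ ^ 2 ≤ ⟪T (pe L y), pe L y⟫ + lam * ‖pe L y‖ ^ 2 := by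
  by_cases h0 : pe L y = 0
  · simp [h0]
  have hd : finrank ℝ Lᗮ = 1 + 1 := Submodule.finrank_add_finrank_orthogonal' hL
  obtain ⟨c, hc⟩ := exists_onb_alg hd (Lᗮ.starProjection_apply_mem y) h0
  have h1 : ⟪T (pe L y), pe L y⟫ = ‖pe L y‖ ^ 2 * ⟪T (c 0), (c 0 : E)⟫ := by
    rw [← form_smul_alg]
    exact congrArg (fun v => ⟪T v, v⟫) hc
  have h2 : tr (T.comp (pe L)) = ⟪T (c 0), (c 0 : E)⟫ + ⟪T (c 1), (c 1 : E)⟫ :=
    (tr_proj_alg c T).trans (Fin.sum_univ_two _)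
  have h3 : ⟪T (c 1), (c 1 : E)⟫ ≤ lam := h _ (c.orthonormal.1 1)
  rw [h1, h2]
  nlinarith [sq_nonneg ‖pe L y‖]

/-- Mixed terms of a positive semidefinite form. -/
theorem mixed_le (L : Submodule ℝ E) {T : E →L[ℝ] E} (hs : ∀ v w, ⟪T v, w⟫ = ⟪v, T w⟫)
    (hp : ∀ v, 0 ≤ ⟪T v, v⟫) {a : E} (ha : a ∈ L) (p : E) :
    ⟪T a, p⟫ ^ 2 ≤ ‖a‖ ^ 2 * tr (T.comp (pa L)) * (‖p‖ ^ 2 * tr T) := by
  have h1 : ⟪T a, a⟫ ≤ ‖a‖ ^ 2 * tr (T.comp (pa L)) := form_le_alg hp ha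
  have h2 : ⟪T p, p⟫ ≤ ‖p‖ ^ 2 * tr T := by
    have h3 := form_le_alg (K := ⊤) hp (Submodule.mem_top (x := p))
    rwa [Submodule.starProjection_top, ContinuousLinearMap.comp_id] at h3
  exact (form_cs_alg hs hp a p).trans (mul_le_mul h1 h2 (hp p) ((hp a).trans h1))

theorem tr_pa_nonneg (L : Submodule ℝ E) {T : E →L[ℝ] E} (hp : ∀ v, 0 ≤ ⟪T v, v⟫) :
    0 ≤ tr (T.comp (pa L)) :=
  le_of_le_of_eq (Finset.sum_nonneg fun _ _ => hp _)
    (tr_proj_alg (stdOrthonormalBasis ℝ L) T).symm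

/-- The mixed term of the test field. -/
theorem cross_alg {L : Submodule ℝ E} (hL : finrank ℝ L + 2 = finrank ℝ E) {T : E →L[ℝ] E}
    {w : ℝ} (hs : ∀ v w, ⟪T v, w⟫ = ⟪v, T w⟫) (hp : ∀ v, -(w * ‖v‖ ^ 2) ≤ ⟪T v, v⟫)
    {D : E →L[ℝ] ℝ} (hD : ∀ v, D (pe L v) = 0) (t : ℝ) (y : E) :
    0 ≤ tr (T.comp (pa L)) + finrank ℝ L * w ∧
      2 * (t * D (T (pe L y))) ≤ t ^ 2 * (tr (T.comp (pa L)) + finrank ℝ L * w) / 4 +
        4 * (‖D‖ ^ 2 * ‖pe L y‖ ^ 2 * (tr T + finrank ℝ E * w)) := by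
  set T' : E →L[ℝ] E := T + w • ContinuousLinearMap.id ℝ E with hT'
  have e0 : ∀ v, T' v = T v + w • v := fun v => rfl
  have hs' : ∀ u v, ⟪T' u, v⟫ = ⟪u, T' v⟫ := fun u v => by
    rw [e0, e0, inner_add_left, inner_add_right, real_inner_smul_left, real_inner_smul_right, hs]
  have hp' : ∀ v, 0 ≤ ⟪T' v, v⟫ := fun v => by
    rw [e0, inner_add_left, real_inner_smul_left, real_inner_self_eq_norm_sq]
    linarith [hp v]
  have e1 : tr (T'.comp (pa L)) = tr (T.comp (pa L)) + finrank ℝ L * w := by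
    rw [hT', ContinuousLinearMap.add_comp, ContinuousLinearMap.smul_comp,
      ContinuousLinearMap.id_comp, tr_add, tr_smul, tr_pa, mul_comm]
  have e2 : tr T' = tr T + finrank ℝ E * w := by
    rw [hT', tr_add, tr_smul, tr_split_alg L (ContinuousLinearMap.id ℝ E),
      ContinuousLinearMap.id_comp, ContinuousLinearMap.id_comp, tr_pa, tr_pe L hL, ← hL]
    push_cast
    ring
  have n1 := tr_pa_nonneg L hp'
  have n2 := tr_pa_nonneg ⊤ hp'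
  rw [pa, Submodule.starProjection_top, ContinuousLinearMap.comp_id] at n2
  set a : E := (InnerProductSpace.toDual ℝ E).symm D with ha
  have a1 : ∀ v, ⟪a, v⟫ = D v := fun v => InnerProductSpace.toDual_symm_apply
  have a2 : ‖a‖ = ‖D‖ := LinearIsometryEquiv.norm_map _ _
  have a3 : a ∈ L := by
    have h1 : pe L a = 0 := by
      rw [← inner_self_eq_zero (𝕜 := ℝ), inner_pe_left, a1, hD]
    rw [← pa_add_pe L a, h1, add_zero]
    exact pa_mem L a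
  have a4 : ⟪T' a, pe L y⟫ = D (T (pe L y)) := by
    rw [hs', e0, inner_add_right, real_inner_smul_right, a1, a1, hD, mul_zero, add_zero]
  have m1 := mixed_le L hs' hp' a3 (pe L y)
  rw [a4, a2] at m1
  rw [← e1, ← e2]
  refine ⟨n1, amgm_alg (mul_nonneg (sq_nonneg _) n1)
    (mul_nonneg (mul_nonneg (sq_nonneg _) (sq_nonneg _)) n2) ?_⟩
  rw [mul_pow]
  exact (mul_le_mul_of_nonneg_left m1 (sq_nonneg t)).trans (le_of_eq (by ring))

theorem scal_alg {t f f' d ε γ τa τe q X N kw CA : ℝ} (hf : 0 ≤ f) (hf' : f' ≤ 0) (hd : 0 ≤ d)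
    (hk : 0 ≤ kw) (hom : -(2 * d * f') ≤ 2 / 3 * f + CA) (h0 : 0 ≤ τa + kw)
    (h1 : τe * d ≤ q + (τa + τe - ε + γ) * d) (h2 : 2 * (t * X) ≤ t ^ 2 * (τa + kw) / 4 + 4 * N) :
    t ^ 2 * f * (2 * ε - (τa + τe)) ≤
      ε * (t ^ 2 * f * 2 + 2 * t ^ 2 * f' * d) -
        (t ^ 2 * f * τe + (2 * t * f * X + 2 * t ^ 2 * f' * q)) + CA * t ^ 2 * (τa + kw) +
      4 * f * N + t ^ 2 * f * kw + t ^ 2 * -(2 * d * f') * γ := by
  have ht := sq_nonneg t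
  have k1 := mul_le_mul_of_nonneg_left h1 (mul_nonneg ht (neg_nonneg.2 hf'))
  have k2 := mul_le_mul_of_nonneg_left h2 hf
  have k3 := mul_le_mul_of_nonneg_left hom (mul_nonneg ht h0)
  have k4 := mul_nonneg (mul_nonneg (mul_nonneg ht (neg_nonneg.2 hf')) hd) hk
  have k5 := mul_nonneg (mul_nonneg ht hf) h0
  nlinarith

theorem alg {L : Submodule ℝ E} (hL : finrank ℝ L + 2 = finrank ℝ E) {c C ρ Af : ℝ} {th : E → ℝ}
    {φ : ℝ → ℝ} (ht : Th L c th) (h : Prof C ρ Af φ) (hCA : 0 ≤ C * Af) {T : E →L[ℝ] E}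
    {ε w γ : ℝ} (hs : ∀ v w, ⟪T v, w⟫ = ⟪v, T w⟫) (hw : 0 ≤ w)
    (hp : ∀ v, -(w * ‖v‖ ^ 2) ≤ ⟪T v, v⟫)
    (hiso : ∀ e : E, ‖e‖ = 1 → 2 * ε - tr T - γ ≤ ε - ⟪T e, e⟫) (y : E) :
    th y ^ 2 * φ (‖pe L y‖ ^ 2) * (2 * ε - tr T) ≤ pair ε T (fderiv ℝ (fld L th φ) y) +
      C * Af * th y ^ 2 * (tr (T.comp (pa L)) + finrank ℝ L * w) +
      4 * φ (‖pe L y‖ ^ 2) * ‖fderiv ℝ th y‖ ^ 2 * ‖pe L y‖ ^ 2 * (tr T + finrank ℝ E * w) +
      th y ^ 2 * φ (‖pe L y‖ ^ 2) * (finrank ℝ L * w) +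
      th y ^ 2 * -(2 * ‖pe L y‖ ^ 2 * deriv φ (‖pe L y‖ ^ 2)) * γ := by
  have hD : ∀ v, fderiv ℝ th y (pe L v) = 0 := ht.fderiv_pe y
  obtain ⟨c1, c2⟩ := cross_alg hL hs hp hD (th y) y
  have c3 := tr_pe_le hL (T := T) (lam := tr T - ε + γ) (fun e he => by linarith [hiso e he]) y
  have c4 : ∀ (f : E →L[ℝ] ℝ) (v : E), tr (f.smulRight v) = f v := fun f v => by
    have h1 := tr_smulRight (ContinuousLinearMap.id ℝ E) f v
    rwa [ContinuousLinearMap.id_comp] at h1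
  have c5 := scal_alg (t := th y) (ε := ε) (γ := γ) (h.nonneg (‖pe L y‖ ^ 2))
    (h.anti (‖pe L y‖ ^ 2)) (sq_nonneg ‖pe L y‖) (mul_nonneg (Nat.cast_nonneg (finrank ℝ L)) hw)
    (h.om _ (sq_nonneg _)) c1 (by rw [← tr_split_alg]; exact c3) c2
  rw [← tr_split_alg] at c5
  rw [pair, fderiv_fld ht h, ContinuousLinearMap.comp_add, ContinuousLinearMap.comp_smul, tr_add,
    tr_add, tr_smul, tr_smul, tr_pe L hL, tr_smulRight, c4]
  simp only [_root_.add_apply, _root_.smul_apply, smul_eq_mul,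
    innerSL_apply_apply, hD, real_inner_self_eq_norm_sq, mul_zero, zero_add]
  rw [real_inner_comm]
  linarith

end Pool.Agent.Lib.MP_8daebb_an.PR
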