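import Pool.Agent.Lib.MP_8daebb_an.PR.CH
import Pool.Agent.Lib.MP_8daebb_an.PR.Alg

/-! The pointwise inequality of the cell at unit scale. -/

open MeasureTheory Metric Set Module Real Filter Topology
open scoped RealInnerProductSpace

namespace Pool.Agent.Lib.MP_8daebb_an.PR

open HK AS

set_option linter.unusedSectionVars false

variable {E : Type*} [NormedAddCommGroup E] [InnerProductSpace ℝ E] [FiniteDimensional ℝ E]
  [MeasurableSpace E] [BorelSpace E]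

theorem sq_pt (s : ℝ) : HasDerivAt (fun s : ℝ => (max s 0) ^ 2) (2 * max s 0) s := by
  refine hasDerivAt_of_hasDerivAt_of_ne' (x := 0)
    (g := fun s : ℝ => 2 * max s 0) (fun y hy => ?_) (by fun_prop) (by fun_prop) s
  rcases lt_or_gt_of_ne hy with h | h
  · refine (hasDerivAt_const y (0 : ℝ)).congr_of_eventuallyEq
      ((eventually_lt_nhds h).mono fun t ht => by simp [max_eq_right ht.le]) |>.congr_deriv ?_
    simp [max_eq_right h.le]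
  · refine (hasDerivAt_pow 2 y).congr_of_eventuallyEq
      ((eventually_gt_nhds h).mono fun t ht => by simp [max_eq_left ht.le]) |>.congr_deriv ?_
    simp [max_eq_left h.le]

theorem smooth_pt : ContDiff ℝ 1 (fun s : ℝ => (max s 0) ^ 2) := by
  refine contDiff_one_iff_deriv.2 ⟨fun s => (sq_pt s).differentiableAt, ?_⟩
  rw [show deriv (fun s : ℝ => (max s 0) ^ 2) = _ from funext fun s => (sq_pt s).deriv]
  fun_prop

theorem lip1_pt {x y : ℝ} (hx : 0 ≤ x) (hy : 0 ≤ y) :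
    max (1 - x ^ 2) 0 - max (1 - y ^ 2) 0 ≤ 2 * |x - y| := by
  have h0 := abs_nonneg (x - y)
  have h1 := neg_abs_le (x - y)
  have h2 := le_max_left (1 - y ^ 2) 0
  have h3 := le_max_right (1 - y ^ 2) 0
  rcases le_total (1 - x ^ 2) 0 with h | h
  · rw [max_eq_right h]
    linarith
  · rw [max_eq_left h]
    have hx1 : x ≤ 1 := by nlinarith
    rcases le_total y 1 with h' | h'
    · nlinarith [mul_nonneg (add_nonneg hx hy) (sub_nonneg.2 h1),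
        mul_nonneg h0 (show 0 ≤ 2 - (x + y) by linarith)]
    · nlinarith [sq_nonneg (1 - x)]

theorem lip_pt (u v : E) :
    |max (1 - ‖u‖ ^ 2) 0 - max (1 - ‖v‖ ^ 2) 0| ≤ 2 * ‖u - v‖ := by
  have h1 := lip1_pt (norm_nonneg u) (norm_nonneg v)
  have h2 := lip1_pt (norm_nonneg v) (norm_nonneg u)
  rw [abs_sub_comm] at h2
  have h3 := abs_norm_sub_norm_le u v
  rw [abs_le]
  constructor <;> linarith

theorem m_le_pt (u : E) : max (1 - ‖u‖ ^ 2) 0 ≤ 1 :=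
  max_le (sub_le_self _ (sq_nonneg _)) zero_le_one

theorem m_zero_pt {u : E} (h : 1 ≤ ‖u‖) : max (1 - ‖u‖ ^ 2) 0 = 0 :=
  max_eq_right (by nlinarith)

theorem lip2_pt (u : E) {v : E} (hv : ‖v‖ ≤ 1) :
    ‖max (1 - ‖u‖ ^ 2) 0 • u - max (1 - ‖v‖ ^ 2) 0 • v‖ ≤ 3 * ‖u - v‖ := by
  have e : max (1 - ‖u‖ ^ 2) 0 • u - max (1 - ‖v‖ ^ 2) 0 • v =
      max (1 - ‖u‖ ^ 2) 0 • (u - v) + (max (1 - ‖u‖ ^ 2) 0 - max (1 - ‖v‖ ^ 2) 0) • v := by
    rw [smul_sub, sub_smul]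
    abel
  rw [e]
  refine (norm_add_le _ _).trans ?_
  rw [norm_smul, norm_smul, Real.norm_eq_abs, Real.norm_eq_abs, abs_of_nonneg (le_max_right _ _)]
  have h1 := mul_le_mul_of_nonneg_right (m_le_pt u) (norm_nonneg (u - v))
  have h2 := mul_le_mul (lip_pt u v) hv (norm_nonneg _) (by positivity)
  linarith

theorem lip3_pt (u v : E) :
    ‖max (1 - ‖u‖ ^ 2) 0 • u - max (1 - ‖v‖ ^ 2) 0 • v‖ ≤ 3 * ‖u - v‖ := by
  rcases le_total ‖v‖ 1 with hv | hv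
  · exact lip2_pt u hv
  rcases le_total ‖u‖ 1 with hu | hu
  · rw [norm_sub_rev, norm_sub_rev u]
    exact lip2_pt v hu
  · rw [m_zero_pt hu, m_zero_pt hv, zero_smul, zero_smul, sub_zero, norm_zero]
    positivity

theorem fderiv_thk_pt (W : Submodule ℝ E) (z₀ y : E) : fderiv ℝ (thk W z₀) y =
    (-4 : ℝ) • (innerSL ℝ (max (1 - ‖pa W y - z₀‖ ^ 2) 0 • (pa W y - z₀))).comp (pa W) := by
  have h1 : HasFDerivAt (fun y => pa W y - z₀) (pa W) y := (pa W).hasFDerivAt.sub_const z₀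
  have h2 := (sq_pt (1 - ‖pa W y - z₀‖ ^ 2)).comp_hasFDerivAt y (h1.norm_sq.const_sub 1)
  rw [show fderiv ℝ (thk W z₀) y = _ from h2.fderiv]
  ext v
  simp only [_root_.smul_apply, _root_.neg_apply, ContinuousLinearMap.comp_apply,
    innerSL_apply_apply, real_inner_smul_left, smul_eq_mul, nsmul_eq_mul]
  push_cast
  ring

theorem comp_pa_pt (W : Submodule ℝ E) (a : E) : ‖(innerSL ℝ a).comp (pa W)‖ ≤ ‖a‖ := by
  refine ContinuousLinearMap.opNorm_le_bound _ (norm_nonneg _) fun v => ?_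
  rw [ContinuousLinearMap.comp_apply, innerSL_apply_apply]
  exact (norm_inner_le_norm _ _).trans
    (mul_le_mul_of_nonneg_left (norm_pa_le W v) (norm_nonneg _))

theorem norm_sq_pt {W : Submodule ℝ E} {z₀ : E} (hz : pa W z₀ = 0) (y : E) :
    ‖pa W y - z₀‖ ^ 2 = ‖pa W y‖ ^ 2 + ‖z₀‖ ^ 2 := by
  have h1 : pe W z₀ = z₀ := by
    have h2 := pa_add_pe W z₀
    rwa [hz, zero_add] at h2
  rw [norm_sq_pa_pe W, map_sub, map_sub, pa_pa, pe_pa, hz, h1, sub_zero, zero_sub, norm_neg]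

theorem th_thk : ∃ c : ℝ, ∀ (W : Submodule ℝ E) (z₀ : E), pa W z₀ = 0 → Th W c (thk W z₀) := by
  refine ⟨12, fun W z₀ hz => ⟨?_, fun y => sq_nonneg _, fun y => ?_, fun y => ?_, fun y hy => ?_,
    fun y => ?_, fun y y' => ?_⟩⟩
  · exact smooth_pt.comp (contDiff_const.sub (((pa W).contDiff.sub contDiff_const).norm_sq ℝ))
  · exact pow_le_one₀ (le_max_right _ _) (m_le_pt _)
  · rw [thk, thk, pa_pa]
  · rw [thk, norm_sq_pt hz, max_eq_right (by nlinarith [sq_nonneg ‖z₀‖]),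
      zero_pow (by norm_num)]
  · rw [fderiv_thk_pt, norm_smul]
    have h1 := comp_pa_pt W (max (1 - ‖pa W y - z₀‖ ^ 2) 0 • (pa W y - z₀))
    have h2 : ‖max (1 - ‖pa W y - z₀‖ ^ 2) 0 • (pa W y - z₀)‖ ≤ 1 := by
      rcases le_total ‖pa W y - z₀‖ 1 with h | h
      · rw [norm_smul, Real.norm_eq_abs, abs_of_nonneg (le_max_right _ _)]
        exact mul_le_one₀ (m_le_pt _) (norm_nonneg _) h
      · rw [m_zero_pt h, zero_smul, norm_zero]
        exact zero_le_one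
    rw [Real.norm_eq_abs, abs_neg, abs_of_pos (by norm_num : (0 : ℝ) < 4)]
    linarith
  · rw [fderiv_thk_pt, fderiv_thk_pt, ← smul_sub, ← ContinuousLinearMap.sub_comp, ← map_sub,
      norm_smul, Real.norm_eq_abs, abs_neg, abs_of_pos (by norm_num : (0 : ℝ) < 4)]
    have h1 := (comp_pa_pt W _).trans (lip3_pt (pa W y - z₀) (pa W y' - z₀))
    rw [sub_sub_sub_cancel_right, ← map_sub (pa W)] at h1
    have h2 := norm_pa_le W (y - y')
    linarith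

theorem pow4_pt {a b : ℝ} (ha : 0 ≤ a) (ha1 : a ≤ 1) (hb : 0 ≤ b) (hb1 : b ≤ 1) :
    |a ^ 4 - b ^ 4| ≤ 4 * |a - b| := by
  rw [show a ^ 4 - b ^ 4 = (a + b) * (a ^ 2 + b ^ 2) * (a - b) by ring, abs_mul,
    abs_of_nonneg (by positivity)]
  refine mul_le_mul_of_nonneg_right ?_ (abs_nonneg _)
  have h1 : a ^ 2 + b ^ 2 ≤ 2 := by nlinarith
  nlinarith [mul_le_mul (show a + b ≤ 2 by linarith) h1 (by positivity) (by norm_num)]

theorem kk_sub_thk (W : Submodule ℝ E) (z₀ y : E) :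
    |kk 1 z₀ y - thk W z₀ y ^ 2| ≤ 8 * ‖pe W y‖ := by
  rw [kk, thk, one_pow, div_one, ← pow_mul]
  refine (pow4_pt (le_max_right _ _) (m_le_pt _) (le_max_right _ _) (m_le_pt _)).trans ?_
  have h1 := lip_pt (y - z₀) (pa W y - z₀)
  rw [sub_sub_sub_cancel_right, show y - pa W y = pe W y from
    (eq_sub_of_add_eq' (pa_add_pe W y)).symm] at h1
  linarith

theorem thk_eq_zero {W : Submodule ℝ E} {z₀ : E} (hz : pa W z₀ = 0) (h1 : 1 ≤ ‖z₀‖) (y : E) :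
    thk W z₀ y = 0 := by
  rw [thk, norm_sq_pt hz, max_eq_right (by nlinarith [sq_nonneg ‖pa W y‖]),
    zero_pow (by norm_num)]

theorem fld_thk_tsupport {W : Submodule ℝ E} {z₀ : E} (hz : pa W z₀ = 0) {C ρ Af θ : ℝ}
    {φ : ℝ → ℝ} (h : Prof C ρ Af φ) (hρ : 0 < ρ) (hθ : ρ / Af ^ 2 ≤ θ) (hθ1 : θ ≤ 1 / 8) :
    tsupport (fld W (thk W z₀) φ) ⊆ ball z₀ 2 := by
  refine (closure_minimal (fun y hy => ?_) (isClosed_closedBall (x := z₀) (ε := 1 + θ))).trans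
    (closedBall_subset_ball (by linarith))
  have h1 : ‖pa W y - z₀‖ ≤ 1 := by
    by_contra hc
    apply hy
    rw [fld, thk, m_zero_pt (not_le.1 hc).le]
    simp
  have h2 : ‖pe W y‖ < θ := by
    refine prof_ne_zero h hρ hθ fun h0 => hy ?_
    rw [fld, h0, mul_zero, zero_smul]
  rw [mem_closedBall, dist_eq_norm, show y - z₀ = pa W y - z₀ + pe W y by
    rw [sub_add_eq_add_sub, pa_add_pe]]
  exact (norm_add_le _ _).trans (by linarith)

theorem tr_nonneg_pt {T : E →L[ℝ] E} {w : ℝ} (hp : ∀ v, -(w * ‖v‖ ^ 2) ≤ ⟪T v, v⟫) :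
    0 ≤ tr T + finrank ℝ E * w := by
  have h1 : ∑ i : Fin (finrank ℝ E), -w ≤ tr T := by
    rw [tr_eq_sum' (stdOrthonormalBasis ℝ E)]
    refine Finset.sum_le_sum fun i _ => ?_
    have h2 := hp (stdOrthonormalBasis ℝ E i)
    rw [(stdOrthonormalBasis ℝ E).orthonormal.1 i, real_inner_comm] at h2
    linarith
  rw [Finset.sum_const, Finset.card_univ, Fintype.card_fin, nsmul_eq_mul] at h1
  linarith

theorem scal_pt {P k g β n θ p I er A₁ A₂ w X₁ X₂ X₃ u Cp c m C₃ : ℝ} (hC₃ : 1 ≤ C₃)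
    (hCp : 0 ≤ Cp) (hm : 0 ≤ m) (hk : 0 ≤ k) (hθ : 0 ≤ θ) (hn : 0 ≤ n) (hβ : -β ≤ n) (hp : 0 ≤ p)
    (hβp : β ≤ p) (hI : 0 ≤ I) (hA₁ : 0 ≤ A₁) (hA₂ : 0 ≤ A₂) (hw : 0 ≤ w)
    (h0 : g * β ≤ P + X₁ + X₂ + X₃ + u * ((C₃ - 1) * n + er)) (h1 : X₁ ≤ Cp * A₁)
    (h2 : X₂ ≤ 4 * c ^ 2 * A₂) (h3 : X₃ ≤ m * w) (h4 : u ≤ (1 + Cp) * (k + 8 * θ))
    (h5 : u * er ≤ (1 + Cp) * I) (h6 : 0 ≤ k - g + 8 * θ)
    (h7 : (k - g + 8 * θ) * p ≤ 16 * (θ * p) + 2 * I) :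
    k * β ≤ P + (4 * c ^ 2 + m + (8 * C₃ + 16) * (1 + Cp)) *
      (A₁ + A₂ + w + I + k * n + θ * n + θ * p) := by
  set C := 4 * c ^ 2 + m + (8 * C₃ + 16) * (1 + Cp) with hC
  have c0 := sq_nonneg c
  have c1 : 0 ≤ C₃ * Cp := mul_nonneg (by linarith) hCp
  have e : C = 4 * c ^ 2 + m + 8 * C₃ + 8 * (C₃ * Cp) + 16 + 16 * Cp := by rw [hC]; ring
  have a1 : Cp * A₁ ≤ C * A₁ := mul_le_mul_of_nonneg_right (by linarith) hA₁
  have a2 : 4 * c ^ 2 * A₂ ≤ C * A₂ := mul_le_mul_of_nonneg_right (by linarith) hA₂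
  have a3 : m * w ≤ C * w := mul_le_mul_of_nonneg_right (by linarith) hw
  have a4 : (3 + Cp) * I ≤ C * I := mul_le_mul_of_nonneg_right (by linarith) hI
  have a5 : (1 + Cp) * (C₃ - 1) * (k * n) ≤ C * (k * n) :=
    mul_le_mul_of_nonneg_right (by nlinarith) (mul_nonneg hk hn)
  have a6 : (8 * ((1 + Cp) * (C₃ - 1)) + 8) * (θ * n) ≤ C * (θ * n) :=
    mul_le_mul_of_nonneg_right (by nlinarith) (mul_nonneg hθ hn)
  have a7 : 16 * (θ * p) ≤ C * (θ * p) :=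
    mul_le_mul_of_nonneg_right (by linarith) (mul_nonneg hθ hp)
  have b1 := mul_le_mul_of_nonneg_right h4 (mul_nonneg (sub_nonneg.2 hC₃) hn)
  have b2 := mul_le_mul_of_nonneg_left hβp h6
  have b3 := mul_le_mul_of_nonneg_left hβ hθ
  nlinarith

variable (E) in
theorem pt_ineq (c Cp C₃ : ℝ) (hC₃ : 1 ≤ C₃) : ∃ C : ℝ, 0 < C ∧ ∀ (W : Submodule ℝ E) (z₀ y : E)
    (φ : ℝ → ℝ) (ρ Af θ ε w er p : ℝ) (T : E →L[ℝ] E), finrank ℝ W + 2 = finrank ℝ E →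
    Th W c (thk W z₀) → Prof Cp ρ Af φ → 0 < ρ → 0 < Af → Af ≤ 1 → ρ / Af ^ 2 ≤ θ → θ ≤ 1 / 8 →
    (∀ v v', ⟪T v, v'⟫ = ⟪v, T v'⟫) → 0 ≤ w → (∀ v, -(w * ‖v‖ ^ 2) ≤ ⟪T v, v⟫) → 0 ≤ er → 0 ≤ p →
    2 * ε - tr T ≤ p → (∀ e : E, ‖e‖ = 1 → C₃ * (2 * ε - tr T) - er ≤ ε - ⟪T e, e⟫) →
    kk 1 z₀ y * (2 * ε - tr T) ≤ pair ε T (fderiv ℝ (fld W (thk W z₀) φ) y) +
      C * (Af * (tr (T.comp (pa W)) + finrank ℝ E * w) + θ ^ 2 * (tr T + finrank ℝ E * w) + w +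
        (if ρ ≤ ‖pe W y‖ then er + p else 0) + kk 1 z₀ y * np (2 * ε - tr T) +
        θ * np (2 * ε - tr T) + θ * p) := by
  refine ⟨4 * c ^ 2 + finrank ℝ E + (8 * C₃ + 16) * (1 + |Cp|), by positivity, ?_⟩
  intro W z₀ y φ ρ Af θ ε w er p T hW ht h hρ hAf hAf1 hθ hθ1 hs hw hp her hp0 hβ hiso
  have hCp : 0 ≤ Cp := by
    have h1 := (abs_nonneg _).trans (h.d1 0)
    by_contra hc
    exact absurd (div_neg_of_neg_of_pos (not_le.1 hc) (by positivity)) (not_lt.2 h1)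
  rw [abs_of_nonneg hCp]
  have hρθ : ρ ≤ θ := by
    refine le_trans ?_ hθ
    rw [le_div_iff₀ (by positivity)]
    exact mul_le_of_le_one_right hρ.le (pow_le_one₀ hAf.le hAf1)
  have hθ0 : 0 ≤ θ := hρ.le.trans hρθ
  have n0 : 0 ≤ np (2 * ε - tr T) := le_max_right _ _
  have n1 : -(2 * ε - tr T) ≤ np (2 * ε - tr T) := le_max_left _ _
  have a0 := alg hW ht h (mul_nonneg hCp hAf.le) (ε := ε)
    (γ := (C₃ - 1) * np (2 * ε - tr T) + er) hs hw hp (fun e he => by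
      have h1 := mul_le_mul_of_nonneg_left n1 (sub_nonneg.2 hC₃)
      linarith [hiso e he]) y
  have t1 : 0 ≤ tr (T.comp (pa W)) + finrank ℝ W * w :=
    (cross_alg hW hs hp (D := 0) (fun _ => rfl) 0 y).1
  have t2 := tr_nonneg_pt hp
  have m1 : (finrank ℝ W : ℝ) * w ≤ finrank ℝ E * w :=
    mul_le_mul_of_nonneg_right (Nat.cast_le.2 (by omega)) hw
  have m0 : 0 ≤ (finrank ℝ W : ℝ) * w := mul_nonneg (Nat.cast_nonneg _) hw
  have k0 := kk_nonneg 1 z₀ y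
  have k1 := kk_le_one 1 z₀ y
  obtain ⟨k2, k3⟩ := abs_le.1 (kk_sub_thk W z₀ y)
  have g0 := sq_nonneg (thk W z₀ y)
  have g1 : thk W z₀ y ^ 2 ≤ 1 := pow_le_one₀ (ht.nonneg y) (ht.le_one y)
  have f0 := h.nonneg (‖pe W y‖ ^ 2)
  have f1 := h.le_one (‖pe W y‖ ^ 2)
  have o0 : 0 ≤ -(2 * ‖pe W y‖ ^ 2 * deriv φ (‖pe W y‖ ^ 2)) :=
    neg_nonneg.2 (mul_nonpos_of_nonneg_of_nonpos (by positivity) (h.anti _))
  have o1 : -(2 * ‖pe W y‖ ^ 2 * deriv φ (‖pe W y‖ ^ 2)) ≤ 1 + Cp := by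
    have h1 := h.om _ (sq_nonneg ‖pe W y‖)
    have h2 := mul_le_of_le_one_right hCp hAf1
    linarith
  have I0 : 0 ≤ if ρ ≤ ‖pe W y‖ then er + p else 0 := by
    split_ifs
    · exact add_nonneg her hp0
    · exact le_rfl
  have gf := mul_nonneg g0 f0
  refine scal_pt hC₃ hCp (Nat.cast_nonneg _) k0 hθ0 n0 n1 hp0 hβ I0
    (mul_nonneg hAf.le (by linarith)) (mul_nonneg (sq_nonneg _) t2) hw a0 ?_ ?_ ?_ ?_ ?_ ?_ ?_
  · rw [← mul_assoc Cp]
    exact mul_le_mul (mul_le_of_le_one_right (mul_nonneg hCp hAf.le) g1) (by linarith) t1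
      (mul_nonneg hCp hAf.le)
  · rw [← mul_assoc (4 * c ^ 2)]
    refine mul_le_mul_of_nonneg_right ?_ t2
    by_cases h0 : φ (‖pe W y‖ ^ 2) = 0
    · rw [h0, mul_zero, zero_mul, zero_mul]
      positivity
    · exact mul_le_mul (mul_le_mul (by linarith) (pow_le_pow_left₀ (norm_nonneg _) (ht.d1 y) 2)
        (sq_nonneg _) (by norm_num))
        (pow_le_pow_left₀ (norm_nonneg _) (prof_ne_zero h hρ hθ h0).le 2) (sq_nonneg _)
        (by positivity)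
  · exact (mul_le_of_le_one_left m0 (mul_le_one₀ g1 f0 f1)).trans m1
  · by_cases h0 : deriv φ (‖pe W y‖ ^ 2) = 0
    · rw [h0, mul_zero, neg_zero, mul_zero]
      positivity
    · have h1 := (prof_deriv_ne_zero h hρ hθ h0).2
      rw [mul_comm (1 + Cp)]
      exact mul_le_mul (by linarith) o1 o0 (by linarith)
  · by_cases h0 : deriv φ (‖pe W y‖ ^ 2) = 0
    · rw [h0, mul_zero, neg_zero, mul_zero, zero_mul]
      exact mul_nonneg (by linarith) I0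
    · rw [if_pos (prof_deriv_ne_zero h hρ hθ h0).1]
      exact mul_le_mul ((mul_le_of_le_one_left o0 g1).trans o1) (by linarith) her (by linarith)
  · by_cases h0 : φ (‖pe W y‖ ^ 2) = 0
    · rw [h0, mul_zero]
      linarith
    · have h1 := prof_ne_zero h hρ hθ h0
      have h2 := mul_le_of_le_one_right g0 f1
      linarith
  · have q0 := mul_nonneg hθ0 hp0
    split_ifs with h0
    · have h1 := mul_le_mul_of_nonneg_right
        (show kk 1 z₀ y - thk W z₀ y ^ 2 * φ (‖pe W y‖ ^ 2) + 8 * θ ≤ 2 by linarith) hp0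
      linarith
    · have h1 := (not_le.1 h0).le
      rw [h.one _ (pow_le_pow_left₀ (norm_nonneg _) h1 2), mul_one]
      have h2 := mul_le_mul_of_nonneg_right
        (show kk 1 z₀ y - thk W z₀ y ^ 2 + 8 * θ ≤ 16 * θ by linarith) hp0
      linarith

end Pool.Agent.Lib.MP_8daebb_an.PR
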