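import Pool.Agent.Lib.MP_8daebb_an.PR.Calc

/-! The Laplacian and integration by parts. -/

open MeasureTheory Metric Set Module Real Filter Topology
open scoped RealInnerProductSpace

namespace Pool.Agent.Lib.MP_8daebb_an.PR

open HK AS

set_option linter.unusedSectionVars false

variable {E : Type*} [NormedAddCommGroup E] [InnerProductSpace ℝ E] [FiniteDimensional ℝ E]
  [MeasurableSpace E] [BorelSpace E]

variable {n : ℕ} {f g : E → ℝ}

theorem lap_eq_pd {ι : Type*} [Fintype ι] (b : OrthonormalBasis ι ℝ E) (hf : ContDiff ℝ 2 f)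
    (y : E) : lap f y = ∑ i, pd (b i) (pd (b i) f) y := lap_eq_sum b hf y

theorem pd_comm (hf : ContDiff ℝ 2 f) (e e' : E) : pd e (pd e' f) = pd e' (pd e f) :=
  funext fun y => fderiv_fderiv_symm hf y e e'

theorem pd_mul (hf : Differentiable ℝ f) (hg : Differentiable ℝ g) (e y : E) :
    pd e (fun y => f y * g y) y = pd e f y * g y + f y * pd e g y := by
  unfold pd
  rw [fderiv_fun_mul (hf y) (hg y)]
  simp; ring

theorem pd_add (hf : Differentiable ℝ f) (hg : Differentiable ℝ g) (e y : E) :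
    pd e (fun y => f y + g y) y = pd e f y + pd e g y := by
  unfold pd
  rw [fderiv_fun_add (hf y) (hg y)]
  simp

theorem pd_const_mul (hf : Differentiable ℝ f) (c : ℝ) (e y : E) :
    pd e (fun y => c * f y) y = c * pd e f y := by
  unfold pd
  rw [fderiv_const_mul (hf y)]
  simp

theorem pd_sum {ι : Type*} (s : Finset ι) {F : ι → E → ℝ} (h : ∀ i ∈ s, Differentiable ℝ (F i))
    (e y : E) : pd e (fun y => ∑ i ∈ s, F i y) y = ∑ i ∈ s, pd e (F i) y := by
  unfold pd
  rw [fderiv_fun_sum fun i hi => h i hi y]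
  simp

theorem pd_lap (hf : ContDiff ℝ 3 f) (e : E) : pd e (lap f) = lap (pd e f) := by
  have h2 : ContDiff ℝ 2 f := hf.of_le (by norm_num)
  have h3 : ∀ v, ContDiff ℝ 2 (pd v f) := fun v => contDiff_fderiv_apply' hf v
  have h4 : ∀ v w, ContDiff ℝ 1 (pd v (pd w f)) := fun v w => contDiff_fderiv_apply (h3 w) v
  funext y
  rw [funext (lap_eq_pd (stdOrthonormalBasis ℝ E) h2),
    pd_sum _ (fun i _ => (h4 _ _).differentiable one_ne_zero),
    lap_eq_pd (stdOrthonormalBasis ℝ E) (h3 e)]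
  refine Finset.sum_congr rfl fun i _ => ?_
  rw [pd_comm (h3 _) e, pd_comm h2 e]

theorem lap_mul_pd {ι : Type*} [Fintype ι] (b : OrthonormalBasis ι ℝ E) (hf : ContDiff ℝ 2 f)
    (hg : ContDiff ℝ 2 g) (y : E) : lap (fun y => f y * g y) y =
      f y * lap g y + 2 * ∑ i, pd (b i) f y * pd (b i) g y + lap f y * g y := by
  rw [lap_mul hf hg, ← sum_fderiv_mul b]
  unfold pd
  ring

theorem lap_sum_mul {ι : Type*} (s : Finset ι) {F : ι → E → ℝ} (c : ι → ℝ)
    (h : ∀ i ∈ s, ContDiff ℝ 2 (F i)) (y : E) :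
    lap (fun y => ∑ i ∈ s, c i * F i y) y = ∑ i ∈ s, c i * lap (F i) y := by
  rw [lap_sum s (F := fun i y => c i * F i y) fun i hi => contDiff_const.mul (h i hi)]
  exact Finset.sum_congr rfl fun i hi => lap_const_mul (h i hi) _ _

theorem pd_comp_affine_ibp (hf : Differentiable ℝ f) (o : E) (l : ℝ) (e y : E) :
    pd e (fun y => f (o + l • y)) y = l * pd e f (o + l • y) := by
  have h1 : HasFDerivAt (fun y : E => o + l • y) (l • ContinuousLinearMap.id ℝ E) y :=
    ((hasFDerivAt_id y).const_smul l).const_add o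
  have h2 := (hf (o + l • y)).hasFDerivAt.comp y h1
  unfold pd
  have h3 : (fun y => f (o + l • y)) = f ∘ fun y : E => o + l • y := rfl
  rw [h3, h2.fderiv]
  simp

theorem lap_comp_affine (hf : ContDiff ℝ 2 f) (o : E) (l : ℝ) (y : E) :
    lap (fun y => f (o + l • y)) y = l ^ 2 * lap f (o + l • y) := by
  have ha : ContDiff ℝ 2 (fun y : E => o + l • y) := contDiff_const.add (contDiff_id.const_smul l)
  have hc : ContDiff ℝ 2 (fun y => f (o + l • y)) := hf.comp ha
  rw [lap_eq_pd (stdOrthonormalBasis ℝ E) hc, lap_eq_pd (stdOrthonormalBasis ℝ E) hf,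
    Finset.mul_sum]
  refine Finset.sum_congr rfl fun i _ => ?_
  have h1 : Differentiable ℝ (pd (stdOrthonormalBasis ℝ E i) f) :=
    (contDiff_fderiv_apply hf _).differentiable one_ne_zero
  have h2 : Differentiable ℝ fun y => pd (stdOrthonormalBasis ℝ E i) f (o + l • y) :=
    h1.comp (ha.differentiable two_ne_zero)
  rw [funext (pd_comp_affine_ibp (hf.differentiable two_ne_zero) o l _), pd_const_mul h2,
    pd_comp_affine_ibp h1]
  ring

theorem contDiff_lap (hf : ContDiff ℝ (n + 2 : ℕ) f) : ContDiff ℝ n (lap f) := by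
  have h2 : ContDiff ℝ 2 f := hf.of_le (by exact_mod_cast Nat.le_add_left 2 n)
  rw [funext (lap_eq_pd (stdOrthonormalBasis ℝ E) h2)]
  exact ContDiff.sum fun i _ => contDiff_pd (contDiff_pd (n := n + 1) hf _) _

theorem Cb.lap (hf : Cb (n + 2) f) : Cb n (lap f) := by
  have h2 : ContDiff ℝ 2 f := hf.contDiff.of_le (by exact_mod_cast Nat.le_add_left 2 n)
  rw [funext (lap_eq_pd (stdOrthonormalBasis ℝ E) h2)]
  exact Cb.sum _ fun i _ => (Cb.pd (n := n + 1) hf _).pd _

theorem Cc.lap (hf : Cc (n + 2) f) : Cc n (lap f) := by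
  have h2 : ContDiff ℝ 2 f := hf.cd.of_le (by exact_mod_cast Nat.le_add_left 2 n)
  rw [funext (lap_eq_pd (stdOrthonormalBasis ℝ E) h2)]
  exact Cc.sum _ fun i _ => (Cc.pd (n := n + 1) hf _).pd _

theorem Top.cb_chg {L : Submodule ℝ E} {V Γ : E → ℝ} {E0 E1 g1 AΓ t0 A : ℝ}
    (h : Top L V Γ E0 E1 g1 AΓ t0 A) : Cb 1 (chg V Γ) :=
  (Cb.lap (n := 1) h.hV).add h.hΓ

theorem ibp (hf : Cc 1 f) (hg : ContDiff ℝ 1 g) (e : E) :
    ∫ y, f y * pd e g y = -∫ y, pd e f y * g y :=
  integral_mul_fderiv_compact hf.cd hf.cs hg e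

theorem green (hf : Cc 1 f) (hg : ContDiff ℝ 2 g) :
    ∫ y, f y * lap g y = -∫ y, fderiv ℝ g y (gradient f y) := by
  rw [integral_mul_lap_compact hf.cd hf.cs hg]
  congr 2; funext y
  rw [real_inner_comm, inner_gradient_left]

theorem continuous_sd {u : E → ℝ} {Y : E → E} (hu : ContDiff ℝ 1 u) (hY : ContDiff ℝ 1 Y) :
    Continuous (sd u Y) := by
  have h1 := continuous_gradient hu
  have h2 : Continuous (fderiv ℝ Y) := hY.continuous_fderiv one_ne_zero
  unfold sd
  exact (((h1.norm.pow 2).div_const 2).mul (continuous_tr.comp h2)).sub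
    (h1.inner (h2.clm_apply h1))

theorem pd_inner_ibp {Y : E → E} (hY : Differentiable ℝ Y) (v e y : E) :
    pd e (fun y => ⟪v, Y y⟫) y = ⟪v, fderiv ℝ Y y e⟫ := by
  unfold pd
  rw [fderiv_inner_apply ℝ (differentiableAt_const v) (hY y)]
  simp

theorem sd_eq_ibp {ι : Type*} [Fintype ι] (b : OrthonormalBasis ι ℝ E) (u : E → ℝ) {Y : E → E}
    (hY : Differentiable ℝ Y) (y : E) :
    sd u Y y = ∑ i, (pd (b i) (fun y => ⟪b i, Y y⟫) y *
        ∑ j, (1 / 2 : ℝ) * (pd (b j) u y * pd (b j) u y) -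
      ∑ j, pd (b j) (fun y => ⟪b i, Y y⟫) y * (pd (b i) u y * pd (b j) u y)) := by
  have h1 : ∑ j, (1 / 2 : ℝ) * (pd (b j) u y * pd (b j) u y) = ‖gradient u y‖ ^ 2 / 2 := by
    rw [← Finset.mul_sum, sum_pd_mul_pd, real_inner_self_eq_norm_sq]; ring
  have h2 : ∀ i, pd (b i) u y = ⟪b i, gradient u y⟫ := fun i => by
    rw [real_inner_comm, inner_gradient_left]; rfl
  have h3 : ∀ i, ∑ j, ⟪b i, fderiv ℝ Y y (b j)⟫ * (pd (b i) u y * pd (b j) u y) =
      ⟪gradient u y, b i⟫ * ⟪b i, fderiv ℝ Y y (gradient u y)⟫ := fun i => by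
    conv_rhs => rw [← b.sum_repr' (gradient u y), map_sum, inner_sum, b.sum_repr', Finset.mul_sum]
    refine Finset.sum_congr rfl fun j _ => ?_
    rw [map_smul, real_inner_smul_right, h2, h2, real_inner_comm (b i)]; ring
  simp only [pd_inner_ibp hY, h1, h3]
  rw [Finset.sum_sub_distrib, b.sum_inner_mul_inner, ← Finset.sum_mul, ← tr_eq_sum' b, sd,
    mul_comm]

theorem pair_ibp {u : E → ℝ} {Y : E → E} (hu : ContDiff ℝ 2 u) (hY : ContDiff ℝ 1 Y)
    (hc : HasCompactSupport Y) : ∫ y, sd u Y y = ∫ y, lap u y * fderiv ℝ u y (Y y) := by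
  set b := stdOrthonormalBasis ℝ E
  have hu1 : ∀ v, ContDiff ℝ 1 (pd v u) := fun v => contDiff_fderiv_apply hu v
  have hud : ∀ v, Differentiable ℝ (pd v u) := fun v => (hu1 v).differentiable one_ne_zero
  have hYi : ∀ v : E, Cc 1 (fun y => ⟪v, Y y⟫) := fun v =>
    ⟨contDiff_const.inner ℝ hY, hc.comp_left (g := fun z => ⟪v, z⟫) (by simp)⟩
  have hm : ∀ v w, ContDiff ℝ 1 (fun y => pd v u y * pd w u y) := fun v w => (hu1 v).mul (hu1 w)
  have hh : ContDiff ℝ 1 (fun y => ∑ j, (1 / 2 : ℝ) * (pd (b j) u y * pd (b j) u y)) :=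
    ContDiff.sum fun j _ => contDiff_const.mul (hm _ _)
  have i1 : ∀ (v w : E) {F : E → ℝ}, ContDiff ℝ 1 F →
      Integrable fun y => pd w (fun y => ⟪v, Y y⟫) y * F y := fun v w F hF =>
    ((Cc.pd (n := 0) (hYi v) w).mul (hF.of_le zero_le_one)).integrable
  have i2 : ∀ (v w : E) {F : E → ℝ}, ContDiff ℝ 1 F →
      Integrable fun y => ⟪v, Y y⟫ * pd w F y := fun v w F hF =>
    (((hYi v).of_le zero_le_one).mul (contDiff_pd (n := 0) hF w)).integrable
  have e1 : ∀ (v w : E) {F : E → ℝ}, ContDiff ℝ 1 F →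
      ∫ y, pd w (fun y => ⟪v, Y y⟫) y * F y = -∫ y, ⟪v, Y y⟫ * pd w F y := fun v w F hF => by
    rw [ibp (hYi v) hF w, neg_neg]
  have key : ∀ y, lap u y * fderiv ℝ u y (Y y) =
      ∑ i, (∑ j, ⟪b i, Y y⟫ * pd (b j) (fun y => pd (b i) u y * pd (b j) u y) y -
        ⟪b i, Y y⟫ * pd (b i) (fun y => ∑ j, (1 / 2 : ℝ) * (pd (b j) u y * pd (b j) u y)) y) := by
    intro y
    rw [← sum_inner_mul_apply b (fderiv ℝ u y) (Y y), Finset.mul_sum]
    refine Finset.sum_congr rfl fun i _ => ?_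
    rw [pd_sum _ (F := fun j y => (1 / 2 : ℝ) * (pd (b j) u y * pd (b j) u y))
      (fun j _ => (contDiff_const.mul (hm _ _)).differentiable one_ne_zero), lap_eq_pd b hu,
      Finset.sum_mul, Finset.mul_sum, ← Finset.sum_sub_distrib]
    refine Finset.sum_congr rfl fun j _ => ?_
    rw [pd_const_mul ((hm _ _).differentiable one_ne_zero), pd_mul (hud _) (hud _),
      pd_mul (hud _) (hud _), pd_comm hu (b i) (b j), real_inner_comm (b i)]
    unfold pd
    ring
  simp only [sd_eq_ibp b u (hY.differentiable one_ne_zero), key]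
  rw [integral_finsetSum, integral_finsetSum]
  rotate_left
  · exact fun i _ => (integrable_finsetSum _ fun j _ => i2 _ _ (hm _ _)).sub (i2 _ _ hh)
  · exact fun i _ => (i1 _ _ hh).sub (integrable_finsetSum _ fun j _ => i1 _ _ (hm _ _))
  refine Finset.sum_congr rfl fun i _ => ?_
  rw [integral_sub (i1 _ _ hh) (integrable_finsetSum _ fun j _ => i1 _ _ (hm _ _)),
    integral_sub (integrable_finsetSum _ fun j _ => i2 _ _ (hm _ _)) (i2 _ _ hh),
    integral_finsetSum _ fun j _ => i1 _ _ (hm _ _),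
    integral_finsetSum _ fun j _ => i2 _ _ (hm _ _), e1 _ _ hh]
  simp only [e1 _ _ (hm _ _), Finset.sum_neg_distrib]
  ring

end Pool.Agent.Lib.MP_8daebb_an.PR
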