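import Pool.Agent.Lib.MP_8daebb_an.PR.CH
import Pool.Agent.Lib.MP_8daebb_an.PR.Ibp

/-! Changes of scale. -/

open MeasureTheory Metric Set Module Real Filter Topology
open scoped RealInnerProductSpace

namespace Pool.Agent.Lib.MP_8daebb_an.PR

open HK AS

variable {E : Type*} [NormedAddCommGroup E] [InnerProductSpace ℝ E] [FiniteDimensional ℝ E]
  [MeasurableSpace E] [BorelSpace E]

variable {o z x₁ : E} {l : ℝ} {Y : E → E} {W : Submodule ℝ E}

omit [FiniteDimensional ℝ E] [MeasurableSpace E] [BorelSpace E] in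
theorem hasFDerivAt_aff_scal (o y : E) (c : ℝ) :
    HasFDerivAt (fun y : E => c • (y - o)) (c • ContinuousLinearMap.id ℝ E) y :=
  ((hasFDerivAt_id y).sub_const o).const_smul c

omit [FiniteDimensional ℝ E] [MeasurableSpace E] [BorelSpace E] in
theorem fderiv_scY (hY : ContDiff ℝ 1 Y) (hl : 0 < l) (o y : E) :
    fderiv ℝ (scY o l Y) y = fderiv ℝ Y (l⁻¹ • (y - o)) := by
  have h1 : HasFDerivAt Y (fderiv ℝ Y (l⁻¹ • (y - o))) (l⁻¹ • (y - o)) :=
    (hY.differentiable one_ne_zero _).hasFDerivAt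
  have h2 := (h1.comp y (hasFDerivAt_aff_scal o y l⁻¹)).const_smul l
  have h3 : HasFDerivAt (scY o l Y) (l • (fderiv ℝ Y (l⁻¹ • (y - o))).comp
      (l⁻¹ • ContinuousLinearMap.id ℝ E)) y := h2
  rw [h3.fderiv]
  ext v
  simp [smul_smul, hl.ne']

omit [FiniteDimensional ℝ E] [MeasurableSpace E] [BorelSpace E] in
theorem contDiff_scY (hY : ContDiff ℝ 1 Y) (o : E) (l : ℝ) : ContDiff ℝ 1 (scY o l Y) := by
  unfold scY
  exact (hY.comp ((contDiff_id.sub contDiff_const).const_smul l⁻¹)).const_smul l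

omit [FiniteDimensional ℝ E] [MeasurableSpace E] [BorelSpace E] in
theorem tsupport_scY (hl : 0 < l) (h : tsupport Y ⊆ ball (l⁻¹ • (z - o)) 2) :
    tsupport (scY o l Y) ⊆ ball z (2 * l) := by
  have hc : Continuous (fun y : E => l⁻¹ • (y - o)) := by fun_prop
  have h1 : tsupport (scY o l Y) ⊆ (fun y : E => l⁻¹ • (y - o)) ⁻¹' tsupport Y := by
    refine closure_minimal ?_ ((isClosed_tsupport Y).preimage hc)
    intro y hy
    refine subset_tsupport Y ?_
    intro h0
    exact hy (by simp [scY, h0])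
  intro y hy
  have h2 := h (h1 hy)
  rw [mem_ball, dist_eq_norm, ← smul_sub, norm_smul, Real.norm_eq_abs,
    abs_of_pos (inv_pos.2 hl), sub_sub_sub_cancel_right, inv_mul_lt_iff₀ hl] at h2
  rw [mem_ball, dist_eq_norm]
  linarith

omit [FiniteDimensional ℝ E] [MeasurableSpace E] [BorelSpace E] in
theorem norm_scY_le (hl : 0 < l) (hl1 : l ≤ 1) {K : ℝ} (h : ∀ y, ‖Y y‖ ≤ K) (y : E) :
    ‖scY o l Y y‖ ≤ K := by
  unfold scY
  rw [norm_smul, Real.norm_eq_abs, abs_of_pos hl]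
  have h0 := norm_nonneg (Y (l⁻¹ • (y - o)))
  have h1 := h (l⁻¹ • (y - o))
  nlinarith

omit [FiniteDimensional ℝ E] [MeasurableSpace E] [BorelSpace E] in
theorem lip_scY (hY : ContDiff ℝ 1 Y) (hl : 0 < l) {K : ℝ}
    (h : ∀ y y', ‖fderiv ℝ Y y - fderiv ℝ Y y'‖ ≤ K * ‖y - y'‖) (y y' : E) :
    ‖fderiv ℝ (scY o l Y) y - fderiv ℝ (scY o l Y) y'‖ ≤ K / l * ‖y - y'‖ := by
  rw [fderiv_scY hY hl, fderiv_scY hY hl]
  refine (h _ _).trans (le_of_eq ?_)
  rw [← smul_sub, norm_smul, Real.norm_eq_abs, abs_of_pos (inv_pos.2 hl),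
    sub_sub_sub_cancel_right]
  ring

omit [MeasurableSpace E] [BorelSpace E] in
theorem gradient_aff_scal {u : E → ℝ} (hu : ContDiff ℝ 1 u) (o : E) (l : ℝ) (y : E) :
    gradient (fun y => u (o + l • y)) y = l • gradient u (o + l • y) := by
  have h1 : HasFDerivAt u (fderiv ℝ u (o + l • y)) (o + l • y) :=
    (hu.differentiable one_ne_zero _).hasFDerivAt
  have h0 : HasFDerivAt (fun y : E => o + l • y) (l • ContinuousLinearMap.id ℝ E) y :=
    ((hasFDerivAt_id y).const_smul l).const_add o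
  have h2 : HasFDerivAt (fun y => u (o + l • y))
      ((fderiv ℝ u (o + l • y)).comp (l • ContinuousLinearMap.id ℝ E)) y := h1.comp y h0
  have h3 : (fderiv ℝ u (o + l • y)).comp (l • ContinuousLinearMap.id ℝ E) =
      l • fderiv ℝ u (o + l • y) := by
    ext v
    simp
  unfold gradient
  rw [h2.fderiv, h3, map_smul]

theorem integral_sd_scY {u : E → ℝ} (hu : ContDiff ℝ 1 u) (hY : ContDiff ℝ 1 Y) (hl : 0 < l)
    (o : E) : ∫ y, sd u (scY o l Y) y = pk E l * ∫ y, sd (fun y => u (o + l • y)) Y y := by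
  set F : E → ℝ := sd (fun y => u (o + l • y)) Y with hF
  have h1 : ∀ y, sd u (scY o l Y) y = (l ^ 2)⁻¹ * F (l⁻¹ • (y - o)) := by
    intro y
    have e : o + l • (l⁻¹ • (y - o)) = y := by
      rw [smul_smul, mul_inv_cancel₀ hl.ne', one_smul]
      abel
    simp only [hF, sd, fderiv_scY hY hl, gradient_aff_scal hu, e, map_smul, norm_smul,
      Real.norm_eq_abs, mul_pow, sq_abs, real_inner_smul_left, real_inner_smul_right]
    field_simp
  simp_rw [h1]
  rw [integral_const_mul, integral_sub_right_eq_self (fun y => F (l⁻¹ • y)) o,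
    Measure.integral_comp_inv_smul, abs_of_pos (pow_pos hl _), smul_eq_mul, pk]
  ring

omit [FiniteDimensional ℝ E] [MeasurableSpace E] [BorelSpace E] in
theorem kk_scale (hl : 0 < l) (o z y : E) :
    kk l z y = kk 1 (l⁻¹ • (z - o)) (l⁻¹ • (y - o)) := by
  unfold kk
  rw [← smul_sub, norm_smul, Real.norm_eq_abs, abs_of_pos (inv_pos.2 hl),
    sub_sub_sub_cancel_right]
  congr 3
  field_simp

theorem pa_foot (W : Submodule ℝ E) (x₁ z : E) (l : ℝ) :
    pa W (l⁻¹ • (z - foot W x₁ z)) = 0 := by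
  rw [foot, sub_sub_cancel, map_smul, pa_pe, smul_zero]

theorem norm_pe_foot (hl : 0 < l) (W : Submodule ℝ E) (x₁ z y : E) :
    ‖pe W (l⁻¹ • (y - foot W x₁ z))‖ = dd W x₁ y / l := by
  have e : pe W (y - foot W x₁ z) = pe W (y - x₁) := by
    have : y - foot W x₁ z = (y - z) + pe W (z - x₁) := by
      rw [foot]
      abel
    rw [this, map_add, pe_pe, ← map_add]
    congr 1
    abel
  rw [map_smul, e, norm_smul, Real.norm_eq_abs, abs_of_pos (inv_pos.2 hl), div_eq_inv_mul]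
  rfl

omit [MeasurableSpace E] [BorelSpace E] in
theorem norm_foot (hl : 0 < l) (W : Submodule ℝ E) (x₁ z : E) :
    ‖l⁻¹ • (z - foot W x₁ z)‖ = dd W x₁ z / l := by
  rw [foot, sub_sub_cancel, norm_smul, Real.norm_eq_abs, abs_of_pos (inv_pos.2 hl),
    div_eq_inv_mul]
  rfl

end Pool.Agent.Lib.MP_8daebb_an.PR
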