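import Pool.Agent.Lib.MP_8daebb_an.PR.Smo
import Pool.Agent.Lib.MP_8daebb_an.PR.Mass
import Pool.Agent.Lib.MP_8daebb_an.PR.Pt
import Pool.Agent.Lib.MP_8daebb_an.PR.Scal

/-! The cell inequality with explicit parameters. -/

open MeasureTheory Metric Set Module Real Filter Topology
open scoped RealInnerProductSpace

namespace Pool.Agent.Lib.MP_8daebb_an.PR

open HK AS

variable {E : Type*} [NormedAddCommGroup E] [InnerProductSpace ℝ E] [FiniteDimensional ℝ E]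
  [MeasurableSpace E] [BorelSpace E]

theorem comb_raw {X : Type*} [MeasurableSpace X] {μ : Measure X} {f f0 f1 f2 f3 f4 f5 f6 f7 f8 : X → ℝ}
    {C c1 c2 c3 c5 c6 c8 : ℝ} (h : Integrable f μ) (h0 : Integrable f0 μ) (h1 : Integrable f1 μ)
    (h2 : Integrable f2 μ) (h3 : Integrable f3 μ) (h4 : Integrable f4 μ) (h5 : Integrable f5 μ)
    (h6 : Integrable f6 μ) (h7 : Integrable f7 μ) (h8 : Integrable f8 μ)
    (hle : ∀ᵐ y ∂μ, f y ≤ f0 y + C * (c1 * f1 y + c2 * f2 y + c3 * f3 y + f4 y + c5 * f5 y +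
      c6 * f6 y + f7 y + c8 * f8 y)) :
    ∫ y, f y ∂μ ≤ ∫ y, f0 y ∂μ + C * (c1 * ∫ y, f1 y ∂μ + c2 * ∫ y, f2 y ∂μ + c3 * ∫ y, f3 y ∂μ +
      ∫ y, f4 y ∂μ + c5 * ∫ y, f5 y ∂μ + c6 * ∫ y, f6 y ∂μ + ∫ y, f7 y ∂μ +
      c8 * ∫ y, f8 y ∂μ) := by
  have i2 : Integrable (fun y => c1 * f1 y + c2 * f2 y) μ := (h1.const_mul _).add (h2.const_mul _)
  have i3 : Integrable (fun y => c1 * f1 y + c2 * f2 y + c3 * f3 y) μ := i2.add (h3.const_mul _)
  have i4 : Integrable (fun y => c1 * f1 y + c2 * f2 y + c3 * f3 y + f4 y) μ := i3.add h4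
  have i5 : Integrable (fun y => c1 * f1 y + c2 * f2 y + c3 * f3 y + f4 y + c5 * f5 y) μ :=
    i4.add (h5.const_mul _)
  have i6 : Integrable (fun y => c1 * f1 y + c2 * f2 y + c3 * f3 y + f4 y + c5 * f5 y +
      c6 * f6 y) μ := i5.add (h6.const_mul _)
  have i7 : Integrable (fun y => c1 * f1 y + c2 * f2 y + c3 * f3 y + f4 y + c5 * f5 y +
      c6 * f6 y + f7 y) μ := i6.add h7
  have i8 : Integrable (fun y => c1 * f1 y + c2 * f2 y + c3 * f3 y + f4 y + c5 * f5 y +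
      c6 * f6 y + f7 y + c8 * f8 y) μ := i7.add (h8.const_mul _)
  have i9 : Integrable (fun y => f0 y + C * (c1 * f1 y + c2 * f2 y + c3 * f3 y + f4 y + c5 * f5 y +
      c6 * f6 y + f7 y + c8 * f8 y)) μ := h0.add (i8.const_mul _)
  refine (integral_mono_ae h i9 hle).trans_eq ?_
  rw [integral_add h0 (i8.const_mul _), integral_const_mul, integral_add i7 (h8.const_mul _),
    integral_add i6 h7, integral_add i5 (h6.const_mul _), integral_add i4 (h5.const_mul _),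
    integral_add i3 h4, integral_add i2 (h3.const_mul _),
    integral_add (h1.const_mul _) (h2.const_mul _)]
  simp only [integral_const_mul]

theorem num_raw {Cs K Cq C₀ m cw Af θ κ a₁ a₂ a₃ s X Pb E₁ E₂ I I0 I1 I2 I3 I4 I5 I6 I7 I8 : ℝ}
    (hCs : 0 < Cs) (hK : 0 < K) (hCq : 0 < Cq) (hC₀ : 0 < C₀) (hm : 0 ≤ m) (hcw : 0 ≤ cw)
    (hA : 0 < Af) (hA1 : Af ≤ 1) (hθ : 0 < θ) (hθ1 : θ ≤ 1 / 8) (hκ : 0 < κ) (ha₁ : 0 ≤ a₁)
    (ha₂ : 0 ≤ a₂) (ha₃ : 0 ≤ a₃) (hs : 0 ≤ s) (hX : 0 ≤ X) (h40 : 0 ≤ I4) (h60 : 0 ≤ I6)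
    (h70 : 0 ≤ I7) (h80 : 0 ≤ I8)
    (h : I ≤ I0 + Cq * (Af * I1 + (θ ^ 2 + θ * a₃) * I2 + (Af * m + θ ^ 2 * m + 1) * I3 + I4 +
      a₃ * I5 + (1 + θ) * I6 + I7 + θ * I8))
    (h0 : I0 ≤ Pb * X + Cs * ((K + 1) * κ + K * s) * X) (h1 : I1 ≤ C₀ * (a₁ + κ) * X)
    (h2 : I2 ≤ C₀ * X) (h3 : I3 ≤ C₀ * (1 + cw) * κ * X) (h4 : I4 ≤ E₁)
    (h5 : I5 ≤ C₀ * (a₂ + κ) * X) (h6 : I6 ≤ E₂) {C : ℝ}
    (hC : C = Cs * (K + 1) + Cq * (2 + C₀ * (1 + (2 * m + 1) * (1 + cw)))) :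
    I ≤ (Pb + C * (Af * (a₁ + κ) + θ ^ 2 + κ + a₃ * (θ + a₂ + κ) + s)) * X + C * (E₁ + E₂) +
      C * I7 + C * θ * I8 := by
  have p1 : 0 ≤ Cs * (K + 1) := by positivity
  have p2 : 0 ≤ Cq * C₀ := by positivity
  have p3 : 0 ≤ Cq * C₀ * ((2 * m + 1) * (1 + cw)) := by positivity
  have c1 : Cq * C₀ ≤ C := by rw [hC]; nlinarith
  have c2 : 2 * Cq ≤ C := by rw [hC]; nlinarith
  have c3 : Cs * (K + 1) + Cq * C₀ * ((2 * m + 1) * (1 + cw)) ≤ C := by rw [hC]; nlinarith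
  have c4 : Cs * K ≤ C := by nlinarith
  have hE₁ : 0 ≤ E₁ := h40.trans h4
  have hE₂ : 0 ≤ E₂ := h60.trans h6
  have hθ2 : θ ^ 2 ≤ 1 := by nlinarith
  have b1 : Cq * (Af * I1) ≤ C * (Af * (a₁ + κ) * X) := by
    calc _ ≤ Cq * (Af * (C₀ * (a₁ + κ) * X)) := by gcongr
      _ = Cq * C₀ * (Af * (a₁ + κ) * X) := by ring
      _ ≤ _ := by gcongr
  have b2 : Cq * ((θ ^ 2 + θ * a₃) * I2) ≤ C * ((θ ^ 2 + θ * a₃) * X) := by
    calc _ ≤ Cq * ((θ ^ 2 + θ * a₃) * (C₀ * X)) := by gcongr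
      _ = Cq * C₀ * ((θ ^ 2 + θ * a₃) * X) := by ring
      _ ≤ _ := by gcongr
  have b3 : Cq * ((Af * m + θ ^ 2 * m + 1) * I3) ≤
      Cq * C₀ * ((2 * m + 1) * (1 + cw)) * (κ * X) := by
    have e1 : Af * m + θ ^ 2 * m + 1 ≤ 2 * m + 1 := by nlinarith
    calc _ ≤ Cq * ((Af * m + θ ^ 2 * m + 1) * (C₀ * (1 + cw) * κ * X)) := by gcongr
      _ ≤ Cq * ((2 * m + 1) * (C₀ * (1 + cw) * κ * X)) := by gcongr
      _ = _ := by ring
  have b3' : (Cs * (K + 1) + Cq * C₀ * ((2 * m + 1) * (1 + cw))) * (κ * X) ≤ C * (κ * X) := by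
    gcongr
  have b4 : Cq * I4 ≤ C * E₁ := mul_le_mul (by linarith) h4 h40 (by linarith)
  have b5 : Cq * (a₃ * I5) ≤ C * (a₃ * (a₂ + κ) * X) := by
    calc _ ≤ Cq * (a₃ * (C₀ * (a₂ + κ) * X)) := by gcongr
      _ = Cq * C₀ * (a₃ * (a₂ + κ) * X) := by ring
      _ ≤ _ := by gcongr
  have b6 : Cq * ((1 + θ) * I6) ≤ C * E₂ := by
    calc _ ≤ Cq * (2 * E₂) := by gcongr; linarith
      _ = 2 * Cq * E₂ := by ring
      _ ≤ _ := by gcongr
  have b7 : Cq * I7 ≤ C * I7 := mul_le_mul_of_nonneg_right (by linarith) h70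
  have b8 : Cq * (θ * I8) ≤ C * (θ * I8) :=
    mul_le_mul_of_nonneg_right (by linarith) (by positivity)
  have b9 : Cs * K * (s * X) ≤ C * (s * X) := by gcongr
  linarith

omit [FiniteDimensional ℝ E] [MeasurableSpace E] [BorelSpace E] in
theorem pair_zero_raw (ε : ℝ) (T : E →L[ℝ] E) : pair ε T 0 = 0 := by
  simp [pair, tr]

theorem np_nonneg_raw (x : ℝ) : 0 ≤ np x := le_max_right _ _

theorem bm_np_raw {f : E → ℝ} (hf : BM f) : BM (fun y => np (f y)) := hf.neg.max (BM.const 0)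

variable (E) in
theorem cell_raw (ι : Type*) [Fintype ι] (C₁ C₂ C₃ c Cp : ℝ) (hC₃ : 1 ≤ C₃) :
    ∃ C L₀ : ℝ, 0 < C ∧ ∀ L, L₀ ≤ L →
    ∀ (D : Dat E ι) (ff Γ : E → ℝ) (Q : ℕ) (η κ t T l r σ a₁ a₂ : ℝ) (z x₁ : E)
    (W : Submodule ℝ E), CH D ff Γ Q C₁ C₂ L η κ t T l r σ a₁ a₂ z x₁ W →
    ∀ (φ : ℝ → ℝ) (ρ Af θ Pb a₃ E₁ E₂ : ℝ) (Err Err₂ : E → ℝ),
    Th W c (thk W (l⁻¹ • (z - foot W x₁ z))) → Prof Cp ρ Af φ → r / l ≤ ρ → 0 < Af → Af ≤ 1 →
    ρ / Af ^ 2 ≤ θ → θ ≤ 1 / 8 → 0 ≤ a₃ →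
    -(Pb * σ) ≤ ∑ i, ∑ j ∈ Finset.range Q, ∫ y, sd (fun y => P t (D.u i j) (foot W x₁ z + l • y))
      (fld W (thk W (l⁻¹ • (z - foot W x₁ z))) φ) y →
    BM Err → (∀ y, 0 ≤ Err y) →
    (∀ y ∈ ball z (2 * l), ∀ e : E, ‖e‖ = 1 → C₃ * P T D.β y - Err y ≤
      P T (fun w => See D.ε D.T e w - (D.sm t).Su Q e w) y) →
    (∫ y in ball z (2 * l) ∩ {y | r ≤ dd W x₁ y}, Err y) ≤ E₁ →
    BM Err₂ → (∀ y, 0 ≤ Err₂ y) →
    (∀ y ∈ ball z (2 * l), P T D.β y ≤ a₃ * P T D.τ y + Err₂ y) →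
    (∫ y in ball z (2 * l), Err₂ y) ≤ E₂ →
    ∫ y, kk l z y * P T D.β y ≤ (Pb + C * (Af * (a₁ + κ) + θ ^ 2 + κ + a₃ * (θ + a₂ + κ) +
        √T / l / ρ ^ 4)) * σ * pk E l + C * (E₁ + E₂) +
      C * (∫ y, kk l z y * np (P T D.β y)) + C * θ * ∫ y in ball z (2 * l), np (P T D.β y) := by
  obtain ⟨Cq, hCq, hpt⟩ := pt_ineq E c Cp C₃ hC₃
  obtain ⟨K, hK, hfld⟩ := fld_bounds (E := E) c Cp
  obtain ⟨C₀, L₁, hC₀, hmass⟩ := mass_all E ι C₁ C₂
  obtain ⟨Cs, L₂, hCs, hsmo⟩ := smo E ι C₀ hC₀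
  have hcw : 0 ≤ (2 + hd E) * 4 ^ hd E := by have := hd_nonneg (V := E); positivity
  refine ⟨Cs * (K + 1) + Cq * (2 + C₀ * (1 + (2 * finrank ℝ E + 1) * (1 + (2 + hd E) * 4 ^ hd E))),
    max 1 (max L₁ L₂), by positivity, ?_⟩
  intro L hL D ff Γ Q η κ t T l r σ a₁ a₂ z x₁ W hc φ ρ Af θ Pb a₃ E₁ E₂ Err Err₂ hth hφ hrρ hA hA1
    hθρ hθ1 ha₃ hPb bErr hErr0 hErr hE₁ bErr₂ hErr₂0 hErr₂ hE₂
  have hL1 : 1 ≤ L := (le_max_left _ _).trans hL
  have hMF := hmass L (((le_max_left _ _).trans (le_max_right _ _)).trans hL) D ff Γ Q η κ t T l r σ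
    a₁ a₂ z x₁ W hc
  have hg := hc.gs
  have hst := hg.st
  have ht := hc.t_pos
  have hκ := hc.κ_pos
  have hr := hc.r_pos
  have hl : 0 < l := hr.trans_le hc.r_le
  have hT : 0 < T := (mul_pos_iff_of_pos_left hκ).1 (ht.trans_le hc.tT)
  have hl1 : l ≤ 1 := hc.l_le.trans (Real.exp_le_one_iff.2 (by linarith))
  have hσ : 0 < σ := (mul_pos_iff_of_pos_left hκ).1 ((Real.exp_pos _).trans_le hc.kz_le)
  have hTl : T ≤ l ^ 2 :=
    ((le_mul_of_one_le_right hT.le (one_le_pow₀ hL1)).trans hc.Tr).trans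
      (pow_le_pow_left₀ hr.le hc.r_le 2)
  have htT : t ≤ T := hc.tT.trans (mul_le_of_le_one_left hT.le hc.κ_le)
  have hρ : 0 < ρ := (div_pos hr hl).trans_le hrρ
  have hθ : 0 < θ := (div_pos hρ (pow_pos hA 2)).trans_le hθρ
  have hpk : 0 < pk E l := div_pos (pow_pos hl _) (pow_pos hl 2)
  set o := foot W x₁ z with ho
  set z₀ := l⁻¹ • (z - o) with hz₀
  set Y := fld W (thk W z₀) φ with hY
  have hYc : ContDiff ℝ 1 Y := fld_contDiff hth hφ
  obtain ⟨hK1, hK2⟩ := hfld W _ φ ρ Af hth hφ hρ hA hA1 (hθρ.trans hθ1)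
  have hsupp : tsupport (scY o l Y) ⊆ ball z (2 * l) :=
    tsupport_scY hl (fld_thk_tsupport (pa_foot W x₁ z l) hφ hρ hθρ hθ1)
  have hYp : ContDiff ℝ 1 (scY o l Y) := contDiff_scY hYc o l
  have h0 := hsmo L (((le_max_right _ _).trans (le_max_right _ _)).trans hL) D ff Γ Q C₁ C₂ η κ t T
    l r σ a₁ a₂ z x₁ W hc hMF (scY o l Y) (K + 1) (K / ρ ^ 4 / l) hYp hsupp
    (norm_scY_le hl hl1 fun y => (norm_fld_le hth hφ hρ hθρ y).trans (by linarith))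
    (fun y => by rw [fderiv_scY hYc hl]; exact (hK1 _).trans (by linarith)) (by positivity)
    (lip_scY hYc hl hK2)
  have hsum : ∑ i, ∑ j ∈ Finset.range Q, ∫ y, sd ((D.sm t).u i j) (scY o l Y) y =
      pk E l * ∑ i, ∑ j ∈ Finset.range Q, ∫ y, sd (fun y => P t (D.u i j) (o + l • y)) Y y := by
    simp only [Finset.mul_sum]
    refine Finset.sum_congr rfl fun i _ => Finset.sum_congr rfl fun j _ => ?_
    rw [integral_sd_scY (cb_sm_u hg ht i j 1).contDiff hYc hl, sm_u hg ht]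
  have h0' : ∫ y, pair (eR D Q t T y) (TR D Q t T y) (fderiv ℝ (scY o l Y) y) ≤
      Pb * (σ * pk E l) + Cs * ((K + 1) * κ + K * (√T / l / ρ ^ 4)) * (σ * pk E l) := by
    have e1 := mul_le_mul_of_nonneg_left hPb hpk.le
    have e2 : K / ρ ^ 4 / l * √T = K * (√T / l / ρ ^ 4) := by ring
    rw [hsum, e2] at h0
    linarith
  have bτ : BM D.τ := hst.bm_τ
  have bβ : BM (P T D.β) := BM.P hst.bm_β hT
  have bΓ : BM Γ := BM.of_continuous hg.c_Γ fun y => by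
    rw [abs_of_nonneg (hg.Γ_nonneg y)]; exact hg.Γ_le y
  have bpar : BM (τpar W D.T) := bτ.of_abs_le (hst.c_τpar W).measurable fun y => by
    rw [abs_of_nonneg (hst.τpar_nonneg W y)]; exact hst.τpar_le W y
  have b1 : BM (P (T + t) Γ) := bΓ.P (by linarith)
  have b2 : BM (P (4 * T) D.τ) := bτ.P (by linarith)
  have bw : BM (wR D Γ κ t T) := b1.add (b2.const_mul _)
  have hA' : MeasurableSet {y | r ≤ dd W x₁ y} :=
    measurableSet_le measurable_const (lipschitz_dd W x₁).continuous.measurable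
  have hB : Bornology.IsBounded (ball z (2 * l)) := isBounded_ball
  have hτ0 : ∀ y, 0 ≤ P T D.τ y := P_nonneg hT.le hst.τ_nonneg
  have cpair : Continuous fun y => pair (eR D Q t T y) (TR D Q t T y) (fderiv ℝ (scY o l Y) y) := by
    have c1 := hYp.continuous_fderiv one_ne_zero
    exact ((continuous_eR hg ht hT).mul (AS.continuous_tr.comp c1)).sub
      (AS.continuous_tr.comp ((continuous_TR hg ht hT).clm_comp c1))
  have key := comb_raw (μ := volume.restrict (ball z (2 * l))) (C := Cq) (c1 := Af)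
    (c2 := θ ^ 2 + θ * a₃) (c3 := Af * finrank ℝ E + θ ^ 2 * finrank ℝ E + 1) (c5 := a₃)
    (c6 := 1 + θ) (c8 := θ) (integrable_kk_mul hl z bβ).integrableOn
    ((cpair.continuousOn.integrableOn_compact (isCompact_closedBall z (2 * l))).mono_set
      ball_subset_closedBall)
    ((bpar.P hT).integrableOn hB) ((bτ.P hT).integrableOn hB) (bw.integrableOn hB)
    ((bErr.indicator hA').integrableOn hB) (((bτ.P hT).indicator hA').integrableOn hB)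
    (bErr₂.integrableOn hB) (integrable_kk_mul hl z (bm_np_raw bβ)).integrableOn
    ((bm_np_raw bβ).integrableOn hB) (by
      refine (ae_restrict_iff' measurableSet_ball).2 (Eventually.of_forall fun y hy => ?_)
      have hp0 : 0 ≤ a₃ * P T D.τ y + Err₂ y := add_nonneg (mul_nonneg ha₃ (hτ0 y)) (hErr₂0 y)
      have h1 := hpt W z₀ (l⁻¹ • (y - o)) φ ρ Af θ (eR D Q t T y) (wR D Γ κ t T y) (Err y)
        (a₃ * P T D.τ y + Err₂ y) (TR D Q t T y) hc.dim hth hφ hρ hA hA1 hθρ hθ1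
        (TR_symm hg ht hT y) (wR_nonneg hg ht hT hκ.le y) (TR_psd hg ht hc.tT hκ hc.κ_le y)
        (hErr0 y) hp0 (by rw [R_beta hg ht hT]; exact hErr₂ y hy)
        (fun e he => by rw [R_beta hg ht hT, R_see hg ht hT]; exact hErr y hy e he)
      rw [R_beta hg ht hT, ← kk_scale hl, ← fderiv_scY hYc hl, norm_pe_foot hl] at h1
      have h2 : (if ρ ≤ dd W x₁ y / l then Err y + (a₃ * P T D.τ y + Err₂ y) else 0) ≤
          {y | r ≤ dd W x₁ y}.indicator Err y + a₃ * {y | r ≤ dd W x₁ y}.indicator (P T D.τ) y +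
            Err₂ y := by
        split_ifs with hy'
        · have h3 : y ∈ {y | r ≤ dd W x₁ y} := (div_le_div_iff_of_pos_right hl).1 (hrρ.trans hy')
          rw [indicator_of_mem h3, indicator_of_mem h3]
          linarith
        · exact add_nonneg (add_nonneg (indicator_nonneg (fun y _ => hErr0 y) y)
            (mul_nonneg ha₃ (indicator_nonneg (fun y _ => hτ0 y) y))) (hErr₂0 y)
      have h4 := mul_le_mul_of_nonneg_left (R_par hg ht hT W y) hA.le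
      have h5 := mul_le_mul_of_nonneg_left (R_tr hg ht hT y) (sq_nonneg θ)
      refine h1.trans (add_le_add le_rfl (mul_le_mul_of_nonneg_left ?_ hCq.le))
      linarith)
  have hk0 : ∀ y, y ∉ ball z (2 * l) → kk l z y = 0 := fun y hy =>
    kk_eq_zero hl (by rw [mem_ball, dist_eq_norm, not_lt] at hy; linarith)
  rw [setIntegral_eq_integral_of_forall_compl_eq_zero fun y hy => by rw [hk0 y hy, zero_mul],
    setIntegral_eq_integral_of_forall_compl_eq_zero (f := fun y => kk l z y * np (P T D.β y))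
      fun y hy => by rw [hk0 y hy, zero_mul],
    setIntegral_eq_integral_of_forall_compl_eq_zero
      (f := fun y => pair (eR D Q t T y) (TR D Q t T y) (fderiv ℝ (scY o l Y) y)) fun y hy => by
        rw [fderiv_of_notMem_tsupport ℝ fun h => hy (hsupp h), pair_zero_raw],
    setIntegral_indicator hA', setIntegral_indicator hA'] at key
  have hw : ∫ y in ball z (2 * l), wR D Γ κ t T y ≤
      C₀ * (1 + (2 + hd E) * 4 ^ hd E) * κ * (σ * pk E l) := by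
    have e1 := hMF.m2 (T + t) (by linarith) (by nlinarith)
    have e2 := mul_le_mul_of_nonneg_left (hMF.m1 (4 * T) (by linarith) (by nlinarith))
      (mul_nonneg hcw hκ.le)
    unfold wR
    rw [integral_add (b1.integrableOn hB) ((b2.const_mul _).integrableOn hB), integral_const_mul]
    linarith
  rw [mul_assoc _ σ]
  exact num_raw hCs hK hCq hC₀ (Nat.cast_nonneg _) hcw hA hA1 hθ hθ1 hκ hc.a₁_nonneg hc.a₂_nonneg
    ha₃ (by positivity) (by positivity) (integral_nonneg hErr0) (integral_nonneg hErr₂0)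
    (integral_nonneg fun y => mul_nonneg (kk_nonneg _ _ _) (np_nonneg_raw _))
    (integral_nonneg fun y => np_nonneg_raw _) key h0' (hMF.m3.trans_eq (mul_assoc _ _ _))
    ((hMF.m1 T hT (by nlinarith)).trans_eq (mul_assoc _ _ _)) hw hE₁
    (hMF.m4.trans_eq (mul_assoc _ _ _)) hE₂ rfl

end Pool.Agent.Lib.MP_8daebb_an.PR
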