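import Pool.Agent.Lib.MP_8daebb_an.PR.Ibp

/-! Representation of the gradient through the heat flow. -/

open MeasureTheory Metric Set Module Real Filter Topology
open scoped RealInnerProductSpace

namespace Pool.Agent.Lib.MP_8daebb_an.PR

open HK AS

variable {E : Type*} [NormedAddCommGroup E] [InnerProductSpace ℝ E] [FiniteDimensional ℝ E]
  [MeasurableSpace E] [BorelSpace E]

variable {g u : E → ℝ} {s T : ℝ}

theorem Cb.c1b (hg : Cb 1 g) : C1b g :=
  ⟨hg.bm, by simpa using hg.contDiff, Cb.fderiv_bdd (n := 0) hg⟩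

theorem Cb.c2b (hg : Cb 2 g) : C2b g :=
  ⟨(hg.of_le one_le_two).c1b, by simpa using hg.contDiff,
    fun e => (Cb.pd (n := 1) hg e).c1b⟩

theorem fderiv_P_apply (hg : BM g) (hs : 0 < s) (y v : E) :
    fderiv ℝ (P s g) y v = ∫ y', G s (y' - y) * (⟪y' - y, v⟫ / (2 * s)) * g y' := by
  rw [fderiv_P_eq_integral hg hs]
  congr 1
  funext y'
  ring

theorem pd_P (hg : Cb 1 g) (hs : 0 < s) (v y : E) : pd v (P s g) y = P s (pd v g) y :=
  fderiv_P_comm hg.c1b hs y v

theorem cb_P_aux (n : ℕ) : ∀ {g : E → ℝ} {s : ℝ}, BM g → 0 < s → Cb n (P s g) := by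
  induction n with
  | zero => exact fun hg hs => ⟨continuous_P hg hs, (hg.P hs).bdd⟩
  | succ n ih =>
    intro g s hg hs
    refine ⟨⟨continuous_P hg hs, (hg.P hs).bdd⟩, differentiable_P hg hs, fun e => ?_⟩
    have h : pd e (P s g) = P (s / 2) (fun x => fderiv ℝ (P (s / 2) g) x e) := by
      rw [← fderiv_P_eq_P hg (half_pos hs) (half_pos hs) e, add_halves]
      rfl
    rw [h]
    exact ih (hg.fderiv_P (half_pos hs) e) (half_pos hs)

theorem cb_P (hg : BM g) (n : ℕ) (hs : 0 < s) : Cb n (P s g) := cb_P_aux n hg hs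

theorem lap_P_cb (hg : Cb 2 g) (hs : 0 < s) (y : E) : lap (P s g) y = P s (lap g) y :=
  lap_P_comm hg.c2b hs y

theorem hasDerivAt_P_cb (hg : Cb 2 g) (hs : 0 < s) (y : E) :
    HasDerivAt (fun t => P t g y) (P s (lap g) y) s := by
  rw [← lap_P_cb hg hs]
  exact hasDerivAt_P_lap hg.bm hs y

theorem intervalIntegrable_P (hg : BM g) (hT : 0 < T) (y : E) :
    IntervalIntegrable (fun s => P s g y) volume 0 T := by
  obtain ⟨C, hC⟩ := hg.bdd
  rw [intervalIntegrable_iff_integrableOn_Ioc_of_le hT.le]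
  refine Measure.integrableOn_of_bounded (M := C) measure_Ioc_lt_top.ne
    ((measurable_P hg.meas).comp measurable_prodMk_right).aestronglyMeasurable ?_
  filter_upwards [ae_restrict_mem measurableSet_Ioc] with s hs
  exact abs_P_le_const hs.1 hC y

theorem tendsto_P_zero (hg : Cb 1 g) (y : E) :
    Tendsto (fun s => P s g y) (𝓝[>] 0) (𝓝 (g y)) := by
  obtain ⟨K, hK⟩ := Cb.fderiv_bdd (n := 0) hg
  have K0 : 0 ≤ K := (norm_nonneg _).trans (hK y)
  have hd' : Differentiable ℝ g := hg.2.1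
  have hl : ∀ z, |g z - g y| ≤ K * ‖z - y‖ := fun z =>
    Convex.norm_image_sub_le_of_norm_fderiv_le (s := univ) (fun x _ => hd' x) (fun x _ => hK x)
      convex_univ (mem_univ y) (mem_univ z)
  rw [tendsto_iff_norm_sub_tendsto_zero]
  have h0 : Tendsto (fun s : ℝ => 5 * 2 ^ hd E * √s * K) (𝓝[>] 0) (𝓝 0) := by
    have hc : Continuous (fun s : ℝ => 5 * 2 ^ hd E * √s * K) := by fun_prop
    have := (hc.tendsto 0).mono_left (nhdsWithin_le_nhds (s := Ioi 0))
    simpa using this
  refine squeeze_zero' (Eventually.of_forall fun _ => norm_nonneg _) ?_ h0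
  filter_upwards [self_mem_nhdsWithin] with s hs
  exact abs_P_sub_self hg.bm hs K0 hl

theorem P_sub_eq (hg : Cb 2 g) (hT : 0 < T) (y : E) :
    P T g y - g y = ∫ s in (0 : ℝ)..T, P s (lap g) y := by
  refine (intervalIntegral.integral_eq_sub_of_hasDerivAt_of_tendsto (f := fun t => P t g y) hT
    (fun s hs => hasDerivAt_P_cb hg hs.1 y)
    (intervalIntegrable_P (Cb.lap (n := 0) hg).bm hT y)
    (tendsto_P_zero (hg.of_le one_le_two) y) ?_).symm
  exact (hasDerivAt_P_cb hg hT y).continuousAt.tendsto.mono_left nhdsWithin_le_nhds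

theorem fubini_P {w h : E → ℝ} (hw : Integrable w) (hh : BM h) (hT : 0 < T) :
    IntervalIntegrable (fun s => ∫ y, w y * P s h y) volume 0 T ∧
      ∫ y, w y * ∫ s in (0 : ℝ)..T, P s h y = ∫ s in (0 : ℝ)..T, ∫ y, w y * P s h y := by
  obtain ⟨C, hC⟩ := hh.bdd
  have hi : Integrable (fun p : E × ℝ => w p.1 * P p.2 h p.1)
      ((volume : Measure E).prod ((volume : Measure ℝ).restrict (Ioc 0 T))) := by
    have hm : Measurable (fun p : E × ℝ => P p.2 h p.1) :=
      (measurable_P hh.meas).comp measurable_swap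
    refine Integrable.mono' (hw.abs.mul_prod (integrable_const C))
      (hw.aestronglyMeasurable.comp_fst.mul hm.aestronglyMeasurable) ?_
    have ha : ∀ᵐ p : E × ℝ ∂((volume : Measure E).prod ((volume : Measure ℝ).restrict (Ioc 0 T))),
        p.2 ∈ Ioc 0 T :=
      Measure.quasiMeasurePreserving_snd.ae (ae_restrict_mem measurableSet_Ioc)
    filter_upwards [ha] with p hp
    rw [Real.norm_eq_abs, abs_mul]
    exact mul_le_mul_of_nonneg_left (abs_P_le_const hp.1 hC _) (abs_nonneg _)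
  refine ⟨?_, ?_⟩
  · rw [intervalIntegrable_iff_integrableOn_Ioc_of_le hT.le]
    exact hi.integral_prod_right
  · simp only [intervalIntegral.integral_of_le hT.le, ← integral_const_mul]
    exact integral_integral_swap (f := fun y s => w y * P s h y) hi

theorem itr_eq {ι : Type*} [Fintype ι] (b : OrthonormalBasis ι ℝ E) {σ : E → ℝ} (hσ : Cb 1 σ)
    {Y : E → E} (hw : ∀ i, Integrable (fun y => σ y * ⟪Y y, b i⟫)) (hs : 0 < s) :
    itr σ Y s = -∑ i, ∫ y, σ y * ⟪Y y, b i⟫ * P s (pd (b i) σ) y := by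
  rw [← integral_finsetSum _ fun i _ =>
    (((Cb.pd (n := 0) hσ (b i)).bm.P hs).integrable_mul (hw i)), ← integral_neg]
  unfold itr
  congr 1
  funext y
  have h1 : ∫ y', G s (y' - y) * (⟪y - y', Y y⟫ / (2 * s)) * σ y' =
      -fderiv ℝ (P s σ) y (Y y) := by
    rw [fderiv_P_apply hσ.bm hs, ← integral_neg]
    congr 1
    funext y'
    rw [← neg_sub y' y, inner_neg_left]
    ring
  rw [h1, ← sum_inner_mul_apply b (fderiv ℝ (P s σ) y) (Y y), mul_neg, Finset.mul_sum]
  congr 1
  refine Finset.sum_congr rfl fun i _ => ?_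
  rw [← pd_P hσ hs, mul_assoc]
  rfl

theorem rep (hu : Cb 3 u) {Y : E → E} (hY : Continuous Y) (hc : HasCompactSupport Y)
    (hT : 0 < T) : IntervalIntegrable (itr (lap u) Y) volume 0 T ∧
    ∫ y, lap u y * fderiv ℝ u y (Y y) =
      (∫ y, lap u y * fderiv ℝ (P T u) y (Y y)) + ∫ s in (0 : ℝ)..T, itr (lap u) Y s := by
  set b := stdOrthonormalBasis ℝ E
  have hσ : Cb 1 (lap u) := Cb.lap (n := 1) hu
  have hu1 : Cb 1 u := hu.of_le (by norm_num)
  have hu3 : ContDiff ℝ 3 u := by simpa using hu.contDiff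
  have hw : ∀ i, Integrable (fun y => lap u y * ⟪Y y, b i⟫) := fun i => by
    refine hσ.bm.mul_integrable (Continuous.integrable_of_hasCompactSupport (by fun_prop) ?_)
    exact hc.comp_left (g := fun v : E => ⟪v, b i⟫) (inner_zero_left _)
  have hb : ∀ i, BM (pd (b i) (lap u)) := fun i => (Cb.pd (n := 0) hσ (b i)).bm
  have hF := fun i => fubini_P (hw i) (hb i) hT
  have he : EqOn (fun s => -∑ i, ∫ y, lap u y * ⟪Y y, b i⟫ * P s (pd (b i) (lap u)) y)
      (itr (lap u) Y) (Set.uIoc 0 T) := fun s hs => by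
    rw [uIoc_of_le hT.le] at hs
    exact (itr_eq b hσ hw hs.1).symm
  have hI : IntervalIntegrable
      (fun s => ∑ i, ∫ y, lap u y * ⟪Y y, b i⟫ * P s (pd (b i) (lap u)) y) volume 0 T := by
    have := IntervalIntegrable.sum Finset.univ fun i _ => (hF i).1
    refine this.congr fun s _ => ?_
    simp only [Finset.sum_apply]
  refine ⟨hI.neg.congr he, ?_⟩
  have h2 : ∫ s in (0 : ℝ)..T, itr (lap u) Y s =
      -∑ i, ∫ y, lap u y * ⟪Y y, b i⟫ * (P T (pd (b i) u) y - pd (b i) u y) := by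
    rw [← intervalIntegral.integral_congr_ae (Eventually.of_forall fun s hs => he hs),
      intervalIntegral.integral_neg, intervalIntegral.integral_finsetSum fun i _ => (hF i).1]
    congr 1
    refine Finset.sum_congr rfl fun i _ => ?_
    rw [← (hF i).2]
    congr 1
    funext y
    rw [P_sub_eq (Cb.pd (n := 2) hu (b i)) hT, pd_lap hu3]
  have hp : ∀ i, BM (pd (b i) u) := fun i => (Cb.pd (n := 2) hu (b i)).bm
  have h3 : ∫ y, lap u y * fderiv ℝ u y (Y y) =
      ∑ i, ∫ y, lap u y * ⟪Y y, b i⟫ * pd (b i) u y := by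
    rw [← integral_finsetSum _ fun i _ => (hp i).integrable_mul (hw i)]
    congr 1
    funext y
    rw [← sum_inner_mul_apply b (fderiv ℝ u y) (Y y), Finset.mul_sum]
    exact Finset.sum_congr rfl fun i _ => (mul_assoc _ _ _).symm
  have h4 : ∫ y, lap u y * fderiv ℝ (P T u) y (Y y) =
      ∑ i, ∫ y, lap u y * ⟪Y y, b i⟫ * P T (pd (b i) u) y := by
    rw [← integral_finsetSum _ fun i _ => ((hp i).P hT).integrable_mul (hw i)]
    congr 1
    funext y
    rw [← sum_inner_mul_apply b (fderiv ℝ (P T u) y) (Y y), Finset.mul_sum]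
    refine Finset.sum_congr rfl fun i _ => ?_
    rw [← pd_P hu1 hT, mul_assoc]
    rfl
  rw [h2, h3, h4, ← sub_eq_add_neg, ← Finset.sum_sub_distrib]
  refine Finset.sum_congr rfl fun i _ => ?_
  rw [← integral_sub (((hp i).P hT).integrable_mul (hw i))
    ((((hp i).P hT).sub (hp i)).integrable_mul (hw i))]
  congr 1
  funext y
  ring

end Pool.Agent.Lib.MP_8daebb_an.PR
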