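import Pool.Agent.Lib.MP_8daebb_an.PR.TopA

/-! The bound for the top level. -/

open MeasureTheory Metric Set Module Real Filter Topology
open scoped RealInnerProductSpace

namespace Pool.Agent.Lib.MP_8daebb_an.PR

open HK AS

variable {E : Type*} [NormedAddCommGroup E] [InnerProductSpace ℝ E] [FiniteDimensional ℝ E]
  [MeasurableSpace E] [BorelSpace E]

theorem int_const_topb {F : ℝ → ℝ} {T b : ℝ} (hT : 0 ≤ T)
    (hF : IntervalIntegrable (fun t => t * F t) volume 0 T) (hb : 0 ≤ b)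
    (h : ∀ t, 0 < t → t ≤ T → t * F t ≤ b) : ∫ t in (0 : ℝ)..T, t * F t ≤ T * b := by
  have := intervalIntegral.integral_mono_on hT hF (intervalIntegrable_const (c := b)) (fun t ht => by
    rcases ht.1.eq_or_lt with h0 | h0
    · rw [← h0, zero_mul]; exact hb
    · exact h t h0 ht.2)
  simpa using this

theorem int_log_topb {F : ℝ → ℝ} {T T1 a b : ℝ} (h0 : 0 < T1) (h1 : T1 ≤ T) (h2 : T ≤ 1)
    (hF : IntervalIntegrable F volume T1 T) (hb : 0 ≤ b)
    (h : ∀ t, T1 ≤ t → t ≤ T → F t ≤ a * t⁻¹ + b) :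
    ∫ t in T1..T, F t ≤ a * Real.log (T / T1) + b := by
  have hn : (0 : ℝ) ∉ uIcc T1 T := by
    rw [uIcc_of_le h1]
    exact fun hh => absurd hh.1 (not_le.2 h0)
  have hi : IntervalIntegrable (fun t : ℝ => t⁻¹) volume T1 T :=
    intervalIntegral.intervalIntegrable_inv (fun x hx hx0 => hn (hx0 ▸ hx)) continuousOn_id
  have := intervalIntegral.integral_mono_on h1 hF
    ((hi.const_mul a).add (intervalIntegrable_const (c := b))) (fun t ht => h t ht.1 ht.2)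
  rw [intervalIntegral.integral_add (hi.const_mul a) intervalIntegrable_const,
    intervalIntegral.integral_const_mul, integral_inv hn, intervalIntegral.integral_const,
    smul_eq_mul] at this
  nlinarith

theorem ww_parts_topb {L : Submodule ℝ E} {V Γ : E → ℝ} {E0 E1 g1 AΓ t0 A T T1 : ℝ}
    (h : Top L V Γ E0 E1 g1 AΓ t0 A) (h0 : 0 < T1) (h1 : T1 ≤ T) (k : ℕ) :
    0 ≤ E1 * (1 / T) ∧ 0 ≤ E1 * Real.log (T / T1) ∧ 0 ≤ E1 ∧ 0 ≤ T1 * E0 ∧
      0 ≤ g1 ^ 2 * T1 ^ (-(k / 2 : ℝ)) ∧ 0 ≤ gg g1 AΓ t0 ∧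
      ww k T T1 E0 E1 g1 AΓ t0 = E1 * (1 / T) + E1 * Real.log (T / T1) + E1 + T1 * E0 +
        g1 ^ 2 * T1 ^ (-(k / 2 : ℝ)) + gg g1 AΓ t0 := by
  obtain ⟨a0, a1, -, -, a4⟩ := h.nonneg
  have hT : 0 < T := h0.trans_le h1
  have hl : 0 ≤ Real.log (T / T1) := Real.log_nonneg ((one_le_div h0).2 h1)
  refine ⟨by positivity, by positivity, a1, by positivity, by positivity, a4, ?_⟩
  unfold ww
  ring

theorem rpow_le_topb {t T1 : ℝ} (h0 : 0 < T1) (h1 : T1 ≤ t) (k : ℕ) :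
    t ^ (-(k / 2 : ℝ)) ≤ T1 ^ (-(k / 2 : ℝ)) :=
  Real.rpow_le_rpow_of_nonpos h0 h1 (neg_nonpos.2 (by positivity))

theorem zc_lt_topb (L : Submodule ℝ E) {a b : ℝ} (hab : a < b) (hb : b ≤ 25 / 4) (y : E)
    (h : zc L a b y ≠ 0) : ‖y‖ < 3 :=
  mem_ball_zero_iff.1 (zc_tsupport L hab hb (subset_tsupport _ h))

theorem zt_ts_topb (L : Submodule ℝ E) : tsupport (zt L) ⊆ ball (0 : E) 3 :=
  zc_tsupport L (by norm_num) (by norm_num)

theorem pd_ts_topb (e : E) (f : E → ℝ) : tsupport (pd e f) ⊆ tsupport f :=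
  tsupport_fderiv_apply_subset ℝ e

theorem gam_mul_topb {L : Submodule ℝ E} {V Γ : E → ℝ} {E0 E1 g1 AΓ t0 A a b t : ℝ}
    (h : Top L V Γ E0 E1 g1 AΓ t0 A) (hab : a < b) (hb : b ≤ 25 / 4) (ht : 0 < t) (ht1 : t ≤ 1) :
    t * ph (fun y => zc L a b y * Γ y) t ≤ gg g1 AΓ t0 := by
  obtain ⟨-, -, a2, a3, -⟩ := h.nonneg
  have h1 := gam_ph h (zc_cc L hab 0) (zc_nonneg L a b) (zc_le_one L a b) (zc_lt_topb L hab hb)
    (s := t) ⟨ht, by linarith⟩
  have h2 := h.t0_pos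
  have h3 := h.AΓ0
  refine le_trans ?_ a3
  refine (mul_le_mul_of_nonneg_left h1 ht.le).trans ?_
  rw [← mul_div_assoc, div_le_iff₀ (by positivity)]
  have : 0 ≤ g1 * AΓ * t0 := by positivity
  nlinarith

theorem lap_cb_topb {L : Submodule ℝ E} {V Γ : E → ℝ} {E0 E1 g1 AΓ t0 A : ℝ}
    (h : Top L V Γ E0 E1 g1 AΓ t0 A) : Cb 1 (lap V) := Cb.lap (n := 1) h.hV

variable (E) in
theorem last_term : ∃ C : ℝ, 0 < C ∧ ∀ (L : Submodule ℝ E) (V Γ : E → ℝ)
    (E0 E1 g1 AΓ t0 A T T1 : ℝ) (e : E), Top L V Γ E0 E1 g1 AΓ t0 A → 0 < T1 → T1 ≤ T → T ≤ 1 →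
    e ∈ L → ‖e‖ ≤ 1 → ∫ t in (0 : ℝ)..T, t * ph (fun y => pd e (zt L) y * lap V y) t ≤
      C * ww (finrank ℝ L) T T1 E0 E1 g1 AΓ t0 := by
  obtain ⟨B, hB1, hB⟩ := zt_bounds E
  obtain ⟨C1, hC1, H1⟩ := mul_lap_small E
  obtain ⟨C2, hC2, H2⟩ := proj_bound E
  have hB0 : 0 < B := lt_of_lt_of_le one_pos hB1
  refine ⟨C1 * B ^ 2 + 2 * B ^ 2 * C2 + 2 * B ^ 2, by positivity, ?_⟩
  intro L V Γ E0 E1 g1 AΓ t0 A T T1 e h h0 h1 h2 he hn
  obtain ⟨w1, w2, w3, w4, w5, w6, w7⟩ := ww_parts_topb h h0 h1 (finrank ℝ L)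
  have hE0 := h.nonneg.1
  have hχ : ∀ k, Cc k (pd e (zt L)) := fun k => (zt_cc L (k + 1)).pd e
  have hf : Cc 0 (fun y => pd e (zt L) y * lap V y) :=
    (hχ 0).mul ((lap_cb_topb h).of_le (Nat.zero_le 1)).contDiff
  have hz : Cc 0 (zc L 4 (25 / 4)) := zc_cc L (by norm_num) 0
  have hN : Cc 0 (fun y => zc L 4 (25 / 4) y * chg V Γ y) :=
    hz.mul (h.cb_chg.of_le (Nat.zero_le 1)).contDiff
  have hG : Cc 0 (fun y => zc L 4 (25 / 4) y * Γ y) :=
    hz.mul (h.hΓ.of_le (Nat.zero_le 1)).contDiff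
  have i1 := int_const_topb (b := C1 * B ^ 2 * E0) h0.le (ii_mul_ph hf le_rfl h0.le)
    (by positivity) (fun t ht ht1 =>
      (H1 V _ B E0 t (h.hV.of_le (by norm_num)) (hχ 1)
        ((pd_ts_topb e _).trans (zt_ts_topb L)) (fun y => (hB L y e e hn hn).1)
        (fun y e' he' => (hB L y e e' hn he').2.1) h.e0 ht (by linarith)).1)
  have i2 := int_log_topb (a := 2 * B ^ 2 * C2 * E1)
    (b := 2 * B ^ 2 * C2 * (E1 + g1 ^ 2 * T1 ^ (-(finrank ℝ L / 2 : ℝ))) +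
      2 * B ^ 2 * gg g1 AΓ t0) h0 h1 h2 (ii_mul_ph hf h0.le (h0.le.trans h1)) (by positivity)
    (fun t ht1 ht2 => by
      have ht : 0 < t := h0.trans_le ht1
      have m1 : ph (fun y => pd e (zt L) y * lap V y) t ≤
          ph (fun y => B * (zc L 4 (25 / 4) y * chg V Γ y + zc L 4 (25 / 4) y * Γ y)) t := by
        refine ph_mono hf ((hN.add hG).const_mul B) (fun y => ?_) ht
        have a1 := (hB L y e e hn hn).2.2 he
        have a2 : |lap V y| ≤ chg V Γ y + Γ y := by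
          have b1 := h.N0 y
          have b2 := h.Γ0 y
          unfold chg at b1 ⊢
          rw [abs_le]
          constructor <;> linarith
        rw [abs_mul]
        refine (mul_le_mul a1 a2 (abs_nonneg _)
          (mul_nonneg hB0.le (zc_nonneg L _ _ y))).trans (le_of_eq ?_)
        ring
      rw [ph_const_mul] at m1
      have m2 := ph_add_le hN hG ht
      have m3 := H2 L V Γ E0 E1 g1 AΓ t0 A 4 (25 / 4) t h (by norm_num) le_rfl ht
      have m4 := gam_mul_topb (a := 4) (b := 25 / 4) h (by norm_num) le_rfl ht (ht2.trans h2)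
      have m5 := mul_le_mul_of_nonneg_left (rpow_le_topb h0 ht1 (finrank ℝ L)) (sq_nonneg g1)
      have m6 := mul_le_mul_of_nonneg_left m5 hC2.le
      have m7 : t * ph (fun y => pd e (zt L) y * lap V y) t ≤ B ^ 2 *
          (2 * (t * ph (fun y => zc L 4 (25 / 4) y * chg V Γ y) t) +
            2 * (t * ph (fun y => zc L 4 (25 / 4) y * Γ y) t)) := by
        refine (mul_le_mul_of_nonneg_left
          (m1.trans (mul_le_mul_of_nonneg_left m2 (sq_nonneg B))) ht.le).trans (le_of_eq ?_)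
        ring
      refine m7.trans ?_
      have m8 : 2 * (t * ph (fun y => zc L 4 (25 / 4) y * chg V Γ y) t) +
          2 * (t * ph (fun y => zc L 4 (25 / 4) y * Γ y) t) ≤ 2 * C2 * E1 * t⁻¹ +
            (2 * C2 * (E1 + g1 ^ 2 * T1 ^ (-(finrank ℝ L / 2 : ℝ))) + 2 * gg g1 AΓ t0) := by
        rw [one_div] at m3
        nlinarith
      refine (mul_le_mul_of_nonneg_left m8 (sq_nonneg B)).trans (le_of_eq ?_)
      ring)
  rw [← intervalIntegral.integral_add_adjacent_intervals (ii_mul_ph hf le_rfl h0.le)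
    (ii_mul_ph hf h0.le (h0.le.trans h1)), w7]
  refine (add_le_add i1 i2).trans ?_
  have p1 : 0 ≤ C1 * B ^ 2 := by positivity
  have p2 : 0 ≤ 2 * B ^ 2 * C2 := by positivity
  have p3 : 0 ≤ 2 * B ^ 2 := by positivity
  have q : T1 * (C1 * B ^ 2 * E0) = C1 * B ^ 2 * (T1 * E0) := by ring
  have q2 : 2 * B ^ 2 * C2 * E1 * Real.log (T / T1) =
    2 * B ^ 2 * C2 * (E1 * Real.log (T / T1)) := by ring
  rw [q, q2]
  generalize C1 * B ^ 2 = c1 at *
  generalize 2 * B ^ 2 * C2 = c2 at *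
  generalize 2 * B ^ 2 = c3 at *
  generalize E1 * (1 / T) = x1 at *
  generalize E1 * Real.log (T / T1) = x2 at *
  generalize T1 * E0 = x4 at *
  generalize g1 ^ 2 * T1 ^ (-(finrank ℝ L / 2 : ℝ)) = x5 at *
  generalize gg g1 AΓ t0 = x6 at *
  have : (c1 + c2 + c3) * (x1 + x2 + E1 + x4 + x5 + x6) =
      c1 * x4 + (c2 * x2 + (c2 * (E1 + x5) + c3 * x6)) + (c1 * (x1 + x2 + E1 + x5 + x6) +
        c2 * (x1 + x4 + x6) + c3 * (x1 + x2 + E1 + x4 + x5)) := by ring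
  rw [this]
  exact le_add_of_nonneg_right (by positivity)

theorem par_eq_topb {ι : Type*} [Fintype ι] (b : OrthonormalBasis ι ℝ E) {z V : E → ℝ}
    (hz : ContDiff ℝ 2 z) (hV : ContDiff ℝ 3 V) (e : E) :
    pd e (fun y => z y * lap V y) = fun y => (lap (fun y => z y * pd e V y) y +
      (-2) * ∑ j, pd (b j) (fun y => pd (b j) z y * pd e V y) y) +
        (lap z y * pd e V y + pd e z y * lap V y) := by
  funext y
  have hW : ContDiff ℝ 2 (pd e V) := contDiff_pd (n := 2) hV e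
  have hl : ContDiff ℝ 1 (lap V) := contDiff_lap (n := 1) hV
  have hj : ∀ j, pd (b j) (fun y => pd (b j) z y * pd e V y) y =
      pd (b j) (pd (b j) z) y * pd e V y + pd (b j) z y * pd (b j) (pd e V) y := fun j =>
    pd_mul ((contDiff_pd (n := 1) hz (b j)).differentiable (by norm_num))
      (hW.differentiable (by norm_num)) _ _
  rw [pd_mul (hz.differentiable (by norm_num)) (hl.differentiable (by norm_num)), pd_lap hV,
    lap_mul_pd b hz hW, lap_eq_pd b hz]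
  simp only [hj, Finset.sum_add_distrib, ← Finset.sum_mul]
  ring

theorem sq_int_topb {L : Submodule ℝ E} {V Γ w : E → ℝ} {E0 E1 g1 AΓ t0 A B : ℝ} {e : E}
    (h : Top L V Γ E0 E1 g1 AΓ t0 A) (he : e ∈ L) (hn : ‖e‖ ≤ 1) (hw : ∀ y, |w y| ≤ B)
    (h3 : ∀ y, w y ≠ 0 → ‖y‖ < 3) (hc : Continuous w) :
    ∫ y, (w y * pd e V y) ^ 2 ≤ B ^ 2 * E1 := by
  have hV : ContDiff ℝ 1 V := (h.hV.of_le (k := 1) (by norm_num)).contDiff
  refine (integral_sq_mul_le (k := fun y => ‖(fderiv ℝ V y).comp (pa L)‖) hw h3 hc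
    (h.hV.pd e).continuous
    ((hV.continuous_fderiv (by norm_num)).clm_comp continuous_const).norm fun y => ?_).trans
    (mul_le_mul_of_nonneg_left h.e1 (sq_nonneg B))
  have e1 : pd e V y = ((fderiv ℝ V y).comp (pa L)) e := by
    rw [ContinuousLinearMap.comp_apply, pa_of_mem L he]; rfl
  rw [e1, ← Real.norm_eq_abs]
  exact (ContinuousLinearMap.le_opNorm _ _).trans (mul_le_of_le_one_right (norm_nonneg _) hn)

variable (E) in
theorem par_term : ∃ C : ℝ, 0 < C ∧ ∀ (L : Submodule ℝ E) (V Γ : E → ℝ)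
    (E0 E1 g1 AΓ t0 A T T1 : ℝ) (e : E), Top L V Γ E0 E1 g1 AΓ t0 A → 0 < T1 → T1 ≤ T → T ≤ 1 →
    e ∈ L → ‖e‖ ≤ 1 → ∫ t in (0 : ℝ)..T, t * ph (pd e (fun y => zt L y * lap V y)) t ≤
      C * ww (finrank ℝ L) T T1 E0 E1 g1 AΓ t0 := by
  obtain ⟨B, hB1, hB⟩ := zt_bounds E
  obtain ⟨C4, hC4, H4⟩ := last_term E
  have hB0 : 0 < B := lt_of_lt_of_le one_pos hB1
  refine ⟨8 + 20 * (finrank ℝ E * B) ^ 2 + 4 * C4, by positivity, ?_⟩
  intro L V Γ E0 E1 g1 AΓ t0 A T T1 e h h0 h1 h2 he hn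
  obtain ⟨w1, w2, w3, w4, w5, w6, w7⟩ := ww_parts_topb h h0 h1 (finrank ℝ L)
  have hT : 0 < T := h0.trans_le h1
  set b := stdOrthonormalBasis ℝ E with hb
  have hb1 : ∀ j, ‖b j‖ ≤ 1 := fun j => (b.orthonormal.1 j).le
  have hW : Cb 2 (pd e V) := h.hV.pd e
  have f1 : Cc 2 (fun y => zt L y * pd e V y) := (zt_cc L 2).mul hW.contDiff
  have f2 : ∀ j, Cc 1 (fun y => pd (b j) (zt L) y * pd e V y) := fun j =>
    ((zt_cc L 2).pd (b j)).mul (hW.of_le (by norm_num)).contDiff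
  have f2' : Cc 0 (fun y => ∑ j, pd (b j) (fun y => pd (b j) (zt L) y * pd e V y) y) :=
    Cc.sum Finset.univ fun j _ => (f2 j).pd (b j)
  have f3 : Cc 0 (fun y => lap (zt L) y * pd e V y) :=
    (Cc.lap (n := 0) (zt_cc L 2)).mul (hW.of_le (by norm_num)).contDiff
  have f4 : Cc 0 (fun y => pd e (zt L) y * lap V y) :=
    ((zt_cc L 1).pd e).mul ((lap_cb_topb h).of_le (Nat.zero_le 1)).contDiff
  have f1' : Cc 0 (lap fun y => zt L y * pd e V y) := Cc.lap (n := 0) f1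
  have hts : ∀ (v : E) (y : E), pd v (zt L) y ≠ 0 → ‖y‖ < 3 := fun v y hy =>
    mem_ball_zero_iff.1 (zt_ts_topb L (pd_ts_topb v _ (subset_tsupport _ hy)))
  have s1 := sq_int_topb (w := zt L) (B := 1) h he hn
    (fun y => abs_le.2 ⟨by linarith [zc_nonneg L (81 / 64) 4 y, show zt L y = zc L (81 / 64) 4 y
      from rfl], zc_le_one L _ _ y⟩) (zc_lt_topb L (by norm_num) (by norm_num))
    (zt_cc L 0).continuous
  have s2 := fun j => sq_int_topb (w := pd (b j) (zt L)) (B := B) h he hn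
    (fun y => (hB L y (b j) (b j) (hb1 j) (hb1 j)).1) (hts (b j)) ((zt_cc L 1).pd (b j)).continuous
  have s3 := sq_int_topb (w := lap (zt L)) (B := finrank ℝ E * B) h he hn (fun y => by
      rw [lap_eq_pd b (zt_cc L 2).cd]
      refine (Finset.abs_sum_le_sum_abs _ _).trans ((Finset.sum_le_card_nsmul _ _ B
        fun j _ => (hB L y (b j) (b j) (hb1 j) (hb1 j)).2.1).trans (le_of_eq ?_))
      simp) (fun y hy => by
      rw [lap_eq_pd b (zt_cc L 2).cd] at hy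
      obtain ⟨j, -, hj⟩ := Finset.exists_ne_zero_of_sum_ne_zero hy
      exact mem_ball_zero_iff.1
        (zt_ts_topb L (pd_ts_topb _ _ (pd_ts_topb _ _ (subset_tsupport _ hj)))))
    (Cc.lap (n := 0) (zt_cc L 2)).continuous
  have i1 := integral_ph_lap_le f1 hT.le
  have i2 := int_const_topb (b := (finrank ℝ E * B) ^ 2 * E1) hT.le (ii_mul_ph f2' le_rfl hT.le)
    (by positivity) (fun t ht _ => by
      have a1 := ph_sum_le Finset.univ (fun j _ => (f2 j).pd (b j)) ht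
      have a2 : ∑ j, t * ph (pd (b j) fun y => pd (b j) (zt L) y * pd e V y) t ≤
          finrank ℝ E * (B ^ 2 * E1) := by
        refine (Finset.sum_le_card_nsmul _ _ (B ^ 2 * E1)
          fun j _ => (mul_ph_pd_le b (f2 j) ht j).trans (s2 j)).trans (le_of_eq ?_)
        simp
      rw [← Finset.mul_sum] at a2
      rw [Finset.card_univ, Fintype.card_fin] at a1
      have a3 := mul_le_mul_of_nonneg_left a1 ht.le
      have a4 := mul_le_mul_of_nonneg_left a2 (Nat.cast_nonneg (α := ℝ) (finrank ℝ E))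
      nlinarith)
  have i3 := int_const_topb (b := (finrank ℝ E * B) ^ 2 * E1) hT.le (ii_mul_ph f3 le_rfl hT.le)
    (by positivity) (fun t ht ht1 => by
      have a1 := (ph_le f3 ht).trans s3
      have a2 := ph_nonneg f3 ht
      nlinarith)
  have i4 := H4 L V Γ E0 E1 g1 AΓ t0 A T T1 e h h0 h1 h2 he hn
  have fF : Cc 0 (pd e fun y => zt L y * lap V y) :=
    ((zt_cc L 1).mul (lap_cb_topb h).contDiff).pd e
  have j1 := ii_mul_ph f1' le_rfl hT.le
  have j2 := ii_mul_ph f2' le_rfl hT.le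
  have j3 := ii_mul_ph f3 le_rfl hT.le
  have j4 := ii_mul_ph f4 le_rfl hT.le
  have key := intervalIntegral.integral_mono_on hT.le (ii_mul_ph fF le_rfl hT.le)
    (((j1.const_mul 4).add (j2.const_mul 16)).add ((j3.const_mul 4).add (j4.const_mul 4)))
    (fun t ht => by
      rcases ht.1.eq_or_lt with ht0 | ht0
      · simp [← ht0]
      · rw [par_eq_topb b (zt_cc L 2).cd h.hV.contDiff e]
        have a1 := ph_add_le (f1'.add (f2'.const_mul (-2))) (f3.add f4) ht0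
        have a2 := ph_add_le f1' (f2'.const_mul (-2)) ht0
        have a3 := ph_add_le f3 f4 ht0
        rw [ph_const_mul] at a2
        have a4 := mul_le_mul_of_nonneg_left a1 ht0.le
        have a5 := mul_le_mul_of_nonneg_left a2 ht0.le
        have a6 := mul_le_mul_of_nonneg_left a3 ht0.le
        linarith)
  rw [intervalIntegral.integral_add ((j1.const_mul 4).add (j2.const_mul 16))
      ((j3.const_mul 4).add (j4.const_mul 4)),
    intervalIntegral.integral_add (j1.const_mul 4) (j2.const_mul 16),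
    intervalIntegral.integral_add (j3.const_mul 4) (j4.const_mul 4),
    intervalIntegral.integral_const_mul, intervalIntegral.integral_const_mul,
    intervalIntegral.integral_const_mul, intervalIntegral.integral_const_mul] at key
  have hE : E1 ≤ ww (finrank ℝ L) T T1 E0 E1 g1 AΓ t0 := by rw [w7]; linarith
  have p1 : T * ((finrank ℝ E * B) ^ 2 * E1) ≤
      (finrank ℝ E * B) ^ 2 * ww (finrank ℝ L) T T1 E0 E1 g1 AΓ t0 :=
    (mul_le_of_le_one_left (by positivity) h2).trans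
      (mul_le_mul_of_nonneg_left hE (sq_nonneg _))
  refine key.trans ?_
  linarith

variable (E) in
theorem top_bound : ∃ C : ℝ, 0 < C ∧ ∀ (L : Submodule ℝ E) (V Γ : E → ℝ)
    (E0 E1 g1 AΓ t0 A T T1 : ℝ), Top L V Γ E0 E1 g1 AΓ t0 A → 0 < T1 → T1 ≤ T → T ≤ 1 →
    JJ L T (fun y => zt L y * chg V Γ y) ≤ C * ww (finrank ℝ L) T T1 E0 E1 g1 AΓ t0 := by
  obtain ⟨C2, hC2, H2⟩ := proj_bound E
  obtain ⟨C3, hC3, H3⟩ := par_term E
  refine ⟨4 * C2 + 4 + 2 * (finrank ℝ E * C3) + 4 * 2 ^ hd E, by positivity, ?_⟩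
  intro L V Γ E0 E1 g1 AΓ t0 A T T1 h h0 h1 h2
  obtain ⟨w1, w2, w3, w4, w5, w6, w7⟩ := ww_parts_topb h h0 h1 (finrank ℝ L)
  have hT : 0 < T := h0.trans_le h1
  have fl : Cc 1 (fun y => zt L y * lap V y) := (zt_cc L 1).mul (lap_cb_topb h).contDiff
  have fG : Cc 1 (fun y => zt L y * Γ y) := (zt_cc L 1).mul h.hΓ.contDiff
  have fN : Cc 1 (fun y => zt L y * chg V Γ y) := (zt_cc L 1).mul h.cb_chg.contDiff
  have e1 : (fun y => zt L y * chg V Γ y) = fun y => zt L y * lap V y + zt L y * Γ y := by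
    funext y; unfold chg; ring
  have e2 : (fun y => zt L y * lap V y) = fun y => zt L y * chg V Γ y - zt L y * Γ y := by
    funext y; unfold chg; ring
  have a1 := JJ_add_le h.dim fl fG hT
  rw [← e1] at a1
  set c := stdOrthonormalBasis ℝ L with hc
  have a2 := JJ_rep h.dim c fl hT
  have a3 := ph_sub_le (fN.of_le (Nat.zero_le 1)) (fG.of_le (Nat.zero_le 1)) hT
  rw [← e2] at a3
  have a4 : T * ph (fun y => zt L y * chg V Γ y) T ≤ _ :=
    H2 L V Γ E0 E1 g1 AΓ t0 A (81 / 64) 4 T h (by norm_num) (by norm_num) hT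
  have a5 : T * ph (fun y => zt L y * Γ y) T ≤ _ :=
    gam_mul_topb (a := 81 / 64) (b := 4) h (by norm_num) (by norm_num) hT h2
  have a6 := gam_JJ h (zt_cc L 0) (zc_nonneg L _ _) (zc_le_one L _ _)
    (zc_lt_topb L (by norm_num) (by norm_num)) hT h2
  have a7 := mul_le_mul_of_nonneg_left (rpow_le_topb h0 h1 (finrank ℝ L)) (sq_nonneg g1)
  have hw : 0 ≤ ww (finrank ℝ L) T T1 E0 E1 g1 AΓ t0 := by rw [w7]; positivity
  have a8 : ∑ i, ∫ t in (0 : ℝ)..T, t * ph (pd (c i : E) fun y => zt L y * lap V y) t ≤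
      finrank ℝ E * C3 * ww (finrank ℝ L) T T1 E0 E1 g1 AΓ t0 := by
    refine (Finset.sum_le_card_nsmul _ _ _ fun i _ => H3 L V Γ E0 E1 g1 AΓ t0 A T T1 (c i) h h0 h1
      h2 (c i).2 (c.orthonormal.1 i).le).trans ?_
    rw [Finset.card_univ, Fintype.card_fin, nsmul_eq_mul, mul_assoc]
    refine mul_le_mul_of_nonneg_right ?_ (by positivity)
    exact_mod_cast (by have := h.dim; omega : finrank ℝ L ≤ finrank ℝ E)
  have b1 : E1 * (1 + 1 / T) + g1 ^ 2 * T ^ (-(finrank ℝ L / 2 : ℝ)) ≤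
      ww (finrank ℝ L) T T1 E0 E1 g1 AΓ t0 := by rw [w7]; linarith
  have b2 : gg g1 AΓ t0 ≤ ww (finrank ℝ L) T T1 E0 E1 g1 AΓ t0 := by rw [w7]; linarith
  have b3 := mul_le_mul_of_nonneg_left b1 hC2.le
  have b4 := mul_le_mul_of_nonneg_left b2 (show (0 : ℝ) ≤ 2 ^ hd E by positivity)
  have b5 := mul_le_mul_of_nonneg_left a3 hT.le
  linarith

end Pool.Agent.Lib.MP_8daebb_an.PR
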