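import Pool.Agent.Lib.MP_8daebb_an.PR.Near
import Pool.Agent.Lib.MP_8daebb_an.PR.TopB
import Pool.Agent.Lib.MP_8daebb_an.PR.Rep

/-! The pair estimate. -/

open MeasureTheory Metric Set Module Real Filter Topology
open scoped RealInnerProductSpace

namespace Pool.Agent.Lib.MP_8daebb_an.PR

open HK AS

variable {E : Type*} [NormedAddCommGroup E] [InnerProductSpace ℝ E] [FiniteDimensional ℝ E]
  [MeasurableSpace E] [BorelSpace E]

theorem arith3_pair {x1 x2 x3 y1 y2 y3 : ℝ} (a1 : 0 ≤ x1) (a2 : 0 ≤ x2) (a3 : 0 ≤ x3)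
    (b1 : 0 ≤ y1) (b2 : 0 ≤ y2) (b3 : 0 ≤ y3) :
    y1 * x1 + y2 * x2 + y3 * x3 ≤ (y1 + y2 + y3) * (x1 + x2 + x3) := by
  have : 0 ≤ y1 * x2 + y1 * x3 + y2 * x1 + y2 * x3 + y3 * x1 + y3 * x2 := by positivity
  nlinarith

theorem arith4_pair {x1 x2 x3 x4 y1 y2 y3 y4 : ℝ} (a1 : 0 ≤ x1) (a2 : 0 ≤ x2) (a3 : 0 ≤ x3)
    (a4 : 0 ≤ x4) (b1 : 0 ≤ y1) (b2 : 0 ≤ y2) (b3 : 0 ≤ y3) (b4 : 0 ≤ y4) :
    y1 * x1 + y2 * x2 + y4 * x4 + y3 * x3 ≤ (y1 + y2 + y3 + y4) * (x1 + x2 + (x3 + x4)) := by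
  have : 0 ≤ y1 * x2 + y1 * x3 + y1 * x4 + y2 * x1 + y2 * x3 + y2 * x4 + y3 * x1 + y3 * x2 +
    y3 * x4 + y4 * x1 + y4 * x2 + y4 * x3 := by positivity
  nlinarith

theorem arith5_pair {m c S H g J : ℝ} (hm : 0 ≤ m) (hS : 0 ≤ S) (hH : 0 ≤ H) (hg : 0 ≤ g)
    (h : J ≤ 2 * (m * (c ^ 2 * S)) + 2 * (2 * H * g)) :
    (2 * (m + 1) * (c ^ 2 + 1))⁻¹ * J ≤ S + 4 * H * g := by
  rw [inv_mul_le_iff₀ (by positivity)]
  have p1 : 0 ≤ 2 * (m * S) + 2 * (c ^ 2 * S) + 2 * S +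
    8 * ((m * c ^ 2 + m + c ^ 2) * (H * g)) + 4 * (H * g) := by positivity
  nlinarith

/-- The error of the pair estimate. -/
noncomputable def perr (k n : ℕ) (q θ η T T1 E0 E1 g1 AΓ t0 A D1 : ℝ) : ℝ :=
  (q ^ n + η) * ww k T T1 E0 E1 g1 AΓ t0 + θ ^ 2 / η * (E0 + gg g1 AΓ t0) + gg g1 AΓ t0 +
    θ * (√E1 + g1) * (D1 + A * exp (-(1 / (1024 * T))))

theorem ww_nonneg_pair {L : Submodule ℝ E} {V Γ : E → ℝ} {E0 E1 g1 AΓ t0 A T T1 : ℝ}
    (h : Top L V Γ E0 E1 g1 AΓ t0 A) (k : ℕ) (h1 : 0 < T1) (h2 : T1 ≤ T) :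
    0 ≤ ww k T T1 E0 E1 g1 AΓ t0 := by
  obtain ⟨a0, a1, _, _, a4⟩ := h.nonneg
  have hT : 0 < T := h1.trans_le h2
  have hl : 0 ≤ Real.log (T / T1) := Real.log_nonneg ((one_le_div h1).2 h2)
  unfold ww
  have : 0 ≤ T1 ^ (-(k / 2 : ℝ)) := Real.rpow_nonneg h1.le _
  positivity

theorem cc_lev_pair {L : Submodule ℝ E} {c r : ℝ} {th g : E → ℝ} (ht : Th L c th) (hr : 0 < r)
    (n b : ℕ) (hg : Cb 1 g) : Cc 1 (fun y => th y * ze L r n b y * g y) :=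
  ((ht.cc_ze hr n b).of_le (by norm_num)).mul hg.contDiff

theorem ii_inc_pair {F : ℕ → ℝ → ℝ} {T : ℝ} (h : ∀ b, IntervalIntegrable (F b) volume 0 T)
    (n a : ℕ) : IntervalIntegrable (fun s => inc (fun b => F b s) n a) volume 0 T ∧
      ∫ s in (0 : ℝ)..T, inc (fun b => F b s) n a = inc (fun b => ∫ s in (0 : ℝ)..T, F b s) n a := by
  have h1 : ∀ b ∈ Finset.Ico a (n + 1), IntervalIntegrable
      (fun s => (1 / 2 : ℝ) ^ (b - a) * (F (b + 1) s - F b s)) volume 0 T := fun b _ =>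
    ((h (b + 1)).sub (h b)).const_mul _
  unfold inc
  refine ⟨?_, ?_⟩
  · have h2 := IntervalIntegrable.sum _ h1
    refine h2.congr ?_
    intro s _
    simp only [Finset.sum_apply]
  · rw [intervalIntegral.integral_finsetSum h1]
    refine Finset.sum_congr rfl fun b _ => ?_
    rw [intervalIntegral.integral_const_mul, intervalIntegral.integral_sub (h (b + 1)) (h b)]

theorem inc_nonneg_pair {J : ℕ → ℝ} {n : ℕ} (h : ∀ b ≤ n, J b ≤ J (b + 1)) (a : ℕ) :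
    0 ≤ inc J n a := by
  unfold inc
  refine Finset.sum_nonneg fun b hb => mul_nonneg (by positivity) ?_
  have := (Finset.mem_Ico.1 hb).2
  exact sub_nonneg.2 (h b (by omega))

theorem zt_one_pair {L : Submodule ℝ E} {y : E} (h1 : ‖pa L y‖ < 1) (h2 : ‖pe L y‖ < 1 / 8) :
    zt L y = 1 ∧ y ∈ ball (0 : E) 2 := by
  have p1 := norm_nonneg (pa L y)
  have p2 := norm_nonneg (pe L y)
  refine ⟨zc_one L (by norm_num) (by nlinarith) (by linarith), ?_⟩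
  rw [mem_ball_zero_iff]
  have h3 := norm_sq_pa_pe L y
  have h4 : ‖y‖ ^ 2 < 2 ^ 2 := by nlinarith
  exact lt_of_pow_lt_pow_left₀ 2 (by norm_num) h4

theorem zt_ne_pair {L : Submodule ℝ E} {y : E} (h : zt L y ≠ 0) : ‖y‖ < 3 := by
  obtain ⟨h1, h2⟩ := zc_ne_zero L (by norm_num : (81 / 64 : ℝ) < 4) h
  have p2 := norm_nonneg (pe L y)
  have h3 := norm_sq_pa_pe L y
  have h4 : ‖y‖ ^ 2 < 3 ^ 2 := by nlinarith
  exact lt_of_pow_lt_pow_left₀ 2 (by norm_num) h4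

theorem smooth_part_pair {L : Submodule ℝ E} {σ N w : E → ℝ} {Y : E → E} {θ D1 : ℝ}
    (hN : Cb 1 N) (hd : ∀ y, |σ y| ≤ N y) (hθ : ∀ y, ‖Y y‖ ≤ θ)
    (hY : ∀ y, Y y ≠ 0 → ‖pa L y‖ < 1 ∧ ‖pe L y‖ < 1 / 8)
    (hD : ∀ y ∈ ball (0 : E) 2, ‖fderiv ℝ w y‖ ≤ D1) :
    |∫ y, σ y * fderiv ℝ w y (Y y)| ≤ θ * D1 * ∫ y, zt L y * N y := by
  have hθ0 : 0 ≤ θ := (norm_nonneg _).trans (hθ 0)
  have hD0 : 0 ≤ D1 := (norm_nonneg _).trans (hD 0 (by simp))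
  have hi : Integrable (fun y => θ * D1 * (zt L y * N y)) :=
    (((zt_cc L 1).mul hN.contDiff).integrable).const_mul _
  rw [← integral_const_mul, ← Real.norm_eq_abs]
  refine norm_integral_le_of_norm_le hi (Eventually.of_forall fun y => ?_)
  have hN0 : 0 ≤ N y := (abs_nonneg _).trans (hd y)
  by_cases hy : Y y = 0
  · rw [hy, map_zero, mul_zero, norm_zero]
    exact mul_nonneg (mul_nonneg hθ0 hD0) (mul_nonneg (zc_nonneg L _ _ y) hN0)
  · obtain ⟨h1, h2⟩ := zt_one_pair (hY y hy).1 (hY y hy).2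
    rw [h1, one_mul, norm_mul, Real.norm_eq_abs]
    have h3 : ‖fderiv ℝ w y (Y y)‖ ≤ D1 * θ :=
      ((fderiv ℝ w y).le_opNorm _).trans (mul_le_mul (hD y h2) (hθ y) (norm_nonneg _) hD0)
    calc |σ y| * ‖fderiv ℝ w y (Y y)‖ ≤ N y * (D1 * θ) :=
          mul_le_mul (hd y) h3 (norm_nonneg _) hN0
      _ = θ * D1 * N y := by ring

variable (E) in
/-- One sheet, one level. -/
theorem pair_one (c Cp : ℝ) (hC : 1 ≤ Cp) : ∃ C : ℝ, 0 < C ∧ ∀ (L : Submodule ℝ E)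
    (u V Γ th : E → ℝ) (φ : ℝ → ℝ) (n a : ℕ) (r Af θ η T T1 E0 E1 g1 AΓ t0 A D1 : ℝ), Cb 3 u →
    Top L V Γ E0 E1 g1 AΓ t0 A → (∀ y, |lap u y| ≤ chg V Γ y) → Th L c th →
    Prof Cp (4 ^ (a + 1) * r) Af φ → a < n → 0 < r → 4 ^ (n + 1) * r ≤ 1 / 4 →
    4 ^ (a + 1) * r / Af ^ 2 ≤ θ → θ ≤ 1 / 8 → 0 < η → 0 < T1 → T1 ≤ T → T ≤ 1 →
    (∀ y ∈ ball (0 : E) 2, ‖fderiv ℝ (P T u) y‖ ≤ D1) →
    JJ L T (fun y => th y * ze L r n a y * lap u y) -
        6 * Cp * inc (fun b => JJ L T (fun y => th y * ze L r n b y * chg V Γ y)) n a -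
        C * (η * ww (finrank ℝ L) T T1 E0 E1 g1 AΓ t0 + θ ^ 2 / η * (E0 + gg g1 AΓ t0) +
          θ * (√E1 + g1) * (D1 + A * exp (-(1 / (1024 * T))))) ≤
      ∫ y, sd u (fld L th φ) y := by
  obtain ⟨Cf, hCf, hfar⟩ := far_bound E
  obtain ⟨Cm, hCm, hmass⟩ := mass_bound E
  obtain ⟨Ct, hCt, htop⟩ := top_bound E
  obtain ⟨Cg, hCg, hchg⟩ := chg_int E
  have h2 : (0 : ℝ) < 2 ^ HK.hd E := Real.rpow_pos_of_pos (by norm_num) _
  refine ⟨Ct + 2 * 2 ^ HK.hd E * c ^ 2 * Cg + Cm + Cf * Cm, by positivity, ?_⟩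
  intro L u V Γ th φ n a r Af θ η T T1 E0 E1 g1 AΓ t0 A D1 hu hT hd ht hφ ha hr hn hθ hθ1 hη hT1
    hT1T hT1' hD
  have hT0 : 0 < T := hT1.trans_le hT1T
  have hρ : 0 < 4 ^ (a + 1) * r := by positivity
  have hYc : ContDiff ℝ 1 (fld L th φ) := fld_contDiff ht hφ
  have hYk : HasCompactSupport (fld L th φ) := fld_compact ht hφ hρ
  have hYθ : ∀ y, ‖fld L th φ y‖ ≤ θ := norm_fld_le ht hφ hρ hθ
  have hY0 : ∀ y, fld L th φ y ≠ 0 → ‖pa L y‖ < 1 ∧ ‖pe L y‖ < 1 / 8 := fun y hy =>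
    ⟨(fld_ne_zero ht hφ hρ hθ hy).1, (fld_ne_zero ht hφ hρ hθ hy).2.trans_le hθ1⟩
  have hσ : Cb 1 (lap u) := Cb.lap (n := 1) hu
  have hN : Cb 1 (chg V Γ) := hT.cb_chg
  have hθ0 : 0 ≤ θ := (norm_nonneg _).trans (hYθ 0)
  have hD0 : 0 ≤ D1 := (norm_nonneg _).trans (hD 0 (by simp))
  obtain ⟨a0, a1, a2, _, a4⟩ := hT.nonneg
  have hA := hT.A0
  have hu2 : ContDiff ℝ 2 u := (hu.of_le (k := 2) (by norm_num)).contDiff
  obtain ⟨hii, hrep⟩ := rep hu hYc.continuous hYk hT0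
  rw [pair_ibp hu2 (hYc.of_le (by norm_num)) hYk, hrep]
  have hM := hmass L V Γ E0 E1 g1 AΓ t0 A hT
  have hsm := smooth_part_pair (w := P T u) hN hd hYθ hY0 hD
  have hz : Cc 0 (fun y => zt L y * chg V Γ y) :=
    ((zt_cc L 1).mul hN.contDiff).of_le (by norm_num)
  have i1 : IntervalIntegrable (jj L (fun y => th y * ze L r n a y * lap u y)) volume 0 T :=
    ii_jj ((cc_lev_pair ht hr n a hσ).of_le (by norm_num)) hT0.le
  obtain ⟨i2, e2⟩ := ii_inc_pair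
    (F := fun b => jj L (fun y => th y * ze L r n b y * chg V Γ y)) (T := T)
    (fun b => ii_jj ((cc_lev_pair ht hr n b hN).of_le (by norm_num)) hT0.le) n a
  have i3 : IntervalIntegrable (jj L (fun y => zt L y * chg V Γ y)) volume 0 T := ii_jj hz hT0.le
  have i4 : IntervalIntegrable (fun t => ph (fun y => zt L y * chg V Γ y) (2 * t)) volume 0 T :=
    ii_ph_two hz le_rfl hT0.le
  set M := ∫ y, zt L y * chg V Γ y with hMd
  set X := exp (-(1 / (1024 * T))) with hX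
  have hX0 : 0 < X := exp_pos _
  have hM0 : 0 ≤ M := integral_nonneg fun y => mul_nonneg (zc_nonneg L _ _ y) (hT.N0 y)
  have i5 : IntervalIntegrable (fun _ : ℝ => Cf * θ * M * A * X) volume 0 T :=
    intervalIntegrable_const
  have hmono := intervalIntegral.integral_mono_on_of_le_Ioo hT0.le
    ((((i1.sub (i2.const_mul (6 * Cp))).sub (i3.const_mul η)).sub
      (i4.const_mul (2 * 2 ^ HK.hd E * (c ^ 2 * θ ^ 2 / η)))).sub i5) hii (fun s hs => by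
      have n1 := near_bound hσ.continuous hN.continuous hd ht hφ hC hr ha hn hθ hθ1 hη hs.1
      have n2 := hfar L (lap u) (chg V Γ) (fld L th φ) θ A s T (hσ.of_le (by norm_num))
        (hN.of_le (by norm_num)) hd hYc.continuous hYθ hY0 hA
        (hT.nP (2 * s) ⟨by linarith [hs.1], by linarith [hs.2]⟩) hs.1 hs.2.le
      have n3 := (abs_le.1 n2).1
      linarith)
  rw [intervalIntegral.integral_sub (((i1.sub (i2.const_mul (6 * Cp))).sub (i3.const_mul η)).sub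
      (i4.const_mul (2 * 2 ^ HK.hd E * (c ^ 2 * θ ^ 2 / η)))) i5,
    intervalIntegral.integral_sub ((i1.sub (i2.const_mul (6 * Cp))).sub (i3.const_mul η))
      (i4.const_mul (2 * 2 ^ HK.hd E * (c ^ 2 * θ ^ 2 / η))),
    intervalIntegral.integral_sub (i1.sub (i2.const_mul (6 * Cp))) (i3.const_mul η),
    intervalIntegral.integral_sub i1 (i2.const_mul (6 * Cp)),
    intervalIntegral.integral_const_mul, intervalIntegral.integral_const_mul,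
    intervalIntegral.integral_const_mul, intervalIntegral.integral_const, e2, sub_zero,
    smul_eq_mul] at hmono
  have b3 := htop L V Γ E0 E1 g1 AΓ t0 A T T1 hT hT1 hT1T hT1'
  have b4 := hchg L V Γ E0 E1 g1 AΓ t0 A T hT hT0 hT1'
  have hw := ww_nonneg_pair hT (finrank ℝ L) hT1 hT1T
  unfold JJ at b3 ⊢
  set W := ww (finrank ℝ L) T T1 E0 E1 g1 AΓ t0 with hW
  set Z := E0 + gg g1 AΓ t0 with hZ
  set S := √E1 + g1 with hS
  set H := (2 : ℝ) ^ HK.hd E with hH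
  have hZ0 : 0 ≤ Z := add_nonneg a0 a4
  have hS0 : 0 ≤ S := add_nonneg (Real.sqrt_nonneg _) a2
  have c3 := mul_le_mul_of_nonneg_left b3 hη.le
  have c4 := mul_le_mul_of_nonneg_left b4
    (show 0 ≤ 2 * H * (c ^ 2 * θ ^ 2 / η) by positivity)
  have c5 : T * (Cf * θ * M * A * X) ≤ Cf * Cm * (θ * S * (A * X)) := by
    calc T * (Cf * θ * M * A * X) ≤ 1 * (Cf * θ * M * A * X) :=
          mul_le_mul_of_nonneg_right hT1' (by positivity)
      _ = Cf * θ * A * X * M := by ring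
      _ ≤ Cf * θ * A * X * (Cm * S) := mul_le_mul_of_nonneg_left hM (by positivity)
      _ = _ := by ring
  have c6 : θ * D1 * M ≤ Cm * (θ * S * D1) := by
    calc θ * D1 * M ≤ θ * D1 * (Cm * S) := mul_le_mul_of_nonneg_left hM (by positivity)
      _ = _ := by ring
  have c7 := (abs_le.1 hsm).1
  have d1 : 0 ≤ η * W := by positivity
  have d2 : 0 ≤ θ ^ 2 / η * Z := by positivity
  have d3 : 0 ≤ θ * S * D1 := by positivity
  have d4 : 0 ≤ θ * S * (A * X) := by positivity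
  have k2 : 0 ≤ 2 * H * c ^ 2 * Cg := by positivity
  have k4 : 0 ≤ Cf * Cm := by positivity
  have key : η * (Ct * W) + 2 * H * (c ^ 2 * θ ^ 2 / η) * (Cg * Z) + Cf * Cm * (θ * S * (A * X)) +
      Cm * (θ * S * D1) ≤ (Ct + 2 * H * c ^ 2 * Cg + Cm + Cf * Cm) *
        (η * W + θ ^ 2 / η * Z + θ * S * (D1 + A * X)) := by
    have e1 : 2 * H * (c ^ 2 * θ ^ 2 / η) * (Cg * Z) = 2 * H * c ^ 2 * Cg * (θ ^ 2 / η * Z) := by
      ring
    have e3 : η * (Ct * W) = Ct * (η * W) := by ring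
    have e4 : θ * S * (D1 + A * X) = θ * S * D1 + θ * S * (A * X) := by ring
    rw [e1, e3, e4]
    exact arith4_pair d1 d2 d3 d4 hCt.le k2 hCm.le k4
  linarith

variable (E) in
theorem pair_core (ι : Type*) [Fintype ι] (c0 c Cp : ℝ) (hC : 1 ≤ Cp) :
    ∃ q : ℝ, 0 < q ∧ q < 1 ∧ ∃ C : ℝ, 0 < C ∧ ∀ (L : Submodule ℝ E) (u : ι → E → ℝ) (cf : ι → ℝ)
    (Γ th : E → ℝ) (φ : ℕ → ℝ → ℝ) (n : ℕ) (r Af θ η T T1 E0 E1 g1 AΓ t0 A D1 : ℝ),
    (∀ i, Cb 3 (u i)) → (∀ i, |cf i| ≤ c0) →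
    Top L (fun y => ∑ i, cf i * u i y) Γ E0 E1 g1 AΓ t0 A →
    (∀ i y, |lap (u i) y| ≤ chg (fun y => ∑ i, cf i * u i y) Γ y) → Th L c th →
    (∀ a < n, Prof Cp (4 ^ (a + 1) * r) Af (φ a)) → 1 ≤ n → 0 < r → 4 ^ (n + 1) * r ≤ 1 / 4 →
    4 ^ n * r / Af ^ 2 ≤ θ → θ ≤ 1 / 8 → 0 < η → 0 < T1 → T1 ≤ T → T ≤ 1 → 0 ≤ D1 →
    (∀ i, ∀ y ∈ ball (0 : E) 2, ‖fderiv ℝ (P T (u i)) y‖ ≤ D1) →
    ∃ a < n, -(C * perr (finrank ℝ L) n q θ η T T1 E0 E1 g1 AΓ t0 A D1) ≤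
      ∑ i, ∫ y, sd (u i) (fld L th (φ a)) y := by
  obtain ⟨C1, hC1, hone⟩ := pair_one E c Cp hC
  obtain ⟨Ct, hCt, htop⟩ := top_bound E
  have h2 : (0 : ℝ) < 2 ^ HK.hd E := Real.rpow_pos_of_pos (by norm_num) _
  set m : ℝ := (Fintype.card ι : ℝ) with hm
  have hm0 : 0 ≤ m := Nat.cast_nonneg _
  have hκ : 0 < 2 * (m + 1) * (c0 ^ 2 + 1) := by positivity
  have hK : 0 < 6 * Cp * (m + 1) := by positivity
  obtain ⟨q, hq0, hq1, hseq⟩ := seq_inc (inv_pos.2 hκ) hK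
  refine ⟨q, hq0, hq1, 3 * (6 * Cp * (m + 1)) * Ct + 4 * 2 ^ HK.hd E + (m + 1) * C1,
    by positivity, ?_⟩
  intro L u cf Γ th φ n r Af θ η T T1 E0 E1 g1 AΓ t0 A D1 hu hcf hT hd ht hφ hn1 hr hn hθ hθ1 hη
    hT1 hT1T hT1' hD0 hD
  have hT0 : 0 < T := hT1.trans_le hT1T
  set V : E → ℝ := fun y => ∑ i, cf i * u i y with hV
  have hN : Cb 1 (chg V Γ) := hT.cb_chg
  have hσ : ∀ i, Cb 1 (lap (u i)) := fun i => Cb.lap (n := 1) (hu i)
  set J : ℕ → ℝ := fun b => JJ L T (fun y => th y * ze L r n b y * chg V Γ y) with hJ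
  have hnn : ∀ b y, 0 ≤ th y * ze L r n b y := fun b y =>
    mul_nonneg (ht.nonneg y) (ze_nonneg L r n b y)
  have hJm : ∀ b ≤ n, J b ≤ J (b + 1) := fun b hb => by
    refine JJ_mono ((cc_lev_pair ht hr n b hN).of_le (by norm_num))
      ((cc_lev_pair ht hr n (b + 1) hN).of_le (by norm_num)) (fun y => ?_) hT0.le
    rw [abs_of_nonneg (mul_nonneg (hnn b y) (hT.N0 y))]
    exact mul_le_mul_of_nonneg_right
      (mul_le_mul_of_nonneg_left (ze_mono L hr hn hb y) (ht.nonneg y)) (hT.N0 y)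
  have hJ0 : 0 ≤ J 0 := JJ_nonneg hT.dim (cc_lev_pair ht hr n 0 hN) hT0
  have hJt : J (n + 1) ≤ Ct * ww (finrank ℝ L) T T1 E0 E1 g1 AΓ t0 := by
    refine le_trans ?_ (htop L V Γ E0 E1 g1 AΓ t0 A T T1 hT hT1 hT1T hT1')
    refine JJ_mono ((cc_lev_pair ht hr n (n + 1) hN).of_le (by norm_num))
      (((zt_cc L 1).mul hN.contDiff).of_le (by norm_num)) (fun y => ?_) hT0.le
    rw [abs_of_nonneg (mul_nonneg (hnn _ y) (hT.N0 y))]
    exact mul_le_mul_of_nonneg_right (ht.mul_ze_le hr hn le_rfl y) (hT.N0 y)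
  obtain ⟨a, ha, hs⟩ := hseq J n _ hn1 hJm hJ0 hJt
  refine ⟨a, ha, ?_⟩
  have hθa : 4 ^ (a + 1) * r / Af ^ 2 ≤ θ := by
    refine le_trans ?_ hθ
    refine div_le_div_of_nonneg_right ?_ (sq_nonneg _)
    exact mul_le_mul_of_nonneg_right (pow_le_pow_right₀ (by norm_num) ha) hr.le
  have hθ0 : 0 ≤ θ := le_trans (by positivity) hθ
  have hI := inc_nonneg_pair hJm a
  obtain ⟨a0, a1, a2, _, a4⟩ := hT.nonneg
  have hA := hT.A0
  have hw := ww_nonneg_pair hT (finrank ℝ L) hT1 hT1T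
  have hsum := Finset.sum_le_sum (s := Finset.univ) fun i _ =>
    hone L (u i) V Γ th (φ a) n a r Af θ η T T1 E0 E1 g1 AΓ t0 A D1 (hu i) hT (hd i) ht (hφ a ha)
      ha hr hn hθa hθ1 hη hT1 hT1T hT1' (hD i)
  rw [Finset.sum_sub_distrib, Finset.sum_sub_distrib, Finset.sum_const, Finset.sum_const,
    Finset.card_univ, nsmul_eq_mul, nsmul_eq_mul, ← hm] at hsum
  set S := ∑ i, JJ L T (fun y => th y * ze L r n a y * lap (u i) y) with hS
  have hi0 : ∀ i, 0 ≤ JJ L T (fun y => th y * ze L r n a y * lap (u i) y) := fun i =>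
    JJ_nonneg hT.dim (cc_lev_pair ht hr n a (hσ i)) hT0
  have hS0 : 0 ≤ S := Finset.sum_nonneg fun i _ => hi0 i
  have hχ : Cc 0 (fun y => th y * ze L r n a y) := (ht.cc_ze hr n a).of_le (by norm_num)
  have hle : ∀ y, th y * ze L r n a y ≤ zt L y := ht.mul_ze_le hr hn (by omega)
  have hg := gam_JJ hT hχ (hnn a) (fun y => (hle y).trans (zc_le_one L _ _ y))
    (fun y hy => zt_ne_pair fun h0 =>
      hy (le_antisymm ((hle y).trans h0.le) (hnn a y))) hT0 hT1'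
  have hcs : ∀ i ∈ (Finset.univ : Finset ι),
      Cc 1 (fun y => cf i * (th y * ze L r n a y * lap (u i) y)) := fun i _ =>
    (cc_lev_pair ht hr n a (hσ i)).const_mul _
  have hsp : (fun y => th y * ze L r n a y * chg V Γ y) = fun y =>
      (∑ i, cf i * (th y * ze L r n a y * lap (u i) y)) + th y * ze L r n a y * Γ y := by
    funext y
    unfold chg
    rw [hV, lap_sum_mul Finset.univ cf
      (fun i _ => ((hu i).of_le (k := 2) (by norm_num)).contDiff) y, mul_add, Finset.mul_sum]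
    congr 1
    exact Finset.sum_congr rfl fun i _ => by ring
  have hJa : J a ≤ 2 * (m * (c0 ^ 2 * S)) + 2 * (2 * 2 ^ HK.hd E * gg g1 AΓ t0) := by
    have e1 : J a = JJ L T (fun y =>
        (∑ i, cf i * (th y * ze L r n a y * lap (u i) y)) + th y * ze L r n a y * Γ y) := by
      rw [← hsp]
    rw [e1]
    refine (JJ_add_le hT.dim (Cc.sum _ hcs) (cc_lev_pair ht hr n a hT.hΓ) hT0).trans ?_
    refine add_le_add (mul_le_mul_of_nonneg_left ?_ (by norm_num))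
      (mul_le_mul_of_nonneg_left hg (by norm_num))
    refine (JJ_sum_le hT.dim _ hcs hT0).trans ?_
    rw [Finset.card_univ, ← hm]
    refine mul_le_mul_of_nonneg_left ?_ hm0
    rw [hS, Finset.mul_sum]
    refine Finset.sum_le_sum fun i _ => ?_
    rw [JJ_const_mul]
    refine mul_le_mul_of_nonneg_right ?_ (hi0 i)
    exact sq_le_sq' (by linarith [(abs_le.1 (hcf i)).1]) (abs_le.1 (hcf i)).2
  unfold perr
  set W := ww (finrank ℝ L) T T1 E0 E1 g1 AΓ t0 with hW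
  set g := gg g1 AΓ t0 with hgd
  set H := (2 : ℝ) ^ HK.hd E with hH
  set X := exp (-(1 / (1024 * T))) with hX
  have hX0 : 0 < X := exp_pos _
  have hq : 0 < q ^ n := pow_pos hq0 n
  have hR0 : 0 ≤ η * W + θ ^ 2 / η * (E0 + g) + θ * (√E1 + g1) * (D1 + A * X) := by positivity
  have e2 : (q ^ n + η) * W + θ ^ 2 / η * (E0 + g) + g + θ * (√E1 + g1) * (D1 + A * X) =
      q ^ n * W + g + (η * W + θ ^ 2 / η * (E0 + g) + θ * (√E1 + g1) * (D1 + A * X)) := by ring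
  rw [e2]
  set R := η * W + θ ^ 2 / η * (E0 + g) + θ * (√E1 + g1) * (D1 + A * X) with hR
  have hJb := arith5_pair hm0 hS0 h2.le a4 hJa
  have p1 : 0 ≤ q ^ n * W := by positivity
  have p2 : 0 ≤ Cp * inc J n a := mul_nonneg (by linarith) hI
  have p3 : 0 ≤ C1 * R := by positivity
  have k1 : 0 ≤ 3 * (6 * Cp * (m + 1)) * Ct := by positivity
  have k2 : 0 ≤ 4 * H := by positivity
  have k3 : 0 ≤ (m + 1) * C1 := by positivity
  have key : 3 * (6 * Cp * (m + 1)) * q ^ n * (Ct * W) + 4 * H * g + (m + 1) * C1 * R ≤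
      (3 * (6 * Cp * (m + 1)) * Ct + 4 * H + (m + 1) * C1) * (q ^ n * W + g + R) := by
    have e3 : 3 * (6 * Cp * (m + 1)) * q ^ n * (Ct * W) =
        3 * (6 * Cp * (m + 1)) * Ct * (q ^ n * W) := by ring
    rw [e3]
    exact arith3_pair p1 a4 hR0 k1 k2 k3
  have e5 : 6 * Cp * (m + 1) * inc J n a = m * (6 * Cp * inc J n a) + 6 * (Cp * inc J n a) := by
    ring
  have e6 : (m + 1) * C1 * R = m * (C1 * R) + C1 * R := by ring
  linarith

end Pool.Agent.Lib.MP_8daebb_an.PR
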