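import Pool.Agent.Lib.MP_8daebb_an.PR.Def
import Pool.Agent.Lib.MP_8daebb_an.AS.Bas2

/-! Definitions for the cell inequality. -/

open MeasureTheory Metric Set Module Real Filter Topology
open scoped RealInnerProductSpace

namespace Pool.Agent.Lib.MP_8daebb_an.PR

open HK AS

variable {E : Type*} [NormedAddCommGroup E] [InnerProductSpace ℝ E] [FiniteDimensional ℝ E]
  [MeasurableSpace E] [BorelSpace E]

variable {ι : Type*} [Fintype ι]

/-- The tangential weight of the cell. -/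
noncomputable def thk (W : Submodule ℝ E) (z₀ y : E) : ℝ := (max (1 - ‖pa W y - z₀‖ ^ 2) 0) ^ 2

/-- The field at scale `l` and centre `o`. -/
noncomputable def scY (o : E) (l : ℝ) (Y : E → E) (y : E) : E := l • Y (l⁻¹ • (y - o))

/-- The foot point of the centre of the cell. -/
noncomputable def foot (W : Submodule ℝ E) (x₁ z : E) : E := z - pe W (z - x₁)

/-- The tensor `∑ Du ⊗ Du` at level `t`. -/
noncomputable def tn (D : Dat E ι) (Q : ℕ) (t : ℝ) (y : E) : E →L[ℝ] E :=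
  ∑ i, ∑ j ∈ Finset.range Q,
    (fderiv ℝ ((D.sm t).u i j) y).smulRight (gradient ((D.sm t).u i j) y)

/-- The scalar part of the defect stress. -/
noncomputable def eR (D : Dat E ι) (Q : ℕ) (t T : ℝ) : E → ℝ :=
  P T (fun w => D.ε w - (D.sm t).en Q w / 2)

/-- The tensor part of the defect stress. -/
noncomputable def TR (D : Dat E ι) (Q : ℕ) (t T : ℝ) : E → E →L[ℝ] E :=
  PT T (fun w => D.T w - tn D Q t w)

/-- The negative part of the tensor is bounded by this function. -/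
noncomputable def wR (D : Dat E ι) (Γ : E → ℝ) (κ t T : ℝ) (y : E) : ℝ :=
  P (T + t) Γ y + (2 + hd E) * 4 ^ hd E * κ * P (4 * T) D.τ y

/-- The hypotheses on a cell. -/
structure CH (D : Dat E ι) (ff Γ : E → ℝ) (Q : ℕ) (C₁ C₂ L η κ t T l r σ a₁ a₂ : ℝ) (z x₁ : E)
    (W : Submodule ℝ E) : Prop where
  gs : GS D ff Γ Q C₁ L η κ
  t_pos : 0 < t
  tT : t ≤ κ * T
  ts_le : 2 * ts L ≤ T
  Tr : T * L ^ 6 ≤ r ^ 2
  r_pos : 0 < r
  r_le : r ≤ l
  l_le : l ≤ Real.exp (-L)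
  z_le : ‖z‖ ≤ 3 / 2
  dim : finrank ℝ W + 2 = finrank ℝ E
  dens : l ^ 2 * P (16 * l ^ 2) D.τ z ≤ C₂ * σ
  par : (∫ y in ball z (5 * l), (τpar W (PT (ts L) D.T) y +
    (dd W x₁ y / l) ^ 2 * τf (PT (ts L) D.T) y)) ≤ a₁ * σ * pk E l
  core : (∫ y in ball z (5 * l) ∩ {y | r / 8 < dd W x₁ y}, τf (PT (ts L) D.T) y) ≤
    a₂ * σ * pk E l
  a₁_nonneg : 0 ≤ a₁
  a₂_nonneg : 0 ≤ a₂
  κ_pos : 0 < κ
  κ_le : κ ≤ 1
  kz_le : kz L ≤ κ * σ
  tail : big L * Real.exp (-(L ^ 6 / 2048)) ≤ κ * σ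

/-- Bounds for the masses in a cell. -/
structure MF (D : Dat E ι) (Γ : E → ℝ) (C κ T l r σ a₁ a₂ : ℝ) (z x₁ : E) (W : Submodule ℝ E) :
    Prop where
  m1 : ∀ s, 0 < s → s ≤ 8 * l ^ 2 → ∫ y in ball z (2 * l), P s D.τ y ≤ C * σ * pk E l
  m2 : ∀ s, 0 < s → s ≤ 4 * l ^ 2 → ∫ y in ball z (2 * l), P s Γ y ≤ C * κ * σ * pk E l
  m3 : ∫ y in ball z (2 * l), P T (τpar W D.T) y ≤ C * (a₁ + κ) * σ * pk E l
  m4 : ∫ y in ball z (2 * l) ∩ {y | r ≤ dd W x₁ y}, P T D.τ y ≤ C * (a₂ + κ) * σ * pk E l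

end Pool.Agent.Lib.MP_8daebb_an.PR
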