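import Pool.Agent.Lib.MP_8daebb_an.PR.Def
import Pool.Agent.Lib.MP_8daebb_an.HK.Lap

/-! Projections, traces and the classes Cb, Cc. -/

open MeasureTheory Metric Set Module Real Filter Topology
open scoped RealInnerProductSpace

namespace Pool.Agent.Lib.MP_8daebb_an.PR

open HK AS

set_option linter.unusedSectionVars false

variable {E : Type*} [NormedAddCommGroup E] [InnerProductSpace ℝ E] [FiniteDimensional ℝ E]
  [MeasurableSpace E] [BorelSpace E]

section proj

variable (L : Submodule ℝ E)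

theorem pa_add_pe (y : E) : pa L y + pe L y = y :=
  L.starProjection_add_starProjection_orthogonal y

theorem inner_pa_pe (x y : E) : ⟪pa L x, pe L y⟫ = 0 :=
  Submodule.inner_right_of_mem_orthogonal (L.starProjection_apply_mem x)
    (Lᗮ.starProjection_apply_mem y)

theorem norm_sq_pa_pe (y : E) : ‖y‖ ^ 2 = ‖pa L y‖ ^ 2 + ‖pe L y‖ ^ 2 :=
  Submodule.norm_sq_eq_add_norm_sq_starProjection y L

theorem norm_pa_le (y : E) : ‖pa L y‖ ≤ ‖y‖ :=
  L.norm_starProjection_apply_le y

theorem norm_pe_le (y : E) : ‖pe L y‖ ≤ ‖y‖ :=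
  Lᗮ.norm_starProjection_apply_le y

theorem pa_pa (y : E) : pa L (pa L y) = pa L y :=
  Submodule.starProjection_eq_self_iff.2 (L.starProjection_apply_mem y)

theorem pe_pe (y : E) : pe L (pe L y) = pe L y :=
  Submodule.starProjection_eq_self_iff.2 (Lᗮ.starProjection_apply_mem y)

theorem pa_pe (y : E) : pa L (pe L y) = 0 :=
  L.starProjection_apply_eq_zero_iff.2 (Lᗮ.starProjection_apply_mem y)

theorem pe_pa (y : E) : pe L (pa L y) = 0 :=
  Lᗮ.starProjection_apply_eq_zero_iff.2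
    (L.le_orthogonal_orthogonal (L.starProjection_apply_mem y))

theorem inner_pa_left (x y : E) : ⟪pa L x, y⟫ = ⟪x, pa L y⟫ :=
  L.inner_starProjection_left_eq_right x y

theorem inner_pe_left (x y : E) : ⟪pe L x, y⟫ = ⟪x, pe L y⟫ :=
  Lᗮ.inner_starProjection_left_eq_right x y

theorem pa_of_mem {v : E} (hv : v ∈ L) : pa L v = v :=
  Submodule.starProjection_eq_self_iff.2 hv

theorem pe_of_mem {v : E} (hv : v ∈ L) : pe L v = 0 :=
  Lᗮ.starProjection_apply_eq_zero_iff.2 (L.le_orthogonal_orthogonal hv)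

theorem pa_mem (y : E) : pa L y ∈ L :=
  L.starProjection_apply_mem y

theorem pa_eq_coe (y : E) : pa L y = (L.orthogonalProjectionOnto y : E) :=
  rfl

theorem sum_sq_inner_pa {ι : Type*} [Fintype ι] (c : OrthonormalBasis ι ℝ L) (z : E) :
    ∑ i, ⟪z, (c i : E)⟫ ^ 2 = ‖pa L z‖ ^ 2 := by
  have h := c.sum_sq_inner_left (L.orthogonalProjectionOnto z)
  rw [pa_eq_coe, Submodule.coe_norm] at *
  rw [← h]
  refine Finset.sum_congr rfl fun i _ => ?_
  rw [Submodule.coe_inner, ← pa_eq_coe, inner_pa_left, pa_of_mem L (c i).2]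

theorem tr_pa : tr (pa L) = finrank ℝ L := by
  have h : LinearMap.IsProj L ((pa L : E →L[ℝ] E) : E →ₗ[ℝ] E) :=
    ⟨fun y => pa_mem L y, fun y hy => pa_of_mem L hy⟩
  exact h.trace

theorem tr_pe (hL : finrank ℝ L + 2 = finrank ℝ E) : tr (pe L) = 2 := by
  have h1 : tr (pe L) = finrank ℝ Lᗮ := tr_pa Lᗮ
  have h2 := L.finrank_add_finrank_orthogonal
  have h3 : finrank ℝ Lᗮ = 2 := by omega
  rw [h1, h3]
  norm_num

end proj

theorem tr_eq_sum' {ι : Type*} [Fintype ι] (b : OrthonormalBasis ι ℝ E) (A : E →L[ℝ] E) :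
    tr A = ∑ i, ⟪b i, A (b i)⟫ := by
  rw [tr_eq_sum b A]
  exact Finset.sum_congr rfl fun i _ => real_inner_comm _ _

theorem tr_add (A B : E →L[ℝ] E) : tr (A + B) = tr A + tr B := by
  unfold tr
  rw [ContinuousLinearMap.toLinearMap_add, map_add]

theorem tr_smul (c : ℝ) (A : E →L[ℝ] E) : tr (c • A) = c * tr A := by
  unfold tr
  rw [ContinuousLinearMap.toLinearMap_smul, map_smul, smul_eq_mul]

theorem tr_smulRight (A : E →L[ℝ] E) (f : E →L[ℝ] ℝ) (v : E) :
    tr (A.comp (f.smulRight v)) = f (A v) := by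
  let b := stdOrthonormalBasis ℝ E
  rw [tr_eq_sum' b]
  conv_rhs => rw [← b.sum_repr' (A v), map_sum]
  refine Finset.sum_congr rfl fun i _ => ?_
  simp only [ContinuousLinearMap.comp_apply, ContinuousLinearMap.smulRight_apply, map_smul,
    inner_smul_right, smul_eq_mul]
  ring

theorem abs_tr_le (A : E →L[ℝ] E) : |tr A| ≤ finrank ℝ E * ‖A‖ := by
  let b := stdOrthonormalBasis ℝ E
  rw [tr_eq_sum' b]
  refine (Finset.abs_sum_le_sum_abs _ _).trans ?_
  have h : ∀ i ∈ (Finset.univ : Finset (Fin (finrank ℝ E))), |⟪b i, A (b i)⟫| ≤ ‖A‖ := fun i _ => by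
    have h1 := abs_real_inner_le_norm (b i) (A (b i))
    have h2 := A.le_opNorm (b i)
    rw [b.orthonormal.1 i] at h1 h2
    linarith
  simpa using Finset.sum_le_card_nsmul _ _ _ h

theorem continuous_tr : Continuous (tr : (E →L[ℝ] E) → ℝ) := by
  have h : (tr : (E →L[ℝ] E) → ℝ) = fun A => ∑ i, ⟪stdOrthonormalBasis ℝ E i,
      A (stdOrthonormalBasis ℝ E i)⟫ := funext fun A => tr_eq_sum' _ A
  rw [h]
  fun_prop

theorem sum_sq_pd {ι : Type*} [Fintype ι] (b : OrthonormalBasis ι ℝ E) (f : E → ℝ) (y : E) :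
    ∑ i, pd (b i) f y ^ 2 = ‖fderiv ℝ f y‖ ^ 2 := by
  rw [← norm_gradient, ← real_inner_self_eq_norm_sq, ← sum_fderiv_mul b f f y]
  exact Finset.sum_congr rfl fun i _ => sq _

theorem sum_pd_mul_pd {ι : Type*} [Fintype ι] (b : OrthonormalBasis ι ℝ E) (f g : E → ℝ) (y : E) :
    ∑ i, pd (b i) f y * pd (b i) g y = ⟪gradient f y, gradient g y⟫ :=
  sum_fderiv_mul b f g y

theorem abs_pd_le (e : E) (f : E → ℝ) (y : E) : |pd e f y| ≤ ‖fderiv ℝ f y‖ * ‖e‖ :=
  (fderiv ℝ f y).le_opNorm e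

variable {n : ℕ} {f g : E → ℝ}

theorem contDiff_pd (hf : ContDiff ℝ (n + 1 : ℕ) f) (e : E) : ContDiff ℝ n (pd e f) := by
  have h : ContDiff ℝ n (fderiv ℝ f) := hf.fderiv_right (by push_cast; exact le_rfl)
  exact h.clm_apply contDiff_const

theorem Cb.zero_calc (hf : Cb n f) : Cb 0 f := by
  cases n with
  | zero => exact hf
  | succ n => exact hf.1

theorem add_zero_calc (hf : Cb 0 f) (hg : Cb 0 g) : Cb 0 (fun y => f y + g y) := by
  obtain ⟨h1, B, hB⟩ := hf
  obtain ⟨h2, B', hB'⟩ := hg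
  exact ⟨h1.add h2, B + B', fun y => (abs_add_le _ _).trans (add_le_add (hB y) (hB' y))⟩

theorem const_mul_zero_calc (hf : Cb 0 f) (c : ℝ) : Cb 0 (fun y => c * f y) := by
  obtain ⟨h1, B, hB⟩ := hf
  refine ⟨continuous_const.mul h1, |c| * B, fun y => ?_⟩
  rw [abs_mul]
  exact mul_le_mul_of_nonneg_left (hB y) (abs_nonneg c)

theorem Cb.continuous (hf : Cb n f) : Continuous f :=
  (Cb.zero_calc hf).1

theorem Cb.bm (hf : Cb n f) : BM f :=
  ⟨hf.continuous.measurable, (Cb.zero_calc hf).2⟩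

theorem Cb.contDiff (hf : Cb n f) : ContDiff ℝ n f := by
  induction n generalizing f with
  | zero => exact contDiff_zero.2 hf.1
  | succ n ih =>
    rw [Nat.cast_succ, contDiff_succ_iff_fderiv_apply]
    exact ⟨hf.2.1, fun h => absurd h (by simp), fun e => ih (hf.2.2 e)⟩

theorem Cb.pd (hf : Cb (n + 1) f) (e : E) : Cb n (pd e f) :=
  hf.2.2 e

theorem Cb.of_le {k : ℕ} (hf : Cb n f) (h : k ≤ n) : Cb k f := by
  induction k generalizing n f with
  | zero => exact Cb.zero_calc hf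
  | succ k ih =>
    obtain ⟨n, rfl⟩ : ∃ n', n = n' + 1 := ⟨n - 1, by omega⟩
    exact ⟨hf.1, hf.2.1, fun e => ih (hf.2.2 e) (by omega)⟩

theorem Cb.const (n : ℕ) (c : ℝ) : Cb n (fun _ : E => c) := by
  induction n generalizing c with
  | zero => exact ⟨continuous_const, |c|, fun _ => le_rfl⟩
  | succ n ih =>
    refine ⟨⟨continuous_const, |c|, fun _ => le_rfl⟩, differentiable_const c, fun e => ?_⟩
    have h : PR.pd e (fun _ : E => c) = fun _ => 0 := funext fun y => by simp [PR.pd]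
    rw [h]
    exact ih 0

theorem Cb.add (hf : Cb n f) (hg : Cb n g) : Cb n (fun y => f y + g y) := by
  induction n generalizing f g with
  | zero => exact add_zero_calc hf hg
  | succ n ih =>
    refine ⟨add_zero_calc hf.1 hg.1, hf.2.1.add hg.2.1, fun e => ?_⟩
    have h : PR.pd e (fun y => f y + g y) = fun y => PR.pd e f y + PR.pd e g y :=
      funext fun y => by
        simp only [PR.pd]
        rw [fderiv_fun_add (hf.2.1 y) (hg.2.1 y), add_apply]
    rw [h]
    exact ih (hf.2.2 e) (hg.2.2 e)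

theorem Cb.const_mul (hf : Cb n f) (c : ℝ) : Cb n (fun y => c * f y) := by
  induction n generalizing f with
  | zero => exact const_mul_zero_calc hf c
  | succ n ih =>
    refine ⟨const_mul_zero_calc hf.1 c, hf.2.1.const_mul c, fun e => ?_⟩
    have h : PR.pd e (fun y => c * f y) = fun y => c * PR.pd e f y :=
      funext fun y => by
        simp only [PR.pd]
        rw [fderiv_const_mul (hf.2.1 y), smul_apply, smul_eq_mul]
    rw [h]
    exact ih (hf.2.2 e)

theorem Cb.sub (hf : Cb n f) (hg : Cb n g) : Cb n (fun y => f y - g y) := by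
  have h := hf.add (hg.const_mul (-1))
  simpa only [neg_one_mul, ← sub_eq_add_neg] using h

theorem Cb.sum {ι : Type*} (s : Finset ι) {F : ι → E → ℝ} (h : ∀ i ∈ s, Cb n (F i)) :
    Cb n (fun y => ∑ i ∈ s, F i y) := by
  classical
  induction s using Finset.induction_on with
  | empty => simpa only [Finset.sum_empty] using Cb.const n 0
  | insert a s ha ih =>
    simp only [Finset.sum_insert ha]
    exact (h a (Finset.mem_insert_self _ _)).add (ih fun i hi => h i (Finset.mem_insert_of_mem hi))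

theorem Cb.fderiv_bdd (hf : Cb (n + 1) f) : ∃ B, ∀ y, ‖fderiv ℝ f y‖ ≤ B := by
  let b := stdOrthonormalBasis ℝ E
  choose B hB using fun i => (Cb.zero_calc (hf.2.2 (b i))).2
  refine ⟨√(∑ i, B i ^ 2), fun y => Real.le_sqrt_of_sq_le ?_⟩
  rw [← sum_sq_pd b]
  refine Finset.sum_le_sum fun i _ => ?_
  rw [← sq_abs]
  exact pow_le_pow_left₀ (abs_nonneg _) (hB i y) 2

/-- Affine changes of variable. -/
theorem Cb.comp_affine (hf : Cb n f) (o : E) (l : ℝ) : Cb n (fun y => f (o + l • y)) := by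
  have h0 : ∀ {f : E → ℝ}, Cb 0 f → Cb 0 (fun y => f (o + l • y)) := fun hf =>
    ⟨hf.1.comp (by fun_prop), hf.2.imp fun _ hB y => hB _⟩
  induction n generalizing f with
  | zero => exact h0 hf
  | succ n ih =>
    have hd : ∀ y, HasFDerivAt (fun y => f (o + l • y))
        ((fderiv ℝ f (o + l • y)).comp (l • ContinuousLinearMap.id ℝ E)) y := fun y =>
      (hf.2.1 _).hasFDerivAt.comp y (((hasFDerivAt_id y).const_smul l).const_add o)
    refine ⟨h0 hf.1, fun y => (hd y).differentiableAt, fun e => ?_⟩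
    have h : PR.pd e (fun y => f (o + l • y)) = fun y => l * PR.pd e f (o + l • y) :=
      funext fun y => by
        simp only [PR.pd]
        rw [(hd y).fderiv]
        simp
    rw [h]
    exact (ih (hf.2.2 e)).const_mul l

theorem Cc.continuous (hf : Cc n f) : Continuous f :=
  hf.cd.continuous

theorem Cc.integrable (hf : Cc n f) : Integrable f :=
  hf.continuous.integrable_of_hasCompactSupport hf.cs

theorem Cc.bm (hf : Cc n f) : BM f :=
  (LI.of_compact hf.cd.continuous hf.cs).bm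

theorem Cc.li (hf : Cc n f) : LI f :=
  LI.of_compact hf.cd.continuous hf.cs

theorem Cc.of_le {k : ℕ} (hf : Cc n f) (h : k ≤ n) : Cc k f :=
  ⟨hf.cd.of_le (by exact_mod_cast h), hf.cs⟩

theorem Cc.pd (hf : Cc (n + 1) f) (e : E) : Cc n (pd e f) :=
  ⟨contDiff_pd hf.cd e, hf.cs.fderiv_apply ℝ e⟩

theorem Cc.cb (hf : Cc n f) : Cb n f := by
  induction n generalizing f with
  | zero => exact ⟨hf.continuous, hf.bm.bdd⟩
  | succ n ih =>
    exact ⟨⟨hf.continuous, hf.bm.bdd⟩, hf.cd.differentiable (by simp), fun e => ih (hf.pd e)⟩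

theorem Cc.mul (hf : Cc n f) (hg : ContDiff ℝ n g) : Cc n (fun y => f y * g y) :=
  ⟨hf.cd.mul hg, hf.cs.mul_right⟩

theorem Cc.mul' (hf : ContDiff ℝ n f) (hg : Cc n g) : Cc n (fun y => f y * g y) :=
  ⟨hf.mul hg.cd, hg.cs.mul_left⟩

theorem Cc.add (hf : Cc n f) (hg : Cc n g) : Cc n (fun y => f y + g y) :=
  ⟨hf.cd.add hg.cd, hf.cs.add hg.cs⟩

theorem Cc.sub (hf : Cc n f) (hg : Cc n g) : Cc n (fun y => f y - g y) :=
  ⟨hf.cd.sub hg.cd, hf.cs.sub hg.cs⟩

theorem Cc.const_mul (hf : Cc n f) (c : ℝ) : Cc n (fun y => c * f y) :=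
  Cc.mul' contDiff_const hf

theorem Cc.sum {ι : Type*} (s : Finset ι) {F : ι → E → ℝ} (h : ∀ i ∈ s, Cc n (F i)) :
    Cc n (fun y => ∑ i ∈ s, F i y) := by
  classical
  induction s using Finset.induction_on with
  | empty =>
    simp only [Finset.sum_empty]
    exact ⟨contDiff_const, HasCompactSupport.zero⟩
  | insert a s ha ih =>
    simp only [Finset.sum_insert ha]
    exact (h a (Finset.mem_insert_self _ _)).add (ih fun i hi => h i (Finset.mem_insert_of_mem hi))

theorem Cc.abs (hf : Cc n f) : Cc 0 (fun y => |f y|) :=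
  ⟨contDiff_zero.2 hf.continuous.abs, hf.cs.comp_left (g := fun x : ℝ => |x|) abs_zero⟩

/-- A continuous kernel against two compactly supported functions. -/
theorem Cc.integrable_prod {k : ℕ} (hf : Cc n f) (hg : Cc k g) {K : E × E → ℝ}
    (hK : Continuous K) : Integrable (fun p : E × E => f p.1 * g p.2 * K p) := by
  have hc : Continuous fun p : E × E => f p.1 * g p.2 * K p :=
    ((hf.continuous.comp continuous_fst).mul (hg.continuous.comp continuous_snd)).mul hK
  refine hc.integrable_of_hasCompactSupport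
    (HasCompactSupport.intro (IsCompact.prod hf.cs hg.cs) fun p hp => ?_)
  rw [mem_prod, not_and_or] at hp
  rcases hp with hp | hp
  · rw [image_eq_zero_of_notMem_tsupport hp, zero_mul, zero_mul]
  · rw [image_eq_zero_of_notMem_tsupport hp, mul_zero, zero_mul]

end Pool.Agent.Lib.MP_8daebb_an.PR
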