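import Pool.Agent.Lib.MP_8daebb_an.PR.Calc

/-! The cutoff functions. -/

open MeasureTheory Metric Set Module Real Filter Topology
open scoped RealInnerProductSpace

namespace Pool.Agent.Lib.MP_8daebb_an.PR

open HK AS

variable {E : Type*} [NormedAddCommGroup E] [InnerProductSpace ℝ E] [FiniteDimensional ℝ E]
  [MeasurableSpace E] [BorelSpace E]

theorem ct_nonneg (a b s : ℝ) : 0 ≤ ct a b s := by
  exact smoothTransition.nonneg _

theorem ct_le_one (a b s : ℝ) : ct a b s ≤ 1 := by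
  exact smoothTransition.le_one _

theorem ct_one {a b s : ℝ} (hab : a < b) (h : s ≤ a) : ct a b s = 1 := by
  refine smoothTransition.one_of_one_le ?_
  rw [le_div_iff₀ (sub_pos.2 hab)]
  linarith

theorem ct_zero {a b s : ℝ} (hab : a < b) (h : b ≤ s) : ct a b s = 0 := by
  exact smoothTransition.zero_of_nonpos (div_nonpos_of_nonpos_of_nonneg (by linarith) (by linarith))

theorem ct_contDiff (a b : ℝ) (n : ℕ) : ContDiff ℝ n (ct a b) := by
  exact (smoothTransition.contDiff (n := n)).comp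
    ((contDiff_const.sub contDiff_id).div_const _)

theorem st_two_cut : ContDiff ℝ 2 smoothTransition := smoothTransition.contDiff (n := 2)

theorem st_one_cut : ContDiff ℝ 1 (deriv smoothTransition) := st_two_cut.deriv'

theorem aff_cut (a b s : ℝ) : HasDerivAt (fun s : ℝ => (b - s) / (b - a)) (-1 / (b - a)) s :=
  ((hasDerivAt_id' s).const_sub b).div_const _

theorem deriv_ct_cut (a b : ℝ) : deriv (ct a b) =
    fun s => -deriv smoothTransition ((b - s) / (b - a)) / (b - a) := by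
  funext s
  have h1 := ((st_two_cut.differentiable (by norm_num) ((b - s) / (b - a))).hasDerivAt).comp s
    (aff_cut a b s)
  refine (h1.congr_deriv ?_).deriv
  ring

theorem deriv_deriv_ct_cut (a b s : ℝ) : deriv (deriv (ct a b)) s =
    deriv (deriv smoothTransition) ((b - s) / (b - a)) / (b - a) ^ 2 := by
  rw [deriv_ct_cut]
  have h1 := ((st_one_cut.differentiable (by norm_num) ((b - s) / (b - a))).hasDerivAt).comp s
    (aff_cut a b s)
  refine ((h1.neg.div_const (b - a)).congr_deriv ?_).deriv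
  generalize b - a = d
  ring

theorem st_zero_cut {x : ℝ} (h : x ≤ 0 ∨ 1 ≤ x) : deriv smoothTransition x = 0 := by
  rcases h with h | h
  · refine IsLocalMin.deriv_eq_zero (Eventually.of_forall fun z => ?_)
    rw [smoothTransition.zero_of_nonpos h]
    exact smoothTransition.nonneg z
  · refine IsLocalMax.deriv_eq_zero (Eventually.of_forall fun z => ?_)
    rw [smoothTransition.one_of_one_le h]
    exact smoothTransition.le_one z

theorem st_zero_two_cut {x : ℝ} (h : x < 0 ∨ 1 < x) : deriv (deriv smoothTransition) x = 0 := by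
  have h1 : deriv smoothTransition =ᶠ[𝓝 x] fun _ => 0 := by
    rcases h with h | h
    · filter_upwards [Iio_mem_nhds h] with z hz using st_zero_cut (Or.inl (le_of_lt hz))
    · filter_upwards [Ioi_mem_nhds h] with z hz using st_zero_cut (Or.inr (le_of_lt hz))
  rw [h1.deriv_eq, deriv_const]

theorem bdd_cut {g : ℝ → ℝ} (hg : Continuous g) (h0 : ∀ x, x < 0 ∨ 1 < x → g x = 0) :
    ∃ C, 1 ≤ C ∧ ∀ x, |g x| ≤ C := by
  obtain ⟨C, hC⟩ := (isCompact_Icc (a := (0 : ℝ)) (b := 1)).exists_bound_of_continuousOn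
    hg.continuousOn
  refine ⟨max C 1, le_max_right _ _, fun x => ?_⟩
  by_cases hx : x < 0 ∨ 1 < x
  · rw [h0 x hx, abs_zero]
    exact zero_le_one.trans (le_max_right _ _)
  · rw [not_or, not_lt, not_lt] at hx
    exact (hC x hx).trans (le_max_left _ _)

theorem deriv_ct_nonpos {a b : ℝ} (hab : a < b) (s : ℝ) : deriv (ct a b) s ≤ 0 := by
  rw [deriv_ct_cut]
  exact div_nonpos_of_nonpos_of_nonneg (neg_nonpos.2 smoothTransition.monotone.deriv_nonneg)
    (sub_pos.2 hab).le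

theorem deriv_ct_zero {a b s : ℝ} (hab : a < b) (h : s ≤ a ∨ b ≤ s) : deriv (ct a b) s = 0 := by
  have h0 := sub_pos.2 hab
  have h1 : deriv smoothTransition ((b - s) / (b - a)) = 0 := by
    refine st_zero_cut ?_
    rcases h with h | h
    · right
      rw [le_div_iff₀ h0]
      linarith
    · exact Or.inl (div_nonpos_of_nonpos_of_nonneg (by linarith) h0.le)
  rw [deriv_ct_cut]
  simp only [h1, neg_zero, zero_div]

theorem ct_bounds : ∃ C : ℝ, 1 ≤ C ∧ ∀ a b s : ℝ, a < b →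
    |deriv (ct a b) s| ≤ C / (b - a) ∧ |deriv (deriv (ct a b)) s| ≤ C / (b - a) ^ 2 := by
  obtain ⟨C1, h1, b1⟩ := bdd_cut st_one_cut.continuous fun x hx =>
    st_zero_cut (hx.imp le_of_lt le_of_lt)
  obtain ⟨C2, -, b2⟩ := bdd_cut (st_one_cut.continuous_deriv le_rfl) fun x hx =>
    st_zero_two_cut hx
  refine ⟨max C1 C2, h1.trans (le_max_left _ _), fun a b s hab => ⟨?_, ?_⟩⟩
  · have h0 := sub_pos.2 hab
    rw [deriv_ct_cut]
    simp only [abs_div, abs_neg, abs_of_pos h0]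
    exact div_le_div_of_nonneg_right ((b1 _).trans (le_max_left _ _)) h0.le
  · have h0 := pow_pos (sub_pos.2 hab) 2
    rw [deriv_deriv_ct_cut, abs_div, abs_of_pos h0]
    exact div_le_div_of_nonneg_right ((b2 _).trans (le_max_right _ _)) h0.le

variable (L : Submodule ℝ E) {r : ℝ} {n b : ℕ}

theorem ze_contDiff (r : ℝ) (n b k : ℕ) : ContDiff ℝ k (ze L r n b) := by
  exact (ct_contDiff _ _ k).comp ((pe L).contDiff.norm_sq ℝ)

theorem ze_nonneg (r : ℝ) (n b : ℕ) (y : E) : 0 ≤ ze L r n b y := by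
  exact ct_nonneg _ _ _

theorem ze_le_one (r : ℝ) (n b : ℕ) (y : E) : ze L r n b y ≤ 1 := by
  exact ct_le_one _ _ _

theorem rad_pos_cut (hr : 0 < r) (n b : ℕ) : 0 < rad r n b := by
  unfold rad
  split_ifs <;> positivity

theorem ze_one (hr : 0 < r) {y : E} (h : ‖pe L y‖ ≤ rad r n b) : ze L r n b y = 1 := by
  have h0 := rad_pos_cut hr n b
  exact ct_one (by nlinarith) (pow_le_pow_left₀ (norm_nonneg _) h 2)

theorem ze_zero (hr : 0 < r) {y : E} (h : 4 * rad r n b ≤ ‖pe L y‖) : ze L r n b y = 0 := by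
  have h0 := rad_pos_cut hr n b
  exact ct_zero (by nlinarith) (pow_le_pow_left₀ (by linarith) h 2)

theorem ze_top (r : ℝ) (n : ℕ) (y : E) :
    ze L r n (n + 1) y = ct (1 / 16) 1 (‖pe L y‖ ^ 2) := by
  have h : rad r n (n + 1) = 1 / 4 := if_neg (by omega)
  unfold ze
  rw [h]
  norm_num

theorem ze_le_cut (hr : 0 < r) {b' : ℕ} (h : 4 * rad r n b ≤ rad r n b') (y : E) :
    ze L r n b y ≤ ze L r n b' y := by
  rcases le_total ‖pe L y‖ (rad r n b') with h1 | h1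
  · rw [ze_one L hr h1]
    exact ze_le_one L r n b y
  · rw [ze_zero L hr (h.trans h1)]
    exact ze_nonneg L r n b' y

theorem ze_mono (hr : 0 < r) (hn : 4 ^ (n + 1) * r ≤ 1 / 4) (hb : b ≤ n) (y : E) :
    ze L r n b y ≤ ze L r n (b + 1) y := by
  refine ze_le_cut L hr ?_ y
  have h1 : rad r n b = 4 ^ b * r := if_pos hb
  rw [h1]
  unfold rad
  split_ifs with h
  · rw [pow_succ]
    linarith
  · have h2 : b = n := by omega
    rw [h2]
    rw [pow_succ] at hn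
    linarith

theorem zc_nonneg (a b : ℝ) (y : E) : 0 ≤ zc L a b y := by
  exact mul_nonneg (ct_nonneg _ _ _) (ct_nonneg _ _ _)

theorem zc_le_one (a b : ℝ) (y : E) : zc L a b y ≤ 1 := by
  exact mul_le_one₀ (ct_le_one _ _ _) (ct_nonneg _ _ _) (ct_le_one _ _ _)

theorem zc_one {a b : ℝ} (hab : a < b) {y : E} (h1 : ‖pa L y‖ ^ 2 ≤ a) (h2 : ‖pe L y‖ ≤ 1 / 4) :
    zc L a b y = 1 := by
  have h3 : ‖pe L y‖ ^ 2 ≤ 1 / 16 := by nlinarith [norm_nonneg (pe L y)]
  unfold zc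
  rw [ct_one hab h1, ct_one (by norm_num) h3, one_mul]

theorem zc_ne_zero {a b : ℝ} (hab : a < b) {y : E} (h : zc L a b y ≠ 0) :
    ‖pa L y‖ ^ 2 < b ∧ ‖pe L y‖ < 1 := by
  obtain ⟨h1, h2⟩ := mul_ne_zero_iff.1 h
  refine ⟨lt_of_not_ge fun h3 => h1 (ct_zero hab h3), lt_of_not_ge fun h3 => h2 ?_⟩
  exact ct_zero (by norm_num) (one_le_pow₀ h3)

theorem zc_tsupport {a b : ℝ} (hab : a < b) (hb : b ≤ 25 / 4) :
    tsupport (zc L a b) ⊆ ball (0 : E) 3 := by
  refine (closure_minimal (t := closedBall (0 : E) (11 / 4)) (fun y hy => ?_)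
    isClosed_closedBall).trans (closedBall_subset_ball (by norm_num))
  obtain ⟨h1, h2⟩ := zc_ne_zero L hab hy
  have h3 := norm_sq_pa_pe L y
  rw [mem_closedBall_zero_iff]
  nlinarith [norm_nonneg (pe L y), norm_nonneg y]

theorem zc_cc {a b : ℝ} (hab : a < b) (k : ℕ) : Cc k (zc L a b) := by
  refine ⟨((ct_contDiff _ _ k).comp ((pa L).contDiff.norm_sq ℝ)).mul
    ((ct_contDiff _ _ k).comp ((pe L).contDiff.norm_sq ℝ)), ?_⟩
  refine HasCompactSupport.intro (isCompact_closedBall (0 : E) (|b| + 2)) fun y hy => ?_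
  by_contra h
  obtain ⟨h1, h2⟩ := zc_ne_zero L hab h
  have h3 := norm_sq_pa_pe L y
  rw [mem_closedBall_zero_iff, not_le] at hy
  nlinarith [norm_nonneg (pe L y), le_abs_self b, abs_nonneg b]

theorem zt_cc (k : ℕ) : Cc k (zt L) := by
  exact zc_cc L (by norm_num) k

/-- The derivative of `f` at `y` in the direction `v` is `a`. -/
def DDcut (f : E → ℝ) (y v : E) (a : ℝ) : Prop := ∃ f' : E →L[ℝ] ℝ, HasFDerivAt f f' y ∧ f' v = a

theorem DDcut.eq {f : E → ℝ} {y v : E} {a : ℝ} (h : DDcut f y v a) : fderiv ℝ f y v = a := by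
  obtain ⟨f', h1, h2⟩ := h
  rw [h1.fderiv, h2]

theorem DDcut.mul {f g : E → ℝ} {y v : E} {a b : ℝ} (h : DDcut f y v a) (h' : DDcut g y v b) :
    DDcut (fun x => f x * g x) y v (a * g y + f y * b) := by
  obtain ⟨f', h1, rfl⟩ := h
  obtain ⟨g', h2, rfl⟩ := h'
  refine ⟨_, h1.mul h2, ?_⟩
  simp only [add_apply, smul_apply, smul_eq_mul]
  ring

theorem DDcut.add {f g : E → ℝ} {y v : E} {a b : ℝ} (h : DDcut f y v a) (h' : DDcut g y v b) :
    DDcut (fun x => f x + g x) y v (a + b) := by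
  obtain ⟨f', h1, rfl⟩ := h
  obtain ⟨g', h2, rfl⟩ := h'
  exact ⟨_, h1.add h2, rfl⟩

theorem DDcut.cmul {f : E → ℝ} {y v : E} {a : ℝ} (h : DDcut f y v a) (c : ℝ) :
    DDcut (fun x => c * f x) y v (c * a) := by
  obtain ⟨f', h1, rfl⟩ := h
  exact ⟨_, h1.const_mul c, rfl⟩

theorem DDcut.comp {f : E → ℝ} {y v : E} {a : ℝ} (h : DDcut f y v a) {g : ℝ → ℝ}
    (hg : Differentiable ℝ g) : DDcut (fun x => g (f x)) y v (deriv g (f y) * a) := by
  obtain ⟨f', h1, rfl⟩ := h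
  exact ⟨_, (hg (f y)).hasDerivAt.comp_hasFDerivAt y h1, rfl⟩

theorem dd_sq_cut (A : E →L[ℝ] E) (y v : E) :
    DDcut (fun x => ‖A x‖ ^ 2) y v (2 * ⟪A y, A v⟫) := by
  refine ⟨_, A.hasFDerivAt.norm_sq, ?_⟩
  simp

theorem dd_inner_cut (A : E →L[ℝ] E) (e y v : E) : DDcut (fun x => ⟪A x, e⟫) y v ⟪A v, e⟫ := by
  refine ⟨(innerSL ℝ e).comp A, ?_, real_inner_comm _ _⟩
  have h : (fun x => ⟪A x, e⟫) = fun x => ((innerSL ℝ e).comp A) x :=
    funext fun x => real_inner_comm _ _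
  rw [h]
  exact ContinuousLinearMap.hasFDerivAt _

theorem dd_pa_cut (y v : E) : DDcut (fun x => ‖pa L x‖ ^ 2) y v (2 * ⟪pa L y, v⟫) := by
  have h := dd_sq_cut (pa L) y v
  rwa [← inner_pa_left, pa_pa] at h

theorem dd_pe_cut (y v : E) : DDcut (fun x => ‖pe L x‖ ^ 2) y v (2 * ⟪pe L y, v⟫) := by
  have h := dd_sq_cut (pe L) y v
  rwa [← inner_pe_left, pe_pe] at h

theorem dd_ct_cut (a b : ℝ) {f : E → ℝ} {y v : E} {c : ℝ} (h : DDcut f y v c) :
    DDcut (fun x => ct a b (f x)) y v (deriv (ct a b) (f y) * c) :=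
  h.comp ((ct_contDiff a b 1).differentiable (by norm_num))

theorem dd_dct_cut (a b : ℝ) {f : E → ℝ} {y v : E} {c : ℝ} (h : DDcut f y v c) :
    DDcut (fun x => deriv (ct a b) (f x)) y v (deriv (deriv (ct a b)) (f y) * c) := by
  have h2 : ContDiff ℝ 2 (ct a b) := ct_contDiff a b 2
  have h1 : ContDiff ℝ 1 (deriv (ct a b)) := h2.deriv'
  exact h.comp (h1.differentiable (by norm_num))

theorem fderiv_zc (a b : ℝ) (y v : E) : fderiv ℝ (zc L a b) y v =
    2 * deriv (ct a b) (‖pa L y‖ ^ 2) * ⟪pa L y, v⟫ * ct (1 / 16) 1 (‖pe L y‖ ^ 2) +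
      ct a b (‖pa L y‖ ^ 2) * (2 * deriv (ct (1 / 16) 1) (‖pe L y‖ ^ 2) * ⟪pe L y, v⟫) := by
  have h := ((dd_ct_cut a b (dd_pa_cut L y v)).mul (dd_ct_cut (1 / 16) 1 (dd_pe_cut L y v))).eq
  refine h.trans ?_
  ring

theorem fac_cut {a ρ K : ℝ} (h1 : 1 ≤ ρ) (h2 : ρ ≤ 2) (ha : a < ρ ^ 2)
    (k1 : ∀ s, |deriv (ct a (ρ ^ 2)) s| ≤ K) (k2 : ∀ s, |deriv (deriv (ct a (ρ ^ 2))) s| ≤ K)
    (A : E →L[ℝ] E) (hA : ∀ x, ‖A x‖ ≤ ‖x‖) (y : E) {e e' : E} (he : ‖e‖ ≤ 1) (he' : ‖e'‖ ≤ 1) :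
    |2 * deriv (ct a (ρ ^ 2)) (‖A y‖ ^ 2) * ⟪A y, e⟫| ≤ 4 * K ∧
    |deriv (ct a (ρ ^ 2)) (‖A y‖ ^ 2) * (2 * ⟪A y, e'⟫)| ≤ 4 * K ∧
    |2 * (deriv (deriv (ct a (ρ ^ 2))) (‖A y‖ ^ 2) * (2 * ⟪A y, e'⟫)) * ⟪A y, e⟫ +
      2 * deriv (ct a (ρ ^ 2)) (‖A y‖ ^ 2) * ⟪A e', e⟫| ≤ 18 * K := by
  have hK : 0 ≤ K := (abs_nonneg _).trans (k1 0)
  have i3 : |⟪A e', e⟫| ≤ 1 := (abs_real_inner_le_norm _ _).trans
    (mul_le_one₀ ((hA e').trans he') (norm_nonneg _) he)
  rcases le_or_gt ‖A y‖ ρ with h | h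
  · have i1 : |⟪A y, e⟫| ≤ 2 := (abs_real_inner_le_norm _ _).trans
      ((mul_le_of_le_one_right (norm_nonneg _) he).trans (h.trans h2))
    have i2 : |⟪A y, e'⟫| ≤ 2 := (abs_real_inner_le_norm _ _).trans
      ((mul_le_of_le_one_right (norm_nonneg _) he').trans (h.trans h2))
    have j1 := mul_le_mul (k1 (‖A y‖ ^ 2)) i1 (abs_nonneg _) hK
    have j2 := mul_le_mul (k1 (‖A y‖ ^ 2)) i2 (abs_nonneg _) hK
    have j3 := mul_le_mul (k1 (‖A y‖ ^ 2)) i3 (abs_nonneg _) hK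
    have j4 := mul_le_mul (mul_le_mul (k2 (‖A y‖ ^ 2)) i2 (abs_nonneg _) hK) i1 (abs_nonneg _)
      (by linarith)
    refine ⟨?_, ?_, (abs_add_le _ _).trans ?_⟩ <;>
      simp only [abs_mul, abs_two] <;> nlinarith
  · have h3 : ρ ^ 2 < ‖A y‖ ^ 2 := pow_lt_pow_left₀ h (by linarith) two_ne_zero
    have z1 : deriv (ct a (ρ ^ 2)) (‖A y‖ ^ 2) = 0 := deriv_ct_zero ha (Or.inr h3.le)
    have z2 : deriv (deriv (ct a (ρ ^ 2))) (‖A y‖ ^ 2) = 0 := by
      rw [deriv_deriv_ct_cut, st_zero_two_cut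
        (Or.inl (div_neg_of_neg_of_pos (by linarith) (by linarith))), zero_div]
    rw [z1, z2]
    simp only [mul_zero, zero_mul, add_zero, abs_zero]
    exact ⟨by linarith, by linarith, by linarith⟩

variable (E) in
theorem zt_bounds : ∃ C : ℝ, 1 ≤ C ∧ ∀ (L : Submodule ℝ E) (y e e' : E), ‖e‖ ≤ 1 → ‖e'‖ ≤ 1 →
    |pd e (zt L) y| ≤ C ∧ |pd e' (pd e (zt L)) y| ≤ C ∧
      (e ∈ L → |pd e (zt L) y| ≤ C * zc L 4 (25 / 4) y) := by
  obtain ⟨C, hC, hb⟩ := ct_bounds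
  have k1 : ∀ s, |deriv (ct (81 / 64) 4) s| ≤ 2 * C := fun s =>
    (hb _ _ s (by norm_num)).1.trans (by rw [div_le_iff₀ (by norm_num)]; linarith)
  have k2 : ∀ s, |deriv (deriv (ct (81 / 64) 4)) s| ≤ 2 * C := fun s =>
    (hb _ _ s (by norm_num)).2.trans (by rw [div_le_iff₀ (by norm_num)]; linarith)
  have k3 : ∀ s, |deriv (ct (1 / 16) 1) s| ≤ 2 * C := fun s =>
    (hb _ _ s (by norm_num)).1.trans (by rw [div_le_iff₀ (by norm_num)]; linarith)
  have k4 : ∀ s, |deriv (deriv (ct (1 / 16) 1)) s| ≤ 2 * C := fun s =>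
    (hb _ _ s (by norm_num)).2.trans (by rw [div_le_iff₀ (by norm_num)]; linarith)
  refine ⟨400 * C ^ 2, by nlinarith, fun L y e e' he he' => ?_⟩
  have hC2 : C ≤ C ^ 2 := by nlinarith
  have hpd : pd e (zt L) = fun x =>
      2 * deriv (ct (81 / 64) 4) (‖pa L x‖ ^ 2) * ⟪pa L x, e⟫ * ct (1 / 16) 1 (‖pe L x‖ ^ 2) +
        ct (81 / 64) 4 (‖pa L x‖ ^ 2) *
          (2 * deriv (ct (1 / 16) 1) (‖pe L x‖ ^ 2) * ⟪pe L x, e⟫) :=
    funext fun x => fderiv_zc L _ _ x e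
  obtain ⟨a1, a2, a3⟩ := fac_cut (a := 81 / 64) (ρ := 2) (by norm_num) (by norm_num) (by norm_num)
    (K := 2 * C) (by norm_num; exact k1) (by norm_num; exact k2) (pa L) (norm_pa_le L) y he he'
  obtain ⟨b1, b2, b3⟩ := fac_cut (a := 1 / 16) (ρ := 1) (by norm_num) (by norm_num) (by norm_num)
    (K := 2 * C) (by norm_num; exact k3) (by norm_num; exact k4) (pe L) (norm_pe_le L) y he he'
  rw [show (2 : ℝ) ^ 2 = 4 by norm_num] at a1 a2 a3
  rw [one_pow] at b1 b2 b3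
  have c1 := abs_le.2 ⟨(neg_nonpos.2 zero_le_one).trans (ct_nonneg (81 / 64) 4 (‖pa L y‖ ^ 2)),
    ct_le_one _ _ _⟩
  have c2 := abs_le.2 ⟨(neg_nonpos.2 zero_le_one).trans (ct_nonneg (1 / 16) 1 (‖pe L y‖ ^ 2)),
    ct_le_one _ _ _⟩
  refine ⟨?_, ?_, fun heL => ?_⟩
  · rw [hpd]
    refine (abs_add_le _ _).trans ?_
    rw [abs_mul _ (ct _ _ _), abs_mul (ct _ _ _)]
    have d1 := mul_le_mul a1 c2 (abs_nonneg _) (by linarith)
    have d2 := mul_le_mul c1 b1 (abs_nonneg _) zero_le_one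
    linarith
  · have h := (((((dd_dct_cut (81 / 64) 4 (dd_pa_cut L y e')).cmul 2).mul
      (dd_inner_cut (pa L) e y e')).mul (dd_ct_cut (1 / 16) 1 (dd_pe_cut L y e'))).add
      ((dd_ct_cut (81 / 64) 4 (dd_pa_cut L y e')).mul
        (((dd_dct_cut (1 / 16) 1 (dd_pe_cut L y e')).cmul 2).mul
          (dd_inner_cut (pe L) e y e')))).eq
    rw [hpd]
    unfold pd
    rw [h]
    refine (abs_add_le _ _).trans ((add_le_add (abs_add_le _ _) (abs_add_le _ _)).trans ?_)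
    rw [abs_mul _ (ct _ _ _), abs_mul (ct _ _ _), abs_mul (2 * _ * _), abs_mul _ (2 * _ * _)]
    have d1 := mul_le_mul a3 c2 (abs_nonneg _) (by linarith)
    have d2 := mul_le_mul a1 b2 (abs_nonneg _) (by linarith)
    have d3 := mul_le_mul a2 b1 (abs_nonneg _) (by linarith)
    have d4 := mul_le_mul c1 b3 (abs_nonneg _) zero_le_one
    nlinarith
  · have h0 : ⟪pe L y, e⟫ = 0 := by rw [inner_pe_left, pe_of_mem L heL, inner_zero_right]
    rw [hpd]
    simp only [h0, mul_zero, add_zero]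
    rcases le_total (‖pa L y‖ ^ 2) 4 with h | h
    · have h1 : zc L 4 (25 / 4) y = ct (1 / 16) 1 (‖pe L y‖ ^ 2) := by
        unfold zc
        rw [ct_one (by norm_num) h, one_mul]
      rw [h1, abs_mul, abs_of_nonneg (ct_nonneg _ _ _)]
      exact mul_le_mul_of_nonneg_right (by linarith) (ct_nonneg _ _ _)
    · rw [deriv_ct_zero (by norm_num) (Or.inr h)]
      simp only [mul_zero, zero_mul, abs_zero]
      exact mul_nonneg (by positivity) (zc_nonneg L _ _ y)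

variable {L} {c : ℝ} {th : E → ℝ}

theorem Th.c_nonneg (h : Th L c th) : 0 ≤ c := by
  exact (norm_nonneg _).trans (h.d1 0)

theorem Th.lip (h : Th L c th) (y y' : E) : |th y - th y'| ≤ c * ‖y - y'‖ := by
  exact Convex.norm_image_sub_le_of_norm_fderiv_le (𝕜 := ℝ) (s := univ)
    (fun x _ => h.cd.differentiable (by norm_num) x) (fun x _ => h.d1 x) convex_univ
    (mem_univ y') (mem_univ y)

theorem Th.fderiv_pe (h : Th L c th) (y v : E) : fderiv ℝ th y (pe L v) = 0 := by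
  have h1 : th = fun x => th (pa L x) := funext fun x => (h.inv x).symm
  have h2 := ((h.cd.differentiable (by norm_num) (pa L y)).hasFDerivAt.comp y
    (pa L).hasFDerivAt).fderiv
  have h3 : fderiv ℝ th y = (fderiv ℝ th (pa L y)).comp (pa L) := by
    rw [← h2]
    exact congrArg (fun f => fderiv ℝ f y) h1
  rw [h3, ContinuousLinearMap.comp_apply, pa_pe, map_zero]

theorem Th.cc_ze (h : Th L c th) (hr : 0 < r) (n b : ℕ) :
    Cc 1 (fun y => th y * ze L r n b y) := by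
  refine ⟨h.cd.mul (ze_contDiff L r n b 1), ?_⟩
  refine HasCompactSupport.intro (isCompact_closedBall (0 : E) (1 + 4 * rad r n b)) fun y hy => ?_
  rw [mem_closedBall_zero_iff, not_le] at hy
  have h1 : ‖y‖ ≤ ‖pa L y‖ + ‖pe L y‖ := by
    conv_lhs => rw [← pa_add_pe L y]
    exact norm_add_le _ _
  rcases le_total 1 ‖pa L y‖ with h2 | h2
  · rw [h.zero y h2, zero_mul]
  · rw [ze_zero L hr (by linarith), mul_zero]

theorem zt_eq_cut (r : ℝ) (n : ℕ) {y : E} (h : ‖pa L y‖ ≤ 1) : zt L y = ze L r n (n + 1) y := by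
  have h1 : ‖pa L y‖ ^ 2 ≤ 81 / 64 := by nlinarith [norm_nonneg (pa L y)]
  rw [ze_top]
  unfold zt zc
  rw [ct_one (by norm_num) h1, one_mul]

theorem Th.mul_ze_le (h : Th L c th) (hr : 0 < r) (hn : 4 ^ (n + 1) * r ≤ 1 / 4) (hb : b ≤ n + 1)
    (y : E) : th y * ze L r n b y ≤ zt L y := by
  rcases le_total 1 ‖pa L y‖ with h2 | h2
  · rw [h.zero y h2, zero_mul]
    exact zc_nonneg L _ _ y
  rw [zt_eq_cut r n h2]
  refine (mul_le_of_le_one_left (ze_nonneg L r n b y) (h.le_one y)).trans ?_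
  rcases hb.eq_or_lt with rfl | hb'
  · exact le_rfl
  · refine ze_le_cut L hr ?_ y
    have h3 : rad r n b = 4 ^ b * r := if_pos (by omega)
    have h4 : rad r n (n + 1) = 1 / 4 := if_neg (by omega)
    have h5 : (4 : ℝ) ^ (b + 1) ≤ 4 ^ (n + 1) := pow_le_pow_right₀ (by norm_num) hb'
    rw [h3, h4]
    rw [pow_succ] at h5
    nlinarith

theorem Th.mul_zt (h : Th L c th) (r : ℝ) (n : ℕ) (y : E) :
    th y * zt L y = th y * ze L r n (n + 1) y := by
  rcases le_total 1 ‖pa L y‖ with h2 | h2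
  · rw [h.zero y h2, zero_mul, zero_mul]
  · rw [zt_eq_cut r n h2]

end Pool.Agent.Lib.MP_8daebb_an.PR
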