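import Pool.Agent.Lib.MP_8daebb_an.HK.Int
import Pool.Agent.Lib.MP_8daebb_an.AS.Def

/-! Definitions for the pair estimate near a plane of codimension two. -/

open MeasureTheory Metric Set Module Real
open scoped RealInnerProductSpace

namespace Pool.Agent.Lib.MP_8daebb_an.PR

open HK AS

variable {E : Type*} [NormedAddCommGroup E] [InnerProductSpace ℝ E] [FiniteDimensional ℝ E]
  [MeasurableSpace E] [BorelSpace E]

/-- Directional derivative. -/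
noncomputable def pd (e : E) (f : E → ℝ) (y : E) : ℝ := fderiv ℝ f y e

/-- Bounded functions with `n` bounded continuous derivatives. -/
def Cb : ℕ → (E → ℝ) → Prop
  | 0, f => Continuous f ∧ ∃ B, ∀ y, |f y| ≤ B
  | n + 1, f => (Continuous f ∧ ∃ B, ∀ y, |f y| ≤ B) ∧ Differentiable ℝ f ∧ ∀ e, Cb n (pd e f)

/-- Functions of class `C^n` with compact support. -/
structure Cc (n : ℕ) (f : E → ℝ) : Prop where
  cd : ContDiff ℝ n f
  cs : HasCompactSupport f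

/-- Projection onto the plane. -/
noncomputable def pa (L : Submodule ℝ E) : E →L[ℝ] E := L.starProjection

/-- Projection onto the normal space. -/
noncomputable def pe (L : Submodule ℝ E) : E →L[ℝ] E := Lᗮ.starProjection

/-- The quadratic form of the heat semigroup. -/
noncomputable def ph (f : E → ℝ) (t : ℝ) : ℝ := ∫ y, f y * P t f y

/-- The kernel of the pair form. -/
noncomputable def kj (L : Submodule ℝ E) (t : ℝ) (p : E × E) : ℝ :=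
  G t (p.2 - p.1) * ‖pe L (p.2 - p.1)‖ ^ 2 / (4 * t)

/-- The pair form at time `t`. -/
noncomputable def jj (L : Submodule ℝ E) (f : E → ℝ) (t : ℝ) : ℝ :=
  ∫ p : E × E, f p.1 * f p.2 * kj L t p

/-- The pair form. -/
noncomputable def JJ (L : Submodule ℝ E) (T : ℝ) (f : E → ℝ) : ℝ := ∫ t in (0 : ℝ)..T, jj L f t

/-- Smooth cutoff: one below `a`, zero above `b`. -/
noncomputable def ct (a b s : ℝ) : ℝ := smoothTransition ((b - s) / (b - a))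

/-- The radii of the levels. -/
noncomputable def rad (r : ℝ) (n b : ℕ) : ℝ := if b ≤ n then 4 ^ b * r else 1 / 4

/-- The cutoff of level `b`. -/
noncomputable def ze (L : Submodule ℝ E) (r : ℝ) (n b : ℕ) (y : E) : ℝ :=
  ct (rad r n b ^ 2) ((4 * rad r n b) ^ 2) (‖pe L y‖ ^ 2)

/-- Product cutoff; `zc L a b` is one where `‖pa y‖ ^ 2 ≤ a` and `‖pe y‖ ≤ 1 / 4`. -/
noncomputable def zc (L : Submodule ℝ E) (a b : ℝ) (y : E) : ℝ :=
  ct a b (‖pa L y‖ ^ 2) * ct (1 / 16) 1 (‖pe L y‖ ^ 2)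

/-- The top cutoff. -/
noncomputable def zt (L : Submodule ℝ E) : E → ℝ := zc L (81 / 64) 4

/-- The radial profile of the test field. -/
structure Prof (C ρ Af : ℝ) (φ : ℝ → ℝ) : Prop where
  cd : ContDiff ℝ 2 φ
  one : ∀ s ≤ ρ ^ 2, φ s = 1
  zero : ∀ s, (ρ / Af ^ 2) ^ 2 ≤ s → φ s = 0
  nonneg : ∀ s, 0 ≤ φ s
  le_one : ∀ s, φ s ≤ 1
  anti : ∀ s, deriv φ s ≤ 0
  om : ∀ s, 0 ≤ s → -(2 * s * deriv φ s) ≤ 2 / 3 * φ s + C * Af
  dec : ∀ d, 0 < d → φ (d ^ 2) ≤ C * √(ρ / d)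
  dec' : ∀ d, 0 < d → -(2 * d ^ 2 * deriv φ (d ^ 2)) ≤ C * √(ρ / d)
  d1 : ∀ s, |deriv φ s| ≤ C / ρ ^ 2
  d2 : ∀ s, |deriv (deriv φ) s| ≤ C / ρ ^ 4

/-- The tangential weight. -/
structure Th (L : Submodule ℝ E) (c : ℝ) (th : E → ℝ) : Prop where
  cd : ContDiff ℝ 1 th
  nonneg : ∀ y, 0 ≤ th y
  le_one : ∀ y, th y ≤ 1
  inv : ∀ y, th (pa L y) = th y
  zero : ∀ y, 1 ≤ ‖pa L y‖ → th y = 0
  d1 : ∀ y, ‖fderiv ℝ th y‖ ≤ c
  d2 : ∀ y y', ‖fderiv ℝ th y - fderiv ℝ th y'‖ ≤ c * ‖y - y'‖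

/-- The test field. -/
noncomputable def fld (L : Submodule ℝ E) (th : E → ℝ) (φ : ℝ → ℝ) (y : E) : E :=
  (th y ^ 2 * φ (‖pe L y‖ ^ 2)) • pe L y

/-- The stress tensor of `u` paired with `DY`. -/
noncomputable def sd (u : E → ℝ) (Y : E → E) (y : E) : ℝ :=
  ‖gradient u y‖ ^ 2 / 2 * tr (fderiv ℝ Y y) - ⟪gradient u y, fderiv ℝ Y y (gradient u y)⟫

/-- The total charge. -/
noncomputable def chg (V Γ : E → ℝ) (y : E) : ℝ := lap V y + Γ y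

/-- The logarithmic error produced by `Γ`. -/
noncomputable def gg (g1 AΓ t0 : ℝ) : ℝ := g1 * AΓ * (1 + Real.log (1 + 2 / t0))

/-- Hypotheses on the total potential `V` and the error `Γ`, at unit scale. -/
structure Top (L : Submodule ℝ E) (V Γ : E → ℝ) (E0 E1 g1 AΓ t0 A : ℝ) : Prop where
  dim : finrank ℝ L + 2 = finrank ℝ E
  hV : Cb 3 V
  hΓ : Cb 1 Γ
  Γ0 : ∀ y, 0 ≤ Γ y
  N0 : ∀ y, 0 ≤ chg V Γ y
  e0 : ∫ y in ball (0 : E) 3, ‖fderiv ℝ V y‖ ^ 2 ≤ E0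
  e1 : ∫ y in ball (0 : E) 3, ‖(fderiv ℝ V y).comp (pa L)‖ ^ 2 ≤ E1
  e2 : ∫ y in ball (0 : E) 3 ∩ {y | 1 / 4 ≤ ‖pe L y‖}, ‖fderiv ℝ V y‖ ^ 2 ≤ E1
  g1_le : ∫ y in ball (0 : E) 3, Γ y ≤ g1
  t0_pos : 0 < t0
  AΓ0 : 0 ≤ AΓ
  A0 : 0 ≤ A
  gP : ∀ s ∈ Ioc (0 : ℝ) 2, ∀ y ∈ ball (0 : E) 3, P s Γ y ≤ AΓ / (s + t0)
  nP : ∀ s ∈ Ioc (0 : ℝ) 2, ∀ y ∈ ball (0 : E) 3, P s (chg V Γ) y ≤ A / s

/-- The bound for the top level. -/
noncomputable def ww (k : ℕ) (T T1 E0 E1 g1 AΓ t0 : ℝ) : ℝ :=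
  E1 * (1 / T + Real.log (T / T1) + 1) + T1 * E0 + g1 ^ 2 * T1 ^ (-(k / 2 : ℝ)) + gg g1 AΓ t0

/-- The sum of the increments above level `a`. -/
noncomputable def inc (J : ℕ → ℝ) (n a : ℕ) : ℝ :=
  ∑ b ∈ Finset.Ico a (n + 1), (1 / 2 : ℝ) ^ (b - a) * (J (b + 1) - J b)

/-- The interaction at time `s` of the charge `σ` with itself through the field `Y`. -/
noncomputable def itr (σ : E → ℝ) (Y : E → E) (s : ℝ) : ℝ :=
  ∫ y, σ y * ∫ y', G s (y' - y) * (⟪y - y', Y y⟫ / (2 * s)) * σ y'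

end Pool.Agent.Lib.MP_8daebb_an.PR
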