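import Pool.Agent.Lib.MP_8daebb_an.PR.Form

/-! Energy inequalities for the heat semigroup. -/

open MeasureTheory Metric Set Module Real Filter Topology
open scoped RealInnerProductSpace

namespace Pool.Agent.Lib.MP_8daebb_an.PR

open HK AS

variable {E : Type*} [NormedAddCommGroup E] [InnerProductSpace ℝ E] [FiniteDimensional ℝ E]
  [MeasurableSpace E] [BorelSpace E]

variable {f g : E → ℝ} {t T : ℝ}

theorem prod_eq_Cv_ener {K : E → ℝ} (hK : Ker K) (hf : Integrable f) (hg : BM g) :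
    ∫ p : E × E, f p.1 * g p.2 * K (p.2 - p.1) = ∫ x, f x * Cv K g x := by
  have h := integral_prod _ (integrable_cv_triple hK hf hg)
  have e1 : (fun p : E × E => f p.1 * g p.2 * K (p.2 - p.1)) =
      fun p : E × E => f p.1 * (K (p.2 - p.1) * g p.2) := by
    funext p; ring
  rw [e1]
  refine h.trans ?_
  simp only [integral_const_mul, Cv]

theorem mul_Cv_K2_ener (hf : Cc 1 f) (hg : Cc 1 g) (ht : 0 < t) (e : E) :
    ∫ x, f x * Cv (K2 t e e) g x = -∫ y, pd e f y * P t (pd e g) y := by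
  have hg1 : C1b g := C1b.of_compact (by exact_mod_cast hg.cd) hg.cs
  have hb : BM (pd e g) := hg1.bm_apply e
  rw [← ibp hf (contDiff_P_one hb ht) e]
  congr 1
  funext x
  rw [Cv_K2_of_c1b hg1 ht, pd, fderiv_P hb ht]
  rfl

/-- Two integrations by parts. -/
theorem integral_dd_G (hf : Cc 1 f) (hg : Cc 1 g) (ht : 0 < t) (e : E) :
    ∫ p : E × E, f p.1 * g p.2 * fderiv ℝ (fun y => fderiv ℝ (G t) y e) (p.2 - p.1) e =
      -∫ y, pd e f y * P t (pd e g) y := by
  rw [← mul_Cv_K2_ener hf hg ht e, ← prod_eq_Cv_ener (ker_K2 ht e e) hf.integrable hg.bm]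
  simp only [fderiv_fderiv_G ht, K2]

theorem Cv_dG_ener (hg : Cc 2 g) (ht : 0 < t) (x : E) : Cv (dG t) g x = P t (lap g) x := by
  have hg2 : C2b g := C2b.of_compact (by exact_mod_cast hg.cd) hg.cs
  rw [← lap_P hg.bm ht, lap_P_comm hg2 ht]

theorem integral_dG_lap (hf : Cc 0 f) (hg : Cc 2 g) (ht : 0 < t) :
    ∫ p : E × E, f p.1 * g p.2 * dG t (p.2 - p.1) = ∫ y, f y * P t (lap g) y := by
  rw [prod_eq_Cv_ener (ker_dG ht) hf.integrable hg.bm]
  simp only [Cv_dG_ener hg ht]

theorem hasDerivAt_ph {ι : Type*} [Fintype ι] (b : OrthonormalBasis ι ℝ E) (hf : Cc 1 f)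
    (ht : 0 < t) : HasDerivAt (ph f) (-∑ i, ph (pd (b i) f) t) t := by
  have h := hasDerivAt_integral_mul_P hf.integrable hf.bm ht
  have e1 : ∫ x, f x * Cv (dG t) f x = -∑ i, ph (pd (b i) f) t := by
    simp only [Cv_dG_eq_sum b hf.bm ht, Finset.mul_sum]
    rw [integral_finsetSum _ fun i _ =>
      (hf.bm.cv (ker_K2 ht (b i) (b i))).integrable_mul hf.integrable, ← Finset.sum_neg_distrib]
    exact Finset.sum_congr rfl fun i _ => mul_Cv_K2_ener hf hf ht (b i)
  rw [e1] at h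
  exact h

theorem integral_ph_pd_le {ι : Type*} [Fintype ι] (b : OrthonormalBasis ι ℝ E) (hf : Cc 1 f)
    (hT : 0 ≤ T) : ∫ t in (0 : ℝ)..T, ∑ i, ph (pd (b i) f) t ≤ ∫ y, f y ^ 2 := by
  rcases hT.eq_or_lt with rfl | hT
  · rw [intervalIntegral.integral_same]
    exact integral_nonneg fun y => sq_nonneg _
  have hf0 : Cc 0 f := hf.of_le zero_le_one
  have hc : ContinuousOn (fun t => ∑ i, ph (pd (b i) f) t) (Ioi 0) :=
    continuousOn_finsetSum _ fun i _ => continuousOn_ph (hf.pd (b i))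
  refine (integral_zero_le_of_bdd hT hc
    (fun t ht => Finset.sum_nonneg fun i _ => ph_nonneg (hf.pd (b i)) ht) fun a ha haT => ?_).2
  have h := intervalIntegral.integral_eq_sub_of_hasDerivAt (a := a) (b := T)
    (f := fun s => -ph f s) (f' := fun t => ∑ i, ph (pd (b i) f) t)
    (fun x hx => by
      have hx0 : 0 < x := (lt_min ha hT).trans_le hx.1
      exact (hasDerivAt_ph b hf hx0).neg.congr_deriv (neg_neg _))
    (intervalIntegrable_of_Ioi hc ha hT)
  rw [h]
  have h1 := ph_nonneg hf0 hT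
  have h2 := ph_le hf0 ha
  linarith

theorem mul_sum_ph_pd_ener {ι : Type*} [Fintype ι] (b : OrthonormalBasis ι ℝ E) (hf : Cc 1 f)
    (ht : 0 < t) : t * ∑ i, ph (pd (b i) f) t ≤ ∫ y, f y ^ 2 := by
  refine le_trans ?_ (integral_ph_pd_le b hf ht.le)
  have h1 : t * ∑ i, ph (pd (b i) f) t = ∫ _ in (0 : ℝ)..t, ∑ i, ph (pd (b i) f) t := by
    simp
  rw [h1]
  have hi : IntervalIntegrable (fun s => ∑ i, ph (pd (b i) f) s) volume 0 t := by
    have := IntervalIntegrable.sum (s := Finset.univ)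
      fun i _ => ii_ph (hf.pd (b i)) le_rfl ht.le
    simpa [Finset.sum_fn] using this
  refine intervalIntegral.integral_mono_on_of_le_Ioo ht.le intervalIntegrable_const hi
    fun s hs => ?_
  exact Finset.sum_le_sum fun i _ => ph_anti (hf.pd (b i)) hs.1 hs.2.le

theorem mul_ph_pd_le {ι : Type*} [Fintype ι] (b : OrthonormalBasis ι ℝ E) (hf : Cc 1 f)
    (ht : 0 < t) (i : ι) : t * ph (pd (b i) f) t ≤ ∫ y, f y ^ 2 := by
  refine le_trans (mul_le_mul_of_nonneg_left ?_ ht.le) (mul_sum_ph_pd_ener b hf ht)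
  exact Finset.single_le_sum (f := fun i => ph (pd (b i) f) t)
    (fun j _ => ph_nonneg (hf.pd (b j)) ht) (Finset.mem_univ i)

theorem integral_ph_pd_two_le {ι : Type*} [Fintype ι] (b : OrthonormalBasis ι ℝ E) (hf : Cc 1 f)
    (hT : 0 ≤ T) (i : ι) : ∫ t in (0 : ℝ)..T, ph (pd (b i) f) (2 * t) ≤ ∫ y, f y ^ 2 := by
  refine le_trans ?_ (integral_ph_pd_le b hf hT)
  have hi : IntervalIntegrable (fun s => ∑ i, ph (pd (b i) f) s) volume 0 T := by
    have := IntervalIntegrable.sum (s := Finset.univ)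
      fun i _ => ii_ph (hf.pd (b i)) le_rfl hT
    simpa [Finset.sum_fn] using this
  refine intervalIntegral.integral_mono_on_of_le_Ioo hT (ii_ph_two (hf.pd (b i)) le_rfl hT) hi
    fun s hs => ?_
  refine (ph_anti (hf.pd (b i)) hs.1 (by linarith [hs.1])).trans ?_
  exact Finset.single_le_sum (f := fun i => ph (pd (b i) f) s)
    (fun j _ => ph_nonneg (hf.pd (b j)) hs.1) (Finset.mem_univ i)

theorem integral_ph_lap_le (hf : Cc 2 f) (hT : 0 ≤ T) :
    ∫ t in (0 : ℝ)..T, t * ph (lap f) t ≤ 2 * ∫ y, f y ^ 2 := by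
  rcases hT.eq_or_lt with rfl | hT
  · rw [intervalIntegral.integral_same]
    exact mul_nonneg zero_le_two (integral_nonneg fun y => sq_nonneg _)
  have hf0 : Cc 0 f := hf.of_le (Nat.zero_le _)
  have hf1 : Cc 1 f := hf.of_le one_le_two
  have hl : Cc 0 (lap f) := Cc.lap (n := 0) hf
  set b := stdOrthonormalBasis ℝ E
  set B : ℝ → ℝ := fun s => ∫ y, f y * P s (lap f) y with hB
  have hB' : ∀ s, 0 < s → HasDerivAt B (ph (lap f) s) s := fun s hs => by
    have h := hasDerivAt_integral_mul_P hf.integrable hl.bm hs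
    rw [integral_mul_Cv_even (ker_dG hs) (dG_neg s) hf.integrable hl.bm] at h
    have e1 : ∫ y, Cv (dG s) f y * lap f y = ph (lap f) s := by
      simp only [Cv_dG_ener hf hs, ph, mul_comm]
    rw [e1] at h
    exact h
  have hp : ∀ s, 0 < s → HasDerivAt (ph f) (B s) s := fun s hs => by
    have h := hasDerivAt_integral_mul_P hf.integrable hf.bm hs
    simp only [Cv_dG_ener hf hs] at h
    exact h
  have hBe : ∀ s, 0 < s → B s = -∑ i, ph (pd (b i) f) s := fun s hs =>
    (hp s hs).unique (hasDerivAt_ph b hf1 hs)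
  have hc : ContinuousOn (fun t => t * ph (lap f) t) (Ioi 0) :=
    continuousOn_id.mul (continuousOn_ph hl)
  refine (integral_zero_le_of_bdd hT hc
    (fun t ht => mul_nonneg ht.le (ph_nonneg hl ht)) fun a ha haT => ?_).2
  have h := intervalIntegral.integral_eq_sub_of_hasDerivAt (a := a) (b := T)
    (f := fun s => s * B s - ph f s) (f' := fun t => t * ph (lap f) t)
    (fun x hx => by
      have hx0 : 0 < x := (lt_min ha hT).trans_le hx.1
      exact (((hasDerivAt_id x).mul (hB' x hx0)).sub (hp x hx0)).congr_deriv (by simp))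
    (intervalIntegrable_of_Ioi hc ha hT)
  rw [h, hBe T hT, hBe a ha]
  have h1 := ph_nonneg hf0 hT
  have h2 := ph_le hf0 ha
  have h3 := mul_sum_ph_pd_ener b hf1 ha
  have h4 : 0 ≤ T * ∑ i, ph (pd (b i) f) T :=
    mul_nonneg hT.le (Finset.sum_nonneg fun i _ => ph_nonneg (hf1.pd (b i)) hT)
  nlinarith

end Pool.Agent.Lib.MP_8daebb_an.PR
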