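import Pool.Agent.Lib.MP_8daebb_an.PR.Cut

/-! The test field. -/

open MeasureTheory Metric Set Module Real Filter Topology
open scoped RealInnerProductSpace

namespace Pool.Agent.Lib.MP_8daebb_an.PR

open HK AS

variable {E : Type*} [NormedAddCommGroup E] [InnerProductSpace ℝ E] [FiniteDimensional ℝ E]
  [MeasurableSpace E] [BorelSpace E]

variable {L : Submodule ℝ E} {c C ρ Af θ : ℝ} {th : E → ℝ} {φ : ℝ → ℝ}

theorem fld_contDiff (ht : Th L c th) (h : Prof C ρ Af φ) : ContDiff ℝ 1 (fld L th φ) := by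
  unfold fld
  have h1 : ContDiff ℝ 1 (fun y : E => ‖pe L y‖ ^ 2) := (pe L).contDiff.norm_sq ℝ
  exact ((ht.cd.pow 2).mul ((h.cd.of_le (by norm_num)).comp h1)).smul (pe L).contDiff

theorem prof_ne_zero (h : Prof C ρ Af φ) (hρ : 0 < ρ) (hθ : ρ / Af ^ 2 ≤ θ) {p : E}
    (hp : φ (‖p‖ ^ 2) ≠ 0) : ‖p‖ < θ := by
  by_contra hc
  push Not at hc
  apply hp
  apply h.zero
  have h0 : 0 ≤ ρ / Af ^ 2 := by positivity
  exact pow_le_pow_left₀ h0 (hθ.trans hc) 2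

theorem prof_deriv_ne_zero (h : Prof C ρ Af φ) (hρ : 0 < ρ) (hθ : ρ / Af ^ 2 ≤ θ) {p : E}
    (hp : deriv φ (‖p‖ ^ 2) ≠ 0) : ρ ≤ ‖p‖ ∧ ‖p‖ < θ := by
  constructor
  · by_contra hc
    push Not at hc
    apply hp
    have h1 : φ (‖p‖ ^ 2) = 1 := h.one _ (pow_le_pow_left₀ (norm_nonneg _) hc.le 2)
    apply IsLocalMax.deriv_eq_zero
    exact Filter.Eventually.of_forall fun s => by rw [h1]; exact h.le_one s
  · apply prof_ne_zero h hρ hθ
    intro h1
    apply hp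
    apply IsLocalMin.deriv_eq_zero
    exact Filter.Eventually.of_forall fun s => by rw [h1]; exact h.nonneg s

theorem fld_ne_zero (ht : Th L c th) (h : Prof C ρ Af φ) (hρ : 0 < ρ) (hθ : ρ / Af ^ 2 ≤ θ)
    {y : E} (hy : fld L th φ y ≠ 0) : ‖pa L y‖ < 1 ∧ ‖pe L y‖ < θ := by
  constructor
  · by_contra hc
    push Not at hc
    apply hy
    simp [fld, ht.zero y hc]
  · apply prof_ne_zero h hρ hθ
    intro h1
    apply hy
    simp [fld, h1]

theorem norm_fld_le (ht : Th L c th) (h : Prof C ρ Af φ) (hρ : 0 < ρ) (hθ : ρ / Af ^ 2 ≤ θ)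
    (y : E) : ‖fld L th φ y‖ ≤ θ := by
  by_cases hy : fld L th φ y = 0
  · rw [hy, norm_zero]
    exact le_trans (by positivity) hθ
  · have h1 := (fld_ne_zero ht h hρ hθ hy).2
    have h2 : th y ^ 2 * φ (‖pe L y‖ ^ 2) ≤ 1 :=
      mul_le_one₀ (pow_le_one₀ (ht.nonneg y) (ht.le_one y)) (h.nonneg _) (h.le_one _)
    have h3 : 0 ≤ th y ^ 2 * φ (‖pe L y‖ ^ 2) := mul_nonneg (sq_nonneg _) (h.nonneg _)
    unfold fld
    rw [norm_smul, Real.norm_eq_abs, abs_of_nonneg h3]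
    nlinarith [norm_nonneg (pe L y)]

theorem fld_support_fld (ht : Th L c th) (h : Prof C ρ Af φ) (hρ : 0 < ρ) (hθ : ρ / Af ^ 2 ≤ θ) :
    Function.support (fld L th φ) ⊆ closedBall (0 : E) (1 + θ) := by
  intro y hy
  obtain ⟨h1, h2⟩ := fld_ne_zero ht h hρ hθ hy
  rw [mem_closedBall_zero_iff, ← pa_add_pe L y]
  exact (norm_add_le _ _).trans (by linarith)

theorem fld_tsupport (ht : Th L c th) (h : Prof C ρ Af φ) (hρ : 0 < ρ) (hθ : ρ / Af ^ 2 ≤ θ)
    (hθ1 : θ ≤ 1 / 8) : tsupport (fld L th φ) ⊆ ball (0 : E) 2 :=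
  (closure_minimal (fld_support_fld ht h hρ hθ) isClosed_closedBall).trans
    (closedBall_subset_ball (by linarith))

theorem fld_compact (ht : Th L c th) (h : Prof C ρ Af φ) (hρ : 0 < ρ) :
    HasCompactSupport (fld L th φ) :=
  HasCompactSupport.of_support_subset_isCompact (isCompact_closedBall _ _)
    (fld_support_fld ht h hρ le_rfl)

theorem fderiv_fld (ht : Th L c th) (h : Prof C ρ Af φ) (y : E) : fderiv ℝ (fld L th φ) y =
    (th y ^ 2 * φ (‖pe L y‖ ^ 2)) • pe L +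
      ((2 * th y * φ (‖pe L y‖ ^ 2)) • fderiv ℝ th y +
        (2 * th y ^ 2 * deriv φ (‖pe L y‖ ^ 2)) • innerSL ℝ (pe L y)).smulRight (pe L y) := by
  have h1 : HasFDerivAt th (fderiv ℝ th y) y :=
    (ht.cd.differentiable (by norm_num) y).hasFDerivAt
  have h2 : HasFDerivAt (pe L) (pe L) y := (pe L).hasFDerivAt
  have h3 := h2.norm_sq
  have h4 : HasDerivAt φ (deriv φ (‖pe L y‖ ^ 2)) (‖pe L y‖ ^ 2) :=
    (h.cd.differentiable (by norm_num) _).hasDerivAt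
  have h5 := h4.comp_hasFDerivAt y h3
  have h6 := ((h1.pow 2).mul h5).smul h2
  have h7 : HasFDerivAt (fld L th φ) _ y := h6
  rw [h7.fderiv]
  ext v
  have e : ⟪pe L y, pe L v⟫ = ⟪pe L y, v⟫ := by
    rw [← inner_pe_left, pe_pe]
  simp [e]
  congr 1
  ring

/-- Bounded and Lipschitz on a set. -/
structure BLfld {X : Type*} [NormedAddCommGroup X] (S : Set E) (f : E → X) (M K : ℝ) : Prop where
  bd : ∀ y ∈ S, ‖f y‖ ≤ M
  lip : ∀ y ∈ S, ∀ y' ∈ S, ‖f y - f y'‖ ≤ K * ‖y - y'‖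

section BL

variable {X : Type*} [NormedAddCommGroup X] [NormedSpace ℝ X] {S : Set E} {M K M' K' : ℝ}

omit [InnerProductSpace ℝ E] [FiniteDimensional ℝ E] [MeasurableSpace E] [BorelSpace E]

omit [NormedSpace ℝ X] in
theorem BLfld.const (x : X) (hx : ‖x‖ ≤ M) : BLfld S (fun _ => x) M 0 :=
  ⟨fun _ _ => hx, fun _ _ _ _ => by simp⟩

omit [NormedSpace ℝ X] in
theorem BLfld.add {f g : E → X} (hf : BLfld S f M K) (hg : BLfld S g M' K') :
    BLfld S (fun y => f y + g y) (M + M') (K + K') := by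
  refine ⟨fun y hy => (norm_add_le _ _).trans (add_le_add (hf.bd y hy) (hg.bd y hy)), ?_⟩
  intro y hy y' hy'
  have e : f y + g y - (f y' + g y') = (f y - f y') + (g y - g y') := by abel
  rw [e, add_mul]
  exact (norm_add_le _ _).trans (add_le_add (hf.lip y hy y' hy') (hg.lip y hy y' hy'))

theorem BLfld.smul {f : E → ℝ} {g : E → X} (hf : BLfld S f M K) (hg : BLfld S g M' K') :
    BLfld S (fun y => f y • g y) (M * M') (K * M' + M * K') := by
  constructor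
  · intro y hy
    rw [norm_smul]
    exact mul_le_mul (hf.bd y hy) (hg.bd y hy) (norm_nonneg _)
      ((norm_nonneg _).trans (hf.bd y hy))
  · intro y hy y' hy'
    have e : f y • g y - f y' • g y' = (f y - f y') • g y + f y' • (g y - g y') := by
      rw [sub_smul, smul_sub]; abel
    rw [e]
    refine (norm_add_le _ _).trans ?_
    rw [norm_smul, norm_smul]
    have a1 := mul_le_mul (hf.lip y hy y' hy') (hg.bd y hy) (norm_nonneg _)
      ((norm_nonneg _).trans (hf.lip y hy y' hy'))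
    have a2 := mul_le_mul (hf.bd y' hy') (hg.lip y hy y' hy') (norm_nonneg _)
      ((norm_nonneg _).trans (hf.bd y' hy'))
    nlinarith

theorem BLfld.mul {f g : E → ℝ} (hf : BLfld S f M K) (hg : BLfld S g M' K') :
    BLfld S (fun y => f y * g y) (M * M') (K * M' + M * K') := hf.smul hg

theorem BLfld.smulRight {f : E → X →L[ℝ] ℝ} {g : E → X} (hf : BLfld S f M K)
    (hg : BLfld S g M' K') :
    BLfld S (fun y => (f y).smulRight (g y)) (M * M') (K * M' + M * K') := by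
  constructor
  · intro y hy
    rw [ContinuousLinearMap.norm_smulRight_apply]
    exact mul_le_mul (hf.bd y hy) (hg.bd y hy) (norm_nonneg _)
      ((norm_nonneg _).trans (hf.bd y hy))
  · intro y hy y' hy'
    have e : (f y).smulRight (g y) - (f y').smulRight (g y') =
        (f y - f y').smulRight (g y) + (f y').smulRight (g y - g y') := by
      ext v
      simp [sub_smul, smul_sub]
    rw [e]
    refine (norm_add_le _ _).trans ?_
    rw [ContinuousLinearMap.norm_smulRight_apply, ContinuousLinearMap.norm_smulRight_apply]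
    have a1 := mul_le_mul (hf.lip y hy y' hy') (hg.bd y hy) (norm_nonneg _)
      ((norm_nonneg _).trans (hf.lip y hy y' hy'))
    have a2 := mul_le_mul (hf.bd y' hy') (hg.lip y hy y' hy') (norm_nonneg _)
      ((norm_nonneg _).trans (hf.bd y' hy'))
    nlinarith

end BL

theorem lip_of_deriv_fld {g : ℝ → ℝ} (hg : Differentiable ℝ g) {B : ℝ} (hB : ∀ s, |deriv g s| ≤ B)
    (s t : ℝ) : |g s - g t| ≤ B * |s - t| :=
  (convex_univ (𝕜 := ℝ) (E := ℝ)).norm_image_sub_le_of_norm_deriv_le (fun x _ => hg x)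
    (fun x _ => hB x) (mem_univ t) (mem_univ s)

theorem norm_pe_op_fld (L : Submodule ℝ E) : ‖pe L‖ ≤ 1 :=
  ContinuousLinearMap.opNorm_le_bound _ zero_le_one fun y => by
    rw [one_mul]; exact norm_pe_le L y

theorem bl_comp_fld (L : Submodule ℝ E) {g : ℝ → ℝ} (hg : Differentiable ℝ g) {M B : ℝ}
    (hM : ∀ s, |g s| ≤ M) (hB : ∀ s, |deriv g s| ≤ B) :
    BLfld {y | ‖pe L y‖ ≤ 1} (fun y => g (‖pe L y‖ ^ 2)) M (2 * B) := by
  refine ⟨fun y _ => hM _, fun y hy y' hy' => ?_⟩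
  have hB0 : 0 ≤ B := (abs_nonneg _).trans (hB 0)
  refine (lip_of_deriv_fld hg hB _ _).trans ?_
  have h1 : |‖pe L y‖ - ‖pe L y'‖| ≤ ‖y - y'‖ := by
    refine (abs_norm_sub_norm_le _ _).trans ?_
    rw [← map_sub]
    exact norm_pe_le L _
  have h2 : |‖pe L y‖ ^ 2 - ‖pe L y'‖ ^ 2| ≤ 2 * ‖y - y'‖ := by
    rw [sq_sub_sq, abs_mul, abs_of_nonneg (by positivity)]
    have a : ‖pe L y‖ ≤ 1 := hy
    have b : ‖pe L y'‖ ≤ 1 := hy'
    exact mul_le_mul (by linarith) h1 (abs_nonneg _) (by norm_num)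
  nlinarith

theorem fderiv_fld_le (ht : Th L c th) (h : Prof C ρ Af φ) (hρ : 0 < ρ)
    (hθ : ρ / Af ^ 2 ≤ 1 / 8) (y : E) : ‖fderiv ℝ (fld L th φ) y‖ ≤ 1 + c + C := by
  have hc := ht.c_nonneg
  have hC : 0 ≤ C := by
    have := (abs_nonneg _).trans (h.d1 0)
    by_contra hn
    push Not at hn
    have : C / ρ ^ 2 < 0 := div_neg_of_neg_of_pos hn (by positivity)
    linarith
  have t0 := ht.nonneg y
  have t1 := ht.le_one y
  have t2 : th y ^ 2 ≤ 1 := pow_le_one₀ t0 t1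
  have p0 := h.nonneg (‖pe L y‖ ^ 2)
  have p1 := h.le_one (‖pe L y‖ ^ 2)
  have n0 := norm_nonneg (pe L y)
  have a1 : ‖(th y ^ 2 * φ (‖pe L y‖ ^ 2)) • pe L‖ ≤ 1 := by
    rw [norm_smul, Real.norm_eq_abs, abs_of_nonneg (by positivity)]
    exact mul_le_one₀ (mul_le_one₀ t2 p0 p1) (norm_nonneg _) (norm_pe_op_fld L)
  have a2 : φ (‖pe L y‖ ^ 2) * ‖pe L y‖ ≤ 1 / 8 := by
    by_cases h0 : φ (‖pe L y‖ ^ 2) = 0
    · rw [h0]; norm_num
    · have := prof_ne_zero h hρ hθ h0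
      nlinarith
  have a3 : -(2 * ‖pe L y‖ ^ 2 * deriv φ (‖pe L y‖ ^ 2)) ≤ C := by
    by_cases h0 : deriv φ (‖pe L y‖ ^ 2) = 0
    · rw [h0]; simpa using hC
    · have h1 := (prof_deriv_ne_zero h hρ hθ h0).1
      have h2 : 0 < ‖pe L y‖ := hρ.trans_le h1
      refine (h.dec' _ h2).trans ?_
      have h3 : √(ρ / ‖pe L y‖) ≤ 1 := Real.sqrt_le_one.mpr ((div_le_one h2).mpr h1)
      nlinarith
  have a4 : ‖(2 * th y * φ (‖pe L y‖ ^ 2)) • fderiv ℝ th y‖ * ‖pe L y‖ ≤ c := by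
    rw [norm_smul, Real.norm_eq_abs, abs_of_nonneg (by positivity)]
    have b1 := ht.d1 y
    have b2 : th y * (φ (‖pe L y‖ ^ 2) * ‖pe L y‖) ≤ 1 * (1 / 8) :=
      mul_le_mul t1 a2 (by positivity) zero_le_one
    have b3 : (th y * (φ (‖pe L y‖ ^ 2) * ‖pe L y‖)) * ‖fderiv ℝ th y‖ ≤ (1 * (1 / 8)) * c :=
      mul_le_mul b2 b1 (norm_nonneg _) (by norm_num)
    nlinarith
  have a5 : ‖(2 * th y ^ 2 * deriv φ (‖pe L y‖ ^ 2)) • innerSL ℝ (pe L y)‖ * ‖pe L y‖ ≤ C := by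
    have b0 := h.anti (‖pe L y‖ ^ 2)
    have b1 : 2 * th y ^ 2 * deriv φ (‖pe L y‖ ^ 2) ≤ 0 :=
      mul_nonpos_of_nonneg_of_nonpos (by positivity) b0
    rw [norm_smul, Real.norm_eq_abs, abs_of_nonpos b1, innerSL_apply_norm]
    have b2 : 0 ≤ -(2 * ‖pe L y‖ ^ 2 * deriv φ (‖pe L y‖ ^ 2)) := by
      have := mul_nonpos_of_nonneg_of_nonpos (by positivity : 0 ≤ 2 * ‖pe L y‖ ^ 2) b0
      linarith
    have b3 := mul_le_mul t2 a3 b2 zero_le_one
    nlinarith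
  rw [fderiv_fld ht h]
  refine (norm_add_le _ _).trans ?_
  rw [ContinuousLinearMap.norm_smulRight_apply]
  have a6 := mul_le_mul_of_nonneg_right (norm_add_le
    ((2 * th y * φ (‖pe L y‖ ^ 2)) • fderiv ℝ th y)
    ((2 * th y ^ 2 * deriv φ (‖pe L y‖ ^ 2)) • innerSL ℝ (pe L y))) n0
  rw [add_mul] at a6
  linarith

theorem fderiv_fld_zero (ht : Th L c th) (h : Prof C ρ Af φ) (hρ : 0 < ρ)
    (hθ : ρ / Af ^ 2 ≤ θ) {y : E} (hy : θ ≤ ‖pe L y‖) : fderiv ℝ (fld L th φ) y = 0 := by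
  have h1 : φ (‖pe L y‖ ^ 2) = 0 := by
    by_contra h0
    exact absurd (prof_ne_zero h hρ hθ h0) (not_lt.mpr hy)
  have h2 : deriv φ (‖pe L y‖ ^ 2) = 0 := by
    by_contra h0
    exact absurd (prof_deriv_ne_zero h hρ hθ h0).2 (not_lt.mpr hy)
  rw [fderiv_fld ht h, h1, h2]
  ext v
  simp

theorem fld_bounds (c C : ℝ) : ∃ K : ℝ, 0 < K ∧ ∀ (L : Submodule ℝ E) (th : E → ℝ) (φ : ℝ → ℝ)
    (ρ Af : ℝ), Th L c th → Prof C ρ Af φ → 0 < ρ → 0 < Af → Af ≤ 1 → ρ / Af ^ 2 ≤ 1 / 8 →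
    (∀ y, ‖fderiv ℝ (fld L th φ) y‖ ≤ K) ∧
      ∀ y y', ‖fderiv ℝ (fld L th φ) y - fderiv ℝ (fld L th φ) y'‖ ≤ K / ρ ^ 4 * ‖y - y'‖ := by
  refine ⟨2 + 8 * |c| + 2 * c ^ 2 + 12 * |C| + 8 * (|c| * |C|), by positivity, ?_⟩
  intro L th φ ρ Af ht h hρ hAf hAf1 hθ
  have hc := ht.c_nonneg
  have hC : 0 ≤ C := by
    have := (abs_nonneg _).trans (h.d1 0)
    by_contra hn
    push Not at hn
    have : C / ρ ^ 2 < 0 := div_neg_of_neg_of_pos hn (by positivity)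
    linarith
  rw [abs_of_nonneg hc, abs_of_nonneg hC]
  have hcC : 0 ≤ c * C := mul_nonneg hc hC
  have hρ1 : ρ ≤ 1 := by
    have a1 : Af ^ 2 ≤ 1 := pow_le_one₀ hAf.le hAf1
    have a2 : ρ ≤ ρ / Af ^ 2 := le_div_self hρ.le (by positivity) a1
    linarith
  obtain ⟨r, hr⟩ : ∃ r : ℝ, r = 1 / ρ ^ 4 := ⟨_, rfl⟩
  have hr1 : 1 ≤ r := by
    rw [hr]
    exact one_le_one_div (by positivity) (pow_le_one₀ hρ.le hρ1)
  have hd1 : ∀ s, |deriv φ s| ≤ C * r := by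
    intro s
    refine (h.d1 s).trans ?_
    rw [hr, mul_one_div]
    exact div_le_div_of_nonneg_left hC (by positivity)
      (pow_le_pow_of_le_one hρ.le hρ1 (by norm_num))
  have hd2 : ∀ s, |deriv (deriv φ) s| ≤ C * r := by
    intro s
    rw [hr, mul_one_div]
    exact h.d2 s
  have hb := fderiv_fld_le ht h hρ hθ
  refine ⟨fun y => (hb y).trans (by nlinarith [sq_nonneg c]), ?_⟩
  have hφ : Differentiable ℝ φ := h.cd.differentiable (by norm_num)
  have hφ' : Differentiable ℝ (deriv φ) :=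
    (h.cd.iterate_deriv' 1 1).differentiable (by norm_num)
  have B0 := bl_comp_fld L hφ (M := 1)
    (fun s => by rw [abs_of_nonneg (h.nonneg s)]; exact h.le_one s) hd1
  have B1 := bl_comp_fld L hφ' hd1 hd2
  have Bt : BLfld {y | ‖pe L y‖ ≤ 1} th 1 c :=
    ⟨fun y _ => by rw [Real.norm_eq_abs, abs_of_nonneg (ht.nonneg y)]; exact ht.le_one y,
      fun y _ y' _ => ht.lip y y'⟩
  have Bd : BLfld {y | ‖pe L y‖ ≤ 1} (fderiv ℝ th) c c :=
    ⟨fun y _ => ht.d1 y, fun y _ y' _ => ht.d2 y y'⟩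
  have Bp : BLfld {y | ‖pe L y‖ ≤ 1} (pe L) 1 1 :=
    ⟨fun y hy => hy, fun y _ y' _ => by rw [← map_sub, one_mul]; exact norm_pe_le L _⟩
  have Bi : BLfld {y | ‖pe L y‖ ≤ 1} (fun y => innerSL ℝ (pe L y)) 1 1 :=
    ⟨fun y hy => by rw [innerSL_apply_norm]; exact hy, fun y _ y' _ => by
      rw [← map_sub, innerSL_apply_norm, ← map_sub, one_mul]; exact norm_pe_le L _⟩
  have B2 : BLfld {y | ‖pe L y‖ ≤ 1} (fun _ : E => (2 : ℝ)) 2 0 := BLfld.const _ (by simp)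
  have Be : BLfld {y | ‖pe L y‖ ≤ 1} (fun _ : E => pe L) 1 0 := BLfld.const _ (norm_pe_op_fld L)
  have BB := (((Bt.mul Bt).mul B0).smul Be).add
    (((((B2.mul Bt).mul B0).smul Bd).add (((B2.mul (Bt.mul Bt)).mul B1).smul Bi)).smulRight Bp)
  have hK : ∀ x : ℝ, x / ρ ^ 4 = x * r := fun x => by rw [hr, mul_one_div]
  rw [hK]
  have far : ∀ y y' : E, 1 < ‖pe L y‖ → ‖fderiv ℝ (fld L th φ) y - fderiv ℝ (fld L th φ) y'‖ ≤
      (2 + 8 * c + 2 * c ^ 2 + 12 * C + 8 * (c * C)) * r * ‖y - y'‖ := by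
    intro y y' hy
    rw [fderiv_fld_zero ht h hρ hθ (by linarith : 1 / 8 ≤ ‖pe L y‖), zero_sub, norm_neg]
    by_cases hy' : 1 / 8 ≤ ‖pe L y'‖
    · rw [fderiv_fld_zero ht h hρ hθ hy', norm_zero]
      positivity
    · push Not at hy'
      have a1 : ‖pe L y‖ - ‖pe L y'‖ ≤ ‖y - y'‖ := by
        refine (norm_sub_norm_le _ _).trans ?_
        rw [← map_sub]
        exact norm_pe_le L _
      have a2 : 1 / 2 ≤ r * ‖y - y'‖ := by nlinarith
      have a3 := mul_le_mul_of_nonneg_left a2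
        (by positivity : 0 ≤ 2 + 8 * c + 2 * c ^ 2 + 12 * C + 8 * (c * C))
      refine (hb y').trans ?_
      nlinarith [sq_nonneg c]
  intro y y'
  by_cases hy : ‖pe L y‖ ≤ 1
  · by_cases hy' : ‖pe L y'‖ ≤ 1
    · have a1 := BB.lip y hy y' hy'
      rw [fderiv_fld ht h, fderiv_fld ht h]
      simp only [sq (th _)]
      refine a1.trans (mul_le_mul_of_nonneg_right ?_ (norm_nonneg _))
      have a2 : 0 ≤ c * (r - 1) := mul_nonneg hc (by linarith)
      have a3 : 0 ≤ c ^ 2 * (r - 1) := mul_nonneg (sq_nonneg c) (by linarith)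
      have a4 : 0 ≤ C * r := mul_nonneg hC (by linarith)
      have a5 : 0 ≤ c * r := mul_nonneg hc (by linarith)
      nlinarith
    · rw [norm_sub_rev, norm_sub_rev y]
      exact far y' y (not_le.mp hy')
  · exact far y y' (not_le.mp hy)

end Pool.Agent.Lib.MP_8daebb_an.PR
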