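import Pool.Agent.Lib.MP_8daebb_an.PR.Form
import Pool.Agent.Lib.MP_8daebb_an.PR.Fld

/-! The far part of the interaction. -/

open MeasureTheory Metric Set Module Real Filter Topology
open scoped RealInnerProductSpace

namespace Pool.Agent.Lib.MP_8daebb_an.PR

open HK AS

variable {E : Type*} [NormedAddCommGroup E] [InnerProductSpace ℝ E] [FiniteDimensional ℝ E]
  [MeasurableSpace E] [BorelSpace E]

/-- The near part of the interaction. -/
noncomputable def near (L : Submodule ℝ E) (σ : E → ℝ) (Y : E → E) (s : ℝ) : ℝ :=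
  ∫ p : E × E, σ p.1 * (zt L p.2 * σ p.2) * (G s (p.2 - p.1) * (⟪p.1 - p.2, Y p.1⟫ / (2 * s)))

variable (E) in
theorem far_kernel : ∃ C : ℝ, 0 < C ∧ ∀ (s T : ℝ) (z : E), 0 < s → s ≤ T → 1 / 8 ≤ ‖z‖ →
    G s z * (‖z‖ / (2 * s)) ≤ C * s * exp (-(1 / (1024 * T))) * G (2 * s) z := by
  refine ⟨131072 * 2 ^ hd E, by positivity, fun s T z hs hT hz => ?_⟩
  obtain ⟨x, hx⟩ : ∃ x, x = ‖z‖ ^ 2 / s := ⟨_, rfl⟩
  have x0 : 0 ≤ x := by rw [hx]; positivity
  have h1 := pow_mul_exp_neg_le (show 0 ≤ x / 2 by positivity) 2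
  have h2 : exp (-(x / 2 / 8)) ≤ exp (-(1 / (1024 * T))) := by
    refine exp_le_exp.2 (neg_le_neg ?_)
    have a : 1 / 64 / T ≤ x := by
      rw [hx]
      exact div_le_div₀ (sq_nonneg _) (by nlinarith) hs hT
    have e : 1 / (1024 * T) = 1 / 64 / T / 16 := by
      have := (hs.trans_le hT).ne'
      field_simp
      norm_num
    linarith
  have h3 : ‖z‖ / (2 * s) ≤ 256 * s * x ^ 2 := by
    have a : 1 / 512 ≤ ‖z‖ ^ 3 := by
      have := pow_le_pow_left₀ (by norm_num) hz 3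
      linarith
    have e : 256 * s * x ^ 2 = ‖z‖ * (512 * ‖z‖ ^ 3) / (2 * s) := by
      rw [hx]
      field_simp
      norm_num
    rw [e]
    exact div_le_div_of_nonneg_right
      (le_mul_of_one_le_right (norm_nonneg _) (by linarith)) (by positivity)
  have h4 : exp (-(x / 8)) = exp (-(x / 2 / 8)) * exp (-(x / 2 / 8)) := by
    rw [← exp_add]
    congr 1
    ring
  have h5 : exp (-(x / 2 / 8)) * (‖z‖ / (2 * s)) ≤ 131072 * s := by
    have a := mul_le_mul_of_nonneg_left h3 (exp_pos (-(x / 2 / 8))).le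
    have b := mul_le_mul_of_nonneg_left h1 hs.le
    norm_num [Nat.factorial] at b
    linarith
  have h6 := mul_le_mul h5 h2 (exp_pos _).le (by positivity)
  have h7 := mul_le_mul_of_nonneg_right h6
    (mul_pos (show (0 : ℝ) < 2 ^ hd E by positivity)
      (G_pos (show 0 < 2 * s by positivity) z)).le
  rw [G_eq_two hs z, ← hx, h4]
  linarith

theorem zt_one_far (L : Submodule ℝ E) {y y' : E} (h1 : ‖pa L y‖ < 1) (h2 : ‖pe L y‖ < 1 / 8)
    (h : ‖y' - y‖ < 1 / 8) : zt L y' = 1 := by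
  have a1 := norm_pa_le L (y' - y)
  have a2 := norm_pe_le L (y' - y)
  rw [map_sub] at a1 a2
  have b1 := norm_sub_norm_le (pa L y') (pa L y)
  have b2 := norm_sub_norm_le (pe L y') (pe L y)
  refine zc_one L (by norm_num) ?_ (by linarith)
  have := pow_le_pow_left₀ (norm_nonneg (pa L y')) (show ‖pa L y'‖ ≤ 9 / 8 by linarith) 2
  linarith

omit [FiniteDimensional ℝ E] [MeasurableSpace E] [BorelSpace E] in
theorem ker_le_far {s θ : ℝ} (hs : 0 < s) (y y' : E) {v : E} (hv : ‖v‖ ≤ θ) :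
    |G s (y' - y) * (⟪y - y', v⟫ / (2 * s))| ≤ θ * (G s (y' - y) * (‖y' - y‖ / (2 * s))) := by
  have h1 : |⟪y - y', v⟫| ≤ ‖y' - y‖ * θ := by
    rw [norm_sub_rev]
    exact (abs_real_inner_le_norm _ _).trans (mul_le_mul_of_nonneg_left hv (norm_nonneg _))
  rw [abs_mul, abs_G hs.le, abs_div, abs_of_pos (show 0 < 2 * s by positivity), mul_left_comm]
  refine mul_le_mul_of_nonneg_left ?_ (G_pos hs _).le
  rw [← mul_div_assoc, mul_comm θ]
  exact div_le_div_of_nonneg_right h1 (by positivity)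

variable (E) in
theorem far_bound : ∃ C : ℝ, 0 < C ∧ ∀ (L : Submodule ℝ E) (σ N : E → ℝ) (Y : E → E)
    (θ A s T : ℝ), Cb 0 σ → Cb 0 N → (∀ y, |σ y| ≤ N y) → Continuous Y → (∀ y, ‖Y y‖ ≤ θ) →
    (∀ y, Y y ≠ 0 → ‖pa L y‖ < 1 ∧ ‖pe L y‖ < 1 / 8) → 0 ≤ A →
    (∀ y ∈ ball (0 : E) 3, P (2 * s) N y ≤ A / (2 * s)) → 0 < s → s ≤ T →
    |itr σ Y s - near L σ Y s| ≤
      C * θ * (∫ y, zt L y * N y) * A * exp (-(1 / (1024 * T))) := by
  obtain ⟨C, C0, hC⟩ := far_kernel E
  refine ⟨C / 2, by positivity, fun L σ N Y θ A s T hσ hN hd hY hθ hS hA hP hs hT => ?_⟩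
  have θ0 : 0 ≤ θ := (norm_nonneg _).trans (hθ 0)
  have s2 : 0 < 2 * s := by positivity
  have N0 : ∀ y, 0 ≤ N y := fun y => (abs_nonneg _).trans (hd y)
  have z0 : ∀ y, 0 ≤ zt L y := zc_nonneg L _ _
  have z1 : ∀ y, zt L y ≤ 1 := zc_le_one L _ _
  have zc : Continuous (zt L) := (zt_cc L 0).continuous
  have σc := hσ.continuous
  have hi : Integrable fun y => zt L y * N y := ((zt_cc L 0).mul hN.contDiff).integrable
  have hH := integrable_prod_G hi hN.bm s2
  obtain ⟨K, hK⟩ : ∃ K : E × E → ℝ,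
      K = fun p => G s (p.2 - p.1) * (⟪p.1 - p.2, Y p.1⟫ / (2 * s)) := ⟨_, rfl⟩
  have Kc : Continuous K := by rw [hK]; fun_prop
  have key : ∀ (c : ℝ) (w : E → ℝ), 0 ≤ c → (∀ y, |w y| ≤ 1) →
      (∀ y y', Y y ≠ 0 → w y' ≠ 0 →
        G s (y' - y) * (‖y' - y‖ / (2 * s)) ≤ c * G (2 * s) (y' - y)) → ∀ p : E × E,
      ‖σ p.1 * (K p * σ p.2) * w p.2‖ ≤
        c * θ * (zt L p.1 * N p.1 * (G (2 * s) (p.2 - p.1) * N p.2)) := by
    rintro c w c0 hw h ⟨y, y'⟩
    have g0 := (G_pos s2 (y' - y)).le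
    have r0 : 0 ≤ c * θ * (zt L y * N y * (G (2 * s) (y' - y) * N y')) :=
      mul_nonneg (mul_nonneg c0 θ0)
        (mul_nonneg (mul_nonneg (z0 y) (N0 y)) (mul_nonneg g0 (N0 y')))
    by_cases h1 : Y y = 0
    · simpa [hK, h1] using r0
    by_cases h2 : w y' = 0
    · simpa [h2] using r0
    have a1 : |K (y, y')| ≤ θ * (c * G (2 * s) (y' - y)) := by
      rw [hK]
      exact (ker_le_far hs y y' (hθ y)).trans (mul_le_mul_of_nonneg_left (h y y' h1 h2) θ0)
    have a2 : zt L y = 1 := zt_one_far L (hS y h1).1 (hS y h1).2 (by simp)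
    have a3 := mul_le_mul (hd y) (mul_le_mul a1 (hd y') (abs_nonneg _)
      ((abs_nonneg _).trans a1)) (by positivity) (N0 y)
    have a4 := mul_le_mul a3 (hw y') (abs_nonneg _) (le_trans (by positivity) a3)
    dsimp only
    rw [Real.norm_eq_abs, abs_mul, abs_mul, abs_mul, a2]
    linarith
  have hF : ∀ w : E → ℝ, Continuous w → (∀ y, |w y| ≤ 1) →
      Integrable (fun p : E × E => σ p.1 * (K p * σ p.2) * w p.2) (volume.prod volume) := by
    intro w wc hw
    refine (hH.const_mul _).mono' (Continuous.aestronglyMeasurable (by fun_prop))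
      (Eventually.of_forall (key (5 * 2 ^ HK.hd E * √s / (2 * s)) w (by positivity) hw
        fun y y' _ _ => ?_))
    have := div_le_div_of_nonneg_right (norm_mul_G_le hs (y' - y)) s2.le
    refine le_of_eq_of_le (by ring) (this.trans_eq (by ring))
  have f1 := hF (fun _ => 1) continuous_const fun _ => by simp
  have f2 := hF (zt L) zc fun y => by rw [abs_of_nonneg (z0 y)]; exact z1 y
  have e1 : itr σ Y s = ∫ p : E × E, σ p.1 * (K p * σ p.2) * 1 ∂(volume.prod volume) := by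
    rw [integral_prod _ f1, itr, hK]
    simp only [mul_one, integral_const_mul]
  have e2 : near L σ Y s =
      ∫ p : E × E, σ p.1 * (K p * σ p.2) * zt L p.2 ∂(volume.prod volume) := by
    rw [near, hK, Measure.volume_eq_prod]
    exact integral_congr_ae (Eventually.of_forall fun p => by ring)
  have e3 : itr σ Y s - near L σ Y s =
      ∫ p : E × E, σ p.1 * (K p * σ p.2) * (1 - zt L p.2) ∂(volume.prod volume) := by
    rw [e1, e2, ← integral_sub f1 f2]
    exact integral_congr_ae (Eventually.of_forall fun p => by ring)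
  have b1 := norm_integral_le_of_norm_le (hH.const_mul _) (Eventually.of_forall
    (key (C * s * exp (-(1 / (1024 * T)))) (fun y => 1 - zt L y) (by positivity)
      (fun y => by rw [abs_of_nonneg (sub_nonneg.2 (z1 y))]; linarith [z0 y])
      fun y y' h1 h2 => hC s T _ hs hT (not_lt.1 fun h =>
        h2 (by rw [zt_one_far L (hS y h1).1 (hS y h1).2 h, sub_self]))))
  have b2 : ∫ p : E × E, zt L p.1 * N p.1 * (G (2 * s) (p.2 - p.1) * N p.2)
      ∂(volume.prod volume) ≤ (∫ y, zt L y * N y) * (A / (2 * s)) := by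
    rw [integral_prod _ hH, ← integral_mul_const]
    refine integral_mono hH.integral_prod_left (hi.mul_const _) fun y => ?_
    dsimp only
    rw [integral_const_mul]
    by_cases h : zt L y = 0
    · simp [h]
    · exact mul_le_mul_of_nonneg_left
        (hP y (zc_tsupport L (by norm_num) (by norm_num) (subset_tsupport _ h)))
        (mul_nonneg (z0 y) (N0 y))
  rw [integral_const_mul, Real.norm_eq_abs, ← e3] at b1
  refine b1.trans ((mul_le_mul_of_nonneg_left b2 (by positivity)).trans_eq ?_)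
  field_simp

end Pool.Agent.Lib.MP_8daebb_an.PR
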