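import Pool.Agent.Lib.MP_8daebb_an.PR.Ibp

/-! The quadratic form of the heat semigroup. -/

open MeasureTheory Metric Set Module Real Filter Topology
open scoped RealInnerProductSpace

namespace Pool.Agent.Lib.MP_8daebb_an.PR

open HK AS

variable {E : Type*} [NormedAddCommGroup E] [InnerProductSpace ℝ E] [FiniteDimensional ℝ E]
  [MeasurableSpace E] [BorelSpace E]

variable {f g : E → ℝ} {t T : ℝ}

theorem integral_mul_Cv_form {K : E → ℝ} (hK : Ker K) (hf : Integrable f) (hg : BM g) :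
    ∫ y, f y * Cv K g y = ∫ p : E × E, f p.1 * g p.2 * K (p.2 - p.1) := by
  have h := integral_prod _ (integrable_cv_triple hK hf hg)
  have h2 : (fun p : E × E => f p.1 * g p.2 * K (p.2 - p.1))
      = fun p : E × E => f p.1 * (K (p.2 - p.1) * g p.2) := funext fun p => by ring
  rw [h2, Measure.volume_eq_prod, h]
  simp only [Cv, integral_const_mul]

theorem ph_eq_prod (hf : Cc 0 f) (ht : 0 < t) :
    ph f t = ∫ p : E × E, f p.1 * f p.2 * G t (p.2 - p.1) :=
  integral_mul_Cv_form (ker_G ht) hf.integrable hf.bm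

theorem integrable_P_sq (hf : Cc 0 f) (ht : 0 < t) : Integrable (fun y => P t f y ^ 2) :=
  (hf.li.P ht).sq.int

theorem ph_eq_sq (hf : Cc 0 f) (ht : 0 < t) : ph f t = ∫ y, P (t / 2) f y ^ 2 :=
  integral_mul_P_self hf.li ht

theorem ph_nonneg (hf : Cc 0 f) (ht : 0 < t) : 0 ≤ ph f t :=
  integral_mul_P_self_nonneg hf.li ht

theorem ph_le (hf : Cc 0 f) (ht : 0 < t) : ph f t ≤ ∫ y, f y ^ 2 :=
  integral_mul_P_self_le hf.li ht

theorem ph_anti (hf : Cc 0 f) {s : ℝ} (hs : 0 < s) (hst : s ≤ t) : ph f t ≤ ph f s :=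
  integral_mul_P_self_anti hf.li hs hst

theorem ph_sum_le {ι : Type*} (s : Finset ι) {F : ι → E → ℝ} (h : ∀ i ∈ s, Cc 0 (F i))
    (ht : 0 < t) : ph (fun y => ∑ i ∈ s, F i y) t ≤ s.card * ∑ i ∈ s, ph (F i) t := by
  have ht2 := half_pos ht
  rw [ph_eq_sq (Cc.sum s h) ht, Finset.sum_congr rfl fun i hi => ph_eq_sq (h i hi) ht,
    ← integral_finsetSum s fun i hi => integrable_P_sq (h i hi) ht2, ← integral_const_mul]
  refine integral_mono (integrable_P_sq (Cc.sum s h) ht2)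
    ((integrable_finsetSum s fun i hi => integrable_P_sq (h i hi) ht2).const_mul _) fun y => ?_
  show P (t / 2) (fun y => ∑ i ∈ s, F i y) y ^ 2 ≤ s.card * ∑ i ∈ s, P (t / 2) (F i) y ^ 2
  rw [P_sum s (fun i hi => (h i hi).bm) ht2]
  exact sq_sum_le_card_mul_sum_sq

theorem ph_add_le (hf : Cc 0 f) (hg : Cc 0 g) (ht : 0 < t) :
    ph (fun y => f y + g y) t ≤ 2 * ph f t + 2 * ph g t := by
  have ht2 := half_pos ht
  rw [ph_eq_sq (hf.add hg) ht, ph_eq_sq hf ht, ph_eq_sq hg ht, ← integral_const_mul,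
    ← integral_const_mul, ← integral_add ((integrable_P_sq hf ht2).const_mul 2)
      ((integrable_P_sq hg ht2).const_mul 2)]
  refine integral_mono (integrable_P_sq (hf.add hg) ht2)
    (((integrable_P_sq hf ht2).const_mul 2).add ((integrable_P_sq hg ht2).const_mul 2))
    fun y => ?_
  show P (t / 2) (fun y => f y + g y) y ^ 2 ≤ 2 * P (t / 2) f y ^ 2 + 2 * P (t / 2) g y ^ 2
  rw [P_add hf.bm hg.bm ht2]
  nlinarith [sq_nonneg (P (t / 2) f y - P (t / 2) g y)]

theorem ph_sub_le (hf : Cc 0 f) (hg : Cc 0 g) (ht : 0 < t) :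
    ph (fun y => f y - g y) t ≤ 2 * ph f t + 2 * ph g t := by
  have ht2 := half_pos ht
  rw [ph_eq_sq (hf.sub hg) ht, ph_eq_sq hf ht, ph_eq_sq hg ht, ← integral_const_mul,
    ← integral_const_mul, ← integral_add ((integrable_P_sq hf ht2).const_mul 2)
      ((integrable_P_sq hg ht2).const_mul 2)]
  refine integral_mono (integrable_P_sq (hf.sub hg) ht2)
    (((integrable_P_sq hf ht2).const_mul 2).add ((integrable_P_sq hg ht2).const_mul 2))
    fun y => ?_
  show P (t / 2) (fun y => f y - g y) y ^ 2 ≤ 2 * P (t / 2) f y ^ 2 + 2 * P (t / 2) g y ^ 2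
  rw [P_sub hf.bm hg.bm ht2]
  nlinarith [sq_nonneg (P (t / 2) f y + P (t / 2) g y)]

theorem ph_const_mul (c : ℝ) (f : E → ℝ) (t : ℝ) :
    ph (fun y => c * f y) t = c ^ 2 * ph f t := by
  unfold ph
  rw [← integral_const_mul]
  congr 1
  funext y
  rw [P_const_mul]
  ring

theorem ph_mono (hf : Cc 0 f) (hg : Cc 0 g) (h : ∀ y, |f y| ≤ g y) (ht : 0 < t) :
    ph f t ≤ ph g t := by
  have ht2 := half_pos ht
  rw [ph_eq_sq hf ht, ph_eq_sq hg ht]
  refine integral_mono (integrable_P_sq hf ht2) (integrable_P_sq hg ht2) fun y => ?_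
  show P (t / 2) f y ^ 2 ≤ P (t / 2) g y ^ 2
  exact sq_le_sq.2 ((abs_P_le_of_le hg.bm ht2 h y).trans (le_abs_self _))

theorem hasDerivAt_bil (hf : Cc 0 f) (hg : Cc 0 g) (ht : 0 < t) :
    HasDerivAt (fun s => ∫ y, f y * P s g y) (∫ p : E × E, f p.1 * g p.2 * dG t (p.2 - p.1)) t :=
  (hasDerivAt_integral_mul_P hf.integrable hg.bm ht).congr_deriv
    (integral_mul_Cv_form (ker_dG ht) hf.integrable hg.bm)

theorem continuousOn_ph (hf : Cc 0 f) : ContinuousOn (ph f) (Ioi 0) :=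
  continuousOn_integral_mul_P hf.integrable hf.bm

/-- A function continuous on the open half line and bounded there is integrable on intervals. -/
theorem ii_of_bdd_form {h : ℝ → ℝ} {C : ℝ} (hc : ContinuousOn h (Ioi 0))
    (hb : ∀ t, 0 < t → |h t| ≤ C) {a b : ℝ} (ha : 0 ≤ a) (hb' : 0 ≤ b) :
    IntervalIntegrable h volume a b := by
  have hs : uIoc a b ⊆ Ioi 0 := fun x hx => (le_min ha hb').trans_lt hx.1
  refine (intervalIntegrable_const (c := C) (a := a) (b := b) (μ := volume)).mono_fun'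
    ((hc.mono hs).aestronglyMeasurable measurableSet_uIoc) ?_
  filter_upwards [ae_restrict_mem measurableSet_uIoc] with x hx
  exact hb x (hs hx)

theorem ii_ph (hf : Cc 0 f) {a b : ℝ} (ha : 0 ≤ a) (hb : 0 ≤ b) :
    IntervalIntegrable (ph f) volume a b :=
  ii_of_bdd_form (continuousOn_ph hf)
    (fun _ ht => (abs_of_nonneg (ph_nonneg hf ht)).trans_le (ph_le hf ht)) ha hb

theorem ii_ph_two (hf : Cc 0 f) {a b : ℝ} (ha : 0 ≤ a) (hb : 0 ≤ b) :
    IntervalIntegrable (fun t => ph f (2 * t)) volume a b := by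
  refine ii_of_bdd_form (C := ∫ y, f y ^ 2) ?_ (fun t ht => ?_) ha hb
  · exact (continuousOn_ph hf).comp (by fun_prop) fun t (ht : 0 < t) => (by positivity : 0 < 2 * t)
  · have h2 : 0 < 2 * t := by positivity
    exact (abs_of_nonneg (ph_nonneg hf h2)).trans_le (ph_le hf h2)

theorem ii_mul_ph (hf : Cc 0 f) {a b : ℝ} (ha : 0 ≤ a) (hb : 0 ≤ b) :
    IntervalIntegrable (fun t => t * ph f t) volume a b :=
  (ii_ph hf ha hb).continuousOn_mul continuousOn_id

end Pool.Agent.Lib.MP_8daebb_an.PR
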