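import Pool.Agent.Lib.MP_8daebb_an.PR.Ener

/-! The pair form is positive semidefinite. -/

open MeasureTheory Metric Set Module Real Filter Topology
open scoped RealInnerProductSpace

namespace Pool.Agent.Lib.MP_8daebb_an.PR

open HK AS

variable {E : Type*} [NormedAddCommGroup E] [InnerProductSpace ℝ E] [FiniteDimensional ℝ E]
  [MeasurableSpace E] [BorelSpace E]

variable {f g : E → ℝ} {t T : ℝ} {L : Submodule ℝ E}

theorem kj_nonneg (L : Submodule ℝ E) (ht : 0 < t) (p : E × E) : 0 ≤ kj L t p := by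
  have := G_pos ht (p.2 - p.1)
  unfold kj
  positivity

theorem continuous_G_jj (t : ℝ) : Continuous fun p : E × E => G t (p.2 - p.1) :=
  (contDiff_G (V := E) t (n := 0)).continuous.comp (continuous_snd.sub continuous_fst)

theorem continuous_kj (L : Submodule ℝ E) (t : ℝ) : Continuous (kj L t) := by
  have h1 := continuous_G_jj (E := E) t
  have h2 : Continuous fun p : E × E => ‖pe L (p.2 - p.1)‖ ^ 2 :=
    (((pe L).continuous.comp (continuous_snd.sub continuous_fst)).norm).pow 2
  exact (h1.mul h2).div_const _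

theorem kj_le (L : Submodule ℝ E) (ht : 0 < t) (p : E × E) :
    kj L t p ≤ 2 * 2 ^ hd E * G (2 * t) (p.2 - p.1) := by
  have h1 := sq_mul_G_le ht (p.2 - p.1)
  have h2 := G_pos ht (p.2 - p.1)
  have h3 : ‖pe L (p.2 - p.1)‖ ^ 2 ≤ ‖p.2 - p.1‖ ^ 2 :=
    pow_le_pow_left₀ (norm_nonneg _) (norm_pe_le L _) 2
  unfold kj
  rw [div_le_iff₀ (by positivity)]
  nlinarith [mul_le_mul_of_nonneg_left h3 h2.le]

theorem jj_nonneg (h0 : ∀ y, 0 ≤ f y) (ht : 0 < t) : 0 ≤ jj L f t :=
  integral_nonneg fun p => mul_nonneg (mul_nonneg (h0 _) (h0 _)) (kj_nonneg L ht p)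

theorem jj_mono (hf : Cc 0 f) (hg : Cc 0 g) (h : ∀ y, |f y| ≤ g y) (ht : 0 < t) :
    |jj L f t| ≤ jj L g t := by
  unfold jj
  rw [← Real.norm_eq_abs]
  refine norm_integral_le_of_norm_le (hg.integrable_prod hg (continuous_kj L t))
    (Eventually.of_forall fun p => ?_)
  rw [Real.norm_eq_abs, abs_mul, abs_mul, abs_of_nonneg (kj_nonneg L ht p)]
  refine mul_le_mul_of_nonneg_right ?_ (kj_nonneg L ht p)
  exact mul_le_mul (h _) (h _) (abs_nonneg _) ((abs_nonneg _).trans (h _))

theorem jj_le_ph (hf : Cc 0 f) (h0 : ∀ y, 0 ≤ f y) (ht : 0 < t) :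
    jj L f t ≤ 2 * 2 ^ hd E * ph f (2 * t) := by
  rw [ph_eq_prod hf (by positivity), ← integral_const_mul]
  refine integral_mono (hf.integrable_prod hf (continuous_kj L t))
    ((hf.integrable_prod hf (continuous_G_jj (2 * t))).const_mul _) fun p => ?_
  have h1 := mul_le_mul_of_nonneg_left (kj_le L ht p) (mul_nonneg (h0 p.1) (h0 p.2))
  refine h1.trans (le_of_eq ?_)
  ring

theorem measurable_jj_jj (L : Submodule ℝ E) (hf : Cc 0 f) : StronglyMeasurable (jj L f) := by
  have hm : Measurable f := hf.continuous.measurable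
  have h1 : Measurable fun q : ℝ × (E × E) => G q.1 (q.2.2 - q.2.1) :=
    (measurable_G (V := E)).comp (measurable_fst.prodMk
      (measurable_snd.snd.sub measurable_snd.fst))
  have h2 : Measurable fun q : ℝ × (E × E) => ‖pe L (q.2.2 - q.2.1)‖ ^ 2 :=
    (((pe L).continuous.measurable.comp (measurable_snd.snd.sub measurable_snd.fst)).norm).pow_const 2
  have h3 : Measurable fun q : ℝ × (E × E) => f q.2.1 * f q.2.2 * kj L q.1 q.2 :=
    ((hm.comp measurable_snd.fst).mul (hm.comp measurable_snd.snd)).mul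
      ((h1.mul h2).div (measurable_fst.const_mul 4))
  exact StronglyMeasurable.integral_prod_right
    (f := fun (t : ℝ) (p : E × E) => f p.1 * f p.2 * kj L t p) h3.stronglyMeasurable

theorem ii_jj (hf : Cc 0 f) (hT : 0 ≤ T) : IntervalIntegrable (jj L f) volume 0 T := by
  rw [intervalIntegrable_iff_integrableOn_Ioc_of_le hT]
  refine Measure.integrableOn_of_bounded (M := 2 * 2 ^ hd E * ∫ y, |f y| ^ 2)
    measure_Ioc_lt_top.ne (measurable_jj_jj L hf).aestronglyMeasurable ?_
  refine (ae_restrict_iff' measurableSet_Ioc).2 (Eventually.of_forall fun t ht => ?_)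
  have ht0 : 0 < t := ht.1
  have h1 := jj_mono (L := L) hf hf.abs (fun y => le_rfl) ht0
  have h2 := jj_le_ph (L := L) hf.abs (fun y => abs_nonneg _) ht0
  have h3 := ph_le hf.abs (t := 2 * t) (by positivity)
  rw [Real.norm_eq_abs]
  refine h1.trans (h2.trans (mul_le_mul_of_nonneg_left h3 (by positivity)))

theorem JJ_mono (hf : Cc 0 f) (hg : Cc 0 g) (h : ∀ y, |f y| ≤ g y) (hT : 0 ≤ T) :
    JJ L T f ≤ JJ L T g :=
  intervalIntegral.integral_mono_on_of_le_Ioo hT (ii_jj hf hT) (ii_jj hg hT)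
    fun t ht => (le_abs_self _).trans (jj_mono hf hg h ht.1)

theorem ker_id_jj (hL : finrank ℝ L + 2 = finrank ℝ E) {ι : Type*} [Fintype ι]
    (c : OrthonormalBasis ι ℝ L) (ht : 0 < t) (p : E × E) :
    G t (p.2 - p.1) + t * dG t (p.2 - p.1) = kj L t p +
      t * ∑ i, fderiv ℝ (fun y => fderiv ℝ (G t) y (c i : E)) (p.2 - p.1) (c i : E) := by
  have hc : (Fintype.card ι : ℝ) = finrank ℝ L := by
    rw [Module.finrank_eq_card_basis c.toBasis]
  have hh : hd E = (Fintype.card ι : ℝ) / 2 + 1 := by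
    rw [hc, hd, ← hL]
    push_cast
    ring
  have h1 : ∀ i, fderiv ℝ (fun y => fderiv ℝ (G t) y (c i : E)) (p.2 - p.1) (c i : E) =
      ⟪p.2 - p.1, (c i : E)⟫ ^ 2 * (G t (p.2 - p.1) / (4 * t ^ 2)) - G t (p.2 - p.1) / (2 * t) := by
    intro i
    have hn : ⟪(c i : E), (c i : E)⟫ = (1 : ℝ) := by
      rw [← Submodule.coe_inner, real_inner_self_eq_norm_sq, c.orthonormal.1 i]
      norm_num
    rw [fderiv_fderiv_G ht, hn]
    ring
  rw [Finset.sum_congr rfl fun i _ => h1 i, Finset.sum_sub_distrib, ← Finset.sum_mul,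
    sum_sq_inner_pa, Finset.sum_const, Finset.card_univ, nsmul_eq_mul]
  unfold kj dG
  rw [norm_sq_pa_pe L (p.2 - p.1), hh]
  field_simp
  ring

theorem jj_rep (hL : finrank ℝ L + 2 = finrank ℝ E) {ι : Type*} [Fintype ι]
    (c : OrthonormalBasis ι ℝ L) (hf : Cc 1 f) (ht : 0 < t) :
    HasDerivAt (fun s => s * ph f s) (jj L f t - t * ∑ i, ph (pd (c i : E) f) t) t := by
  have hf0 : Cc 0 f := hf.of_le (by norm_num)
  have h1 : HasDerivAt (ph f) (∫ p : E × E, f p.1 * f p.2 * dG t (p.2 - p.1)) t :=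
    hasDerivAt_bil hf0 hf0 ht
  have h2 := (hasDerivAt_id t).mul h1
  have hG := continuous_G_jj (E := E) t
  have hd' : Continuous fun p : E × E => dG t (p.2 - p.1) := by
    unfold dG
    exact (((((continuous_snd.sub continuous_fst).norm).pow 2).div_const _).sub
      continuous_const).mul hG
  have hK : ∀ e : E, Continuous fun p : E × E =>
      fderiv ℝ (fun y => fderiv ℝ (G t) y e) (p.2 - p.1) e := by
    intro e
    simp only [fderiv_fderiv_G ht]
    have hi : Continuous fun p : E × E => ⟪p.2 - p.1, e⟫ :=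
      (continuous_snd.sub continuous_fst).inner continuous_const
    exact (((hi.mul hi).div_const _).sub continuous_const).mul hG
  have h3 : ∀ i, ph (pd (c i : E) f) t = -∫ p : E × E, f p.1 * f p.2 *
      fderiv ℝ (fun y => fderiv ℝ (G t) y (c i : E)) (p.2 - p.1) (c i : E) := by
    intro i
    rw [integral_dd_G hf hf ht, neg_neg]
    rfl
  refine HasDerivAt.congr_deriv (f' := 1 * ph f t + t * ∫ p : E × E, f p.1 * f p.2 * dG t (p.2 - p.1))
    h2 (Eq.symm ?_)
  rw [one_mul, Finset.sum_congr rfl fun i _ => h3 i, Finset.sum_neg_distrib, mul_neg, sub_neg_eq_add,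
    ← integral_finsetSum _ fun i _ => hf.integrable_prod hf (hK _), ph_eq_prod hf0 ht,
    ← integral_const_mul, ← integral_const_mul, jj,
    ← integral_add (hf.integrable_prod hf (continuous_kj L t))
      ((integrable_finsetSum _ fun i _ => hf.integrable_prod hf (hK _)).const_mul _),
    ← integral_add (hf.integrable_prod hf hG) ((hf.integrable_prod hf hd').const_mul _)]
  refine integral_congr_ae (Eventually.of_forall fun p => ?_)
  have h4 := ker_id_jj hL c ht p
  simp only [← Finset.mul_sum]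
  linear_combination (-(f p.1 * f p.2)) * h4

theorem JJ_rep (hL : finrank ℝ L + 2 = finrank ℝ E) {ι : Type*} [Fintype ι]
    (c : OrthonormalBasis ι ℝ L) (hf : Cc 1 f) (hT : 0 < T) :
    JJ L T f = T * ph f T + ∑ i, ∫ t in (0 : ℝ)..T, t * ph (pd (c i : E) f) t := by
  have hf0 : Cc 0 f := hf.of_le (by norm_num)
  have hi : ∀ i, IntervalIntegrable (fun t => t * ph (pd (c i : E) f) t) volume 0 T :=
    fun i => ii_mul_ph (hf.pd _) le_rfl hT.le
  have hs : IntervalIntegrable (fun t => ∑ i, t * ph (pd (c i : E) f) t) volume 0 T := by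
    have := IntervalIntegrable.sum Finset.univ fun i _ => hi i
    rwa [Finset.sum_fn] at this
  have h0 : Tendsto (fun s => s * ph f s) (𝓝[>] 0) (𝓝 0) := by
    have hl : Tendsto (fun s : ℝ => s * ∫ y, f y ^ 2) (𝓝[>] 0) (𝓝 0) := by
      have : Tendsto (fun s : ℝ => s * ∫ y, f y ^ 2) (𝓝 0) (𝓝 (0 * ∫ y, f y ^ 2)) :=
        (continuous_id.mul continuous_const).tendsto 0
      rw [zero_mul] at this
      exact this.mono_left nhdsWithin_le_nhds
    refine squeeze_zero' ?_ ?_ hl
    · filter_upwards [self_mem_nhdsWithin] with s hs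
      exact mul_nonneg (le_of_lt hs) (ph_nonneg hf0 hs)
    · filter_upwards [self_mem_nhdsWithin] with s hs
      exact mul_le_mul_of_nonneg_left (ph_le hf0 hs) (le_of_lt hs)
  have hT' : Tendsto (fun s => s * ph f s) (𝓝[<] T) (𝓝 (T * ph f T)) :=
    (jj_rep hL c hf hT).continuousAt.tendsto.mono_left nhdsWithin_le_nhds
  have h1 := intervalIntegral.integral_eq_sub_of_hasDerivAt_of_tendsto hT
    (f' := fun t => jj L f t - ∑ i, t * ph (pd (c i : E) f) t)
    (fun t ht => by
      have := jj_rep hL c hf ht.1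
      rwa [Finset.mul_sum] at this)
    ((ii_jj hf0 hT.le).sub hs) h0 hT'
  rw [intervalIntegral.integral_sub (ii_jj hf0 hT.le) hs,
    intervalIntegral.integral_finsetSum fun i _ => hi i] at h1
  unfold JJ
  linarith

theorem JJ_nonneg (hL : finrank ℝ L + 2 = finrank ℝ E) (hf : Cc 1 f) (hT : 0 < T) :
    0 ≤ JJ L T f := by
  have hf0 : Cc 0 f := hf.of_le (by norm_num)
  rw [JJ_rep hL (stdOrthonormalBasis ℝ L) hf hT]
  refine add_nonneg (mul_nonneg hT.le (ph_nonneg hf0 hT)) (Finset.sum_nonneg fun i _ => ?_)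
  refine intervalIntegral.integral_nonneg hT.le fun t ht => ?_
  rcases ht.1.eq_or_lt with h | h
  · rw [← h, zero_mul]
  · exact mul_nonneg h.le (ph_nonneg (hf.pd _) h)

theorem JJ_const_mul (L : Submodule ℝ E) (T c : ℝ) (f : E → ℝ) :
    JJ L T (fun y => c * f y) = c ^ 2 * JJ L T f := by
  unfold JJ jj
  rw [← intervalIntegral.integral_const_mul]
  refine intervalIntegral.integral_congr fun t _ => ?_
  simp only
  rw [← integral_const_mul]
  refine integral_congr_ae (Eventually.of_forall fun p => ?_)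
  simp only
  ring

theorem JJ_sum_le (hL : finrank ℝ L + 2 = finrank ℝ E) {ι : Type*} (s : Finset ι)
    {F : ι → E → ℝ} (h : ∀ i ∈ s, Cc 1 (F i)) (hT : 0 < T) :
    JJ L T (fun y => ∑ i ∈ s, F i y) ≤ s.card * ∑ i ∈ s, JJ L T (F i) := by
  set c := stdOrthonormalBasis ℝ L
  have hS : Cc 1 (fun y => ∑ i ∈ s, F i y) := Cc.sum s h
  have hdiff : ∀ i ∈ s, Differentiable ℝ (F i) := fun i hi =>
    (h i hi).cd.differentiable (by norm_num)
  have hi : ∀ j, ∀ i ∈ s,
      IntervalIntegrable (fun t => t * ph (pd (c j : E) (F i)) t) volume 0 T :=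
    fun j i hi => ii_mul_ph ((h i hi).pd _) le_rfl hT.le
  have h1 : T * ph (fun y => ∑ i ∈ s, F i y) T ≤ s.card * ∑ i ∈ s, T * ph (F i) T := by
    have := mul_le_mul_of_nonneg_left
      (ph_sum_le s (fun i hi => (h i hi).of_le (by norm_num)) hT) hT.le
    rw [← Finset.mul_sum]
    linarith
  have h2 : ∀ j, ∫ t in (0 : ℝ)..T, t * ph (pd (c j : E) fun y => ∑ i ∈ s, F i y) t ≤
      s.card * ∑ i ∈ s, ∫ t in (0 : ℝ)..T, t * ph (pd (c j : E) (F i)) t := by
    intro j
    have hs : IntervalIntegrable (fun t => ∑ i ∈ s, t * ph (pd (c j : E) (F i)) t) volume 0 T := by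
      have := IntervalIntegrable.sum s (hi j)
      rwa [Finset.sum_fn] at this
    rw [← intervalIntegral.integral_finsetSum (hi j), ← intervalIntegral.integral_const_mul]
    refine intervalIntegral.integral_mono_on_of_le_Ioo hT.le
      (ii_mul_ph (hS.pd _) le_rfl hT.le) (hs.const_mul _) fun t ht => ?_
    have e : pd (c j : E) (fun y => ∑ i ∈ s, F i y) = fun y => ∑ i ∈ s, pd (c j : E) (F i) y :=
      funext fun y => pd_sum s hdiff _ y
    have := mul_le_mul_of_nonneg_left
      (ph_sum_le s (F := fun i => pd (c j : E) (F i)) (fun i hi => (h i hi).pd _) ht.1) ht.1.le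
    rw [e, ← Finset.mul_sum]
    linarith
  rw [JJ_rep hL c hS hT, Finset.sum_congr rfl fun i hi => JJ_rep hL c (h i hi) hT,
    Finset.sum_add_distrib, Finset.sum_comm, mul_add, Finset.mul_sum Finset.univ]
  exact add_le_add h1 (Finset.sum_le_sum fun j _ => h2 j)

theorem JJ_add_le (hL : finrank ℝ L + 2 = finrank ℝ E) (hf : Cc 1 f) (hg : Cc 1 g) (hT : 0 < T) :
    JJ L T (fun y => f y + g y) ≤ 2 * JJ L T f + 2 * JJ L T g := by
  have h := JJ_sum_le hL (Finset.univ : Finset (Fin 2)) (F := ![f, g])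
    (fun i _ => by fin_cases i <;> simpa) hT
  simp only [Fin.sum_univ_two, Matrix.cons_val_zero, Matrix.cons_val_one, Finset.card_univ,
    Fintype.card_fin, Nat.cast_ofNat] at h
  linarith

end Pool.Agent.Lib.MP_8daebb_an.PR
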