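import Pool.Agent.Lib.MP_8daebb_an.PR.Cut
import Pool.Agent.Lib.MP_8daebb_an.SV.Seq

/-! The kernel of the symmetrised interaction. -/

open MeasureTheory Metric Set Module Real Filter Topology
open scoped RealInnerProductSpace

namespace Pool.Agent.Lib.MP_8daebb_an.PR

open HK AS

variable {E : Type*} [NormedAddCommGroup E] [InnerProductSpace ℝ E] [FiniteDimensional ℝ E]
  [MeasurableSpace E] [BorelSpace E]

theorem Prof.anti_kerb {C ρ Af : ℝ} {φ : ℝ → ℝ} (h : Prof C ρ Af φ) : Antitone φ :=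
  antitone_of_deriv_nonpos (h.cd.differentiable (by norm_num)) h.anti

theorem Prof.mono_kerb {C ρ Af : ℝ} {φ : ℝ → ℝ} (h : Prof C ρ Af φ) (hρ : 0 < ρ) :
    MonotoneOn (fun t : ℝ => φ (t ^ 4) - 2 * C * √ρ * t⁻¹) (Ioi 0) := by
  have hd : ∀ t : ℝ, 0 < t → HasDerivAt (fun t : ℝ => φ (t ^ 4) - 2 * C * √ρ * t⁻¹)
      (deriv φ (t ^ 4) * (4 * t ^ 3) - 2 * C * √ρ * (-(t ^ 2)⁻¹)) t := fun t ht => by
    have a : HasDerivAt (fun t : ℝ => t ^ 4) (4 * t ^ 3) t := by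
      simpa using hasDerivAt_pow 4 t
    have b := ((h.cd.differentiable (by norm_num)) (t ^ 4)).hasDerivAt.comp t a
    exact b.sub ((hasDerivAt_inv ht.ne').const_mul _)
  refine monotoneOn_of_deriv_nonneg (convex_Ioi 0)
    (fun t ht => (hd t ht).continuousAt.continuousWithinAt)
    (fun t ht => (hd t (by simpa using ht)).differentiableAt.differentiableWithinAt) fun t ht => ?_
  have ht' : 0 < t := by simpa using ht
  rw [(hd t ht').deriv]
  have a := h.dec' (t ^ 2) (by positivity)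
  rw [Real.sqrt_div hρ.le, Real.sqrt_sq ht'.le, ← pow_mul] at a
  have e : deriv φ (t ^ 4) * (4 * t ^ 3) - 2 * C * √ρ * (-(t ^ 2)⁻¹) =
      2 / t * (C * (√ρ / t) - -(2 * t ^ 4 * deriv φ (t ^ 4))) := by
    field_simp
    ring
  rw [e]
  exact mul_nonneg (by positivity) (sub_nonneg.2 a)

theorem Prof.diff_le {C ρ Af : ℝ} {φ : ℝ → ℝ} (h : Prof C ρ Af φ) (hρ : 0 < ρ) (hC : 0 ≤ C)
    {d d' : ℝ} (hd' : 0 ≤ d') (hd : d' ≤ d) (h0 : 0 < d) :
    |φ (d ^ 2) - φ (d' ^ 2)| * d' ≤ 2 * C * √(ρ / d) * (d - d') := by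
  rcases hd'.eq_or_lt with rfl | hd''
  · rw [mul_zero]; positivity
  have ha : 0 < √d' := Real.sqrt_pos.2 hd''
  have hb : 0 < √d := Real.sqrt_pos.2 h0
  have hab : √d' ≤ √d := Real.sqrt_le_sqrt hd
  have ea : √d' ^ 2 = d' := Real.sq_sqrt hd'
  have eb : √d ^ 2 = d := Real.sq_sqrt h0.le
  have m := h.mono_kerb hρ ha hb hab
  simp only at m
  rw [show √d' ^ 4 = d' ^ 2 by rw [show 4 = 2 * 2 from rfl, pow_mul, ea],
    show √d ^ 4 = d ^ 2 by rw [show 4 = 2 * 2 from rfl, pow_mul, eb]] at m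
  have an := h.anti_kerb (pow_le_pow_left₀ hd' hd 2)
  rw [abs_sub_comm, abs_of_nonneg (sub_nonneg.2 an), Real.sqrt_div hρ.le]
  generalize √d' = a at *
  generalize √d = b at *
  subst ea eb
  have hR : 0 ≤ 2 * C * √ρ := by positivity
  calc (φ ((a ^ 2) ^ 2) - φ ((b ^ 2) ^ 2)) * a ^ 2
      ≤ (2 * C * √ρ * a⁻¹ - 2 * C * √ρ * b⁻¹) * a ^ 2 :=
        mul_le_mul_of_nonneg_right (by linarith) (sq_nonneg _)
    _ = 2 * C * √ρ / b * (a * (b - a)) := by field_simp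
    _ ≤ 2 * C * √ρ / b * (b ^ 2 - a ^ 2) :=
        mul_le_mul_of_nonneg_left (by nlinarith) (by positivity)
    _ = _ := by ring

theorem ker_bound {C ρ Af : ℝ} {φ : ℝ → ℝ} (h : Prof C ρ Af φ) (hρ : 0 < ρ) (hC : 0 ≤ C)
    {p q : E} (hq : ‖q‖ ≤ ‖p‖) (hp : 0 < ‖p‖) :
    |⟪p - q, φ (‖p‖ ^ 2) • p - φ (‖q‖ ^ 2) • q⟫| ≤ 3 * C * √(ρ / ‖p‖) * ‖p - q‖ ^ 2 := by
  have e : ⟪p - q, φ (‖p‖ ^ 2) • p - φ (‖q‖ ^ 2) • q⟫ =
      φ (‖p‖ ^ 2) * ‖p - q‖ ^ 2 + (φ (‖p‖ ^ 2) - φ (‖q‖ ^ 2)) * ⟪p - q, q⟫ := by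
    rw [show φ (‖p‖ ^ 2) • p - φ (‖q‖ ^ 2) • q =
        φ (‖p‖ ^ 2) • (p - q) + (φ (‖p‖ ^ 2) - φ (‖q‖ ^ 2)) • q by
      rw [smul_sub, sub_smul]; abel, inner_add_right, real_inner_smul_right,
      real_inner_smul_right, real_inner_self_eq_norm_sq]
  have a := h.dec _ hp
  have b := h.diff_le hρ hC (norm_nonneg q) hq hp
  have c := abs_real_inner_le_norm (p - q) q
  have d := norm_sub_norm_le p q
  have hS : 0 ≤ C * √(ρ / ‖p‖) := by positivity
  rw [e]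
  refine (abs_add_le _ _).trans ?_
  rw [abs_of_nonneg (mul_nonneg (h.nonneg _) (sq_nonneg _)), abs_mul]
  have a' := mul_le_mul_of_nonneg_right a (sq_nonneg ‖p - q‖)
  have c' := mul_le_mul_of_nonneg_left c (abs_nonneg (φ (‖p‖ ^ 2) - φ (‖q‖ ^ 2)))
  have b' := mul_le_mul_of_nonneg_right b (norm_nonneg (p - q))
  have d' := mul_le_mul_of_nonneg_left d (mul_nonneg hS (norm_nonneg (p - q)))
  nlinarith

theorem inc_lower {x : ℕ → ℝ} {n a c e : ℕ} (hx : ∀ b ≤ n, x b ≤ x (b + 1)) (hac : a ≤ c)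
    (hce : c < e) (he : e ≤ n + 1) : (1 / 2 : ℝ) ^ (e - 1 - a) * (x e - x c) ≤ inc x n a := by
  have t : ∑ b ∈ Finset.Ico c e, (x (b + 1) - x b) = x e - x c := by
    rw [Finset.sum_Ico_eq_sub _ hce.le, Finset.sum_range_sub, Finset.sum_range_sub]
    ring
  rw [← t, Finset.mul_sum, inc]
  refine le_trans (Finset.sum_le_sum fun b hb => ?_)
    (Finset.sum_le_sum_of_subset_of_nonneg (Finset.Ico_subset_Ico hac he) fun b hb _ => ?_)
  · rw [Finset.mem_Ico] at hb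
    exact mul_le_mul_of_nonneg_right
      (pow_le_pow_of_le_one (by norm_num) (by norm_num) (by omega))
      (sub_nonneg.2 (hx b (by omega)))
  · rw [Finset.mem_Ico] at hb
    exact mul_nonneg (by positivity) (sub_nonneg.2 (hx b (by omega)))

theorem exists_level_kerb {r M : ℝ} {a : ℕ} (h : 4 ^ (a + 1) * r < M) (m : ℕ) :
    ∃ k ≤ m, 4 ^ (a + 1 + k) * r < M ∧ (k = m ∨ M ≤ 4 ^ (a + 1 + k + 1) * r) := by
  induction m with
  | zero => exact ⟨0, le_rfl, h, Or.inl rfl⟩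
  | succ m ih =>
    obtain ⟨k, k1, k2, k3⟩ := ih
    by_cases c : M ≤ 4 ^ (a + 1 + k + 1) * r
    · exact ⟨k, by omega, k2, Or.inr c⟩
    · obtain rfl := k3.resolve_right c
      exact ⟨k + 1, le_rfl, not_le.1 c, Or.inl rfl⟩

theorem sqrt_level_kerb {r M : ℝ} {a k : ℕ} (hr : 0 < r) (h : 4 ^ (a + 1 + k) * r < M) :
    √(4 ^ (a + 1) * r / M) ≤ (1 / 2) ^ k := by
  have hM : 0 < M := lt_trans (by positivity) h
  refine Real.sqrt_le_iff.2 ⟨by positivity, ?_⟩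
  rw [div_le_iff₀ hM, ← pow_mul, mul_comm k 2, pow_mul]
  have e : (4 : ℝ) ^ (a + 1) * r = ((1 / 2) ^ 2) ^ k * (4 ^ (a + 1 + k) * r) := by
    have : (((1 : ℝ) / 2) ^ 2) ^ k * 4 ^ k = 1 := by rw [← mul_pow]; norm_num
    rw [pow_add _ (a + 1)]
    linear_combination (-(4 ^ (a + 1) * r)) * this
  rw [e]
  exact mul_le_mul_of_nonneg_left h.le (by positivity)

theorem ker_level_kerb {C Af r : ℝ} {n a : ℕ} {φ : ℝ → ℝ} (L : Submodule ℝ E)
    (h : Prof C (4 ^ (a + 1) * r) Af φ) (hC : 1 ≤ C) (hr : 0 < r) (ha : a < n)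
    (hn : 4 ^ (n + 1) * r ≤ 1 / 4) (y y' : E) (hq : ‖pe L y'‖ ≤ ‖pe L y‖) :
    |ze L r n (n + 1) y * ze L r n (n + 1) y' *
        ⟪pe L (y - y'), φ (‖pe L y‖ ^ 2) • pe L y - φ (‖pe L y'‖ ^ 2) • pe L y'⟫ -
      ze L r n a y * ze L r n a y' * ‖pe L (y - y')‖ ^ 2| ≤
    6 * C * inc (fun b => ze L r n b y * ze L r n b y') n a * ‖pe L (y - y')‖ ^ 2 := by
  obtain ⟨x, hx⟩ : ∃ x : ℕ → ℝ, x = fun b => ze L r n b y * ze L r n b y' := ⟨_, rfl⟩
  have x0 : ∀ b, 0 ≤ x b := fun b => by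
    rw [hx]; exact mul_nonneg (ze_nonneg L r n b y) (ze_nonneg L r n b y')
  have x1 : ∀ b, x b ≤ 1 := fun b => by
    rw [hx]; exact mul_le_one₀ (ze_le_one L r n b y) (ze_nonneg L r n b y') (ze_le_one L r n b y')
  have xm : ∀ b ≤ n, x b ≤ x (b + 1) := fun b hb => by
    rw [hx]
    exact mul_le_mul (ze_mono L hr hn hb y) (ze_mono L hr hn hb y') (ze_nonneg L r n b y')
      (ze_nonneg L r n _ y)
  have xone : ∀ b ≤ n + 1, ‖pe L y‖ ≤ 4 ^ b * r → x b = 1 := fun b hb hM => by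
    have : ‖pe L y‖ ≤ rad r n b := by
      unfold rad
      split_ifs with c
      · exact hM
      · obtain rfl : b = n + 1 := by omega
        exact hM.trans hn
    rw [hx]
    simp only [ze_one L hr this, ze_one L hr (hq.trans this), mul_one]
  have xzero : ∀ b ≤ n, 4 ^ (b + 1) * r ≤ ‖pe L y‖ → x b = 0 := fun b hb hM => by
    have : 4 * rad r n b ≤ ‖pe L y‖ := by
      rw [rad, if_pos hb, ← mul_assoc, ← pow_succ']; exact hM
    rw [hx]
    simp only [ze_zero L hr this, zero_mul]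
  have e1 : ze L r n (n + 1) y * ze L r n (n + 1) y' = x (n + 1) := by rw [hx]
  have e2 : ze L r n a y * ze L r n a y' = x a := by rw [hx]
  rw [e1, e2, ← hx, map_sub]
  have hρ : (0 : ℝ) < 4 ^ (a + 1) * r := by positivity
  have hz := sq_nonneg ‖pe L y - pe L y'‖
  by_cases c : ‖pe L y‖ ≤ 4 ^ (a + 1) * r
  · have i1 := inc_lower xm (le_refl a) (Nat.lt_succ_self a) (by omega)
    rw [show a.succ - 1 - a = 0 by omega, pow_zero, one_mul, xone _ (by omega) c] at i1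
    have c' : ‖pe L y‖ ≤ 4 ^ (n + 1) * r :=
      c.trans (mul_le_mul_of_nonneg_right (pow_le_pow_right₀ (by norm_num) (by omega)) hr.le)
    rw [h.one _ (pow_le_pow_left₀ (norm_nonneg _) c 2),
      h.one _ (pow_le_pow_left₀ (norm_nonneg _) (hq.trans c) 2), one_smul, one_smul,
      real_inner_self_eq_norm_sq, xone _ le_rfl c', ← sub_mul,
      abs_of_nonneg (mul_nonneg (sub_nonneg.2 (x1 a)) hz)]
    refine mul_le_mul_of_nonneg_right ?_ hz
    nlinarith [x1 a]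
  · have c := not_le.1 c
    have kb := ker_bound h hρ (by linarith) hq (hρ.trans c)
    have key : x (n + 1) * √(4 ^ (a + 1) * r / ‖pe L y‖) ≤ 2 * inc x n a := by
      obtain ⟨k, k1, k2, k3⟩ := exists_level_kerb c (n - a)
      have sq := sqrt_level_kerb hr k2
      have xz : x (a + k) = 0 :=
        xzero _ (by omega) (by rw [show a + k + 1 = a + 1 + k by ring]; exact k2.le)
      by_cases c2 : k = n - a
      · have i1 := inc_lower xm (show a ≤ a + k by omega) (show a + k < n + 1 by omega) le_rfl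
        rw [xz, sub_zero, show n + 1 - 1 - a = k by omega] at i1
        have := mul_le_mul_of_nonneg_left sq (x0 (n + 1))
        have : 0 ≤ (1 / 2 : ℝ) ^ k * x (n + 1) := mul_nonneg (by positivity) (x0 _)
        linarith
      · have i1 := inc_lower xm (show a ≤ a + k by omega) (show a + k < a + 1 + k + 1 by omega)
          (by omega)
        rw [xz, sub_zero, show a + 1 + k + 1 - 1 - a = k + 1 by omega,
          xone _ (by omega) (k3.resolve_left c2), pow_succ] at i1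
        have := mul_le_mul (x1 (n + 1)) sq (Real.sqrt_nonneg _) zero_le_one
        linarith
    rw [xzero a ha.le c.le, zero_mul, sub_zero, abs_mul, abs_of_nonneg (x0 _)]
    refine (mul_le_mul_of_nonneg_left kb (x0 _)).trans ?_
    have := mul_le_mul_of_nonneg_left key (mul_nonneg (show 0 ≤ 3 * C by linarith) hz)
    linarith

theorem ker_level {C Af r : ℝ} {n a : ℕ} {φ : ℝ → ℝ} (L : Submodule ℝ E)
    (h : Prof C (4 ^ (a + 1) * r) Af φ) (hC : 1 ≤ C) (hr : 0 < r) (ha : a < n)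
    (hn : 4 ^ (n + 1) * r ≤ 1 / 4) (y y' : E) :
    |ze L r n (n + 1) y * ze L r n (n + 1) y' *
        ⟪pe L (y - y'), φ (‖pe L y‖ ^ 2) • pe L y - φ (‖pe L y'‖ ^ 2) • pe L y'⟫ -
      ze L r n a y * ze L r n a y' * ‖pe L (y - y')‖ ^ 2| ≤
    6 * C * inc (fun b => ze L r n b y * ze L r n b y') n a * ‖pe L (y - y')‖ ^ 2 := by
  rcases le_total ‖pe L y'‖ ‖pe L y‖ with hq | hq
  · exact ker_level_kerb L h hC hr ha hn y y' hq
  · have k := ker_level_kerb L h hC hr ha hn y' y hq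
    have e : pe L (y' - y) = -pe L (y - y') := by rw [← map_neg, neg_sub]
    rw [e, norm_neg, inner_neg_left, ← inner_neg_right, neg_sub] at k
    simpa only [mul_comm (ze L r n _ y')] using k

/-- The growth lemma with a general constant. -/
theorem seq_inc {c K : ℝ} (hc : 0 < c) (hK : 0 < K) : ∃ q : ℝ, 0 < q ∧ q < 1 ∧
    ∀ (J : ℕ → ℝ) (n : ℕ) (W : ℝ), 1 ≤ n → (∀ b ≤ n, J b ≤ J (b + 1)) → 0 ≤ J 0 → J (n + 1) ≤ W →
    ∃ a < n, -(3 * K * q ^ n * W) ≤ c * J a - K * inc J n a := by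
  obtain ⟨c', c1, c2, H⟩ := SV.seq_growth (c := 16 * c / K) (by positivity)
  refine ⟨1 - c', by linarith, by linarith, fun J n W h1 h2 h3 h4 => ?_⟩
  obtain ⟨a, ha, k⟩ := H J n W h1 h2 h3 h4
  refine ⟨a, ha, ?_⟩
  have k' := mul_le_mul_of_nonneg_left k (show 0 ≤ K / 16 by positivity)
  have e : K / 16 * (16 * c / K * J a - 16 * inc J n a) = c * J a - K * inc J n a := by
    field_simp
  rw [← e]
  unfold inc
  linarith

end Pool.Agent.Lib.MP_8daebb_an.PR
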