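import Pool.Agent.Lib.MP_8daebb_an.PR.CH
import Pool.Agent.Lib.MP_8daebb_an.PR.Rep

/-! Potentials at level t and the defect stress. -/

open MeasureTheory Metric Set Module Real Filter Topology
open scoped RealInnerProductSpace

namespace Pool.Agent.Lib.MP_8daebb_an.PR

open HK AS

variable {E : Type*} [NormedAddCommGroup E] [InnerProductSpace ℝ E] [FiniteDimensional ℝ E]
  [MeasurableSpace E] [BorelSpace E]

variable {ι : Type*} [Fintype ι] {D : Dat E ι} {ff Γ : E → ℝ} {Q : ℕ} {C₁ L η κ t T : ℝ}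

theorem inner_PT_gen {S : E → E →L[ℝ] E} (hS : Continuous S) {B : ℝ} (hB : ∀ y, ‖S y‖ ≤ B)
    (hT : 0 < T) (x v w : E) : ⟪PT T S x v, w⟫ = P T (fun y => ⟪S y v, w⟫) x :=
  inner_PV_bas hS hB hT x v w

theorem tr_PT_gen {S : E → E →L[ℝ] E} (hS : Continuous S) {B : ℝ} (hB : ∀ y, ‖S y‖ ≤ B)
    (hT : 0 < T) (x : E) (A : E →L[ℝ] E) :
    tr ((PT T S x).comp A) = P T (fun y => tr ((S y).comp A)) x := by
  have e : (fun y => tr ((S y).comp A)) = fun y => ∑ i,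
      ⟪S y (A (stdOrthonormalBasis ℝ E i)), stdOrthonormalBasis ℝ E i⟫ :=
    funext fun y => AS.tr_eq_sum _ _
  rw [e, P_sum _ (fun i _ => bm_inner_bas hS hB _ _) hT,
    AS.tr_eq_sum (stdOrthonormalBasis ℝ E)]
  exact Finset.sum_congr rfl fun i _ => inner_PT_gen hS hB hT x _ _

theorem continuous_PT_gen {S : E → E →L[ℝ] E} (hS : Continuous S) {B : ℝ} (hB : ∀ y, ‖S y‖ ≤ B)
    (hT : 0 < T) : Continuous (PT T S) :=
  continuous_PVbas hS hB hT

theorem cc_U_lev (h : GS D ff Γ Q C₁ L η κ) (i : ι) (j : ℕ) : Cc 2 (D.U i j) :=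
  ⟨by simpa using h.c_U i j, h.U_supp i j⟩

theorem cc_u_lev (h : GS D ff Γ Q C₁ L η κ) (i : ι) (j : ℕ) : Cc 2 (D.u i j) :=
  (cc_U_lev h i (j + 1)).sub (cc_U_lev h i j)

theorem sm_u (h : GS D ff Γ Q C₁ L η κ) (ht : 0 < t) (i : ι) (j : ℕ) :
    (D.sm t).u i j = P t (D.u i j) :=
  funext fun x => (P_sub (cc_U_lev h i (j + 1)).bm (cc_U_lev h i j).bm ht x).symm

theorem cb_sm_u (h : GS D ff Γ Q C₁ L η κ) (ht : 0 < t) (i : ι) (j n : ℕ) :
    Cb n ((D.sm t).u i j) := by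
  rw [sm_u h ht]
  exact cb_P (cc_u_lev h i j).bm n ht

theorem qf_sm_le (h : GS D ff Γ Q C₁ L η κ) (ht : 0 < t) (y v : E) :
    (D.sm t).qf Q y v ≤ P t (fun w => ⟪D.T w v, v⟫) y + P t Γ y * ‖v‖ ^ 2 := by
  have c1 : ∀ i j, C1b (D.u i j) := fun i j => ((cc_u_lev h i j).cb.of_le one_le_two).c1b
  have b1 : ∀ i j, BM fun w => fderiv ℝ (D.u i j) w v ^ 2 := fun i j =>
    ((c1 i j).bm_apply v).sq
  have b2 : ∀ i, BM fun w => ∑ j ∈ Finset.range Q, fderiv ℝ (D.u i j) w v ^ 2 := fun i =>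
    BM.sum _ fun j _ => b1 i j
  have bΓ : BM Γ := BM.of_continuous h.c_Γ fun w =>
    (abs_of_nonneg (h.Γ_nonneg w)).trans_le (h.Γ_le w)
  have h1 : (D.sm t).qf Q y v ≤ P t (fun w => D.qf Q w v) y := by
    unfold Dat.qf
    rw [P_sum _ (fun i _ => b2 i) ht]
    refine Finset.sum_le_sum fun i _ => ?_
    rw [P_sum _ (fun j _ => b1 i j) ht]
    refine Finset.sum_le_sum fun j _ => ?_
    rw [sm_u h ht, fderiv_P_comm (c1 i j) ht]
    exact P_sq_le ((c1 i j).bm_apply v) ht y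
  refine h1.trans ?_
  rw [← P_mul_const, ← P_add (h.st.bm_inner v v) (bΓ.mul_const _) ht]
  exact P_mono (BM.sum _ fun i _ => b2 i) ((h.st.bm_inner v v).add (bΓ.mul_const _)) ht
    (fun w => h.s4 w v) y

omit [MeasurableSpace E] [BorelSpace E] in
theorem en_eq_sum_lev (D : Dat E ι) (Q : ℕ) (y : E) :
    D.en Q y = ∑ k, D.qf Q y (stdOrthonormalBasis ℝ E k) := by
  unfold Dat.en Dat.qf
  rw [Finset.sum_comm (s := Finset.univ) (t := Finset.univ)]
  refine Finset.sum_congr rfl fun i _ => ?_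
  rw [Finset.sum_comm]
  exact Finset.sum_congr rfl fun j _ => norm_sq_eq_sum _ _

theorem en_sm_le (h : GS D ff Γ Q C₁ L η κ) (ht : 0 < t) (y : E) :
    (D.sm t).en Q y ≤ P t D.τ y + finrank ℝ E * P t Γ y := by
  have e : D.τ = fun w => ∑ k, ⟪D.T w (stdOrthonormalBasis ℝ E k), stdOrthonormalBasis ℝ E k⟫ :=
    funext fun w => AS.tr_eq_sum _ _
  rw [en_eq_sum_lev, e, P_sum _ (fun k _ => h.st.bm_inner _ _) ht]
  refine (Finset.sum_le_sum fun k _ => qf_sm_le h ht y _).trans (le_of_eq ?_)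
  rw [Finset.sum_add_distrib]
  simp [(stdOrthonormalBasis ℝ E).orthonormal.1]

theorem en_sm_nonneg (D : Dat E ι) (Q : ℕ) (t : ℝ) (y : E) : 0 ≤ (D.sm t).en Q y :=
  Finset.sum_nonneg fun _ _ => Finset.sum_nonneg fun _ _ => sq_nonneg _

theorem cd_sm_u_lev (h : GS D ff Γ Q C₁ L η κ) (ht : 0 < t) (i : ι) (j : ℕ) :
    ContDiff ℝ 1 ((D.sm t).u i j) := by
  simpa using (cb_sm_u h ht i j 1).contDiff

theorem continuous_en_sm (h : GS D ff Γ Q C₁ L η κ) (ht : 0 < t) :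
    Continuous ((D.sm t).en Q) :=
  continuous_finsetSum _ fun i _ => continuous_finsetSum _ fun j _ =>
    ((cd_sm_u_lev h ht i j).continuous_fderiv one_ne_zero).norm.pow 2

theorem bm_en_sm (h : GS D ff Γ Q C₁ L η κ) (ht : 0 < t) : BM ((D.sm t).en Q) :=
  BM.sum _ fun i _ => BM.sum _ fun j _ => (cb_sm_u h ht i j 1).c1b.bm_norm.sq

omit [MeasurableSpace E] [BorelSpace E] in
theorem inner_gradient_lev (f : E → ℝ) (y v : E) : ⟪gradient f y, v⟫ = fderiv ℝ f y v :=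
  InnerProductSpace.toDual_symm_apply

theorem inner_tn_lev (D : Dat E ι) (Q : ℕ) (t : ℝ) (y v w : E) :
    ⟪tn D Q t y v, w⟫ = ∑ i, ∑ j ∈ Finset.range Q,
      fderiv ℝ ((D.sm t).u i j) y v * fderiv ℝ ((D.sm t).u i j) y w := by
  simp only [tn, sum_apply, ContinuousLinearMap.smulRight_apply, sum_inner,
    real_inner_smul_left, inner_gradient_lev]

theorem inner_tn (D : Dat E ι) (Q : ℕ) (t : ℝ) (y v : E) :
    ⟪tn D Q t y v, v⟫ = (D.sm t).qf Q y v := by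
  rw [inner_tn_lev]
  simp only [Dat.qf, sq]

theorem symm_tn (D : Dat E ι) (Q : ℕ) (t : ℝ) (y v w : E) :
    ⟪tn D Q t y v, w⟫ = ⟪v, tn D Q t y w⟫ := by
  rw [real_inner_comm (tn D Q t y w), inner_tn_lev, inner_tn_lev]
  simp only [mul_comm]

theorem tr_tn (D : Dat E ι) (Q : ℕ) (t : ℝ) (y : E) : tr (tn D Q t y) = (D.sm t).en Q y := by
  rw [en_eq_sum_lev, AS.tr_eq_sum (stdOrthonormalBasis ℝ E)]
  exact Finset.sum_congr rfl fun k _ => inner_tn D Q t y _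

theorem norm_tn_le (D : Dat E ι) (Q : ℕ) (t : ℝ) (y : E) : ‖tn D Q t y‖ ≤ (D.sm t).en Q y := by
  rw [← tr_tn]
  refine PsdBas.norm_le ⟨symm_tn D Q t y, fun v => ?_⟩
  rw [inner_tn]
  exact Finset.sum_nonneg fun _ _ => Finset.sum_nonneg fun _ _ => sq_nonneg _

theorem continuous_tn (h : GS D ff Γ Q C₁ L η κ) (ht : 0 < t) : Continuous (tn D Q t) := by
  refine continuous_finsetSum _ fun i _ => continuous_finsetSum _ fun j _ => ?_
  have h1 := (cd_sm_u_lev h ht i j).continuous_fderiv one_ne_zero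
  have h2 := continuous_gradient (cd_sm_u_lev h ht i j)
  exact ((ContinuousLinearMap.smulRightL ℝ E E).continuous.comp h1).clm_apply h2

theorem pair_tn (D : Dat E ι) (Q : ℕ) (t : ℝ) (Y : E → E) (y : E) :
    pair ((D.sm t).en Q y / 2) (tn D Q t y) (fderiv ℝ Y y) =
      ∑ i, ∑ j ∈ Finset.range Q, sd ((D.sm t).u i j) Y y := by
  have h1 : tr ((tn D Q t y).comp (fderiv ℝ Y y)) = ∑ i, ∑ j ∈ Finset.range Q,
      ⟪gradient ((D.sm t).u i j) y, fderiv ℝ Y y (gradient ((D.sm t).u i j) y)⟫ := by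
    set b := stdOrthonormalBasis ℝ E
    rw [AS.tr_eq_sum b]
    simp only [ContinuousLinearMap.comp_apply, inner_tn_lev]
    rw [Finset.sum_comm]
    refine Finset.sum_congr rfl fun i _ => ?_
    rw [Finset.sum_comm]
    refine Finset.sum_congr rfl fun j _ => ?_
    rw [inner_gradient_lev]
    conv_rhs => rw [← b.sum_repr' (gradient ((D.sm t).u i j) y), map_sum, map_sum]
    refine Finset.sum_congr rfl fun k _ => ?_
    rw [map_smul, map_smul, real_inner_comm, inner_gradient_lev, smul_eq_mul, mul_comm]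
  unfold pair sd
  rw [h1]
  simp only [Dat.en, norm_gradient, Finset.sum_sub_distrib, Finset.sum_div, Finset.sum_mul]

end Pool.Agent.Lib.MP_8daebb_an.PR
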