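import Pool.Agent.Lib.MP_8daebb_an.PR.JJ
import Pool.Agent.Lib.MP_8daebb_an.PR.KerB
import Pool.Agent.Lib.MP_8daebb_an.PR.Far

/-! The near part of the interaction. -/

open MeasureTheory Metric Set Module Real Filter Topology
open scoped RealInnerProductSpace

namespace Pool.Agent.Lib.MP_8daebb_an.PR

open HK AS

variable {E : Type*} [NormedAddCommGroup E] [InnerProductSpace ℝ E] [FiniteDimensional ℝ E]
  [MeasurableSpace E] [BorelSpace E]

variable {L : Submodule ℝ E} {σ N th : E → ℝ} {φ : ℝ → ℝ} {c C r Af θ η s : ℝ} {n a : ℕ}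

lemma cc_mul_near {k : ℕ} {f g : E → ℝ} (hf : Cc k f) (hg : Continuous g) :
    Cc 0 (fun y => f y * g y) :=
  ⟨contDiff_zero.2 (hf.continuous.mul hg), hf.cs.mul_right⟩

lemma inc_mul_near (u : ℝ) (x : ℕ → ℝ) (n a : ℕ) :
    inc (fun b => u * x b) n a = u * inc x n a := by
  simp only [inc, Finset.mul_sum]
  exact Finset.sum_congr rfl fun b _ => by ring

lemma inc_int_near {X : Type*} [MeasurableSpace X] {μ : Measure X} {f : ℕ → X → ℝ}
    (hf : ∀ b, Integrable (f b) μ) (n a : ℕ) :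
    Integrable (fun p => inc (fun b => f b p) n a) μ ∧
      ∫ p, inc (fun b => f b p) n a ∂μ = inc (fun b => ∫ p, f b p ∂μ) n a := by
  have h1 : ∀ b, Integrable (fun p => (1 / 2 : ℝ) ^ (b - a) * (f (b + 1) p - f b p)) μ :=
    fun b => ((hf (b + 1)).sub (hf b)).const_mul _
  refine ⟨integrable_finsetSum _ fun b _ => h1 b, ?_⟩
  simp only [inc]
  rw [integral_finsetSum _ fun b _ => h1 b]
  exact Finset.sum_congr rfl fun b _ => by
    rw [integral_const_mul, integral_sub (hf (b + 1)) (hf b)]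

/-- The kernel of the main part. -/
noncomputable def kerNear (L : Submodule ℝ E) (φ : ℝ → ℝ) (s : ℝ) (p : E × E) : ℝ :=
  G s (p.2 - p.1) * (⟪p.1 - p.2, φ (‖pe L p.1‖ ^ 2) • pe L p.1⟫ / (2 * s))

lemma cont_ker_near (hφ : Continuous φ) (L : Submodule ℝ E) (s : ℝ) :
    Continuous (kerNear L φ s) := by
  unfold kerNear
  fun_prop

lemma inner_pe_near (L : Submodule ℝ E) (z y : E) (u : ℝ) :
    ⟪z, u • pe L y⟫ = ⟪pe L z, u • pe L y⟫ := by
  rw [inner_smul_right, inner_smul_right, inner_pe_left, pe_pe]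

lemma ker_swap_near (L : Submodule ℝ E) (φ : ℝ → ℝ) (s : ℝ) (y y' : E) :
    kerNear L φ s (y, y') + kerNear L φ s (y', y) = G s (y' - y) / (2 * s) *
      ⟪pe L (y - y'), φ (‖pe L y‖ ^ 2) • pe L y - φ (‖pe L y'‖ ^ 2) • pe L y'⟫ := by
  simp only [kerNear]
  rw [G_sub_comm s y y', inner_sub_right, ← inner_pe_near, ← inner_pe_near, ← neg_sub y y',
    inner_neg_left]
  ring

lemma abs_ker_near {ρ : ℝ} (h : Prof C ρ Af φ) (hρ : 0 < ρ) (hθ : ρ / Af ^ 2 ≤ θ) (hs : 0 < s)
    (L : Submodule ℝ E) (y y' : E) :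
    |kerNear L φ s (y, y')| ≤ G s (y' - y) * (‖pe L (y' - y)‖ * θ / (2 * s)) := by
  have hθ0 : 0 ≤ θ := le_trans (by positivity) hθ
  have h1 : ‖φ (‖pe L y‖ ^ 2) • pe L y‖ ≤ θ := by
    by_cases h0 : φ (‖pe L y‖ ^ 2) = 0
    · rw [h0, zero_smul, norm_zero]; exact hθ0
    · rw [norm_smul, Real.norm_eq_abs, abs_of_nonneg (h.nonneg _)]
      exact (mul_le_of_le_one_left (norm_nonneg _) (h.le_one _)).trans
        (prof_ne_zero h hρ hθ h0).le
  have h2 : |⟪y - y', φ (‖pe L y‖ ^ 2) • pe L y⟫| ≤ ‖pe L (y' - y)‖ * θ := by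
    rw [inner_pe_near, ← neg_sub y' y, map_neg, inner_neg_left, abs_neg]
    exact (abs_real_inner_le_norm _ _).trans (mul_le_mul_of_nonneg_left h1 (norm_nonneg _))
  simp only [kerNear]
  rw [abs_mul, abs_G hs.le, abs_div, abs_of_pos (by positivity : 0 < 2 * s)]
  have := G_pos hs (y' - y)
  gcongr

/-- The symmetrised main part. -/
theorem near_main (hσ : Continuous σ) (hN : Continuous N) (hd : ∀ y, |σ y| ≤ N y)
    (ht : Th L c th) (h : Prof C (4 ^ (a + 1) * r) Af φ) (hC : 1 ≤ C) (hr : 0 < r) (ha : a < n)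
    (hn : 4 ^ (n + 1) * r ≤ 1 / 4) (hθ : 4 ^ (a + 1) * r / Af ^ 2 ≤ θ) (hθ1 : θ ≤ 1 / 8)
    (hs : 0 < s) :
    jj L (fun y => th y * ze L r n a y * σ y) s -
        6 * C * inc (fun b => jj L (fun y => th y * ze L r n b y * N y) s) n a ≤
      ∫ p : E × E, (th p.1 * ze L r n (n + 1) p.1 * σ p.1) * (th p.2 * ze L r n (n + 1) p.2 * σ p.2) *
        (G s (p.2 - p.1) * (⟪p.1 - p.2, φ (‖pe L p.1‖ ^ 2) • pe L p.1⟫ / (2 * s))) := by
  have hφ := h.cd.continuous
  have hK := cont_ker_near hφ L s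
  have hF : ∀ b, Cc 0 (fun y => th y * ze L r n b y * σ y) := fun b =>
    cc_mul_near (ht.cc_ze hr n b) hσ
  have hB : ∀ b, Cc 0 (fun y => th y * ze L r n b y * N y) := fun b =>
    cc_mul_near (ht.cc_ze hr n b) hN
  have i1 := (hF (n + 1)).integrable_prod (hF (n + 1)) hK
  have i2 := (hF (n + 1)).integrable_prod (hF (n + 1)) (hK.comp continuous_swap)
  have i3 := (hF a).integrable_prod (hF a) (continuous_kj L s)
  obtain ⟨i4, e4⟩ := inc_int_near
    (fun b => (hB b).integrable_prod (hB b) (continuous_kj L s)) n a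
  have e2 : ∫ p : E × E, (th p.1 * ze L r n (n + 1) p.1 * σ p.1) *
      (th p.2 * ze L r n (n + 1) p.2 * σ p.2) * (kerNear L φ s ∘ Prod.swap) p =
      ∫ p : E × E, (th p.1 * ze L r n (n + 1) p.1 * σ p.1) *
      (th p.2 * ze L r n (n + 1) p.2 * σ p.2) * kerNear L φ s p := by
    rw [Measure.volume_eq_prod, ← integral_prod_swap]
    exact integral_congr_ae (Eventually.of_forall fun p => by simp [mul_comm])
  have key := integral_mono (i3.sub (i4.const_mul (6 * C))) ((i1.add i2).const_mul (1 / 2))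
    (fun ⟨y, y'⟩ => by
      have h1 := ker_level L h hC hr ha hn y y'
      have h2 := ker_swap_near L φ s y y'
      have h3 : ∀ b, th y * ze L r n b y * N y * (th y' * ze L r n b y' * N y') * kj L s (y, y') =
          (th y * th y' * (N y * N y') * kj L s (y, y')) * (ze L r n b y * ze L r n b y') :=
        fun b => by ring
      have h4 : ‖pe L (y' - y)‖ = ‖pe L (y - y')‖ := by rw [← neg_sub y y', map_neg, norm_neg]
      have h5 : |σ y * σ y'| ≤ N y * N y' := by
        rw [abs_mul]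
        exact mul_le_mul (hd y) (hd y') (abs_nonneg _) ((abs_nonneg _).trans (hd y))
      have h6 : 0 ≤ th y * th y' * (G s (y' - y) / (4 * s)) :=
        mul_nonneg (mul_nonneg (ht.nonneg y) (ht.nonneg y'))
          (div_nonneg (G_pos hs _).le (by positivity))
      have h7 := (abs_le.1 ((abs_mul _ _).trans_le
        (mul_le_mul h5 h1 (abs_nonneg _) ((abs_nonneg _).trans h5)))).1
      have h8 := mul_le_mul_of_nonneg_left h7 h6
      simp only [Pi.sub_apply, Pi.add_apply, Function.comp_apply, Prod.swap_prod_mk, h3,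
        inc_mul_near]
      rw [← mul_add, h2]
      simp only [kj, h4]
      have e : G s (y' - y) / (2 * s) = 2 * (G s (y' - y) / (4 * s)) := by field_simp; norm_num
      rw [e, mul_div_right_comm]
      linarith)
  rw [integral_sub' i3 (i4.const_mul _), integral_const_mul, integral_const_mul, e4,
    integral_add' i1 i2, e2] at key
  simp only [jj]
  simp only [kerNear] at key
  linarith

theorem near_bound (hσ : Continuous σ) (hN : Continuous N) (hd : ∀ y, |σ y| ≤ N y)
    (ht : Th L c th) (h : Prof C (4 ^ (a + 1) * r) Af φ) (hC : 1 ≤ C) (hr : 0 < r) (ha : a < n)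
    (hn : 4 ^ (n + 1) * r ≤ 1 / 4) (hθ : 4 ^ (a + 1) * r / Af ^ 2 ≤ θ) (hθ1 : θ ≤ 1 / 8)
    (hη : 0 < η) (hs : 0 < s) :
    jj L (fun y => th y * ze L r n a y * σ y) s -
        6 * C * inc (fun b => jj L (fun y => th y * ze L r n b y * N y) s) n a -
        η * jj L (fun y => zt L y * N y) s -
        2 * 2 ^ HK.hd E * (c ^ 2 * θ ^ 2 / η) * ph (fun y => zt L y * N y) (2 * s) ≤
      near L σ (fld L th φ) s := by
  have hρ : 0 < 4 ^ (a + 1) * r := by positivity
  have hφ := h.cd.continuous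
  have hK := cont_ker_near hφ L s
  have hth := ht.cd.continuous
  have hF : Cc 0 (fun y => th y * ze L r n (n + 1) y * σ y) :=
    cc_mul_near (ht.cc_ze hr n (n + 1)) hσ
  have hZ : Cc 0 (fun y => zt L y * σ y) := cc_mul_near (zt_cc L 0) hσ
  have hM : Cc 0 (fun y => zt L y * N y) := cc_mul_near (zt_cc L 0) hN
  have i1 := hF.integrable_prod hF hK
  have i2 := hF.integrable_prod hZ (K := fun p => th p.1 * kerNear L φ s p) (by fun_prop)
  have i3 := hM.integrable_prod hM (continuous_kj L s)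
  have i4 := hM.integrable_prod hM (K := fun p => G (2 * s) (p.2 - p.1)) (by fun_prop)
  have e1 : near L σ (fld L th φ) s = ∫ p : E × E, (th p.1 * ze L r n (n + 1) p.1 * σ p.1) *
      (zt L p.2 * σ p.2) * (th p.1 * kerNear L φ s p) := by
    refine integral_congr_ae (Eventually.of_forall fun ⟨y, y'⟩ => ?_)
    simp only [fld, kerNear, inner_smul_right]
    by_cases h0 : φ (‖pe L y‖ ^ 2) = 0
    · simp [h0]
    · have h1 := prof_ne_zero h hρ hθ h0
      rw [ze_one L hr (y := y) (by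
        rw [rad, if_neg (by omega)]; linarith)]
      ring
  have key := integral_mono ((i1.sub (i3.const_mul η)).sub
    (i4.const_mul (2 * 2 ^ HK.hd E * (c ^ 2 * θ ^ 2 / η)))) i2
    (fun ⟨y, y'⟩ => by
      have hN0 : ∀ y, 0 ≤ N y := fun y => (abs_nonneg _).trans (hd y)
      have hz0 : ∀ y, 0 ≤ zt L y := fun y => zc_nonneg L _ _ y
      have hc := ht.c_nonneg
      have hθ0 : 0 ≤ θ := le_trans (by positivity) hθ
      have hG := G_pos hs (y' - y)
      have h1 : |th y * ze L r n (n + 1) y * σ y| ≤ zt L y * N y := by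
        rw [abs_mul, abs_of_nonneg (mul_nonneg (ht.nonneg y) (ze_nonneg L r n _ y))]
        exact mul_le_mul (ht.mul_ze_le hr hn le_rfl y) (hd y) (abs_nonneg _) (hz0 y)
      have h2 : |zt L y' * σ y'| ≤ zt L y' * N y' := by
        rw [abs_mul, abs_of_nonneg (hz0 y')]
        exact mul_le_mul_of_nonneg_left (hd y') (hz0 y')
      have h3 : |(th y' - th y) * kerNear L φ s (y, y')| ≤
          η * kj L s (y, y') + 2 * 2 ^ HK.hd E * (c ^ 2 * θ ^ 2 / η) * G (2 * s) (y' - y) := by
        have g1 := sq_mul_G_le hs (y' - y)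
        have g2 : 2 * (c * θ * ‖y' - y‖) * ‖pe L (y' - y)‖ ≤
            η * ‖pe L (y' - y)‖ ^ 2 + c ^ 2 * θ ^ 2 / η * ‖y' - y‖ ^ 2 := by
          have : η * ‖pe L (y' - y)‖ ^ 2 + c ^ 2 * θ ^ 2 / η * ‖y' - y‖ ^ 2 -
              2 * (c * θ * ‖y' - y‖) * ‖pe L (y' - y)‖ =
              (η * ‖pe L (y' - y)‖ - c * θ * ‖y' - y‖) ^ 2 / η := by field_simp; ring
          have h0 : 0 ≤ (η * ‖pe L (y' - y)‖ - c * θ * ‖y' - y‖) ^ 2 / η := by positivity
          linarith
        calc _ ≤ c * ‖y' - y‖ * (G s (y' - y) * (‖pe L (y' - y)‖ * θ / (2 * s))) := by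
              rw [abs_mul]
              exact mul_le_mul (ht.lip y' y) (abs_ker_near h hρ hθ hs L y y') (abs_nonneg _)
                (by positivity)
          _ = G s (y' - y) / (4 * s) * (2 * (c * θ * ‖y' - y‖) * ‖pe L (y' - y)‖) := by
              field_simp; norm_num
          _ ≤ G s (y' - y) / (4 * s) *
              (η * ‖pe L (y' - y)‖ ^ 2 + c ^ 2 * θ ^ 2 / η * ‖y' - y‖ ^ 2) := by gcongr
          _ = η * kj L s (y, y') +
              c ^ 2 * θ ^ 2 / η / (4 * s) * (‖y' - y‖ ^ 2 * G s (y' - y)) := by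
              simp only [kj]; ring
          _ ≤ η * kj L s (y, y') +
              c ^ 2 * θ ^ 2 / η / (4 * s) * (8 * 2 ^ HK.hd E * s * G (2 * s) (y' - y)) := by
              gcongr
          _ = _ := by field_simp; ring
      have h4 := mul_le_mul h1 h2 (abs_nonneg _) (mul_nonneg (hz0 y) (hN0 y))
      rw [← abs_mul] at h4
      have h5 := (abs_le.1 ((abs_mul _ _).trans_le
        (mul_le_mul h4 h3 (abs_nonneg _) ((abs_nonneg _).trans h4)))).2
      simp only [Pi.sub_apply]
      rw [← ht.mul_zt r n y']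
      linarith)
  rw [integral_sub' (i1.sub (i3.const_mul η)) (i4.const_mul _),
    integral_sub' i1 (i3.const_mul η), integral_const_mul, integral_const_mul, ← e1,
    ← ph_eq_prod hM (by positivity)] at key
  have hm := near_main hσ hN hd ht h hC hr ha hn hθ hθ1 hs
  simp only [kerNear] at key
  rw [show jj L (fun y => zt L y * N y) s = ∫ p : E × E,
    zt L p.1 * N p.1 * (zt L p.2 * N p.2) * kj L s p from rfl]
  linarith

end Pool.Agent.Lib.MP_8daebb_an.PR
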