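import Pool.Agent.Lib.MP_8daebb_an.PR.Form
import Pool.Agent.Lib.MP_8daebb_an.PR.Cut

/-! Projection of a nonnegative charge onto the plane. -/

open MeasureTheory Metric Set Module Real Filter Topology
open scoped RealInnerProductSpace

namespace Pool.Agent.Lib.MP_8daebb_an.PR

open HK AS

variable {E : Type*} [NormedAddCommGroup E] [InnerProductSpace ℝ E] [FiniteDimensional ℝ E]
  [MeasurableSpace E] [BorelSpace E]

variable {L : Submodule ℝ E}

theorem mp_proja (L : Submodule ℝ E) : MeasurePreserving
    (fun y : E => (L.orthogonalProjectionOnto y, Lᗮ.orthogonalProjectionOnto y))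
    volume (volume.prod volume) := by
  have h := (WithLp.volume_preserving_ofLp L Lᗮ).comp L.orthogonalDecomposition.measurePreserving
  have e : (fun y : E => (L.orthogonalProjectionOnto y, Lᗮ.orthogonalProjectionOnto y)) =
      WithLp.ofLp ∘ L.orthogonalDecomposition := by
    funext y
    simp
  rw [e]
  exact h

omit [MeasurableSpace E] [BorelSpace E] in
theorem rank_proja (hL : finrank ℝ L + 2 = finrank ℝ E) : finrank ℝ Lᗮ = 2 := by
  have := L.finrank_add_finrank_orthogonal
  omega

theorem bm_G_proja {s : ℝ} (hs : 0 < s) (v : L) :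
    BM (fun y : E => G s (L.orthogonalProjectionOnto y - v)) :=
  (BM.G_sub hs v).comp L.orthogonalProjectionOnto.continuous.measurable

theorem int_pair_proja {μ : Measure E} [SFinite μ] {g : E → ℝ} (hg : Integrable g μ) {s : ℝ}
    (hs : 0 < s) :
    Integrable (fun p : L × E => g p.2 * G s (L.orthogonalProjectionOnto p.2 - p.1))
      (volume.prod μ) := by
  have hm : AEStronglyMeasurable
      (fun p : L × E => g p.2 * G s (L.orthogonalProjectionOnto p.2 - p.1)) (volume.prod μ) :=
    hg.aestronglyMeasurable.comp_snd.mul (Continuous.aestronglyMeasurable (by fun_prop))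
  rw [integrable_prod_iff' hm]
  refine ⟨Eventually.of_forall fun y =>
    (integrable_G_sub' hs (L.orthogonalProjectionOnto y)).const_mul (g y), ?_⟩
  simp only [norm_mul, Real.norm_eq_abs, abs_G hs.le, integral_const_mul, integral_G_sub' hs,
    mul_one]
  exact hg.abs

theorem int_a_proja {μ : Measure E} [SFinite μ] {g : E → ℝ} (hg : Integrable g μ) {s : ℝ}
    (hs : 0 < s) :
    Integrable (fun v : L => ∫ y, g y * G s (L.orthogonalProjectionOnto y - v) ∂μ) :=
  (int_pair_proja hg hs).integral_prod_left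

omit [BorelSpace E] in
theorem abs_a_proja {μ : Measure E} {g : E → ℝ} (hg : Integrable g μ) {s : ℝ}
    (hs : 0 < s) (v : L) :
    |∫ y, g y * G s (L.orthogonalProjectionOnto y - v) ∂μ| ≤
      (∫ y, |g y| ∂μ) * (4 * π * s) ^ (-hd L) := by
  rw [← integral_mul_const]
  refine norm_integral_le_of_norm_le
    (f := fun y => g y * G s (L.orthogonalProjectionOnto y - v)) (hg.abs.mul_const _)
    (Eventually.of_forall fun y => ?_)
  rw [Real.norm_eq_abs, abs_mul, abs_G hs.le]
  exact mul_le_mul_of_nonneg_left (G_le_zero hs _) (abs_nonneg _)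

theorem bm_a_proja {μ : Measure E} [SFinite μ] {g : E → ℝ} (hm : Measurable g)
    (hg : Integrable g μ) {s : ℝ} (hs : 0 < s) :
    BM (fun v : L => ∫ y, g y * G s (L.orthogonalProjectionOnto y - v) ∂μ) := by
  refine ⟨?_, _, abs_a_proja hg hs⟩
  have h : Measurable (fun p : L × E => g p.2 * G s (L.orthogonalProjectionOnto p.2 - p.1)) :=
    (hm.comp measurable_snd).mul (Continuous.measurable (by fun_prop))
  exact h.stronglyMeasurable.integral_prod_right'.measurable

theorem int_sq_proja {μ : Measure E} [SFinite μ] {g : E → ℝ} (hm : Measurable g)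
    (hg : Integrable g μ) {s : ℝ} (hs : 0 < s) :
    Integrable (fun v : L => (∫ y, g y * G s (L.orthogonalProjectionOnto y - v) ∂μ) ^ 2) := by
  simpa only [pow_two] using (bm_a_proja hm hg hs).mul_integrable (int_a_proja hg hs)

theorem swap_proja {μ : Measure E} [SFinite μ] {g : E → ℝ} (hg : Integrable g μ) {s : ℝ}
    (hs : 0 < s) {b : L → ℝ} (hb : BM b) :
    ∫ v : L, b v * ∫ y, g y * G s (L.orthogonalProjectionOnto y - v) ∂μ =
      ∫ y, g y * (∫ v : L, b v * G s (L.orthogonalProjectionOnto y - v)) ∂μ := by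
  simp only [← integral_const_mul]
  rw [integral_integral_swap
    (f := fun (v : L) (y : E) => b v * (g y * G s (L.orthogonalProjectionOnto y - v)))
    ((hb.comp measurable_fst).mul_integrable (int_pair_proja hg hs))]
  congr 1
  funext y
  congr 1
  funext v
  ring

theorem integral_a_proja {μ : Measure E} [SFinite μ] {g : E → ℝ} (hg : Integrable g μ) {s : ℝ}
    (hs : 0 < s) :
    ∫ v : L, ∫ y, g y * G s (L.orthogonalProjectionOnto y - v) ∂μ = ∫ y, g y ∂μ := by
  have h := swap_proja (L := L) hg hs (BM.const 1)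
  simpa only [one_mul, integral_G_sub' hs, mul_one] using h

/-- Fubini along the orthogonal decomposition. -/
theorem integral_G_pa (hL : finrank ℝ L + 2 = finrank ℝ E) {s : ℝ} (hs : 0 < s) (v : L) :
    ∫ y in ball (0 : E) 3, G s (L.orthogonalProjectionOnto y - v) ≤ 9 * π := by
  have h2 := rank_proja hL
  have : Nontrivial Lᗮ := Module.nontrivial_of_finrank_pos (R := ℝ) (by omega)
  have hi : Integrable ((ball (0 : Lᗮ) 3).indicator (fun _ => (1 : ℝ))) :=
    (integrable_indicator_iff measurableSet_ball).2 (integrableOn_const measure_ball_lt_top.ne)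
  have hF : Integrable (fun p : L × Lᗮ =>
      G s (p.1 - v) * (ball (0 : Lᗮ) 3).indicator (fun _ => (1 : ℝ)) p.2) (volume.prod volume) :=
    (integrable_G_sub hs v).mul_prod hi
  have hmp := mp_proja L
  have h1 := integral_map (μ := volume) hmp.measurable.aemeasurable
    (f := fun p : L × Lᗮ => G s (p.1 - v) * (ball (0 : Lᗮ) 3).indicator (fun _ => (1 : ℝ)) p.2)
    (by rw [hmp.map_eq]; exact hF.aestronglyMeasurable)
  rw [hmp.map_eq, integral_prod_mul (fun a : L => G s (a - v)), integral_G_sub hs, one_mul,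
    integral_indicator measurableSet_ball, setIntegral_const, smul_eq_mul, mul_one,
    Measure.real, InnerProductSpace.volume_ball_of_dim_even (k := 1) (by omega), h2] at h1
  have h3 : (ENNReal.ofReal 3 ^ 2 * ENNReal.ofReal (π ^ 1 / (Nat.factorial 1 : ℕ))).toReal =
      9 * π := by
    rw [ENNReal.toReal_mul, ENNReal.toReal_pow, ENNReal.toReal_ofReal (by norm_num),
      ENNReal.toReal_ofReal (by positivity)]
    norm_num
  rw [← h3, h1, ← integral_indicator measurableSet_ball]
  refine integral_mono_of_nonneg (Eventually.of_forall fun y => ?_)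
    (hmp.integrable_comp_of_integrable hF) (Eventually.of_forall fun y => ?_)
  · exact indicator_nonneg (fun y _ => G_nonneg hs.le _) y
  · by_cases hy : y ∈ ball (0 : E) 3
    · have hy' : Lᗮ.orthogonalProjectionOnto y ∈ ball (0 : Lᗮ) 3 := by
        rw [mem_ball_zero_iff] at hy ⊢
        have := Submodule.norm_sq_eq_add_norm_sq_projection y L
        nlinarith [norm_nonneg y, norm_nonneg (Lᗮ.orthogonalProjectionOnto y),
          sq_nonneg ‖L.orthogonalProjectionOnto y‖]
      simp only [indicator_of_mem hy, indicator_of_mem hy', mul_one, le_refl]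
    · simp only [indicator_of_notMem hy]
      exact mul_nonneg (G_nonneg hs.le _) (indicator_nonneg (fun _ _ => zero_le_one) _)

omit [MeasurableSpace E] [BorelSpace E] in
theorem G_le_proja (hL : finrank ℝ L + 2 = finrank ℝ E) {t : ℝ} (ht : 0 < t) (z : E) :
    t * G t z ≤ (4 * π)⁻¹ * G t (L.orthogonalProjectionOnto z) := by
  have h2 := rank_proja hL
  have h1 : hd Lᗮ = 1 := by
    unfold hd
    rw [h2]
    norm_num
  have h3 : hd E = hd L + hd Lᗮ := by
    unfold hd
    rw [← L.finrank_add_finrank_orthogonal]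
    push_cast
    ring
  rw [G_prod h3 ht (Submodule.norm_sq_eq_add_norm_sq_projection z L)]
  have h4 := G_le_zero ht (Lᗮ.orthogonalProjectionOnto z)
  rw [h1, rpow_neg_one] at h4
  have h5 := G_pos ht (L.orthogonalProjectionOnto z)
  calc _ ≤ t * (G t (L.orthogonalProjectionOnto z) * (4 * π * t)⁻¹) := by gcongr
    _ = _ := by field_simp

theorem ph_le_proj (hL : finrank ℝ L + 2 = finrank ℝ E) {f : E → ℝ} (hf : Cc 0 f)
    (h0 : ∀ y, 0 ≤ f y) {t : ℝ} (ht : 0 < t) :
    t * ph f t ≤ (4 * π)⁻¹ * ∫ v : L, (∫ y, f y * G (t / 2) (L.orthogonalProjectionOnto y - v)) ^ 2 := by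
  have hs : 0 < t / 2 := by positivity
  have hi := hf.integrable
  have hm := hf.bm.meas
  have hin : ∀ y : E, ∫ v : L, (∫ y', f y' * G (t / 2) (L.orthogonalProjectionOnto y' - v)) *
      G (t / 2) (L.orthogonalProjectionOnto y - v) =
      ∫ y', f y' * G t (L.orthogonalProjectionOnto y' - L.orthogonalProjectionOnto y) := by
    intro y
    have h := swap_proja (L := L) hi hs (BM.G_sub hs (L.orthogonalProjectionOnto y))
    simp only [integral_G_mul_G hs hs, add_halves] at h
    rw [← h]
    congr 1
    funext v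
    rw [G_sub_comm (t / 2) v, mul_comm]
  simp only [pow_two]
  rw [swap_proja hi hs (bm_a_proja hm hi hs)]
  simp only [hin]
  unfold ph
  rw [← integral_const_mul, ← integral_const_mul]
  refine integral_mono (((hf.bm.P ht).integrable_mul hi).const_mul t)
    ((((bm_a_proja hm hi ht).comp
      L.orthogonalProjectionOnto.continuous.measurable).integrable_mul hi).const_mul _) fun y => ?_
  have h1 : t * P t f y ≤ (4 * π)⁻¹ *
      ∫ y', f y' * G t (L.orthogonalProjectionOnto y' - L.orthogonalProjectionOnto y) := by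
    unfold P
    rw [← integral_const_mul, ← integral_const_mul]
    refine integral_mono ((integrable_G_mul hi ht y).const_mul t)
      (((bm_G_proja ht _).integrable_mul hi).const_mul _) fun y' => ?_
    have h2 := G_le_proja hL ht (y' - y)
    rw [map_sub] at h2
    have h3 := mul_le_mul_of_nonneg_right h2 (h0 y')
    calc _ = t * G t (y' - y) * f y' := by ring
      _ ≤ _ := h3
      _ = _ := by ring
  have h4 := mul_le_mul_of_nonneg_left h1 (h0 y)
  calc _ = f y * (t * P t f y) := by ring
    _ ≤ _ := h4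
    _ = _ := by ring

theorem cs_proja {X : Type*} [MeasurableSpace X] {μ : Measure X} {h w : X → ℝ} (hh : BM h)
    (hw : Integrable w μ) (h0 : ∀ y, 0 ≤ w y) :
    (∫ y, h y * w y ∂μ) ^ 2 ≤ (∫ y, w y ∂μ) * ∫ y, h y ^ 2 * w y ∂μ := by
  have h1 := hh.mul_integrable hw
  have h2 := (hh.pow 2).mul_integrable hw
  have key : ∀ l : ℝ, 0 ≤ (∫ y, w y ∂μ) * (l * l) + 2 * (∫ y, h y * w y ∂μ) * l +
      ∫ y, h y ^ 2 * w y ∂μ := fun l => by
    have h3 : Integrable (fun y => w y * (l * l) + 2 * l * (h y * w y)) μ :=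
      (hw.mul_const _).add (h1.const_mul _)
    have h4 : 0 ≤ ∫ y, (w y * (l * l) + 2 * l * (h y * w y) + h y ^ 2 * w y) ∂μ :=
      integral_nonneg fun y => by
        have := mul_nonneg (h0 y) (sq_nonneg (l + h y))
        simp only [Pi.zero_apply]
        nlinarith
    rw [integral_add h3 h2, integral_add (hw.mul_const _) (h1.const_mul _), integral_mul_const,
      integral_const_mul] at h4
    linarith
  have := discrim_le_zero key
  unfold discrim at this
  nlinarith

/-- Weighted Cauchy-Schwarz inequality. -/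
theorem proj_cs (hL : finrank ℝ L + 2 = finrank ℝ E) {h : E → ℝ} (hh : BM h) {s : ℝ} (hs : 0 < s) :
    Integrable (fun v : L =>
      (∫ y in ball (0 : E) 3, h y * G s (L.orthogonalProjectionOnto y - v)) ^ 2) ∧
    ∫ v : L, (∫ y in ball (0 : E) 3, h y * G s (L.orthogonalProjectionOnto y - v)) ^ 2 ≤
      9 * π * ∫ y in ball (0 : E) 3, h y ^ 2 := by
  have hi : Integrable h (volume.restrict (ball (0 : E) 3)) := hh.integrableOn isBounded_ball
  have hi2 : Integrable (fun y => h y ^ 2) (volume.restrict (ball (0 : E) 3)) :=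
    (hh.pow 2).integrableOn isBounded_ball
  have h1 := int_sq_proja (L := L) hh.meas hi hs
  refine ⟨h1, ?_⟩
  rw [← integral_a_proja (L := L) hi2 hs, ← integral_const_mul]
  refine integral_mono h1 ((int_a_proja hi2 hs).const_mul _) fun v => ?_
  refine (cs_proja hh ((bm_G_proja hs v).integrableOn isBounded_ball)
    fun y => G_nonneg hs.le _).trans ?_
  exact mul_le_mul_of_nonneg_right (integral_G_pa hL hs v)
    (integral_nonneg fun y => mul_nonneg (sq_nonneg _) (G_nonneg hs.le _))

/-- The same with the supremum of the kernel. -/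
theorem proj_sup {h : E → ℝ} (hh : BM h) (h0 : ∀ y, 0 ≤ h y) {t : ℝ} (ht : 0 < t) :
    Integrable (fun v : L =>
      (∫ y in ball (0 : E) 3, h y * G (t / 2) (L.orthogonalProjectionOnto y - v)) ^ 2) ∧
    ∫ v : L, (∫ y in ball (0 : E) 3, h y * G (t / 2) (L.orthogonalProjectionOnto y - v)) ^ 2 ≤
      (∫ y in ball (0 : E) 3, h y) ^ 2 * t ^ (-(finrank ℝ L / 2 : ℝ)) := by
  have hs : 0 < t / 2 := by positivity
  have hi : Integrable h (volume.restrict (ball (0 : E) 3)) := hh.integrableOn isBounded_ball
  have h1 := int_sq_proja (L := L) hh.meas hi hs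
  refine ⟨h1, ?_⟩
  have hI : 0 ≤ ∫ y in ball (0 : E) 3, h y := integral_nonneg h0
  have h2 : (4 * π * (t / 2)) ^ (-hd L) ≤ t ^ (-(finrank ℝ L / 2 : ℝ)) :=
    rpow_le_rpow_of_nonpos ht (by nlinarith [pi_gt_three]) (neg_nonpos.2 hd_nonneg)
  calc _ ≤ ∫ v : L, ((∫ y in ball (0 : E) 3, h y) * t ^ (-(finrank ℝ L / 2 : ℝ))) *
        ∫ y in ball (0 : E) 3, h y * G (t / 2) (L.orthogonalProjectionOnto y - v) := by
        refine integral_mono h1 ((int_a_proja hi hs).const_mul _) fun v => ?_
        have h3 := (le_abs_self _).trans (abs_a_proja hi hs v)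
        simp only [abs_of_nonneg (h0 _)] at h3
        have h4 : 0 ≤ ∫ y in ball (0 : E) 3, h y * G (t / 2) (L.orthogonalProjectionOnto y - v) :=
          integral_nonneg fun y => mul_nonneg (h0 y) (G_nonneg hs.le _)
        simp only [pow_two]
        exact mul_le_mul_of_nonneg_right (h3.trans (mul_le_mul_of_nonneg_left h2 hI)) h4
    _ = _ := by
        rw [integral_const_mul, integral_a_proja hi hs]
        ring

end Pool.Agent.Lib.MP_8daebb_an.PR
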