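import Pool.Agent.Lib.MP_8daebb_an.PR.ProjA

/-! The projected charge is controlled by the small parts of the energy. -/

open MeasureTheory Metric Set Module Real Filter Topology
open scoped RealInnerProductSpace

namespace Pool.Agent.Lib.MP_8daebb_an.PR

open HK AS

variable {E : Type*} [NormedAddCommGroup E] [InnerProductSpace ℝ E] [FiniteDimensional ℝ E]
  [MeasurableSpace E] [BorelSpace E]

theorem Top.nonneg {L : Submodule ℝ E} {V Γ : E → ℝ} {E0 E1 g1 AΓ t0 A : ℝ}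
    (h : Top L V Γ E0 E1 g1 AΓ t0 A) : 0 ≤ E0 ∧ 0 ≤ E1 ∧ 0 ≤ g1 ∧ g1 * AΓ ≤ gg g1 AΓ t0 ∧
      0 ≤ gg g1 AΓ t0 := by
  have h0 : 0 ≤ E0 := le_trans (integral_nonneg fun _ => sq_nonneg _) h.e0
  have h1 : 0 ≤ E1 := le_trans (integral_nonneg fun _ => sq_nonneg _) h.e1
  have h2 : 0 ≤ g1 := le_trans (integral_nonneg h.Γ0) h.g1_le
  have h3 : 0 ≤ Real.log (1 + 2 / t0) :=
    Real.log_nonneg (by have := h.t0_pos; linarith [show 0 < 2 / t0 by positivity])
  have h4 := mul_nonneg h2 h.AΓ0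
  have h5 : g1 * AΓ ≤ gg g1 AΓ t0 := le_mul_of_one_le_right h4 (by linarith)
  exact ⟨h0, h1, h2, h5, h4.trans h5⟩

theorem bm_norm_projB {V : E → ℝ} (hV : Cb 2 V) : BM fun y => ‖fderiv ℝ V y‖ := by
  obtain ⟨B, hB⟩ := Cb.fderiv_bdd (n := 1) hV
  exact ⟨(hV.contDiff.continuous_fderiv (by norm_num)).norm.measurable, B,
    fun y => by rw [abs_norm]; exact hB y⟩

theorem bm_ind_projB (L : Submodule ℝ E) {V : E → ℝ} (hV : Cb 2 V) :
    BM ({y | 1 / 4 ≤ ‖pe L y‖}.indicator fun y => ‖fderiv ℝ V y‖) :=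
  (bm_norm_projB hV).indicator (isClosed_le continuous_const (by fun_prop)).measurableSet

theorem bm_pa_projB (L : Submodule ℝ E) {V : E → ℝ} (hV : Cb 2 V) :
    BM fun y => ‖(fderiv ℝ V y).comp (pa L)‖ :=
  ((bm_norm_projB hV).mul_const ‖pa L‖).of_abs_le
    ((hV.contDiff.continuous_fderiv (by norm_num)).clm_comp continuous_const).norm.measurable
    fun y => by rw [abs_norm]; exact ContinuousLinearMap.opNorm_comp_le _ _

theorem bm_G_projB (L : Submodule ℝ E) {s : ℝ} (hs : 0 < s) (v : L) :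
    BM fun y : E => G s (L.orthogonalProjectionOnto y - v) :=
  (BM.G_sub hs v).comp L.orthogonalProjectionOnto.continuous.measurable

omit [MeasurableSpace E] [BorelSpace E] in
theorem inner_grad_projB (f : E → ℝ) (y w : E) : ⟪gradient f y, w⟫ = fderiv ℝ f y w := by
  rw [gradient, InnerProductSpace.toDual_symm_apply]

theorem norm_pa_grad_projB (L : Submodule ℝ E) (V : E → ℝ) (y : E) :
    ‖pa L (gradient V y)‖ ≤ ‖(fderiv ℝ V y).comp (pa L)‖ := by
  have h1 : ‖pa L (gradient V y)‖ ^ 2 = (fderiv ℝ V y).comp (pa L) (pa L (gradient V y)) := by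
    rw [ContinuousLinearMap.comp_apply, ← inner_grad_projB, pa_pa, ← real_inner_self_eq_norm_sq,
      inner_pa_left, pa_pa]
  have h2 := (le_abs_self _).trans (((fderiv ℝ V y).comp (pa L)).le_opNorm (pa L (gradient V y)))
  rw [← h1] at h2
  rcases (norm_nonneg (pa L (gradient V y))).eq_or_lt with h | h
  · rw [← h]; exact norm_nonneg _
  · exact le_of_mul_le_mul_right (by rwa [← sq]) h

variable (E) in
theorem grad_zc_projB : ∃ C : ℝ, 0 < C ∧ ∀ (L : Submodule ℝ E) (V : E → ℝ) (a b : ℝ) (y : E),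
    a + 1 ≤ b → y ∈ ball (0 : E) 3 → |fderiv ℝ (zc L a b) y (gradient V y)| ≤
      C * ({y | 1 / 4 ≤ ‖pe L y‖}.indicator (fun y => ‖fderiv ℝ V y‖) y +
        ‖(fderiv ℝ V y).comp (pa L)‖) := by
  obtain ⟨C, hC1, hC⟩ := ct_bounds
  refine ⟨12 * C, by linarith, fun L V a b y hab hy => ?_⟩
  have hy3 : ‖y‖ ≤ 3 := (mem_ball_zero_iff.mp hy).le
  have c1 : |deriv (ct a b) (‖pa L y‖ ^ 2)| ≤ C :=
    (hC a b _ (by linarith)).1.trans (div_le_self (by linarith) (by linarith))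
  have c2 : |deriv (ct (1 / 16) 1) (‖pe L y‖ ^ 2)| ≤ 2 * C :=
    (hC _ _ _ (by norm_num)).1.trans (by rw [div_le_iff₀ (by norm_num)]; linarith)
  have i1 : |⟪pa L y, gradient V y⟫| ≤ 3 * ‖(fderiv ℝ V y).comp (pa L)‖ := by
    rw [← pa_pa, inner_pa_left]
    exact (abs_real_inner_le_norm _ _).trans (mul_le_mul ((norm_pa_le L y).trans hy3)
      (norm_pa_grad_projB L V y) (norm_nonneg _) (by norm_num))
  have i2 : |2 * deriv (ct (1 / 16) 1) (‖pe L y‖ ^ 2) * ⟪pe L y, gradient V y⟫| ≤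
      12 * C * {y | 1 / 4 ≤ ‖pe L y‖}.indicator (fun y => ‖fderiv ℝ V y‖) y := by
    by_cases h : 1 / 4 ≤ ‖pe L y‖
    · rw [indicator_of_mem (show y ∈ {y | 1 / 4 ≤ ‖pe L y‖} from h), abs_mul, abs_mul, abs_two]
      have i3 : |⟪pe L y, gradient V y⟫| ≤ 3 * ‖fderiv ℝ V y‖ :=
        (abs_real_inner_le_norm _ _).trans (mul_le_mul ((norm_pe_le L y).trans hy3)
          (norm_gradient V y).le (norm_nonneg _) (by norm_num))
      calc _ ≤ 2 * (2 * C) * (3 * ‖fderiv ℝ V y‖) := by gcongr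
        _ = _ := by ring
    · rw [indicator_of_notMem (show y ∉ {y | 1 / 4 ≤ ‖pe L y‖} from h),
        deriv_ct_zero (by norm_num) (Or.inl (by nlinarith [norm_nonneg (pe L y)]))]
      simp
  rw [fderiv_zc]
  refine (abs_add_le _ _).trans ?_
  have a1 := ct_nonneg (1 / 16) 1 (‖pe L y‖ ^ 2)
  have a2 := ct_le_one (1 / 16) 1 (‖pe L y‖ ^ 2)
  have a3 := ct_nonneg a b (‖pa L y‖ ^ 2)
  have a4 := ct_le_one a b (‖pa L y‖ ^ 2)
  have a5 := norm_nonneg ((fderiv ℝ V y).comp (pa L))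
  rw [abs_mul (ct a b _), abs_mul _ (ct _ _ _), abs_mul _ ⟪pa L y, _⟫, abs_mul 2, abs_two,
    abs_of_nonneg a1, abs_of_nonneg a3]
  calc _ ≤ 2 * C * (3 * ‖(fderiv ℝ V y).comp (pa L)‖) * 1 + 1 * (12 * C *
        {y | 1 / 4 ≤ ‖pe L y‖}.indicator (fun y => ‖fderiv ℝ V y‖) y) := by gcongr
    _ ≤ _ := by nlinarith

variable (E) in
theorem flux_gen_projB : ∃ C : ℝ, 0 < C ∧ ∀ (L : Submodule ℝ E) (V g K : E → ℝ) (a b : ℝ),
    Cb 2 V → a + 1 ≤ b → b ≤ 25 / 4 → ContDiff ℝ 1 g → BM g → BM K → (∀ y, 0 ≤ g y) →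
    (∀ y, 0 ≤ K y) → (∀ y w, |fderiv ℝ g y w| ≤ K y * ‖pa L w‖) →
    |∫ y, zc L a b y * lap V y * g y| ≤
      C * ((∫ y in ball (0 : E) 3,
          {y | 1 / 4 ≤ ‖pe L y‖}.indicator (fun y => ‖fderiv ℝ V y‖) y * g y) +
        ∫ y in ball (0 : E) 3, ‖(fderiv ℝ V y).comp (pa L)‖ * g y) +
        ∫ y in ball (0 : E) 3, ‖(fderiv ℝ V y).comp (pa L)‖ * K y := by
  obtain ⟨C, hC0, hC⟩ := grad_zc_projB E
  refine ⟨C, hC0, fun L V g K a b hV hab hb hg hg' hK hg0 hK0 hd => ?_⟩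
  have hz := zc_cc L (show a < b by linarith) 1
  have h1 := green (hz.mul hg) hV.contDiff
  have h2 : ∀ y, fderiv ℝ V y (gradient (fun y => zc L a b y * g y) y) =
      fderiv ℝ (zc L a b) y (gradient V y) * g y + zc L a b y * fderiv ℝ g y (gradient V y) := by
    intro y
    rw [← inner_grad_projB, real_inner_comm, inner_grad_projB]
    exact pd_mul (hz.cd.differentiable (by norm_num)) (hg.differentiable (by norm_num)) _ y
  simp only [h2] at h1
  have i1 := ((bm_ind_projB L hV).mul hg').integrableOn (isBounded_ball (x := (0 : E)) (r := 3))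
  have i2 := ((bm_pa_projB L hV).mul hg').integrableOn (isBounded_ball (x := (0 : E)) (r := 3))
  have i3 := ((bm_pa_projB L hV).mul hK).integrableOn (isBounded_ball (x := (0 : E)) (r := 3))
  simp only [mul_right_comm _ (lap V _)]
  rw [h1, abs_neg, ← setIntegral_eq_integral_of_forall_compl_eq_zero (s := ball (0 : E) 3),
    ← integral_add' i1 i2, ← integral_const_mul, ← integral_add ((i1.add i2).const_mul C) i3]
  · rw [← Real.norm_eq_abs]
    refine norm_integral_le_of_norm_le (((i1.add i2).const_mul C).add i3)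
      (ae_restrict_of_forall_mem measurableSet_ball fun y hy => ?_)
    refine (abs_add_le _ _).trans (add_le_add ?_ ?_)
    · rw [abs_mul, abs_of_nonneg (hg0 y)]
      exact (mul_le_mul_of_nonneg_right (hC L V a b y hab hy) (hg0 y)).trans
        (le_of_eq (by simp only [Pi.add_apply]; ring))
    · rw [abs_mul, abs_of_nonneg (zc_nonneg L a b y), mul_comm _ (K y)]
      exact (mul_le_of_le_one_left (abs_nonneg _) (zc_le_one L a b y)).trans ((hd y _).trans
        (mul_le_mul_of_nonneg_left (norm_pa_grad_projB L V y) (hK0 y)))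
  · intro y hy
    have h3 : y ∉ tsupport (zc L a b) := fun h => hy (zc_tsupport L (by linarith) hb h)
    have h4 : fderiv ℝ (zc L a b) y = 0 :=
      Function.notMem_support.mp fun h => h3 (support_fderiv_subset ℝ h)
    rw [h4, image_eq_zero_of_notMem_tsupport h3]
    simp

variable (E) in
/-- The flux through the boundary of the cylinder, pointwise in the tangential variable. -/
theorem flux_bound : ∃ C : ℝ, 0 < C ∧ ∀ (L : Submodule ℝ E) (V : E → ℝ) (a b t : ℝ) (v : L),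
    Cb 2 V → a + 1 ≤ b → b ≤ 25 / 4 → 0 < t →
    |∫ y, zc L a b y * lap V y * G (t / 2) (L.orthogonalProjectionOnto y - v)| ≤
      C * ((∫ y in ball (0 : E) 3, {y | 1 / 4 ≤ ‖pe L y‖}.indicator (fun y => ‖fderiv ℝ V y‖) y *
            G (t / 2) (L.orthogonalProjectionOnto y - v)) +
        (∫ y in ball (0 : E) 3, ‖(fderiv ℝ V y).comp (pa L)‖ *
            G (t / 2) (L.orthogonalProjectionOnto y - v)) +
        (√t)⁻¹ * ∫ y in ball (0 : E) 3, ‖(fderiv ℝ V y).comp (pa L)‖ *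
            G t (L.orthogonalProjectionOnto y - v)) := by
  obtain ⟨C, hC0, hC⟩ := flux_gen_projB E
  have hE : 0 < (2 : ℝ) ^ hd E := by positivity
  refine ⟨C + 6 * 2 ^ hd E, by positivity, fun L V a b t v hV hab hb ht => ?_⟩
  have ht2 : 0 < t / 2 := half_pos ht
  have hs : 0 < √t := sqrt_pos.mpr ht
  have h1 := hC L V (fun y => G (t / 2) (L.orthogonalProjectionOnto y - v))
    (fun y => 6 * 2 ^ hd E * (√t)⁻¹ * G t (L.orthogonalProjectionOnto y - v)) a b hV hab hb
    ((contDiff_G _).comp (L.orthogonalProjectionOnto.contDiff.sub contDiff_const))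
    (bm_G_projB L ht2 v) ((bm_G_projB L ht v).const_mul _) (fun y => (G_pos ht2 _).le)
    (fun y => by have := G_pos ht (L.orthogonalProjectionOnto y - v); positivity) fun y w => by
      have d1 : HasFDerivAt (fun y : E => G (t / 2) (L.orthogonalProjectionOnto y - v)) _ y :=
        (((contDiff_G (n := 1) (t / 2)).differentiable (by norm_num)) _).hasFDerivAt.comp y
          (L.orthogonalProjectionOnto.hasFDerivAt.sub_const v)
      rw [d1.fderiv, ContinuousLinearMap.comp_apply, pa_eq_coe]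
      refine (ContinuousLinearMap.le_opNorm _ _).trans
        (mul_le_mul_of_nonneg_right ((norm_fderiv_G_le ht2 _).trans ?_) (norm_nonneg _))
      rw [mul_div_cancel₀ _ two_ne_zero]
      refine mul_le_mul_of_nonneg_right ?_ (G_pos ht _).le
      have e1 : (2 : ℝ) ^ hd L ≤ 2 ^ hd E := by
        refine rpow_le_rpow_of_exponent_le one_le_two ?_
        unfold hd
        gcongr
        exact L.finrank_le
      have e2 : √t / 2 ≤ √(t / 2) := le_sqrt_of_sq_le (by rw [div_pow, sq_sqrt ht.le]; linarith)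
      calc 3 * 2 ^ hd L / √(t / 2) ≤ 3 * 2 ^ hd E / (√t / 2) := by gcongr
        _ = _ := by field_simp; ring
  refine h1.trans ?_
  simp only [mul_left_comm ‖_‖ (6 * 2 ^ hd E * (√t)⁻¹), integral_const_mul]
  have n1 : 0 ≤ ∫ y in ball (0 : E) 3, {y | 1 / 4 ≤ ‖pe L y‖}.indicator
      (fun y => ‖fderiv ℝ V y‖) y * G (t / 2) (L.orthogonalProjectionOnto y - v) :=
    integral_nonneg fun y => mul_nonneg (indicator_nonneg (fun _ _ => norm_nonneg _) _)
      (G_pos ht2 _).le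
  have n2 : 0 ≤ ∫ y in ball (0 : E) 3, ‖(fderiv ℝ V y).comp (pa L)‖ *
      G (t / 2) (L.orthogonalProjectionOnto y - v) :=
    integral_nonneg fun y => mul_nonneg (norm_nonneg _) (G_pos ht2 _).le
  have n3 : 0 ≤ (√t)⁻¹ * ∫ y in ball (0 : E) 3, ‖(fderiv ℝ V y).comp (pa L)‖ *
      G t (L.orthogonalProjectionOnto y - v) :=
    mul_nonneg (by positivity) (integral_nonneg fun y => mul_nonneg (norm_nonneg _) (G_pos ht _).le)
  nlinarith [mul_nonneg hE.le n1, mul_nonneg hE.le n2, mul_nonneg hC0.le n3]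

theorem ind_sq_projB {L : Submodule ℝ E} {V Γ : E → ℝ} {E0 E1 g1 AΓ t0 A : ℝ}
    (h : Top L V Γ E0 E1 g1 AΓ t0 A) : ∫ y in ball (0 : E) 3,
      {y | 1 / 4 ≤ ‖pe L y‖}.indicator (fun y => ‖fderiv ℝ V y‖) y ^ 2 ≤ E1 := by
  refine le_trans (le_of_eq ?_) h.e2
  rw [← setIntegral_indicator (isClosed_le continuous_const (by fun_prop)).measurableSet]
  refine integral_congr_ae (Eventually.of_forall fun y => ?_)
  by_cases hy : y ∈ {y | 1 / 4 ≤ ‖pe L y‖}
  · simp only [indicator_of_mem hy]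
  · simp only [indicator_of_notMem hy, ne_eq, OfNat.ofNat_ne_zero, not_false_eq_true, zero_pow]

theorem split_projB {L : Submodule ℝ E} {V Γ g : E → ℝ} {E0 E1 g1 AΓ t0 A a b : ℝ}
    (h : Top L V Γ E0 E1 g1 AΓ t0 A) (hab : a + 1 ≤ b) (hb : b ≤ 25 / 4) (hg : BM g)
    (hg0 : ∀ y, 0 ≤ g y) : ∫ y, zc L a b y * chg V Γ y * g y ≤
      |∫ y, zc L a b y * lap V y * g y| + ∫ y in ball (0 : E) 3, Γ y * g y := by
  have hz := zc_cc L (show a < b by linarith) 0
  have i1 := hg.integrable_mul (hz.mul (Cb.lap (n := 0) (h.hV.of_le (by norm_num))).contDiff).integrable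
  have i2 := hg.integrable_mul (hz.mul (h.hΓ.of_le (Nat.zero_le _)).contDiff).integrable
  simp only [chg, mul_add, add_mul]
  rw [integral_add i1 i2]
  refine add_le_add (le_abs_self _) ?_
  rw [← setIntegral_eq_integral_of_forall_compl_eq_zero (s := ball (0 : E) 3)]
  · refine integral_mono i2.integrableOn ((h.hΓ.bm.mul hg).integrableOn isBounded_ball) fun y => ?_
    exact mul_le_mul_of_nonneg_right (mul_le_of_le_one_left (h.Γ0 y) (zc_le_one L a b y)) (hg0 y)
  · intro y hy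
    rw [image_eq_zero_of_notMem_tsupport fun h => hy (zc_tsupport L (by linarith) hb h)]
    simp

variable (E) in
theorem proj_bound : ∃ C : ℝ, 0 < C ∧ ∀ (L : Submodule ℝ E) (V Γ : E → ℝ)
    (E0 E1 g1 AΓ t0 A a b t : ℝ), Top L V Γ E0 E1 g1 AΓ t0 A → a + 1 ≤ b → b ≤ 25 / 4 → 0 < t →
    t * ph (fun y => zc L a b y * chg V Γ y) t ≤
      C * (E1 * (1 + 1 / t) + g1 ^ 2 * t ^ (-(finrank ℝ L / 2 : ℝ))) := by
  obtain ⟨C, hC0, hC⟩ := flux_bound E
  refine ⟨(4 * π)⁻¹ * (72 * π * C ^ 2 + 4), by positivity,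
    fun L V Γ E0 E1 g1 AΓ t0 A a b t h hab hb ht => ?_⟩
  have ht2 : 0 < t / 2 := half_pos ht
  have hV : Cb 2 V := h.hV.of_le (by norm_num)
  have h0 : ∀ y, 0 ≤ zc L a b y * chg V Γ y := fun y => mul_nonneg (zc_nonneg L a b y) (h.N0 y)
  refine (ph_le_proj h.dim ((zc_cc L (show a < b by linarith) 0).mul
    (h.cb_chg.of_le (Nat.zero_le _)).contDiff) h0 ht).trans ?_
  rw [mul_assoc]
  refine mul_le_mul_of_nonneg_left ?_ (by positivity)
  obtain ⟨i1, j1⟩ := proj_cs h.dim (bm_ind_projB L hV) ht2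
  obtain ⟨i2, j2⟩ := proj_cs h.dim (bm_pa_projB L hV) ht2
  obtain ⟨i3, j3⟩ := proj_cs h.dim (bm_pa_projB L hV) ht
  obtain ⟨i4, j4⟩ := proj_sup (L := L) h.hΓ.bm h.Γ0 ht
  have k1 := j1.trans (mul_le_mul_of_nonneg_left (ind_sq_projB h) (by positivity))
  have k2 := j2.trans (mul_le_mul_of_nonneg_left h.e1 (by positivity))
  have k3 := j3.trans (mul_le_mul_of_nonneg_left h.e1 (by positivity))
  have k4 := j4.trans (mul_le_mul_of_nonneg_right
    (pow_le_pow_left₀ (integral_nonneg h.Γ0) h.g1_le 2) (by positivity))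
  have i5 := ((i1.add i2).add (i3.const_mul (1 / t))).const_mul (4 * C ^ 2)
  refine (integral_mono_of_nonneg (Eventually.of_forall fun v => sq_nonneg _)
    (i5.add (i4.const_mul 4)) (Eventually.of_forall fun v => ?_)).trans ?_
  · have m0 : 0 ≤ ∫ y, zc L a b y * chg V Γ y * G (t / 2) (L.orthogonalProjectionOnto y - v) :=
      integral_nonneg fun y => mul_nonneg (h0 y) (G_pos ht2 _).le
    have m1 := (split_projB h hab hb (bm_G_projB L ht2 v) fun y => (G_pos ht2 _).le).trans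
      (add_le_add (hC L V a b t v hV hab hb ht) le_rfl)
    refine (pow_le_pow_left₀ m0 m1 2).trans ?_
    have m2 : 1 / t = (√t)⁻¹ ^ 2 := by rw [inv_pow, sq_sqrt ht.le, one_div]
    simp only [Pi.add_apply, m2]
    have key : ∀ x y z w s : ℝ, (C * (x + y + s * z) + w) ^ 2 ≤
        4 * C ^ 2 * (x ^ 2 + y ^ 2 + s ^ 2 * z ^ 2) + 4 * w ^ 2 := fun x y z w s => by
      nlinarith [sq_nonneg (C * x - C * y), sq_nonneg (C * x - C * s * z), sq_nonneg (C * x - w),
        sq_nonneg (C * y - C * s * z), sq_nonneg (C * y - w), sq_nonneg (C * s * z - w)]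
    exact key _ _ _ _ _
  · rw [integral_add' i5 (i4.const_mul 4), integral_const_mul, integral_const_mul,
      integral_add' (i1.add i2) (i3.const_mul _), integral_add' i1 i2, integral_const_mul]
    have e1 := h.nonneg.2.1
    have e2 : 0 ≤ g1 ^ 2 * t ^ (-(finrank ℝ L / 2 : ℝ)) := by positivity
    have e3 : 0 < 1 / t := by positivity
    have e4 := pi_pos
    calc _ ≤ 4 * C ^ 2 * (9 * π * E1 + 9 * π * E1 + 1 / t * (9 * π * E1)) +
          4 * (g1 ^ 2 * t ^ (-(finrank ℝ L / 2 : ℝ))) := by gcongr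
      _ ≤ _ := by
        have e5 : 0 ≤ π * C ^ 2 * (g1 ^ 2 * t ^ (-(finrank ℝ L / 2 : ℝ))) := by positivity
        have e6 : 0 ≤ π * C ^ 2 * (E1 * (1 / t)) := by positivity
        have e7 : 0 ≤ E1 * (1 / t) := by positivity
        nlinarith

theorem cs_ball_projB {h : E → ℝ} (hh : BM h) {E1 : ℝ}
    (h1 : ∫ y in ball (0 : E) 3, h y ^ 2 ≤ E1) :
    ∫ y in ball (0 : E) 3, h y ≤ √(volume.real (ball (0 : E) 3)) * √E1 := by
  have hm : 0 < volume.real (ball (0 : E) 3) :=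
    ENNReal.toReal_pos (measure_ball_pos _ _ (by norm_num)).ne' measure_ball_lt_top.ne
  rw [← sqrt_mul hm.le]
  refine le_sqrt_of_sq_le ?_
  obtain ⟨x, hx⟩ : ∃ x, x * volume.real (ball (0 : E) 3) = ∫ y in ball (0 : E) 3, h y :=
    ⟨_, div_mul_cancel₀ _ hm.ne'⟩
  have i1 := hh.integrableOn (isBounded_ball (x := (0 : E)) (r := 3))
  have i2 := (hh.pow 2).integrableOn (isBounded_ball (x := (0 : E)) (r := 3))
  have i3 := (BM.const (X := E) (x ^ 2)).integrableOn (isBounded_ball (x := (0 : E)) (r := 3))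
  have h2 : ∫ y in ball (0 : E) 3, 2 * x * h y ≤ ∫ y in ball (0 : E) 3, (h y ^ 2 + x ^ 2) :=
    integral_mono (i1.const_mul _) (i2.add i3) fun y => by
      nlinarith [sq_nonneg (h y - x)]
  rw [integral_const_mul, integral_add i2 i3, setIntegral_const, smul_eq_mul, ← hx] at h2
  rw [← hx]
  nlinarith

variable (E) in
theorem mass_bound : ∃ C : ℝ, 0 < C ∧ ∀ (L : Submodule ℝ E) (V Γ : E → ℝ)
    (E0 E1 g1 AΓ t0 A : ℝ), Top L V Γ E0 E1 g1 AΓ t0 A →
    ∫ y, zt L y * chg V Γ y ≤ C * (√E1 + g1) := by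
  obtain ⟨C, hC0, hC⟩ := flux_gen_projB E
  refine ⟨2 * C * √(volume.real (ball (0 : E) 3)) + 1, by positivity,
    fun L V Γ E0 E1 g1 AΓ t0 A h => ?_⟩
  have hV : Cb 2 V := h.hV.of_le (by norm_num)
  have h1 := hC L V (fun _ => 1) (fun _ => 0) (81 / 64) 4 hV (by norm_num) (by norm_num)
    contDiff_const (BM.const _) (BM.const _) (fun _ => zero_le_one) (fun _ => le_rfl)
    fun y w => by simp
  have h2 := (split_projB (a := 81 / 64) (b := 4) h (by norm_num) (by norm_num) (BM.const 1)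
    fun _ => zero_le_one).trans (add_le_add h1 le_rfl)
  simp only [mul_one, mul_zero, integral_zero, add_zero] at h2
  have h3 := cs_ball_projB (bm_ind_projB L hV) (ind_sq_projB h)
  have h4 := cs_ball_projB (bm_pa_projB L hV) h.e1
  have h5 := mul_le_mul_of_nonneg_left (add_le_add h3 h4) hC0.le
  have h6 := h.g1_le
  have h7 := h.nonneg.2.2.1
  have h8 := sqrt_nonneg E1
  have h9 : 0 ≤ C * √(volume.real (ball (0 : E) 3)) * g1 := by positivity
  refine h2.trans ?_
  nlinarith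

end Pool.Agent.Lib.MP_8daebb_an.PR
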