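import Pool.Agent.Lib.MP_8daebb_an.PR.Lev
import Pool.Agent.Lib.MP_8daebb_an.PR.Alg

/-! Properties of the defect stress. -/

open MeasureTheory Metric Set Module Real Filter Topology
open scoped RealInnerProductSpace

namespace Pool.Agent.Lib.MP_8daebb_an.PR

open HK AS

variable {E : Type*} [NormedAddCommGroup E] [InnerProductSpace ℝ E] [FiniteDimensional ℝ E]
  [MeasurableSpace E] [BorelSpace E]

variable {ι : Type*} [Fintype ι] {D : Dat E ι} {ff Γ : E → ℝ} {Q : ℕ} {C₁ L η κ t T : ℝ}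

omit [FiniteDimensional ℝ E] [MeasurableSpace E] [BorelSpace E] in
theorem tr_sub_rf (A B : E →L[ℝ] E) : tr (A - B) = tr A - tr B := by
  simp [tr]

theorem bm_tr_rf {S : E → E →L[ℝ] E} (hS : Continuous S) {B : ℝ} (hB : ∀ y, ‖S y‖ ≤ B)
    (A : E →L[ℝ] E) : BM fun y => tr ((S y).comp A) :=
  ⟨(continuous_tr.comp (hS.clm_comp continuous_const)).measurable, finrank ℝ E * (B * ‖A‖),
    fun y => (abs_tr_le _).trans (mul_le_mul_of_nonneg_left (((S y).opNorm_comp_le A).trans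
      (mul_le_mul_of_nonneg_right (hB y) (norm_nonneg _))) (Nat.cast_nonneg _))⟩

theorem bm_Γ_rf (h : GS D ff Γ Q C₁ L η κ) : BM Γ :=
  ⟨h.c_Γ.measurable, big L, fun y => (abs_of_nonneg (h.Γ_nonneg y)).trans_le (h.Γ_le y)⟩

theorem tn_bdd_rf (h : GS D ff Γ Q C₁ L η κ) (ht : 0 < t) : ∃ B, ∀ y, ‖tn D Q t y‖ ≤ B := by
  obtain ⟨B, hB⟩ := (bm_en_sm h ht).bdd
  exact ⟨B, fun y => (norm_tn_le D Q t y).trans ((le_abs_self _).trans (hB y))⟩

theorem S_rf (h : GS D ff Γ Q C₁ L η κ) (ht : 0 < t) :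
    Continuous (fun w => D.T w - tn D Q t w) ∧ ∃ B, ∀ y, ‖D.T y - tn D Q t y‖ ≤ B := by
  obtain ⟨B, hB⟩ := tn_bdd_rf h ht
  exact ⟨h.st.c_T.sub (continuous_tn h ht), big L + B, fun y => (norm_sub_le _ _).trans
    (add_le_add (h.st.norm_le_bas y) (hB y))⟩

theorem bm_qf_rf (h : GS D ff Γ Q C₁ L η κ) (ht : 0 < t) (v : E) :
    BM fun y => (D.sm t).qf Q y v := by
  obtain ⟨B, hB⟩ := tn_bdd_rf h ht
  simpa only [inner_tn] using bm_inner_bas (continuous_tn h ht) hB v v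

theorem bm_eS_rf (h : GS D ff Γ Q C₁ L η κ) (ht : 0 < t) :
    BM fun w => D.ε w - (D.sm t).en Q w / 2 := h.st.bm_ε.sub ((bm_en_sm h ht).div_const 2)

theorem inner_TR_rf (h : GS D ff Γ Q C₁ L η κ) (ht : 0 < t) (hT : 0 < T) (y v : E) :
    ⟪TR D Q t T y v, v⟫ =
      P T (fun w => ⟪D.T w v, v⟫) y - P T (fun w => (D.sm t).qf Q w v) y := by
  obtain ⟨c, B, hB⟩ := S_rf h ht
  rw [TR, inner_PT_gen c hB hT, ← P_sub (h.st.bm_inner v v) (bm_qf_rf h ht v) hT]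
  simp only [sub_apply, inner_sub_left, inner_tn]

theorem tr_TR_rf (h : GS D ff Γ Q C₁ L η κ) (ht : 0 < t) (hT : 0 < T) (y : E) (A : E →L[ℝ] E) :
    tr ((TR D Q t T y).comp A) = P T (fun w => tr ((D.T w).comp A)) y -
      P T (fun w => tr ((tn D Q t w).comp A)) y := by
  obtain ⟨c, B, hB⟩ := S_rf h ht
  obtain ⟨B', hB'⟩ := tn_bdd_rf h ht
  rw [TR, tr_PT_gen c hB hT, ← P_sub (bm_tr_rf h.st.c_T h.st.norm_le_bas A)
    (bm_tr_rf (continuous_tn h ht) hB' A) hT]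
  simp only [ContinuousLinearMap.sub_comp, tr_sub_rf]

theorem tr_TR_id_rf (h : GS D ff Γ Q C₁ L η κ) (ht : 0 < t) (hT : 0 < T) (y : E) :
    tr (TR D Q t T y) = P T D.τ y - P T ((D.sm t).en Q) y := by
  have h1 := tr_TR_rf h ht hT y (ContinuousLinearMap.id ℝ E)
  simp only [ContinuousLinearMap.comp_id, tr_tn] at h1
  exact h1

theorem eR_rf (h : GS D ff Γ Q C₁ L η κ) (ht : 0 < t) (hT : 0 < T) (y : E) :
    eR D Q t T y = P T D.ε y - P T ((D.sm t).en Q) y / 2 := by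
  rw [eR, P_sub h.st.bm_ε ((bm_en_sm h ht).div_const 2) hT]
  simp only [div_eq_mul_inv, P_mul_const]

theorem continuous_eR (h : GS D ff Γ Q C₁ L η κ) (ht : 0 < t) (hT : 0 < T) :
    Continuous (eR D Q t T) := continuous_P (bm_eS_rf h ht) hT

theorem continuous_TR (h : GS D ff Γ Q C₁ L η κ) (ht : 0 < t) (hT : 0 < T) :
    Continuous (TR D Q t T) := by
  obtain ⟨c, B, hB⟩ := S_rf h ht
  exact continuous_PT_gen c hB hT

theorem TR_symm (h : GS D ff Γ Q C₁ L η κ) (ht : 0 < t) (hT : 0 < T) (y v w : E) :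
    ⟪TR D Q t T y v, w⟫ = ⟪v, TR D Q t T y w⟫ := by
  obtain ⟨c, B, hB⟩ := S_rf h ht
  rw [real_inner_comm (TR D Q t T y w), TR, inner_PT_gen c hB hT, inner_PT_gen c hB hT]
  congr 1
  funext z
  simp only [sub_apply, inner_sub_left]
  rw [h.st.symm, symm_tn, real_inner_comm v, real_inner_comm v]

theorem wR_nonneg (h : GS D ff Γ Q C₁ L η κ) (ht : 0 < t) (hT : 0 < T) (hκ : 0 ≤ κ) (y : E) :
    0 ≤ wR D Γ κ t T y := by
  have h1 := P_nonneg (show 0 ≤ T + t by linarith) h.Γ_nonneg y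
  have h2 : 0 ≤ P (4 * T) D.τ y := P_nonneg (by linarith) h.st.τ_nonneg y
  have h3 := hd_nonneg (V := E)
  unfold wR
  positivity

theorem continuous_wR (h : GS D ff Γ Q C₁ L η κ) (ht : 0 < t) (hT : 0 < T) :
    Continuous (wR D Γ κ t T) :=
  (continuous_P (bm_Γ_rf h) (add_pos hT ht)).add
    ((continuous_P h.st.bm_τ (by linarith)).const_mul _)

theorem TR_psd (h : GS D ff Γ Q C₁ L η κ) (ht : 0 < t) (htT : t ≤ κ * T) (hκ : 0 < κ)
    (hκ1 : κ ≤ 1) (y v : E) : -(wR D Γ κ t T y * ‖v‖ ^ 2) ≤ ⟪TR D Q t T y v, v⟫ := by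
  have hT : 0 < T := (mul_pos_iff_of_pos_left hκ).1 (ht.trans_le htT)
  have h0 : t ≤ T := htT.trans (mul_le_of_le_one_left hT.le hκ1)
  have bv := h.st.bm_inner v v
  have bΓ := bm_Γ_rf h
  have h1 := P_mono (bm_qf_rf h ht v) ((bv.P ht).add ((bΓ.P ht).mul_const (‖v‖ ^ 2))) hT
    (fun w => qf_sm_le h ht w v) y
  rw [P_add (bv.P ht) ((bΓ.P ht).mul_const _) hT, P_mul_const, P_P bv hT ht, P_P bΓ hT ht] at h1
  have h2 := abs_P_sub_time bv hT (s := T + t) (by linarith) (by linarith) y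
  have h3 := P_mono bv.abs (h.st.bm_τ.mul_const (‖v‖ ^ 2)) (show 0 < 4 * T by linarith)
    (fun w => (abs_of_nonneg (h.st.psd w v)).trans_le (h.st.inner_le w v)) y
  rw [P_mul_const] at h3
  have h4 : (T + t - T) / T ≤ κ := by
    rw [add_sub_cancel_left, div_le_iff₀ hT]
    exact htT
  have h5 := hd_nonneg (V := E)
  have h6 : (2 + hd E) * 4 ^ hd E * ((T + t - T) / T) * P (4 * T) (fun w => |⟪D.T w v, v⟫|) y ≤
      (2 + hd E) * 4 ^ hd E * κ * (P (4 * T) D.τ y * ‖v‖ ^ 2) :=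
    mul_le_mul (mul_le_mul_of_nonneg_left h4 (by positivity)) h3
      (P_nonneg (by linarith) (fun _ => abs_nonneg _) y) (by positivity)
  rw [inner_TR_rf h ht hT, wR]
  linarith [le_abs_self (P (T + t) (fun w => ⟪D.T w v, v⟫) y - P T (fun w => ⟪D.T w v, v⟫) y)]

theorem R_see (h : GS D ff Γ Q C₁ L η κ) (ht : 0 < t) (hT : 0 < T) (y e : E) :
    eR D Q t T y - ⟪TR D Q t T y e, e⟫ =
      P T (fun w => See D.ε D.T e w - (D.sm t).Su Q e w) y := by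
  rw [inner_TR_rf h ht hT, ← P_sub (h.st.bm_inner e e) (bm_qf_rf h ht e) hT, eR,
    ← P_sub (bm_eS_rf h ht) ((h.st.bm_inner e e).sub (bm_qf_rf h ht e)) hT]
  congr 1
  funext w
  simp only [See, Dat.Su]
  ring

theorem R_beta (h : GS D ff Γ Q C₁ L η κ) (ht : 0 < t) (hT : 0 < T) (y : E) :
    2 * eR D Q t T y - tr (TR D Q t T y) = P T D.β y := by
  have h1 := P_sub (h.st.bm_ε.const_mul 2) h.st.bm_τ hT y
  rw [P_const_mul] at h1
  rw [eR_rf h ht hT, tr_TR_id_rf h ht hT]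
  have h2 : P T D.β y = 2 * P T D.ε y - P T D.τ y := h1
  linarith

theorem R_tr (h : GS D ff Γ Q C₁ L η κ) (ht : 0 < t) (hT : 0 < T) (y : E) :
    tr (TR D Q t T y) ≤ P T D.τ y := by
  rw [tr_TR_id_rf h ht hT]
  exact sub_le_self _ (P_nonneg hT.le (en_sm_nonneg D Q t) y)

theorem R_par (h : GS D ff Γ Q C₁ L η κ) (ht : 0 < t) (hT : 0 < T) (W : Submodule ℝ E) (y : E) :
    tr ((TR D Q t T y).comp (pa W)) ≤ P T (τpar W D.T) y := by
  rw [tr_TR_rf h ht hT]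
  refine sub_le_self _ (P_nonneg hT.le (fun w => tr_pa_nonneg W fun v => ?_) y)
  rw [inner_tn]
  exact Finset.sum_nonneg fun _ _ => Finset.sum_nonneg fun _ _ => sq_nonneg _

theorem R_pair (h : GS D ff Γ Q C₁ L η κ) (ht : 0 < t) (hT : 0 < T) (y : E) (A : E →L[ℝ] E) :
    pair (eR D Q t T y) (TR D Q t T y) A = pair (P T D.ε y) (PT T D.T y) A -
      P T (fun w => pair ((D.sm t).en Q w / 2) (tn D Q t w) A) y := by
  obtain ⟨B', hB'⟩ := tn_bdd_rf h ht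
  simp only [pair]
  rw [tr_TR_rf h ht hT, tr_PT_gen h.st.c_T h.st.norm_le_bas hT, eR_rf h ht hT,
    P_sub (((bm_en_sm h ht).div_const 2).mul_const _) (bm_tr_rf (continuous_tn h ht) hB' A) hT]
  simp only [div_eq_mul_inv, P_mul_const]
  ring

end Pool.Agent.Lib.MP_8daebb_an.PR
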