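import Pool.Agent.Lib.MP_8daebb_an.PR.Rf

/-! The defect stress tested with a field. -/

open MeasureTheory Metric Set Module Real Filter Topology
open scoped RealInnerProductSpace

namespace Pool.Agent.Lib.MP_8daebb_an.PR

open HK AS

variable {E : Type*} [NormedAddCommGroup E] [InnerProductSpace ℝ E] [FiniteDimensional ℝ E]
  [MeasurableSpace E] [BorelSpace E]

omit [FiniteDimensional ℝ E] [MeasurableSpace E] [BorelSpace E] in
theorem pair_sub_smo (a : ℝ) (S A A' : E →L[ℝ] E) :
    pair a S A - pair a S A' = pair a S (A - A') := by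
  simp only [pair, tr, ContinuousLinearMap.comp_sub, ContinuousLinearMap.toLinearMap_sub, map_sub]
  ring

theorem abs_pair_smo {a g : ℝ} {S : E →L[ℝ] E} (ha : |a| ≤ g) (hS : ‖S‖ ≤ g) (A : E →L[ℝ] E) :
    |pair a S A| ≤ 2 * finrank ℝ E * g * ‖A‖ := by
  have h1 := AS.abs_tr_le A
  have h2 := AS.abs_tr_le (S.comp A)
  have h3 := S.opNorm_comp_le A
  have hg : 0 ≤ g := (abs_nonneg _).trans ha
  have h4 : |a * tr A| ≤ g * (finrank ℝ E * ‖A‖) := by
    rw [abs_mul]; exact mul_le_mul ha h1 (abs_nonneg _) hg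
  have h5 : (finrank ℝ E : ℝ) * ‖S.comp A‖ ≤ finrank ℝ E * (g * ‖A‖) :=
    mul_le_mul_of_nonneg_left (h3.trans (mul_le_mul_of_nonneg_right hS (norm_nonneg _)))
      (Nat.cast_nonneg _)
  refine (abs_sub _ _).trans ?_
  linarith

theorem continuous_pair_smo {X : Type*} [TopologicalSpace X] {a : X → ℝ} {S A : X → E →L[ℝ] E}
    (ha : Continuous a) (hS : Continuous S) (hA : Continuous A) :
    Continuous fun x => pair (a x) (S x) (A x) :=
  (ha.mul (AS.continuous_tr.comp hA)).sub (AS.continuous_tr.comp (hS.clm_comp hA))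

theorem main_smo {a : E → ℝ} {S : E → E →L[ℝ] E} {g : E → ℝ}
    {A : E → E →L[ℝ] E} {B : Set E} {T K : ℝ} (ha : Continuous a) (hS : Continuous S) (hg : BM g)
    (hag : ∀ y, |a y| ≤ g y) (hSg : ∀ y, ‖S y‖ ≤ g y) (hB : MeasurableSet B)
    (hBb : Bornology.IsBounded B) (hA0 : ∀ y, y ∉ B → A y = 0)
    (hAK : ∀ y y', ‖A y - A y'‖ ≤ K * ‖y - y'‖) (hK : 0 ≤ K) (hT : 0 < T) :
    Integrable (fun y => P T (fun w => pair (a w) (S w) (A y)) y) ∧
    |(∫ y, P T (fun w => pair (a w) (S w) (A y)) y) - ∫ y, pair (a y) (S y) (A y)| ≤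
      2 * finrank ℝ E * (5 * 2 ^ hd E) * K * √T * ((∫ y in B, P (2 * T) g y) + ∫ y in B, g y) := by
  have hT2 : 0 < 2 * T := by positivity
  have g0 : ∀ y, 0 ≤ g y := fun y => (abs_nonneg _).trans (hag y)
  have cA : Continuous A := by
    refine (LipschitzWith.of_dist_le_mul (K := ⟨K, hK⟩) fun y y' => ?_).continuous
    rw [dist_eq_norm, dist_eq_norm]; exact hAK y y'
  obtain ⟨R, hR⟩ := hBb.exists_norm_le
  have ig : Integrable (B.indicator g) := (integrable_indicator_iff hB).2 (hg.integrableOn hBb)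
  have bi := hg.indicator hB
  have ch : Continuous fun w => pair (a w) (S w) (A w) := continuous_pair_smo ha hS cA
  have hh : ∀ w, |pair (a w) (S w) (A w)| ≤
      2 * finrank ℝ E * (‖A 0‖ + K * R) * B.indicator g w := by
    intro w
    by_cases hw : w ∈ B
    · rw [indicator_of_mem hw]
      have h1 := hAK w 0
      have h2 := norm_sub_norm_le (A w) (A 0)
      have h3 := mul_le_mul_of_nonneg_left (hR w hw) hK
      rw [sub_zero] at h1
      calc _ ≤ 2 * finrank ℝ E * g w * ‖A w‖ := abs_pair_smo (hag w) (hSg w) _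
        _ ≤ 2 * finrank ℝ E * g w * (‖A 0‖ + K * R) :=
          mul_le_mul_of_nonneg_left (by linarith) (by have := g0 w; positivity)
        _ = _ := by ring
    · rw [indicator_of_notMem hw, hA0 w hw]
      simp [pair, tr]
  have bh : BM fun w => pair (a w) (S w) (A w) := (bi.const_mul _).of_abs_le ch.measurable hh
  have ih : Integrable fun w => pair (a w) (S w) (A w) :=
    (ig.const_mul _).mono' ch.aestronglyMeasurable (.of_forall hh)
  have by' : ∀ y, BM fun w => pair (a w) (S w) (A y) := fun y =>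
    ((hg.const_mul (2 * finrank ℝ E)).mul_const ‖A y‖).of_abs_le
      (continuous_pair_smo ha hS continuous_const).measurable
      fun w => abs_pair_smo (hag w) (hSg w) _
  have mF : StronglyMeasurable fun y => P T (fun w => pair (a w) (S w) (A y)) y := by
    have : Continuous fun p : E × E => G T (p.2 - p.1) * pair (a p.2) (S p.2) (A p.1) :=
      ((continuous_G T).comp (continuous_snd.sub continuous_fst)).mul
        (continuous_pair_smo (ha.comp continuous_snd) (hS.comp continuous_snd)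
          (cA.comp continuous_fst))
    exact this.stronglyMeasurable.integral_prod_right'
  have iP := integrable_P ih hT
  have i1 : Integrable (B.indicator (P (2 * T) g)) :=
    (integrable_indicator_iff hB).2 ((hg.P hT2).integrableOn hBb)
  have i2 := integrable_P ig hT2
  have pt : ∀ y, |P T (fun w => pair (a w) (S w) (A y)) y -
      P T (fun w => pair (a w) (S w) (A w)) y| ≤ 2 * finrank ℝ E * (5 * 2 ^ hd E) * K * √T *
      (B.indicator (P (2 * T) g) y + P (2 * T) (B.indicator g) y) := by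
    intro y
    have e : B.indicator (P (2 * T) g) y + P (2 * T) (B.indicator g) y =
        P (2 * T) (fun w => B.indicator 1 y * g w + B.indicator g w) y := by
      rw [P_add (hg.const_mul _) bi hT2, P_const_mul]
      by_cases hy : y ∈ B <;> simp [hy]
    rw [← P_sub (by' y) bh hT, e]
    refine abs_integral_le_P ((hg.const_mul _).add bi) hT2 fun w => ?_
    have G0 := G_pos hT (w - y)
    have G2 := G_pos hT2 (w - y)
    have gw := g0 w
    beta_reduce
    rw [pair_sub_smo, abs_mul, abs_of_pos G0]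
    have h1 := abs_pair_smo (hag w) (hSg w) (A y - A w)
    have h2 := norm_mul_G_le hT (w - y)
    have h3 : g w * ‖A y - A w‖ ≤ K * ‖w - y‖ * (B.indicator 1 y * g w + B.indicator g w) := by
      have h4 := mul_le_mul_of_nonneg_left (hAK y w) gw
      rw [norm_sub_rev y w] at h4
      have h5 : 0 ≤ K * ‖w - y‖ * g w := by positivity
      by_cases hy : y ∈ B <;> by_cases hw : w ∈ B <;>
        simp only [hy, hw, indicator_of_mem, indicator_of_notMem, not_false_eq_true, Pi.one_apply]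
      · linarith
      · linarith
      · linarith
      · rw [hA0 y hy, hA0 w hw]; simp
    have h6 : 0 ≤ B.indicator 1 y * g w + B.indicator g w :=
      add_nonneg (mul_nonneg (indicator_nonneg (fun _ _ => zero_le_one) y) gw)
        (indicator_nonneg (fun w _ => g0 w) w)
    calc _ ≤ G T (w - y) * (2 * finrank ℝ E * g w * ‖A y - A w‖) :=
          mul_le_mul_of_nonneg_left h1 G0.le
      _ = G T (w - y) * (2 * finrank ℝ E) * (g w * ‖A y - A w‖) := by ring
      _ ≤ G T (w - y) * (2 * finrank ℝ E) *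
          (K * ‖w - y‖ * (B.indicator 1 y * g w + B.indicator g w)) :=
          mul_le_mul_of_nonneg_left h3 (by positivity)
      _ = ‖w - y‖ * G T (w - y) *
          (2 * finrank ℝ E * K * (B.indicator 1 y * g w + B.indicator g w)) := by ring
      _ ≤ 5 * 2 ^ hd E * √T * G (2 * T) (w - y) *
          (2 * finrank ℝ E * K * (B.indicator 1 y * g w + B.indicator g w)) :=
          mul_le_mul_of_nonneg_right h2 (by positivity)
      _ = _ := by ring
  have ib := (i1.add i2).const_mul (2 * finrank ℝ E * (5 * 2 ^ hd E) * K * √T)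
  have iD : Integrable fun y => P T (fun w => pair (a w) (S w) (A y)) y -
      P T (fun w => pair (a w) (S w) (A w)) y :=
    ib.mono' (mF.aestronglyMeasurable.sub iP.aestronglyMeasurable) (.of_forall pt)
  have iF : Integrable fun y => P T (fun w => pair (a w) (S w) (A y)) y :=
    (iD.add iP).congr (.of_forall fun y => by simp)
  refine ⟨iF, ?_⟩
  rw [← integral_P ih hT, ← integral_sub iF iP, ← integral_indicator hB, ← integral_indicator hB,
    ← integral_P ig hT2, ← integral_add i1 i2, ← integral_const_mul]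
  exact abs_integral_le_integral_abs.trans (integral_mono iD.abs ib pt)

variable (E) in
/-- Moving the heat average from a stress to the field. -/
theorem smooth_pair : ∃ C : ℝ, 0 < C ∧ ∀ (a : E → ℝ) (S : E → E →L[ℝ] E) (g : E → ℝ)
    (A : E → E →L[ℝ] E) (B : Set E) (T K : ℝ), Continuous a → Continuous S → BM g →
    (∀ y, |a y| ≤ g y) → (∀ y, ‖S y‖ ≤ g y) → MeasurableSet B → Bornology.IsBounded B →
    (∀ y, y ∉ B → A y = 0) → (∀ y y', ‖A y - A y'‖ ≤ K * ‖y - y'‖) → 0 ≤ K → 0 < T →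
    |(∫ y, P T (fun w => pair (a w) (S w) (A y)) y) - ∫ y, pair (a y) (S y) (A y)| ≤
      C * K * √T * ((∫ y in B, P (2 * T) g y) + ∫ y in B, g y) := by
  refine ⟨(2 * finrank ℝ E + 1) * (5 * 2 ^ hd E), by positivity, ?_⟩
  intro a S g A B T K ha hS hg hag hSg hB hBb hA0 hAK hK hT
  refine (main_smo ha hS hg hag hSg hB hBb hA0 hAK hK hT).2.trans ?_
  have g0 : ∀ y, 0 ≤ g y := fun y => (abs_nonneg _).trans (hag y)
  have h1 : 0 ≤ ∫ y in B, P (2 * T) g y :=
    integral_nonneg fun y => P_nonneg (by positivity) g0 y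
  have h2 : 0 ≤ ∫ y in B, g y := integral_nonneg g0
  gcongr
  linarith

variable (E) in
theorem smo (ι : Type*) [Fintype ι] (C₀ : ℝ) (hC₀ : 0 < C₀) : ∃ C L₀ : ℝ, 0 < C ∧ ∀ L, L₀ ≤ L →
    ∀ (D : Dat E ι) (ff Γ : E → ℝ) (Q : ℕ) (C₁ C₂ η κ t T l r σ a₁ a₂ : ℝ) (z x₁ : E)
    (W : Submodule ℝ E), CH D ff Γ Q C₁ C₂ L η κ t T l r σ a₁ a₂ z x₁ W →
    MF D Γ C₀ κ T l r σ a₁ a₂ z x₁ W → ∀ (Y : E → E) (K₁ K₂ : ℝ), ContDiff ℝ 1 Y →
    tsupport Y ⊆ ball z (2 * l) → (∀ y, ‖Y y‖ ≤ K₁) → (∀ y, ‖fderiv ℝ Y y‖ ≤ K₁) → 0 ≤ K₂ →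
    (∀ y y', ‖fderiv ℝ Y y - fderiv ℝ Y y'‖ ≤ K₂ * ‖y - y'‖) →
    ∫ y, pair (eR D Q t T y) (TR D Q t T y) (fderiv ℝ Y y) ≤
      -(∑ i, ∑ j ∈ Finset.range Q, ∫ y, sd ((D.sm t).u i j) Y y) +
        C * (K₁ * κ + K₂ * √T) * σ * pk E l := by
  obtain ⟨C, hC, hsm⟩ : ∃ C : ℝ, 0 < C ∧ 2 * finrank ℝ E * (5 * 2 ^ hd E) ≤ C :=
    ⟨2 * finrank ℝ E * (5 * 2 ^ hd E) + 1, by positivity, by linarith⟩
  have hom := om_pos (V := E)
  refine ⟨2 * (2 ^ finrank ℝ E * om E) + C * (2 * (C₀ * (1 + finrank ℝ E))), 1, by positivity, ?_⟩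
  intro L hL D ff Γ Q C₁ C₂ η κ t T l r σ a₁ a₂ z x₁ W h hm Y K₁ K₂ hY hsupp hY0 hY1 hK₂ hY2
  have gs := h.gs
  have st := gs.st
  have ht := h.t_pos
  have hκ := h.κ_pos
  have hts : 0 < ts L := exp_pos _
  have hT : 0 < T := by linarith [h.ts_le]
  have hl : 0 < l := h.r_pos.trans_le h.r_le
  have hkz : 0 < kz L := exp_pos _
  have hσ : 0 < σ := by
    have := hkz.trans_le h.kz_le
    exact (mul_pos_iff_of_pos_left hκ).1 this
  have he : Real.exp (-L) ≤ 1 / 2 := by
    have h1 := add_one_le_exp L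
    rw [exp_neg, inv_le_comm₀ (exp_pos _) (by norm_num)]
    linarith
  have hl2 : l ≤ 1 / 2 := h.l_le.trans he
  have hTl : T ≤ l ^ 2 := by
    have h1 : 1 ≤ L ^ 6 := one_le_pow₀ hL
    have h2 : r ^ 2 ≤ l ^ 2 := pow_le_pow_left₀ h.r_pos.le h.r_le 2
    nlinarith [h.Tr]
  have htT : t ≤ T := h.tT.trans (mul_le_of_le_one_left hT.le h.κ_le)
  have hTm : T ≤ tm L / 2 := by
    have := h.l_le
    unfold tm
    nlinarith
  have bar := st.bar hT hTm
  have hK₁ : 0 ≤ K₁ := (norm_nonneg _).trans (hY0 0)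
  have hpk : 0 < pk E l := by unfold pk; positivity
  have hlpk : l ^ finrank ℝ E ≤ pk E l := by
    unfold pk
    rw [le_div_iff₀ (by positivity)]
    exact mul_le_of_le_one_right (by positivity) (by nlinarith)
  have cA : Continuous (fderiv ℝ Y) := hY.continuous_fderiv one_ne_zero
  have A0 : ∀ y, y ∉ ball z (2 * l) → fderiv ℝ Y y = 0 := fun y hy => by
    by_contra hne
    exact hy (hsupp (support_fderiv_subset ℝ hne))
  have Y0 : ∀ y, y ∉ ball z (2 * l) → Y y = 0 := fun y hy =>
    image_eq_zero_of_notMem_tsupport fun hne => hy (hsupp hne)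
  have ben := bm_en_sm gs ht
  have en0 := en_sm_nonneg D Q t
  obtain ⟨iF, hF⟩ := main_smo (a := fun w => (D.sm t).en Q w / 2) (S := tn D Q t)
    (g := (D.sm t).en Q) (A := fderiv ℝ Y) (B := ball z (2 * l)) (T := T) (K := K₂)
    ((continuous_en_sm gs ht).div_const 2) (continuous_tn gs ht) ben
    (fun y => by have := en0 y; rw [abs_of_nonneg (by positivity)]; linarith)
    (norm_tn_le D Q t) measurableSet_ball isBounded_ball A0 hY2 hK₂ hT
  have bτ : BM D.τ := st.bm_τ
  have bΓ : BM Γ := ⟨gs.c_Γ.measurable, big L, fun y => by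
    rw [abs_of_nonneg (gs.Γ_nonneg y)]; exact gs.Γ_le y⟩
  have mass : ∀ s, 0 < s → s ≤ 4 * l ^ 2 → ∀ f : E → ℝ, BM f →
      (∀ y, f y ≤ P s D.τ y + finrank ℝ E * P s Γ y) →
      ∫ y in ball z (2 * l), f y ≤ C₀ * (1 + finrank ℝ E) * σ * pk E l := by
    intro s hs hs' f hf hle
    have j1 := (bτ.P hs).integrableOn (isBounded_ball (x := z) (r := 2 * l))
    have j2 : IntegrableOn (fun y => finrank ℝ E * P s Γ y) (ball z (2 * l)) :=
      ((bΓ.P hs).const_mul _).integrableOn isBounded_ball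
    have h1 := hm.m1 s hs (by nlinarith)
    have h2 := hm.m2 s hs hs'
    have h3 : C₀ * κ * σ * pk E l ≤ C₀ * 1 * σ * pk E l := by
      have := h.κ_le
      gcongr
    have h4 := mul_le_mul_of_nonneg_left (h2.trans h3) (Nat.cast_nonneg (α := ℝ) (finrank ℝ E))
    refine (integral_mono (hf.integrableOn isBounded_ball) (j1.add j2) hle).trans ?_
    rw [integral_add' j1 j2, integral_const_mul]
    linarith
  have m1 := mass t ht (by nlinarith) _ ben (en_sm_le gs ht)
  have hT2 : 0 < 2 * T := by positivity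
  have m2 := mass (2 * T + t) (by positivity) (by nlinarith) _ (ben.P hT2) fun y => by
    refine (P_mono ben ((bτ.P ht).add ((bΓ.P ht).const_mul _)) hT2 (en_sm_le gs ht) y).trans ?_
    rw [P_add (bτ.P ht) ((bΓ.P ht).const_mul _) hT2, P_const_mul, P_P bτ hT2 ht, P_P bΓ hT2 ht]
  have i1 : Integrable fun y => pair (P T D.ε y) (PT T D.T y) (fderiv ℝ Y y) := by
    refine (((bar.i_ε.abs.add bar.i_T.norm).const_mul (2 * finrank ℝ E)).mul_const K₁).mono'
      (continuous_pair_smo bar.c_ε bar.c_T cA).aestronglyMeasurable (.of_forall fun y => ?_)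
    refine (abs_pair_smo (g := |P T D.ε y| + ‖PT T D.T y‖)
      (le_add_of_nonneg_right (norm_nonneg _)) (le_add_of_nonneg_left (abs_nonneg _)) _).trans ?_
    exact mul_le_mul_of_nonneg_left (hY1 y) (by positivity)
  have s1 := (le_abs_self _).trans (bar.stat Y hY ⟨K₁, fun y => ⟨hY0 y, hY1 y⟩⟩)
  have s2 : ∫ y, P T ff y * (‖fderiv ℝ Y y‖ + ‖Y y‖) ≤
      2 * (2 ^ finrank ℝ E * om E) * (K₁ * κ) * σ * pk E l := by
    have j : Integrable ((ball z (2 * l)).indicator fun _ => kz L * (2 * K₁)) :=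
      (integrable_indicator_iff measurableSet_ball).2 ((BM.const _).integrableOn isBounded_ball)
    refine (integral_mono_of_nonneg (.of_forall fun y => ?_) j (.of_forall fun y => ?_)).trans ?_
    · exact mul_nonneg (bar.ff_nonneg y) (by positivity)
    · by_cases hy : y ∈ ball z (2 * l)
      · simp only [indicator_of_mem hy]
        have h1 : ‖y‖ ≤ 5 / 2 := by
          have h2 := mem_ball_iff_norm.1 hy
          have h3 := norm_sub_norm_le y z
          linarith [h.z_le]
        exact mul_le_mul (bar.ff_small y h1) (by linarith [hY0 y, hY1 y]) (by positivity) hkz.le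
      · simp [indicator_of_notMem hy, A0 y hy, Y0 y hy]
    · rw [integral_indicator measurableSet_ball, setIntegral_const,
        real_ball z (by positivity), smul_eq_mul, mul_pow]
      calc _ ≤ 2 ^ finrank ℝ E * pk E l * om E * (κ * σ * (2 * K₁)) := by
            have := h.kz_le
            gcongr
        _ = _ := by ring
  have isd : ∀ i j, Integrable (sd ((D.sm t).u i j) Y) := fun i j => by
    refine (continuous_sd (cb_sm_u gs ht i j 1).contDiff hY).integrable_of_hasCompactSupport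
      (HasCompactSupport.intro (isCompact_closedBall z (2 * l)) fun y hy => ?_)
    simp [sd, A0 y fun h' => hy (ball_subset_closedBall h'), tr]
  have e1 : ∫ y, pair ((D.sm t).en Q y / 2) (tn D Q t y) (fderiv ℝ Y y) =
      ∑ i, ∑ j ∈ Finset.range Q, ∫ y, sd ((D.sm t).u i j) Y y := by
    simp only [pair_tn]
    rw [integral_finsetSum _ fun i _ => integrable_finsetSum _ fun j _ => isd i j]
    exact Finset.sum_congr rfl fun i _ => integral_finsetSum _ fun j _ => isd i j
  simp only [R_pair gs ht hT]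
  rw [integral_sub i1 iF]
  rw [e1] at hF
  have f1 := (neg_le_abs _).trans hF
  have n1 : 0 ≤ ∫ y in ball z (2 * l), P (2 * T) ((D.sm t).en Q) y :=
    integral_nonneg fun y => P_nonneg hT2.le en0 y
  have n2 : 0 ≤ ∫ y in ball z (2 * l), (D.sm t).en Q y := integral_nonneg en0
  have f2 : 2 * finrank ℝ E * (5 * 2 ^ hd E) * K₂ * √T *
      ((∫ y in ball z (2 * l), P (2 * T) ((D.sm t).en Q) y) +
        ∫ y in ball z (2 * l), (D.sm t).en Q y) ≤
      C * K₂ * √T * (2 * (C₀ * (1 + finrank ℝ E) * σ * pk E l)) := by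
    gcongr
    linarith
  have p1 : 0 ≤ 2 * (2 ^ finrank ℝ E * om E) * (K₂ * √T) * σ * pk E l := by positivity
  have p2 : 0 ≤ C * (2 * (C₀ * (1 + finrank ℝ E))) * (K₁ * κ) * σ * pk E l := by positivity
  linarith

end Pool.Agent.Lib.MP_8daebb_an.PR
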