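import Pool.Agent.Lib.MP_8daebb_an.PR.JJ
import Pool.Agent.Lib.MP_8daebb_an.PR.ProjB

/-! The error term and the negative Sobolev bound. -/

open MeasureTheory Metric Set Module Real Filter Topology
open scoped RealInnerProductSpace

namespace Pool.Agent.Lib.MP_8daebb_an.PR

open HK AS

variable {E : Type*} [NormedAddCommGroup E] [InnerProductSpace ℝ E] [FiniteDimensional ℝ E]
  [MeasurableSpace E] [BorelSpace E]

variable {L : Submodule ℝ E} {V Γ χ : E → ℝ} {E0 E1 g1 AΓ t0 A T : ℝ}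

theorem g1_nonneg_topa (h : Top L V Γ E0 E1 g1 AΓ t0 A) : 0 ≤ g1 :=
  (integral_nonneg fun y => h.Γ0 y).trans h.g1_le

theorem gg_nonneg_topa (h : Top L V Γ E0 E1 g1 AΓ t0 A) : 0 ≤ gg g1 AΓ t0 := by
  have h1 : 0 ≤ Real.log (1 + 2 / t0) :=
    Real.log_nonneg (le_add_of_nonneg_right (div_nonneg zero_le_two h.t0_pos.le))
  exact mul_nonneg (mul_nonneg (g1_nonneg_topa h) h.AΓ0) (by linarith)

theorem cc_gam_topa (h : Top L V Γ E0 E1 g1 AΓ t0 A) (hχ : Cc 0 χ) : Cc 0 fun y => χ y * Γ y :=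
  hχ.mul (h.hΓ.of_le (Nat.zero_le 1)).contDiff

theorem gam_ph (h : Top L V Γ E0 E1 g1 AΓ t0 A) (hχ : Cc 0 χ) (h0 : ∀ y, 0 ≤ χ y)
    (h1 : ∀ y, χ y ≤ 1) (h3 : ∀ y, χ y ≠ 0 → ‖y‖ < 3) {s : ℝ} (hs : s ∈ Ioc (0 : ℝ) 2) :
    ph (fun y => χ y * Γ y) s ≤ g1 * AΓ / (s + t0) := by
  have hf := cc_gam_topa h hχ
  have hf0 : ∀ y, 0 ≤ χ y * Γ y := fun y => mul_nonneg (h0 y) (h.Γ0 y)
  have hfle : ∀ y, χ y * Γ y ≤ Γ y := fun y => mul_le_of_le_one_left (h.Γ0 y) (h1 y)
  have hc : 0 ≤ AΓ / (s + t0) := div_nonneg h.AΓ0 (add_pos hs.1 h.t0_pos).le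
  have k1 : ph (fun y => χ y * Γ y) s ≤ ∫ y, χ y * Γ y * (AΓ / (s + t0)) := by
    refine integral_mono ((hf.bm.P hs.1).integrable_mul hf.integrable)
      (hf.integrable.mul_const _) fun y => ?_
    by_cases hy : χ y = 0
    · simp [hy]
    · exact mul_le_mul_of_nonneg_left ((P_mono hf.bm h.hΓ.bm hs.1 hfle y).trans
        (h.gP s hs y (mem_ball_zero_iff.2 (h3 y hy)))) (hf0 y)
  have k2 : ∫ y, χ y * Γ y ≤ ∫ y in ball (0 : E) 3, Γ y := by
    rw [← integral_indicator measurableSet_ball]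
    refine integral_mono hf.integrable ((h.hΓ.bm.integrableOn isBounded_ball).integrable_indicator
      measurableSet_ball) fun y => ?_
    by_cases hy : χ y = 0
    · simp only [hy, zero_mul]
      exact indicator_nonneg (fun z _ => h.Γ0 z) y
    · rw [indicator_of_mem (mem_ball_zero_iff.2 (h3 y hy))]
      exact hfle y
  rw [integral_mul_const] at k1
  rw [mul_div_assoc]
  exact k1.trans (mul_le_mul_of_nonneg_right (k2.trans h.g1_le) hc)

theorem gam_int (h : Top L V Γ E0 E1 g1 AΓ t0 A) (hχ : Cc 0 χ) (h0 : ∀ y, 0 ≤ χ y)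
    (h1 : ∀ y, χ y ≤ 1) (h3 : ∀ y, χ y ≠ 0 → ‖y‖ < 3) (hT : 0 < T) (hT1 : T ≤ 1) :
    ∫ t in (0 : ℝ)..T, ph (fun y => χ y * Γ y) (2 * t) ≤ gg g1 AΓ t0 := by
  have hf := cc_gam_topa h hχ
  have ht0 := h.t0_pos
  have hg : 0 ≤ g1 * AΓ := mul_nonneg (g1_nonneg_topa h) h.AΓ0
  have hpos : ∀ t ∈ uIcc (0 : ℝ) T, 0 < 2 * t + t0 := fun t ht => by
    rw [uIcc_of_le hT.le] at ht
    linarith [ht.1]
  have hi : IntervalIntegrable (fun t => g1 * AΓ / (2 * t + t0)) volume 0 T :=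
    (continuousOn_const.div (by fun_prop) fun t ht => (hpos t ht).ne').intervalIntegrable
  have k1 : ∫ t in (0 : ℝ)..T, ph (fun y => χ y * Γ y) (2 * t) ≤
      ∫ t in (0 : ℝ)..T, g1 * AΓ / (2 * t + t0) :=
    intervalIntegral.integral_mono_on_of_le_Ioo hT.le (ii_ph_two hf le_rfl hT.le) hi fun t ht =>
      gam_ph h hχ h0 h1 h3 ⟨by linarith [ht.1], by linarith [ht.2]⟩
  have k2 : ∫ t in (0 : ℝ)..T, g1 * AΓ / (2 * t + t0) =
      g1 * AΓ / 2 * Real.log (2 * T + t0) - g1 * AΓ / 2 * Real.log (2 * 0 + t0) := by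
    refine intervalIntegral.integral_eq_sub_of_hasDerivAt
      (f := fun t => g1 * AΓ / 2 * Real.log (2 * t + t0)) (fun t ht => ?_) hi
    have d1 : HasDerivAt (fun t : ℝ => 2 * t + t0) (2 * 1) t :=
      ((hasDerivAt_id t).const_mul 2).add_const t0
    refine ((d1.log (hpos t ht).ne').const_mul (g1 * AΓ / 2)).congr_deriv ?_
    have := (hpos t ht).ne'
    field_simp
  have k3 : Real.log (2 * T + t0) - Real.log t0 ≤ Real.log (1 + 2 / t0) := by
    rw [← Real.log_div (by positivity) ht0.ne']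
    refine Real.log_le_log (by positivity) ?_
    rw [div_le_iff₀ ht0, add_mul, div_mul_cancel₀ _ ht0.ne']
    linarith
  have k4 : 0 ≤ Real.log (1 + 2 / t0) := Real.log_nonneg (le_add_of_nonneg_right (by positivity))
  have k5 := mul_le_mul_of_nonneg_left k3 hg
  have k6 := mul_nonneg hg k4
  rw [mul_zero, zero_add] at k2
  rw [gg]
  linarith

theorem gam_JJ (h : Top L V Γ E0 E1 g1 AΓ t0 A) (hχ : Cc 0 χ) (h0 : ∀ y, 0 ≤ χ y)
    (h1 : ∀ y, χ y ≤ 1) (h3 : ∀ y, χ y ≠ 0 → ‖y‖ < 3) (hT : 0 < T) (hT1 : T ≤ 1) :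
    JJ L T (fun y => χ y * Γ y) ≤ 2 * 2 ^ hd E * gg g1 AΓ t0 := by
  have hf := cc_gam_topa h hχ
  have k1 : JJ L T (fun y => χ y * Γ y) ≤
      ∫ t in (0 : ℝ)..T, 2 * 2 ^ hd E * ph (fun y => χ y * Γ y) (2 * t) :=
    intervalIntegral.integral_mono_on_of_le_Ioo hT.le (ii_jj hf hT.le)
      ((ii_ph_two hf le_rfl hT.le).const_mul _) fun t ht =>
        jj_le_ph hf (fun y => mul_nonneg (h0 y) (h.Γ0 y)) ht.1
  rw [intervalIntegral.integral_const_mul] at k1
  exact k1.trans (mul_le_mul_of_nonneg_left (gam_int h hχ h0 h1 h3 hT hT1) (by positivity))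

/-- A cutoff times a Laplacian is a divergence plus a function. -/
theorem mul_lap_eq {ι : Type*} [Fintype ι] (b : OrthonormalBasis ι ℝ E) (hχ : ContDiff ℝ 1 χ)
    (hV : ContDiff ℝ 2 V) (y : E) : χ y * lap V y =
      ∑ i, pd (b i) (fun y => χ y * pd (b i) V y) y - ∑ i, pd (b i) χ y * pd (b i) V y := by
  have hd : ∀ i, Differentiable ℝ (pd (b i) V) := fun i =>
    (contDiff_pd (n := 1) (by exact_mod_cast hV) (b i)).differentiable (by norm_num)
  rw [lap_eq_pd b hV, Finset.mul_sum, ← Finset.sum_sub_distrib]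
  refine Finset.sum_congr rfl fun i _ => ?_
  rw [pd_mul (hχ.differentiable (by norm_num)) (hd i)]
  ring

/-- The squares of products with a bounded weight supported in the ball. -/
theorem integral_sq_mul_le {w h : E → ℝ} {B : ℝ} (hw : ∀ y, |w y| ≤ B)
    (h3 : ∀ y, w y ≠ 0 → ‖y‖ < 3) {k : E → ℝ} (hc : Continuous w) (hh : Continuous h)
    (hk : Continuous k) (hle : ∀ y, |h y| ≤ k y) :
    ∫ y, (w y * h y) ^ 2 ≤ B ^ 2 * ∫ y in ball (0 : E) 3, k y ^ 2 := by
  have hi : IntegrableOn (fun y => B ^ 2 * k y ^ 2) (ball (0 : E) 3) :=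
    ((continuous_const.mul (hk.pow 2)).continuousOn.integrableOn_compact
      (isCompact_closedBall (0 : E) 3)).mono_set ball_subset_closedBall
  have _ := hc
  have _ := hh
  rw [← integral_const_mul, ← integral_indicator measurableSet_ball]
  refine integral_mono_of_nonneg (Eventually.of_forall fun y => sq_nonneg _)
    (hi.integrable_indicator measurableSet_ball) (Eventually.of_forall fun y => ?_)
  by_cases hy : w y = 0
  · simp only [hy, zero_mul]
    rw [zero_pow two_ne_zero]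
    exact indicator_nonneg (fun z _ => by positivity) y
  · beta_reduce
    rw [indicator_of_mem (mem_ball_zero_iff.2 (h3 y hy)), mul_pow, ← sq_abs (w y), ← sq_abs (h y)]
    exact mul_le_mul (pow_le_pow_left₀ (abs_nonneg _) (hw y) 2)
      (pow_le_pow_left₀ (abs_nonneg _) (hle y) 2) (by positivity) (sq_nonneg B)

variable (E) in
/-- Small times: `χ` and its derivatives are bounded by `B`. -/
theorem mul_lap_small : ∃ C : ℝ, 0 < C ∧ ∀ (V χ : E → ℝ) (B E0 t : ℝ), Cb 2 V → Cc 1 χ →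
    tsupport χ ⊆ ball (0 : E) 3 → (∀ y, |χ y| ≤ B) → (∀ y e, ‖e‖ ≤ 1 → |pd e χ y| ≤ B) →
    ∫ y in ball (0 : E) 3, ‖fderiv ℝ V y‖ ^ 2 ≤ E0 → 0 < t → t ≤ 1 →
    t * ph (fun y => χ y * lap V y) t ≤ C * B ^ 2 * E0 ∧
      ∫ s in (0 : ℝ)..t, ph (fun y => χ y * lap V y) (2 * s) ≤ C * B ^ 2 * E0 := by
  refine ⟨4 * (finrank ℝ E : ℝ) ^ 2 + 1, by positivity, ?_⟩
  intro V χ B E0 t hV hχ hs hB hB' hE ht ht1
  set b := stdOrthonormalBasis ℝ E with hb
  set m : ℝ := (finrank ℝ E : ℝ) with hm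
  have hm0 : 0 ≤ m := Nat.cast_nonneg _
  have hE0 : 0 ≤ E0 := (integral_nonneg fun y => sq_nonneg _).trans hE
  have hBE : 0 ≤ B ^ 2 * E0 := mul_nonneg (sq_nonneg B) hE0
  have hV1 : ∀ i, Cb 1 (pd (b i) V) := fun i => hV.pd (b i)
  have hF : ∀ i, Cc 1 fun y => χ y * pd (b i) V y := fun i => hχ.mul (hV1 i).contDiff
  have hG : ∀ i, Cc 0 fun y => pd (b i) χ y * pd (b i) V y := fun i =>
    (hχ.pd (b i)).mul ((hV1 i).of_le (Nat.zero_le 1)).contDiff
  have hk : Continuous fun y => ‖fderiv ℝ V y‖ :=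
    (hV.contDiff.continuous_fderiv (by norm_num)).norm
  have hle : ∀ i y, |pd (b i) V y| ≤ ‖fderiv ℝ V y‖ := fun i y => by
    have := abs_pd_le (b i) V y
    rwa [b.orthonormal.1 i, mul_one] at this
  have hF2 : ∀ i, ∫ y, (χ y * pd (b i) V y) ^ 2 ≤ B ^ 2 * E0 := fun i =>
    (integral_sq_mul_le hB (fun y hy => mem_ball_zero_iff.1 (hs (subset_tsupport χ hy)))
      hχ.continuous (hV1 i).continuous hk (hle i)).trans
      (mul_le_mul_of_nonneg_left hE (sq_nonneg B))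
  have hG2 : ∀ i, ∫ y, (pd (b i) χ y * pd (b i) V y) ^ 2 ≤ B ^ 2 * E0 := fun i =>
    (integral_sq_mul_le (fun y => hB' y (b i) (b.orthonormal.1 i).le)
      (fun y hy => mem_ball_zero_iff.1 (hs (support_fderiv_subset ℝ fun h0 =>
        hy (by rw [pd, h0]; rfl))))
      (hχ.pd (b i)).continuous (hV1 i).continuous hk (hle i)).trans
      (mul_le_mul_of_nonneg_left hE (sq_nonneg B))
  have hcard : ((Finset.univ : Finset (Fin (finrank ℝ E))).card : ℝ) = m := by simp [hm]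
  have hconst : ∀ c : ℝ, ∑ _i : Fin (finrank ℝ E), c = m * c := fun c => by
    rw [Finset.sum_const, nsmul_eq_mul, hcard]
  have e : (fun y => χ y * lap V y) = fun y =>
      ∑ i, pd (b i) (fun y => χ y * pd (b i) V y) y - ∑ i, pd (b i) χ y * pd (b i) V y :=
    funext (mul_lap_eq b (by exact_mod_cast hχ.cd) (by exact_mod_cast hV.contDiff))
  have key : ∀ s, 0 < s → ph (fun y => χ y * lap V y) s ≤
      2 * m * ∑ i, ph (pd (b i) fun y => χ y * pd (b i) V y) s + 2 * m ^ 2 * (B ^ 2 * E0) := by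
    intro s hs0
    have k1 := ph_sub_le (Cc.sum Finset.univ fun i _ => (hF i).pd (b i))
      (Cc.sum Finset.univ fun i _ => hG i) hs0
    have k2 := ph_sum_le Finset.univ (fun i _ => (hF i).pd (b i)) hs0
    have k3 := ph_sum_le Finset.univ (fun i _ => hG i) hs0
    have k4 : ∑ i, ph (fun y => pd (b i) χ y * pd (b i) V y) s ≤ m * (B ^ 2 * E0) := by
      rw [← hconst]
      exact Finset.sum_le_sum fun i _ => (ph_le (hG i) hs0).trans (hG2 i)
    have k5 := mul_le_mul_of_nonneg_left k4 hm0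
    rw [hcard] at k2 k3
    rw [e]
    linarith
  constructor
  · have k1 := mul_le_mul_of_nonneg_left (key t ht) ht.le
    have k2 : t * ∑ i, ph (pd (b i) fun y => χ y * pd (b i) V y) t ≤ m * (B ^ 2 * E0) := by
      rw [← hconst, Finset.mul_sum]
      exact Finset.sum_le_sum fun i _ => (mul_ph_pd_le b (hF i) ht i).trans (hF2 i)
    have k3 := mul_le_mul_of_nonneg_left k2 hm0
    have k4 := mul_le_mul_of_nonneg_right ht1 (mul_nonneg (sq_nonneg m) hBE)
    linarith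
  · have hii : ∀ i ∈ (Finset.univ : Finset (Fin (finrank ℝ E))), IntervalIntegrable
        (fun s => ph (pd (b i) fun y => χ y * pd (b i) V y) (2 * s)) volume 0 t := fun i _ =>
      ii_ph_two ((hF i).pd (b i)) le_rfl ht.le
    have hi1 : IntervalIntegrable
        (fun s => ∑ i, ph (pd (b i) fun y => χ y * pd (b i) V y) (2 * s)) volume 0 t := by
      have := IntervalIntegrable.sum Finset.univ hii
      rwa [Finset.sum_fn] at this
    have k1 : ∫ s in (0 : ℝ)..t, ph (fun y => χ y * lap V y) (2 * s) ≤ ∫ s in (0 : ℝ)..t,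
        (2 * m * ∑ i, ph (pd (b i) fun y => χ y * pd (b i) V y) (2 * s) +
          2 * m ^ 2 * (B ^ 2 * E0)) :=
      intervalIntegral.integral_mono_on_of_le_Ioo ht.le
        (ii_ph_two ((hχ.of_le (Nat.zero_le 1)).mul (Cb.lap (n := 0) hV).contDiff) le_rfl ht.le)
        ((hi1.const_mul _).add intervalIntegrable_const) fun s hs0 => key _ (by linarith [hs0.1])
    rw [intervalIntegral.integral_add (hi1.const_mul _) intervalIntegrable_const,
      intervalIntegral.integral_const_mul, intervalIntegral.integral_finsetSum hii,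
      intervalIntegral.integral_const, sub_zero, smul_eq_mul] at k1
    have k2 : ∑ i, ∫ s in (0 : ℝ)..t, ph (pd (b i) fun y => χ y * pd (b i) V y) (2 * s) ≤
        m * (B ^ 2 * E0) := by
      rw [← hconst]
      exact Finset.sum_le_sum fun i _ => (integral_ph_pd_two_le b (hF i) ht.le i).trans (hF2 i)
    have k3 := mul_le_mul_of_nonneg_left k2 hm0
    have k4 := mul_le_mul_of_nonneg_right ht1 (mul_nonneg (sq_nonneg m) hBE)
    linarith

variable (E) in
theorem chg_int : ∃ C : ℝ, 0 < C ∧ ∀ (L : Submodule ℝ E) (V Γ : E → ℝ)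
    (E0 E1 g1 AΓ t0 A T : ℝ), Top L V Γ E0 E1 g1 AΓ t0 A → 0 < T → T ≤ 1 →
    ∫ t in (0 : ℝ)..T, ph (fun y => zt L y * chg V Γ y) (2 * t) ≤ C * (E0 + gg g1 AΓ t0) := by
  obtain ⟨C, hC, H⟩ := mul_lap_small E
  obtain ⟨B, hB, HB⟩ := zt_bounds E
  refine ⟨2 * (C * B ^ 2) + 2, by positivity, ?_⟩
  intro L V Γ E0 E1 g1 AΓ t0 A T h hT hT1
  have hsupp : tsupport (zt L) ⊆ ball (0 : E) 3 := zc_tsupport L (by norm_num) (by norm_num)
  have z0 : ∀ y, 0 ≤ zt L y := zc_nonneg L _ _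
  have z1 : ∀ y, zt L y ≤ 1 := zc_le_one L _ _
  have hV2 : Cb 2 V := h.hV.of_le (by norm_num)
  have k1 := (H V (zt L) B E0 T hV2 (zt_cc L 1) hsupp
    (fun y => by rw [abs_of_nonneg (z0 y)]; exact (z1 y).trans hB)
    (fun y e he => (HB L y e e he he).1) h.e0 hT hT1).2
  have k2 := gam_int h (zt_cc L 0) z0 z1
    (fun y hy => mem_ball_zero_iff.1 (hsupp (subset_tsupport _ hy))) hT hT1
  have c1 : Cc 0 fun y => zt L y * lap V y := (zt_cc L 0).mul (Cb.lap (n := 0) hV2).contDiff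
  have c2 := cc_gam_topa h (zt_cc L 0)
  have e : (fun y => zt L y * chg V Γ y) = fun y => zt L y * lap V y + zt L y * Γ y :=
    funext fun y => mul_add _ _ _
  have i1 := (ii_ph_two c1 le_rfl hT.le).const_mul 2
  have i2 := (ii_ph_two c2 le_rfl hT.le).const_mul 2
  have k3 : ∫ t in (0 : ℝ)..T, ph (fun y => zt L y * lap V y + zt L y * Γ y) (2 * t) ≤
      ∫ t in (0 : ℝ)..T, (2 * ph (fun y => zt L y * lap V y) (2 * t) +
        2 * ph (fun y => zt L y * Γ y) (2 * t)) :=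
    intervalIntegral.integral_mono_on_of_le_Ioo hT.le (ii_ph_two (c1.add c2) le_rfl hT.le)
      (i1.add i2) fun t ht => ph_add_le c1 c2 (by linarith [ht.1])
  rw [intervalIntegral.integral_add i1 i2, intervalIntegral.integral_const_mul,
    intervalIntegral.integral_const_mul] at k3
  have hE0 : 0 ≤ E0 := (integral_nonneg fun y => sq_nonneg _).trans h.e0
  have hg := gg_nonneg_topa h
  have k4 : 0 ≤ C * B ^ 2 * gg g1 AΓ t0 := by positivity
  rw [e]
  linarith

end Pool.Agent.Lib.MP_8daebb_an.PR
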